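import Mathlib

set_option linter.unusedSectionVars false

namespace H47Inv

open Matrix

section basic

variable {F : Type*} [Field F] {ι : Type*} [Fintype ι] [DecidableEq ι]

/-- The elementary matrix `1 + v ⊗ φ`. -/
def Tm (v φ : ι → F) : Matrix ι ι F := 1 + vecMulVec v φ

/-- The matrix acting on the plane spanned by `v0`, `v1` (with dual functionals `φ0`, `φ1`)
as `v0 ↦ l v0 + v1`, `v1 ↦ v0`. -/
def Dm (l : F) (v0 v1 φ0 φ1 : ι → F) : Matrix ι ι F :=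
  1 + vecMulVec ((l - 1) • v0 + v1) φ0 + vecMulVec (v0 - v1) φ1

theorem vmv_mul (u v w x : ι → F) :
    vecMulVec u v * vecMulVec w x = (v ⬝ᵥ w) • vecMulVec u x := by
  rw [vecMulVec_mul_vecMulVec]
  ext i j
  simp [vecMulVec_apply]
  ring

theorem Tm_mul_right {v φ ψ : ι → F} (h : φ ⬝ᵥ v = 0) : Tm v φ * Tm v ψ = Tm v (φ + ψ) := by
  simp only [Tm, mul_add, add_mul, mul_one, one_mul, vmv_mul, h, zero_smul, vecMulVec_add]
  abel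

theorem Tm_mul_left {v w φ : ι → F} (h : φ ⬝ᵥ w = 0) : Tm v φ * Tm w φ = Tm (v + w) φ := by
  simp only [Tm, mul_add, add_mul, mul_one, one_mul, vmv_mul, h, zero_smul, add_vecMulVec]
  abel

theorem Tm_smul (a : F) (v φ : ι → F) : Tm v (a • φ) = Tm (a • v) φ := by
  simp [Tm, vecMulVec_smul, smul_vecMulVec]

theorem Tm_single (i j : ι) (c : F) :
    Tm (c • Pi.single i 1) (Pi.single j 1) = transvection i j c := by
  ext a b
  simp [Tm, transvection, vecMulVec_apply, Pi.single_apply, Matrix.single, one_apply]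
  rcases eq_or_ne a i with ha | ha <;> rcases eq_or_ne b j with hb | hb
  · simp [ha, hb]
  · simp [ha, hb, hb.symm]
  · simp [ha, hb, ha.symm]
  · simp [ha, hb, hb.symm]

theorem conj_Tm {g g' : Matrix ι ι F} (h : g * g' = 1) (v φ : ι → F) :
    g * Tm v φ * g' = Tm (g *ᵥ v) (φ ᵥ* g') := by
  simp only [Tm, mul_add, add_mul, mul_one, h, mul_vecMulVec, vecMulVec_mul]

theorem conj_Dm {g g' : Matrix ι ι F} (h : g * g' = 1) (l : F) (v0 v1 φ0 φ1 : ι → F) :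
    g * Dm l v0 v1 φ0 φ1 * g' = Dm l (g *ᵥ v0) (g *ᵥ v1) (φ0 ᵥ* g') (φ1 ᵥ* g') := by
  simp only [Dm, mul_add, add_mul, mul_one, h, mul_vecMulVec, vecMulVec_mul, mulVec_add,
    mulVec_smul, mulVec_sub]

end basic

section frames

variable {F : Type*} [Field F] {ι : Type*} [Fintype ι] [DecidableEq ι]
variable {l : F} {v0 v1 φ0 φ1 : ι → F}

theorem Dm_inv (h00 : φ0 ⬝ᵥ v0 = 1) (h01 : φ0 ⬝ᵥ v1 = 0) (h10 : φ1 ⬝ᵥ v0 = 0)
    (h11 : φ1 ⬝ᵥ v1 = 1) [CharP F 2] :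
    Dm l v0 v1 φ0 φ1 * Dm l v1 v0 φ1 φ0 = 1 := by
  have h2 : (2 : F) = 0 := CharTwo.two_eq_zero
  simp only [Dm, mul_add, add_mul, mul_one, one_mul, vmv_mul, dotProduct_add, dotProduct_sub,
    dotProduct_smul, h00, h01, h10, h11, smul_eq_mul]
  ext i j
  simp only [Matrix.add_apply, Matrix.smul_apply, vecMulVec_apply, Pi.add_apply, Pi.smul_apply, Pi.sub_apply,
    smul_eq_mul]
  linear_combination (l * v0 i * φ1 j) * h2

theorem Dm_mulVec_of_zero {z : ι → F} (h0 : φ0 ⬝ᵥ z = 0) (h1 : φ1 ⬝ᵥ z = 0) :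
    Dm l v0 v1 φ0 φ1 *ᵥ z = z := by
  simp [Dm, add_mulVec, vecMulVec_mulVec, h0, h1]

theorem vecMul_Dm_of_zero {z : ι → F} (h0 : z ⬝ᵥ v0 = 0) (h1 : z ⬝ᵥ v1 = 0) :
    z ᵥ* Dm l v0 v1 φ0 φ1 = z := by
  simp [Dm, vecMul_add, vecMul_vecMulVec, dotProduct_add, dotProduct_sub, h0, h1]

theorem Dm_mulVec0 (h00 : φ0 ⬝ᵥ v0 = 1) (h10 : φ1 ⬝ᵥ v0 = 0) :
    Dm l v0 v1 φ0 φ1 *ᵥ v0 = l • v0 + v1 := by
  simp [Dm, add_mulVec, vecMulVec_mulVec, h00, h10, sub_smul]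
  abel

theorem Dm_mulVec1 (h01 : φ0 ⬝ᵥ v1 = 0) (h11 : φ1 ⬝ᵥ v1 = 1) :
    Dm l v0 v1 φ0 φ1 *ᵥ v1 = v0 := by
  simp [Dm, add_mulVec, vecMulVec_mulVec, h01, h11]

theorem vecMul_Dm0 (h00 : φ0 ⬝ᵥ v0 = 1) (h01 : φ0 ⬝ᵥ v1 = 0) :
    φ0 ᵥ* Dm l v0 v1 φ0 φ1 = l • φ0 + φ1 := by
  simp only [Dm, vecMul_add, vecMul_vecMulVec, dotProduct_add, dotProduct_sub, dotProduct_smul,
    h00, h01, vecMul_one]
  ext i; simp; ring

theorem vecMul_Dm1 (h10 : φ1 ⬝ᵥ v0 = 0) (h11 : φ1 ⬝ᵥ v1 = 1) :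
    φ1 ᵥ* Dm l v0 v1 φ0 φ1 = φ0 := by
  simp only [Dm, vecMul_add, vecMul_vecMulVec, dotProduct_add, dotProduct_sub, dotProduct_smul,
    h10, h11, vecMul_one]
  ext i; simp

end frames

end H47Inv
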