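import Mathlib
import Pool.Agent.H.MP_0335f8_al.Basic

set_option linter.unusedSectionVars false

namespace H47Inv

open Matrix

section calc1

variable {F : Type*} [Field F] {ι : Type*} [Fintype ι] [DecidableEq ι]

/-- `M` contains the whole root group `1 + a v ⊗ φ`. -/
def R (M : Submonoid (Matrix ι ι F)) (v φ : ι → F) : Prop :=
  ∀ a : F, Tm (a • v) φ ∈ M

variable {M : Submonoid (Matrix ι ι F)} {v w φ ψ : ι → F}

theorem R.add_right (h : φ ⬝ᵥ v = 0) (h1 : R M v φ) (h2 : R M v ψ) : R M v (φ + ψ) := by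
  intro a
  rw [← Tm_mul_right (by simp [h])]
  exact M.mul_mem (h1 a) (h2 a)

theorem R.add_left (h : φ ⬝ᵥ w = 0) (h1 : R M v φ) (h2 : R M w φ) : R M (v + w) φ := by
  intro a
  rw [smul_add, ← Tm_mul_left (by simp [h])]
  exact M.mul_mem (h1 a) (h2 a)

theorem R.smul_left (c : F) (h1 : R M v φ) : R M (c • v) φ := by
  intro a
  rw [smul_smul]
  exact h1 _

theorem R.smul_right (c : F) (h1 : R M v φ) : R M v (c • φ) := by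
  intro a
  rw [Tm_smul, smul_smul]
  exact h1 _

theorem R.conj {g g' : Matrix ι ι F} (hg : g * g' = 1) (hM : ∀ x ∈ M, g * x * g' ∈ M)
    (h : R M v φ) : R M (g *ᵥ v) (φ ᵥ* g') := by
  intro a
  rw [← mulVec_smul, ← conj_Tm hg]
  exact hM _ (h a)

theorem comm_aux {A : Type*} [Ring A] (h2 : ∀ x : A, x + x = 0) {X Y : A} (hX : X * X = 0)
    (hY : Y * Y = 0) (hYX : Y * X = 0) : (1 + X) * (1 + Y) * (1 + X) * (1 + Y) = 1 + X * Y := by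
  have e : (1 + X) * (1 + Y) * (1 + X) * (1 + Y) = 1 + X * Y + ((X + Y + X * Y) + (X + Y + X * Y))
      + (X * X) + (X * X) * Y + Y * X + Y * Y + (Y * X) * Y + X * (Y * X) + X * (Y * Y)
      + X * (Y * X) * Y := by noncomm_ring
  rw [e, h2, hX, hY, hYX]
  simp

theorem two_mat [CharP F 2] (x : Matrix ι ι F) : x + x = 0 := by
  ext i j
  simp [CharTwo.add_self_eq_zero]

theorem R.comm [CharP F 2] (h1 : φ ⬝ᵥ v = 0) (h2 : ψ ⬝ᵥ w = 0) (h3 : ψ ⬝ᵥ v = 0)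
    (h4 : φ ⬝ᵥ w ≠ 0) (hv : R M v φ) (hw : R M w ψ) : R M v ψ := by
  intro a
  have key : Tm (((a / (φ ⬝ᵥ w)) : F) • v) φ * Tm w ψ * Tm (((a / (φ ⬝ᵥ w)) : F) • v) φ * Tm w ψ
      = Tm (a • v) ψ := by
    unfold Tm
    rw [comm_aux two_mat]
    · rw [vmv_mul, smul_vecMulVec, smul_vecMulVec, smul_smul]
      congr 2
      field_simp
    · simp [vmv_mul, h1]
    · simp [vmv_mul, h2]
    · simp [vmv_mul, h3]
  rw [← key]
  have hw1 : Tm w ψ ∈ M := by simpa using hw 1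
  exact M.mul_mem (M.mul_mem (M.mul_mem (hv _) hw1) (hv _)) hw1

end calc1

section W

variable {F : Type*} [Field F] {ι : Type*} [Fintype ι] [DecidableEq ι] [CharP F 2]
variable {M : Submonoid (Matrix ι ι F)} {v0 v1 v2 φ0 φ1 φ2 z ψ : ι → F} {l : F}

theorem W_right (hl : ∀ a : F, a ≠ 0 → ∃ k : ℕ, a = l ^ k)
    (hD : Dm l v0 v1 φ0 φ1 ∈ M) (hD' : Dm l v1 v0 φ1 φ0 ∈ M)
    (h00 : φ0 ⬝ᵥ v0 = 1) (h01 : φ0 ⬝ᵥ v1 = 0) (h10 : φ1 ⬝ᵥ v0 = 0) (h11 : φ1 ⬝ᵥ v1 = 1)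
    (hz0 : φ0 ⬝ᵥ z = 0) (hz1 : φ1 ⬝ᵥ z = 0) {c : F} (hc : c ≠ 0) (h : Tm (c • z) φ0 ∈ M) :
    R M z φ0 ∧ R M z φ1 := by
  have i1 : Dm l v0 v1 φ0 φ1 * Dm l v1 v0 φ1 φ0 = 1 := Dm_inv h00 h01 h10 h11
  have i2 : Dm l v1 v0 φ1 φ0 * Dm l v0 v1 φ0 φ1 = 1 := Dm_inv h11 h10 h01 h00
  have s1 : ∀ d : F, Tm (d • z) φ0 ∈ M → Tm (d • z) φ1 ∈ M := by
    intro d hd
    have := M.mul_mem (M.mul_mem hD hd) hD'
    rwa [conj_Tm i1, vecMul_Dm1 h01 h00, mulVec_smul, Dm_mulVec_of_zero hz0 hz1] at this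
  have s2 : ∀ d : F, Tm (d • z) φ0 ∈ M → Tm ((l * d) • z) φ0 ∈ M := by
    intro d hd
    have := M.mul_mem (M.mul_mem hD' hd) hD
    rw [conj_Tm i2, vecMul_Dm0 h00 h01, mulVec_smul, Dm_mulVec_of_zero hz1 hz0] at this
    have h3 := M.mul_mem this (s1 d hd)
    rw [Tm_mul_right] at h3
    · have e : l • φ0 + φ1 + φ1 = l • φ0 := by
        ext i; simp [add_assoc, CharTwo.add_self_eq_zero]
      rwa [e, Tm_smul, smul_smul] at h3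
    · simp [hz0, hz1]
  have s3 : ∀ k : ℕ, Tm ((l ^ k * c) • z) φ0 ∈ M := by
    intro k
    induction k with
    | zero => simpa using h
    | succ k ih =>
      have := s2 _ ih
      rwa [← mul_assoc, ← pow_succ'] at this
  have s4 : R M z φ0 := by
    intro a
    by_cases ha : a = 0
    · subst ha
      simp [Tm, M.one_mem]
    · obtain ⟨k, hk⟩ := hl (a / c) (div_ne_zero ha hc)
      have := s3 k
      rwa [← hk, div_mul_cancel₀ _ hc] at this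
  exact ⟨s4, fun a => s1 a (s4 a)⟩

theorem W_left (hl : ∀ a : F, a ≠ 0 → ∃ k : ℕ, a = l ^ k)
    (hD : Dm l v0 v1 φ0 φ1 ∈ M) (hD' : Dm l v1 v0 φ1 φ0 ∈ M)
    (h00 : φ0 ⬝ᵥ v0 = 1) (h01 : φ0 ⬝ᵥ v1 = 0) (h10 : φ1 ⬝ᵥ v0 = 0) (h11 : φ1 ⬝ᵥ v1 = 1)
    (hz0 : ψ ⬝ᵥ v0 = 0) (hz1 : ψ ⬝ᵥ v1 = 0) {c : F} (hc : c ≠ 0) (h : Tm (c • v0) ψ ∈ M) :
    R M v0 ψ ∧ R M v1 ψ := by
  have i1 : Dm l v0 v1 φ0 φ1 * Dm l v1 v0 φ1 φ0 = 1 := Dm_inv h00 h01 h10 h11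
  have i2 : Dm l v1 v0 φ1 φ0 * Dm l v0 v1 φ0 φ1 = 1 := Dm_inv h11 h10 h01 h00
  have s1 : ∀ d : F, Tm (d • v0) ψ ∈ M → Tm (d • v1) ψ ∈ M := by
    intro d hd
    have := M.mul_mem (M.mul_mem hD' hd) hD
    rwa [conj_Tm i2, mulVec_smul, Dm_mulVec1 h10 h00, vecMul_Dm_of_zero hz0 hz1] at this
  have s2 : ∀ d : F, Tm (d • v0) ψ ∈ M → Tm ((l * d) • v0) ψ ∈ M := by
    intro d hd
    have := M.mul_mem (M.mul_mem hD hd) hD'
    rw [conj_Tm i1, mulVec_smul, Dm_mulVec0 h00 h10, vecMul_Dm_of_zero hz1 hz0] at this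
    have h3 := M.mul_mem this (s1 d hd)
    rw [Tm_mul_left] at h3
    · have e : d • (l • v0 + v1) + d • v1 = (l * d) • v0 := by
        ext i
        simp only [Pi.add_apply, Pi.smul_apply, smul_eq_mul]
        linear_combination (d * v1 i) * (CharTwo.two_eq_zero : (2 : F) = 0)
      rwa [e] at h3
    · simp [hz1]
  have s3 : ∀ k : ℕ, Tm ((l ^ k * c) • v0) ψ ∈ M := by
    intro k
    induction k with
    | zero => simpa using h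
    | succ k ih =>
      have := s2 _ ih
      rwa [← mul_assoc, ← pow_succ'] at this
  have s4 : R M v0 ψ := by
    intro a
    by_cases ha : a = 0
    · subst ha
      simp [Tm, M.one_mem]
    · obtain ⟨k, hk⟩ := hl (a / c) (div_ne_zero ha hc)
      have := s3 k
      rwa [← hk, div_mul_cancel₀ _ hc] at this
  exact ⟨s4, fun a => s1 a (s4 a)⟩

theorem braid (h00 : φ0 ⬝ᵥ v0 = 1) (h01 : φ0 ⬝ᵥ v1 = 0) (h02 : φ0 ⬝ᵥ v2 = 0)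
    (h10 : φ1 ⬝ᵥ v0 = 0) (h11 : φ1 ⬝ᵥ v1 = 1) (h12 : φ1 ⬝ᵥ v2 = 0)
    (h20 : φ2 ⬝ᵥ v0 = 0) (h21 : φ2 ⬝ᵥ v1 = 0) (h22 : φ2 ⬝ᵥ v2 = 1) :
    Dm l v0 v1 φ0 φ1 * Dm l v1 v2 φ1 φ2 * Dm l v0 v1 φ0 φ1 =
      Tm ((l ^ 2) • v0) φ2 * (Dm l v1 v2 φ1 φ2 * Dm l v0 v1 φ0 φ1 * Dm l v1 v2 φ1 φ2) := by
  simp only [Dm, Tm, mul_add, add_mul, mul_one, one_mul, vmv_mul, dotProduct_add, dotProduct_sub,
    dotProduct_smul, h00, h01, h02, h10, h11, h12, h20, h21, h22, smul_eq_mul, smul_mul_assoc,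
    mul_smul_comm]
  ext i j
  simp only [Matrix.add_apply, Matrix.smul_apply, vecMulVec_apply, Pi.add_apply, Pi.smul_apply,
    Pi.sub_apply, smul_eq_mul]
  ring_nf

/-- `M` is closed under taking inverses. -/
def InvClosed (M : Submonoid (Matrix ι ι F)) : Prop :=
  ∀ x y : Matrix ι ι F, x ∈ M → x * y = 1 → y ∈ M

theorem T_aux (hinv : InvClosed M) (hl : ∀ a : F, a ≠ 0 → ∃ k : ℕ, a = l ^ k)
    (h00 : φ0 ⬝ᵥ v0 = 1) (h01 : φ0 ⬝ᵥ v1 = 0) (h02 : φ0 ⬝ᵥ v2 = 0)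
    (h10 : φ1 ⬝ᵥ v0 = 0) (h11 : φ1 ⬝ᵥ v1 = 1) (h12 : φ1 ⬝ᵥ v2 = 0)
    (h20 : φ2 ⬝ᵥ v0 = 0) (h21 : φ2 ⬝ᵥ v1 = 0) (h22 : φ2 ⬝ᵥ v2 = 1) (hl0 : l ≠ 0)
    (hA : Dm l v0 v1 φ0 φ1 ∈ M) (hB : Dm l v1 v2 φ1 φ2 ∈ M) :
    R M v0 φ2 ∧ R M v0 φ1 ∧ R M v1 φ2 := by
  have hA' : Dm l v1 v0 φ1 φ0 ∈ M := hinv _ _ hA (Dm_inv h00 h01 h10 h11)
  have hB' : Dm l v2 v1 φ2 φ1 ∈ M := hinv _ _ hB (Dm_inv h11 h12 h21 h22)
  have i1 : Dm l v1 v2 φ1 φ2 * Dm l v2 v1 φ2 φ1 = 1 := Dm_inv h11 h12 h21 h22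
  have i2 : Dm l v0 v1 φ0 φ1 * Dm l v1 v0 φ1 φ0 = 1 := Dm_inv h00 h01 h10 h11
  have key : Tm ((l ^ 2) • v0) φ2 ∈ M := by
    have e : Tm ((l ^ 2) • v0) φ2 = Dm l v0 v1 φ0 φ1 * Dm l v1 v2 φ1 φ2 * Dm l v0 v1 φ0 φ1 *
        (Dm l v2 v1 φ2 φ1 * Dm l v1 v0 φ1 φ0 * Dm l v2 v1 φ2 φ1) := by
      rw [braid h00 h01 h02 h10 h11 h12 h20 h21 h22]
      simp only [mul_assoc]
      rw [← mul_assoc (Dm l v1 v2 φ1 φ2) (Dm l v2 v1 φ2 φ1), i1, one_mul,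
        ← mul_assoc (Dm l v0 v1 φ0 φ1) (Dm l v1 v0 φ1 φ0), i2, one_mul, i1, mul_one]
    rw [e]
    exact M.mul_mem (M.mul_mem (M.mul_mem hA hB) hA) (M.mul_mem (M.mul_mem hB' hA') hB')
  have hc : l ^ 2 ≠ 0 := pow_ne_zero 2 hl0
  have w1 := W_right hl hB' hB h22 h21 h12 h11 h20 h10 hc key
  have w2 := W_left hl hA hA' h00 h01 h10 h11 h20 h21 hc key
  exact ⟨w1.1, w1.2, w2.2⟩

/-- Two overlapping planes give all the root groups of the three-dimensional space. -/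
theorem T_lemma (hinv : InvClosed M) (hl : ∀ a : F, a ≠ 0 → ∃ k : ℕ, a = l ^ k) (hl0 : l ≠ 0)
    (h00 : φ0 ⬝ᵥ v0 = 1) (h01 : φ0 ⬝ᵥ v1 = 0) (h02 : φ0 ⬝ᵥ v2 = 0)
    (h10 : φ1 ⬝ᵥ v0 = 0) (h11 : φ1 ⬝ᵥ v1 = 1) (h12 : φ1 ⬝ᵥ v2 = 0)
    (h20 : φ2 ⬝ᵥ v0 = 0) (h21 : φ2 ⬝ᵥ v1 = 0) (h22 : φ2 ⬝ᵥ v2 = 1)
    (hA : Dm l v0 v1 φ0 φ1 ∈ M) (hB : Dm l v1 v2 φ1 φ2 ∈ M) :
    (R M v0 φ2 ∧ R M v0 φ1 ∧ R M v1 φ2) ∧ (R M v2 φ0 ∧ R M v2 φ1 ∧ R M v1 φ0) := by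
  refine ⟨T_aux hinv hl h00 h01 h02 h10 h11 h12 h20 h21 h22 hl0 hA hB, ?_⟩
  exact T_aux hinv hl h22 h21 h20 h12 h11 h10 h02 h01 h00 hl0
    (hinv _ _ hB (Dm_inv h11 h12 h21 h22)) (hinv _ _ hA (Dm_inv h00 h01 h10 h11))

end W

section full

variable {F : Type*} [Field F] {ι : Type*} [Fintype ι] [DecidableEq ι]
variable {M : Submonoid (Matrix ι ι F)}

/-- unit vector -/
def e (F : Type*) [Field F] {ι : Type*} [DecidableEq ι] (x : ι) : ι → F := Pi.single x 1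

theorem e_dot_e (x y : ι) : e F x ⬝ᵥ e F y = if x = y then 1 else 0 := by
  simp [e, Pi.single_apply, eq_comm]

theorem e_dot (x : ι) (v : ι → F) : e F x ⬝ᵥ v = v x := by simp [e]

theorem dot_e (x : ι) (v : ι → F) : v ⬝ᵥ e F x = v x := by simp [e]

/-- All root groups on the coordinates in `S`. -/
def Full (M : Submonoid (Matrix ι ι F)) (S : Set ι) : Prop :=
  ∀ x ∈ S, ∀ y ∈ S, x ≠ y → R M (e F x) (e F y)

theorem R.comm_e [CharP F 2] {x y z : ι} (hxy : x ≠ y) (hyz : y ≠ z) (hxz : x ≠ z)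
    (h1 : R M (e F x) (e F y)) (h2 : R M (e F y) (e F z)) : R M (e F x) (e F z) := by
  refine R.comm ?_ ?_ ?_ ?_ h1 h2 <;> simp [e_dot_e, hxy.symm, hyz.symm, hxz.symm]

theorem Full.union [CharP F 2] {S T : Set ι} (hS : Full M S) (hT : Full M T) {z : ι} (hzS : z ∈ S)
    (hzT : z ∈ T) : Full M (S ∪ T) := by
  have key : ∀ A B : Set ι, Full M A → Full M B → z ∈ A → z ∈ B → ∀ x ∈ A, ∀ y ∈ B, x ≠ y →
      R M (e F x) (e F y) := by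
    intro A B hA hB hzA hzB x hx y hy hxy
    rcases eq_or_ne x z with rfl | hxz
    · exact hB _ hzB _ hy hxy
    · rcases eq_or_ne y z with rfl | hyz
      · exact hA _ hx _ hzA hxy
      · exact R.comm_e hxz hyz.symm hxy (hA _ hx _ hzA hxz) (hB _ hzB _ hy hyz.symm)
  rintro x (hx | hx) y (hy | hy) hxy
  · exact hS _ hx _ hy hxy
  · exact key S T hS hT hzS hzT x hx y hy hxy
  · exact key T S hT hS hzT hzS x hx y hy hxy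
  · exact hT _ hx _ hy hxy

theorem Full.mono {S T : Set ι} (h : S ⊆ T) (hT : Full M T) : Full M S :=
  fun x hx y hy => hT x (h hx) y (h hy)

/-- if `v` is supported on `S` and `R v y`, `y ∉ S`, then `R x y` for all `x ∈ S` -/
theorem Full.col [CharP F 2] {S : Set ι} (hS : Full M S) {y : ι} (hy : y ∉ S) {v : ι → F}
    (hv : ∀ x, x ∉ S → v x = 0) {x0 : ι} (hx0 : v x0 ≠ 0) {x1 : ι} (hx1 : x1 ∈ S)
    (h01 : x1 ≠ x0) (h : R M v (e F y)) : ∀ x ∈ S, R M (e F x) (e F y) := by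
  have hx0S : x0 ∈ S := by
    by_contra hc
    exact hx0 (hv _ hc)
  have hvy : v y = 0 := hv y hy
  have step : ∀ x ∈ S, x ≠ x0 → R M (e F x) (e F y) := by
    intro x hx hxx
    refine R.comm (φ := e F x0) (w := v) ?_ ?_ ?_ ?_ (hS x hx x0 hx0S hxx) h
    · simp [e_dot_e, hxx.symm]
    · simpa [e_dot] using hvy
    · have : y ≠ x := fun h => hy (h ▸ hx)
      simp [e_dot_e, this]
    · simpa [e_dot] using hx0
  intro x hx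
  rcases eq_or_ne x x0 with rfl | hxx
  · have hyx1 : x1 ≠ y := fun h => hy (h ▸ hx1)
    have hyx : x ≠ y := fun h => hy (h ▸ hx)
    exact R.comm_e h01.symm hyx1 hyx (hS x hx x1 hx1 h01.symm) (step x1 hx1 h01)
  · exact step x hx hxx

theorem Full.row [CharP F 2] {S : Set ι} (hS : Full M S) {y : ι} (hy : y ∉ S) {v : ι → F}
    (hv : ∀ x, x ∉ S → v x = 0) {x0 : ι} (hx0 : v x0 ≠ 0) {x1 : ι} (hx1 : x1 ∈ S)
    (h01 : x1 ≠ x0) (h : R M (e F y) v) : ∀ x ∈ S, R M (e F y) (e F x) := by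
  have hx0S : x0 ∈ S := by
    by_contra hc
    exact hx0 (hv _ hc)
  have hvy : v y = 0 := hv y hy
  have step : ∀ x ∈ S, x ≠ x0 → R M (e F y) (e F x) := by
    intro x hx hxx
    refine R.comm (φ := v) (w := e F x0) ?_ ?_ ?_ ?_ h (hS x0 hx0S x hx hxx.symm)
    · simpa [dot_e] using hvy
    · simp [e_dot_e, hxx]
    · have : x ≠ y := fun h => hy (h ▸ hx)
      simp [e_dot_e, this]
    · simpa [dot_e] using hx0
  intro x hx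
  rcases eq_or_ne x x0 with rfl | hxx
  · have hyx1 : y ≠ x1 := fun h => hy (h ▸ hx1)
    have hyx : y ≠ x := fun h => hy (h ▸ hx)
    exact R.comm_e hyx1 h01 hyx (step x1 hx1 h01) (hS x1 hx1 x hx h01)
  · exact step x hx hxx

theorem Full.insert [CharP F 2] {S : Set ι} (hS : Full M S) {y : ι}
    (h1 : ∀ x ∈ S, R M (e F x) (e F y)) (h2 : ∀ x ∈ S, R M (e F y) (e F x)) :
    Full M (insert y S) := by
  rintro a (rfl | ha) b (rfl | hb) hab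
  · exact absurd rfl hab
  · exact h2 b hb
  · exact h1 a ha
  · exact hS a ha b hb hab

end full

end H47Inv
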