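import Mathlib
import Pool.Agent.H.MP_0335f8_al.Calc

set_option linter.unusedSectionVars false

namespace H47Inv

open Matrix

section gadget

variable {F : Type*} [Field F] {ι : Type*} [Fintype ι] [DecidableEq ι]

/-- the plane matrix on the coordinates `i`, `j` -/
def De (l : F) (i j : ι) : Matrix ι ι F := Dm l (e F i) (e F j) (e F i) (e F j)

/-- conjugacy in the special linear group -/
def SConj (A B : Matrix ι ι F) : Prop :=
  ∃ g : Matrix ι ι F, g.det = 1 ∧ g * A = B * g

/-- `x` is the identity on the coordinates `i`, `j` -/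
structure Off (x : Matrix ι ι F) (i j : ι) : Prop where
  h1 : x *ᵥ e F i = e F i
  h2 : x *ᵥ e F j = e F j
  h3 : e F i ᵥ* x = e F i
  h4 : e F j ᵥ* x = e F j

/-- the local closure property -/
def LocalClosure (l : F) (α β π : Matrix ι ι F) (i j : ι) : Prop :=
  ∀ M : Submonoid (Matrix ι ι F), InvClosed M → De l i j ∈ M →
    (∀ x ∈ M, α * x * α ∈ M) → (∀ x ∈ M, β * x * β ∈ M) →
    (∀ x ∈ M, Off x i j → π * x * π ∈ M) → Full M Set.univ

/-- a gadget -/
structure IsGadget (l : F) (α β π : Matrix ι ι F) (i j : ι) : Prop where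
  hij : i ≠ j
  hk : ∃ k, k ≠ i ∧ k ≠ j
  hα : α * α = 1
  hβ : β * β = 1
  hπ : π * π = 1
  hαβ : α * β = β * α
  αi : α *ᵥ e F i = e F j
  αj : α *ᵥ e F j = e F i
  iα : e F i ᵥ* α = e F j
  jα : e F j ᵥ* α = e F i
  off : Off π i j
  nil : ∃ N : ℕ, (π * (De 0 i j * α)) ^ (2 ^ N) = 1
  c1 : SConj α β
  c2 : SConj α (α * β)
  c3 : SConj α (π * De 0 i j)
  LC : LocalClosure l α β π i j

theorem SConj.refl (A : Matrix ι ι F) : SConj A A := ⟨1, by simp, by simp⟩

theorem SConj.symm {A B : Matrix ι ι F} (h : SConj A B) : SConj B A := by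
  obtain ⟨g, hd, hg⟩ := h
  have hu : IsUnit g.det := by rw [hd]; exact isUnit_one
  have h1 : g⁻¹ * g = 1 := nonsing_inv_mul g hu
  have h2 : g * g⁻¹ = 1 := mul_nonsing_inv g hu
  refine ⟨g⁻¹, ?_, ?_⟩
  · have := congrArg det h1
    rwa [det_mul, hd, mul_one, det_one] at this
  · calc g⁻¹ * B = g⁻¹ * (B * g) * g⁻¹ := by rw [mul_assoc, mul_assoc B, h2, mul_one]
      _ = g⁻¹ * (g * A) * g⁻¹ := by rw [hg]
      _ = A * g⁻¹ := by rw [← mul_assoc g⁻¹, h1, one_mul]

theorem SConj.trans {A B C : Matrix ι ι F} (h : SConj A B) (h' : SConj B C) : SConj A C := by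
  obtain ⟨g, hd, hg⟩ := h
  obtain ⟨k, hk', hk⟩ := h'
  refine ⟨k * g, by rw [det_mul, hd, hk', mul_one], ?_⟩
  rw [mul_assoc, hg, ← mul_assoc, hk, mul_assoc]

theorem Dm_commute {l : F} {v0 v1 φ0 φ1 : ι → F} {x : Matrix ι ι F} (h0 : x *ᵥ v0 = v0)
    (h1 : x *ᵥ v1 = v1) (h2 : φ0 ᵥ* x = φ0) (h3 : φ1 ᵥ* x = φ1) :
    x * Dm l v0 v1 φ0 φ1 = Dm l v0 v1 φ0 φ1 * x := by
  simp only [Dm, mul_add, add_mul, mul_one, one_mul, mul_vecMulVec, vecMulVec_mul, mulVec_add,
    mulVec_smul, mulVec_sub, h0, h1, h2, h3]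

section char2
variable [CharP F 2]

theorem De_eq {l : F} {i j : ι} (hij : i ≠ j) :
    De l i j = transvection i j (l + 1) * transvection j i 1 * transvection i j (1 : F) := by
  have h2 : (2 : F) = 0 := CharTwo.two_eq_zero
  rw [← Tm_single, ← Tm_single, ← Tm_single]
  simp only [De, Dm, Tm, mul_add, add_mul, mul_one, one_mul, vmv_mul, e, one_smul, smul_vecMulVec,
    smul_mul_assoc, mul_smul_comm, single_dotProduct, Pi.single_apply, hij, hij.symm]
  ext a b
  simp only [Matrix.add_apply, Matrix.smul_apply, vecMulVec_apply, Pi.add_apply, Pi.smul_apply,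
    Pi.sub_apply, smul_eq_mul, if_true, if_false]
  generalize (Pi.single i (1 : F) : ι → F) a = p
  generalize (Pi.single i (1 : F) : ι → F) b = p'
  generalize (Pi.single j (1 : F) : ι → F) a = q
  generalize (Pi.single j (1 : F) : ι → F) b = q'
  linear_combination (-(l * p * q' + p * p' + p * q' + q * q')) * h2

theorem det_De {l : F} {i j : ι} (hij : i ≠ j) : (De l i j).det = 1 := by
  rw [De_eq hij, det_mul, det_mul, det_transvection_of_ne i j hij,
    det_transvection_of_ne j i hij.symm, det_transvection_of_ne i j hij]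
  simp

end char2

end gadget

end H47Inv
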