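import Mathlib
import Pool.Agent.H.MP_0335f8_al.Gad

set_option linter.unusedSectionVars false

namespace H47Inv

open Matrix

section ext

variable {F : Type*} [Field F] {ι : Type*} [Fintype ι] [DecidableEq ι]
variable {κ : Type*} [Fintype κ] [DecidableEq κ]

/-- block embedding -/
def hat (κ : Type*) [Fintype κ] [DecidableEq κ] : Matrix ι ι F →* Matrix (ι ⊕ κ) (ι ⊕ κ) F where
  toFun x := fromBlocks x 0 0 1
  map_one' := fromBlocks_one
  map_mul' x y := by simp [fromBlocks_multiply]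

theorem hat_apply (x : Matrix ι ι F) : hat κ x = fromBlocks x 0 0 1 := rfl

theorem e_inl (x : ι) : e F (Sum.inl x : ι ⊕ κ) = Sum.elim (e F x) 0 := by
  ext a
  rcases a with a | a <;> simp [e, Pi.single_apply]

theorem e_inr (x : κ) : e F (Sum.inr x : ι ⊕ κ) = Sum.elim (0 : ι → F) (e F x) := by
  ext a
  rcases a with a | a <;> simp [e, Pi.single_apply]

theorem blocks_mulVec (x : Matrix ι ι F) (y : Matrix κ κ F) (v : ι → F) (w : κ → F) :
    fromBlocks x 0 0 y *ᵥ Sum.elim v w = Sum.elim (x *ᵥ v) (y *ᵥ w) := by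
  ext a
  rcases a with a | a <;> simp [fromBlocks_mulVec]

theorem blocks_vecMul (x : Matrix ι ι F) (y : Matrix κ κ F) (v : ι → F) (w : κ → F) :
    Sum.elim v w ᵥ* fromBlocks x 0 0 y = Sum.elim (v ᵥ* x) (w ᵥ* y) := by
  ext a
  rcases a with a | a <;> simp [vecMul_fromBlocks]

theorem hat_Tm (v φ : ι → F) :
    hat κ (Tm v φ) = Tm (Sum.elim v 0) (Sum.elim φ 0) := by
  ext a b
  rcases a with a | a <;> rcases b with b | b <;>
    simp [hat_apply, Tm, vecMulVec_apply, one_apply]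

theorem hat_Dm (l : F) (v0 v1 φ0 φ1 : ι → F) :
    hat κ (Dm l v0 v1 φ0 φ1) =
      Dm l (Sum.elim v0 0) (Sum.elim v1 0) (Sum.elim φ0 0) (Sum.elim φ1 0) := by
  ext a b
  rcases a with a | a <;> rcases b with b | b <;>
    simp [hat_apply, Dm, vecMulVec_apply, one_apply]

theorem hat_De (l : F) (i j : ι) : hat κ (De l i j) = De l (Sum.inl i) (Sum.inl j) := by
  simp [De, hat_Dm, e_inl]

theorem De_comm' (l : F) {x : Matrix ι ι F} {i j : ι} (h : Off x i j) :
    x * De l i j = De l i j * x := Dm_commute h.h1 h.h2 h.h3 h.h4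

theorem R.conj' {M : Submonoid (Matrix ι ι F)} {v φ : ι → F} {g g' : Matrix ι ι F}
    (hg : g * g' = 1)
    (hM : ∀ a : F, Tm (a • v) φ ∈ M → g * Tm (a • v) φ * g' ∈ M)
    (h : R M v φ) : R M (g *ᵥ v) (φ ᵥ* g') := by
  intro a
  rw [← mulVec_smul, ← conj_Tm hg]
  exact hM _ (h a)

theorem Off_Tm {v φ : ι → F} {i j : ι} (h1 : v i = 0) (h2 : v j = 0) (h3 : φ i = 0)
    (h4 : φ j = 0) : Off (Tm v φ) i j := by
  constructor <;> simp [Tm, add_mulVec, vecMul_add, vecMulVec_mulVec, vecMul_vecMulVec, e_dot,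
    dot_e, h1, h2, h3, h4]

theorem Off_Dm {l : F} {v0 v1 φ0 φ1 : ι → F} {i j : ι} (h1 : v0 i = 0) (h2 : v0 j = 0)
    (h3 : v1 i = 0) (h4 : v1 j = 0) (h5 : φ0 i = 0) (h6 : φ0 j = 0) (h7 : φ1 i = 0)
    (h8 : φ1 j = 0) : Off (Dm l v0 v1 φ0 φ1) i j := by
  constructor <;> simp [Dm, add_mulVec, vecMul_add, vecMulVec_mulVec, vecMul_vecMulVec, e_dot,
    dot_e, h1, h2, h3, h4, h5, h6, h7, h8]

variable [CharP F 2]

theorem De_sq {i j : ι} (hij : i ≠ j) : De (0 : F) i j * De 0 i j = 1 := by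
  have h := Dm_inv (l := (0 : F)) (v0 := e F i) (v1 := e F j) (φ0 := e F i) (φ1 := e F j)
    (by simp [e_dot_e]) (by simp [e_dot_e, hij]) (by simp [e_dot_e, hij.symm])
    (by simp [e_dot_e])
  have h' : Dm (0 : F) (e F j) (e F i) (e F j) (e F i) = De 0 i j := by
    have h2 : (2 : F) = 0 := CharTwo.two_eq_zero
    ext a b
    simp only [De, Dm, Matrix.add_apply, vecMulVec_apply, Pi.add_apply, Pi.smul_apply,
      Pi.sub_apply, smul_eq_mul]
    ring
  rw [h'] at h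
  exact h

theorem De_mulVec {l : F} {x y : ι} (v : ι → F) :
    De l x y *ᵥ v = v + (v x) • ((l - 1) • e F x + e F y) + (v y) • (e F x - e F y) := by
  simp only [De, Dm, add_mulVec, vecMulVec_mulVec, one_mulVec, e_dot]
  ext a
  simp

theorem vecMul_De {l : F} {x y : ι} (v : ι → F) :
    v ᵥ* De l x y = v + ((l - 1) * v x + v y) • e F x + (v x - v y) • e F y := by
  simp only [De, Dm, vecMul_add, vecMul_vecMulVec, vecMul_one, dotProduct_add, dotProduct_sub,
    dotProduct_smul, dot_e, smul_eq_mul]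

theorem e_apply (x y : ι) : e F x y = if y = x then 1 else 0 := by
  simp [e, Pi.single_apply]

theorem De0_e {x y : ι} (hxy : x ≠ y) (z : ι) :
    De (0 : F) x y *ᵥ e F z = e F (Equiv.swap x y z) := by
  rw [De_mulVec]
  rcases eq_or_ne z x with rfl | hzx
  · simp [e_apply, hxy, hxy.symm]
  · rcases eq_or_ne z y with rfl | hzy
    · simp [e_apply, hxy, hxy.symm]
    · simp [e_apply, hzx.symm, hzy.symm, Equiv.swap_apply_of_ne_of_ne hzx hzy]

theorem e_De0 {x y : ι} (hxy : x ≠ y) (z : ι) :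
    e F z ᵥ* De (0 : F) x y = e F (Equiv.swap x y z) := by
  rw [vecMul_De]
  rcases eq_or_ne z x with rfl | hzx
  · simp [e_apply, hxy, hxy.symm]
  · rcases eq_or_ne z y with rfl | hzy
    · simp [e_apply, hxy, hxy.symm]
    · simp [e_apply, hzx.symm, hzy.symm, Equiv.swap_apply_of_ne_of_ne hzx hzy]

theorem swap_De {l : F} {a b : ι} (hab : a ≠ b) (x y : ι) :
    De 0 a b * De l x y = De l (Equiv.swap a b x) (Equiv.swap a b y) * De 0 a b := by
  have h : De 0 a b * De l x y * De 0 a b = De l (Equiv.swap a b x) (Equiv.swap a b y) := by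
    rw [show De l x y = Dm l (e F x) (e F y) (e F x) (e F y) from rfl, conj_Dm (De_sq hab),
      De0_e hab, De0_e hab, e_De0 hab, e_De0 hab]
    rfl
  rw [← h, mul_assoc _ (De 0 a b) (De 0 a b), De_sq hab, mul_one]

theorem Off_De {l : F} {a b x y : ι} (h1 : a ≠ x) (h2 : a ≠ y) (h3 : b ≠ x) (h4 : b ≠ y) :
    Off (De l a b) x y := by
  refine Off_Dm ?_ ?_ ?_ ?_ ?_ ?_ ?_ ?_ <;> simp [e_apply, h1.symm, h2.symm, h3.symm, h4.symm]

theorem Off.mul {x y : Matrix ι ι F} {i j : ι} (hx : Off x i j) (hy : Off y i j) :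
    Off (x * y) i j := by
  constructor
  · rw [← mulVec_mulVec, hy.h1, hx.h1]
  · rw [← mulVec_mulVec, hy.h2, hx.h2]
  · rw [← vecMul_vecMul, hx.h3, hy.h3]
  · rw [← vecMul_vecMul, hx.h4, hy.h4]

theorem Off_hat {x : Matrix ι ι F} {i j : ι} (hx : Off x i j) :
    Off (hat κ x) (Sum.inl i) (Sum.inl j) := by
  constructor
  · rw [hat_apply, e_inl, blocks_mulVec, hx.h1, mulVec_zero]
  · rw [hat_apply, e_inl, blocks_mulVec, hx.h2, mulVec_zero]
  · rw [hat_apply, e_inl, blocks_vecMul, hx.h3, zero_vecMul]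
  · rw [hat_apply, e_inl, blocks_vecMul, hx.h4, zero_vecMul]

theorem hat_e_inr (x : Matrix ι ι F) (k : κ) : hat κ x *ᵥ e F (Sum.inr k) = e F (Sum.inr k) := by
  rw [hat_apply, e_inr, blocks_mulVec, mulVec_zero, one_mulVec]

theorem e_inr_hat (x : Matrix ι ι F) (k : κ) : e F (Sum.inr k) ᵥ* hat κ x = e F (Sum.inr k) := by
  rw [hat_apply, e_inr, blocks_vecMul, zero_vecMul, vecMul_one]

theorem Off_hat_inr (x : Matrix ι ι F) (k m : κ) :
    Off (hat κ x) (Sum.inr k) (Sum.inr m) :=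
  ⟨hat_e_inr x k, hat_e_inr x m, e_inr_hat x k, e_inr_hat x m⟩

theorem Off_hat_mix {x : Matrix ι ι F} {i j : ι} (hx : Off x i j) (k : κ) :
    Off (hat κ x) (Sum.inl i) (Sum.inr k) :=
  ⟨(Off_hat hx).h1, hat_e_inr x k, (Off_hat hx).h3, e_inr_hat x k⟩

theorem Off_hat_mix' {x : Matrix ι ι F} {i j : ι} (hx : Off x i j) (k : κ) :
    Off (hat κ x) (Sum.inl j) (Sum.inr k) :=
  ⟨(Off_hat hx).h2, hat_e_inr x k, (Off_hat hx).h4, e_inr_hat x k⟩

end ext

end H47Inv
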