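import Mathlib
import Pool.Agent.H.MP_0335f8_al.Ext

set_option linter.unusedSectionVars false

namespace H47Inv

open Matrix

section ext2

variable {F : Type*} [Field F] {ι : Type*} [Fintype ι] [DecidableEq ι] [CharP F 2]

/-- `(0 1)(2 3)` -/
def A4 (F : Type*) [Field F] : Matrix (Fin 4) (Fin 4) F := De 0 0 1 * De 0 2 3

/-- `(0 2)(1 3)` -/
def B4 (F : Type*) [Field F] : Matrix (Fin 4) (Fin 4) F := De 0 0 2 * De 0 1 3

/-- the new first involution -/
def alE (α : Matrix ι ι F) : Matrix (ι ⊕ Fin 4) (ι ⊕ Fin 4) F := fromBlocks α 0 0 (A4 F)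

/-- the new second involution -/
def beE (β : Matrix ι ι F) : Matrix (ι ⊕ Fin 4) (ι ⊕ Fin 4) F := fromBlocks β 0 0 (B4 F)

/-- the new link involution -/
def piE (π : Matrix ι ι F) (i j : ι) : Matrix (ι ⊕ Fin 4) (ι ⊕ Fin 4) F :=
  hat (Fin 4) π * (De 0 (Sum.inl i) (Sum.inr 0) * De 0 (Sum.inl j) (Sum.inr 1))

theorem fin4_ext {A B : Matrix (Fin 4) (Fin 4) F} (h : ∀ z, A *ᵥ e F z = B *ᵥ e F z) : A = B := by
  ext a z
  have := congrFun (h z) a
  simpa [e] using this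

theorem A4_e (z : Fin 4) : A4 F *ᵥ e F z = e F (Equiv.swap 0 1 (Equiv.swap 2 3 z)) := by
  rw [A4, ← mulVec_mulVec, De0_e (by decide), De0_e (by decide)]

theorem B4_e (z : Fin 4) : B4 F *ᵥ e F z = e F (Equiv.swap 0 2 (Equiv.swap 1 3 z)) := by
  rw [B4, ← mulVec_mulVec, De0_e (by decide), De0_e (by decide)]

theorem e_A4 (z : Fin 4) : e F z ᵥ* A4 F = e F (Equiv.swap 2 3 (Equiv.swap 0 1 z)) := by
  rw [A4, ← vecMul_vecMul, e_De0 (by decide), e_De0 (by decide)]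

theorem e_B4 (z : Fin 4) : e F z ᵥ* B4 F = e F (Equiv.swap 1 3 (Equiv.swap 0 2 z)) := by
  rw [B4, ← vecMul_vecMul, e_De0 (by decide), e_De0 (by decide)]

theorem A4_sq : A4 F * A4 F = 1 := by
  apply fin4_ext
  intro z
  rw [← mulVec_mulVec, A4_e, A4_e, one_mulVec]
  congr 1
  revert z
  decide

theorem B4_sq : B4 F * B4 F = 1 := by
  apply fin4_ext
  intro z
  rw [← mulVec_mulVec, B4_e, B4_e, one_mulVec]
  congr 1
  revert z
  decide

theorem AB4 : A4 F * B4 F = B4 F * A4 F := by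
  apply fin4_ext
  intro z
  rw [← mulVec_mulVec, ← mulVec_mulVec, B4_e, A4_e, A4_e, B4_e]
  congr 1
  revert z
  decide

theorem conjAB : De 0 1 2 * A4 F = B4 F * De 0 1 2 := by
  apply fin4_ext
  intro z
  rw [← mulVec_mulVec, ← mulVec_mulVec, A4_e, De0_e (by decide), De0_e (by decide), B4_e]
  congr 1
  revert z
  decide

theorem conjAC : De 0 1 3 * A4 F = A4 F * B4 F * De 0 1 3 := by
  apply fin4_ext
  intro z
  rw [← mulVec_mulVec, ← mulVec_mulVec, ← mulVec_mulVec, A4_e, De0_e (by decide),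
    De0_e (by decide), B4_e, A4_e]
  congr 1
  revert z
  decide

theorem blocks_mul (a b : Matrix ι ι F) (c d : Matrix (Fin 4) (Fin 4) F) :
    fromBlocks a 0 0 c * fromBlocks b 0 0 d = fromBlocks (a * b) 0 0 (c * d) := by
  simp [fromBlocks_multiply]

theorem blocks_one : (fromBlocks 1 0 0 1 : Matrix (ι ⊕ Fin 4) (ι ⊕ Fin 4) F) = 1 :=
  fromBlocks_one

theorem SConj_blocks {a b : Matrix ι ι F} {c d p : Matrix (Fin 4) (Fin 4) F}
    (h : SConj a b) (hp : p.det = 1) (hc : p * c = d * p) :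
    SConj (fromBlocks a 0 0 c) (fromBlocks b 0 0 d) := by
  obtain ⟨g, hg, h⟩ := h
  refine ⟨fromBlocks g 0 0 p, ?_, ?_⟩
  · rw [det_fromBlocks_zero₂₁, hg, hp, one_mul]
  · rw [blocks_mul, blocks_mul, h, hc]

theorem De_inr (l : F) (x y : Fin 4) :
    (De l (Sum.inr x) (Sum.inr y) : Matrix (ι ⊕ Fin 4) (ι ⊕ Fin 4) F) =
      fromBlocks 1 0 0 (De l x y) := by
  ext a b
  rcases a with a | a <;> rcases b with b | b <;>
    simp [De, Dm, vecMulVec_apply, one_apply, e, Pi.single_apply]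

variable {l : F} {α β π : Matrix ι ι F} {i j : ι}

theorem piE_sq (hij : i ≠ j) (hπ : π * π = 1) (ho : Off π i j) : piE π i j * piE π i j = 1 := by
  have hn1 : (Sum.inl i : ι ⊕ Fin 4) ≠ Sum.inr 0 := by simp
  have hn2 : (Sum.inl j : ι ⊕ Fin 4) ≠ Sum.inr 1 := by simp
  have c1 := De_comm' 0 (Off_hat_mix (κ := Fin 4) ho 0)
  have c2 := De_comm' 0 (Off_hat_mix' (κ := Fin 4) ho 1)
  have o12 : Off (De (0 : F) (Sum.inl i : ι ⊕ Fin 4) (Sum.inr 0)) (Sum.inl j) (Sum.inr 1) :=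
    Off_De (by simpa using hij) (by simp) (by simp) (by simp)
  have c3 := De_comm' 0 o12
  have s1 := De_sq hn1 (F := F)
  have s2 := De_sq hn2 (F := F)
  unfold piE
  set P := hat (Fin 4) π with hP
  set S1 := De (0 : F) (Sum.inl i : ι ⊕ Fin 4) (Sum.inr 0)
  set S2 := De (0 : F) (Sum.inl j : ι ⊕ Fin 4) (Sum.inr 1)
  have hPP : P * P = 1 := by rw [hP, ← map_mul, hπ, map_one]
  calc P * (S1 * S2) * (P * (S1 * S2)) = P * (S1 * (S2 * P)) * (S1 * S2) := by
        simp only [mul_assoc]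
    _ = P * (S1 * (P * S2)) * (S1 * S2) := by rw [c2]
    _ = P * ((S1 * P) * S2) * (S1 * S2) := by simp only [mul_assoc]
    _ = P * ((P * S1) * S2) * (S1 * S2) := by rw [c1]
    _ = (P * P) * (S1 * S2 * (S1 * S2)) := by simp only [mul_assoc]
    _ = S1 * S2 * (S1 * S2) := by rw [hPP, one_mul]
    _ = S1 * S2 * (S2 * S1) := by rw [c3]
    _ = 1 := by rw [mul_assoc, ← mul_assoc S2, s2, one_mul, s1]

end ext2

end H47Inv
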