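import Mathlib
import Pool.Agent.H.MP_0335f8_al.Ext2

set_option linter.unusedSectionVars false

namespace H47Inv

open Matrix

section ext3

variable {F : Type*} [Field F] {ι : Type*} [Fintype ι] [DecidableEq ι] [CharP F 2]
variable {l : F} {α β π : Matrix ι ι F} {i j : ι}

theorem IsGadget.offA (h : IsGadget l α β π i j) : Off (De 0 i j * α) i j := by
  have hij := h.hij
  constructor
  · rw [← mulVec_mulVec, h.αi, De0_e hij, Equiv.swap_apply_right]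
  · rw [← mulVec_mulVec, h.αj, De0_e hij, Equiv.swap_apply_left]
  · rw [← vecMul_vecMul, e_De0 hij, Equiv.swap_apply_left, h.jα]
  · rw [← vecMul_vecMul, e_De0 hij, Equiv.swap_apply_right, h.iα]

theorem A4_split : A4 F = De 0 0 1 * De 0 2 3 := rfl

theorem nilE (h : IsGadget l α β π i j) :
    ∃ N : ℕ, (piE π i j * (De 0 (Sum.inr 2) (Sum.inr 3) * alE α)) ^ (2 ^ N) = 1 := by
  obtain ⟨N, hN⟩ := h.nil
  have hij := h.hij
  have ho := h.off
  have hoA := h.offA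
  have hn1 : (Sum.inl i : ι ⊕ Fin 4) ≠ Sum.inr 0 := by simp
  have hn2 : (Sum.inl j : ι ⊕ Fin 4) ≠ Sum.inr 1 := by simp
  have hn3 : (Sum.inl i : ι ⊕ Fin 4) ≠ Sum.inl j := by simpa using hij
  have hn4 : (Sum.inr 0 : ι ⊕ Fin 4) ≠ Sum.inr 1 := by simp
  set P := hat (Fin 4) π with hP
  set Q := hat (Fin 4) (De 0 i j * α) with hQ
  set S1 := De (0 : F) (Sum.inl i : ι ⊕ Fin 4) (Sum.inr 0) with hS1
  set S2 := De (0 : F) (Sum.inl j : ι ⊕ Fin 4) (Sum.inr 1) with hS2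
  set S3 := De (0 : F) (Sum.inl i : ι ⊕ Fin 4) (Sum.inl j) with hS3
  set S4 := De (0 : F) (Sum.inr 0 : ι ⊕ Fin 4) (Sum.inr 1) with hS4
  have s1 : S1 * S1 = 1 := De_sq hn1
  have s2 : S2 * S2 = 1 := De_sq hn2
  have s3 : S3 * S3 = 1 := De_sq hn3
  have s4 : S4 * S4 = 1 := De_sq hn4
  have o12 : Off S1 (Sum.inl j) (Sum.inr 1) :=
    Off_De (by simpa using hij) (by simp) (by simp) (by simp)
  have c12 : S1 * S2 = S2 * S1 := De_comm' 0 o12
  have cQ1 : Q * S1 = S1 * Q := De_comm' 0 (Off_hat_mix (κ := Fin 4) hoA 0)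
  have cQ2 : Q * S2 = S2 * Q := De_comm' 0 (Off_hat_mix' (κ := Fin 4) hoA 1)
  have cQ3 : Q * S3 = S3 * Q := De_comm' 0 (Off_hat (κ := Fin 4) hoA)
  have cQ4 : Q * S4 = S4 * Q := De_comm' 0 (Off_hat_inr _ 0 1)
  have cP1 : P * S1 = S1 * P := De_comm' 0 (Off_hat_mix (κ := Fin 4) ho 0)
  have cP2 : P * S2 = S2 * P := De_comm' 0 (Off_hat_mix' (κ := Fin 4) ho 1)
  have cP3 : P * S3 = S3 * P := De_comm' 0 (Off_hat (κ := Fin 4) ho)
  have cP4 : P * S4 = S4 * P := De_comm' 0 (Off_hat_inr _ 0 1)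
  have c34 : S3 * S4 = S4 * S3 := De_comm' 0 (Off_De (by simp) (by simp) (by simp) (by simp))
  -- rewriting
  have e1 : De (0 : F) (Sum.inr 2 : ι ⊕ Fin 4) (Sum.inr 3) * alE α = Q * (S3 * S4) := by
    have h1 : alE α = hat (Fin 4) α * fromBlocks 1 0 0 (A4 F) := by
      rw [hat_apply, blocks_mul, mul_one, one_mul]; rfl
    have h2 : hat (Fin 4) α = S3 * Q := by
      rw [hQ, map_mul, hat_De, ← mul_assoc, s3, one_mul]
    have h3 : (fromBlocks 1 0 0 (A4 F) : Matrix (ι ⊕ Fin 4) (ι ⊕ Fin 4) F) =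
        S4 * De (0 : F) (Sum.inr 2 : ι ⊕ Fin 4) (Sum.inr 3) := by
      rw [hS4, De_inr, De_inr, blocks_mul, one_mul]; rfl
    have h4 : De (0 : F) (Sum.inr 2 : ι ⊕ Fin 4) (Sum.inr 3) * hat (Fin 4) α =
        hat (Fin 4) α * De (0 : F) (Sum.inr 2 : ι ⊕ Fin 4) (Sum.inr 3) :=
      (De_comm' 0 (Off_hat_inr _ 2 3)).symm
    have h5 : De (0 : F) (Sum.inr 2 : ι ⊕ Fin 4) (Sum.inr 3) * S4 =
        S4 * De (0 : F) (Sum.inr 2 : ι ⊕ Fin 4) (Sum.inr 3) :=
      De_comm' 0 (Off_De (by simp) (by simp) (by simp) (by simp))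
    have h6 : De (0 : F) (Sum.inr 2 : ι ⊕ Fin 4) (Sum.inr 3) *
        De (0 : F) (Sum.inr 2 : ι ⊕ Fin 4) (Sum.inr 3) = 1 := De_sq (by simp)
    rw [h1, h3, ← mul_assoc, h4, mul_assoc, ← mul_assoc _ S4, h5, mul_assoc S4, h6, mul_one, h2,
      ← cQ3, mul_assoc]
  have e2 : piE π i j * (De 0 (Sum.inr 2) (Sum.inr 3) * alE α) =
      (P * Q) * (S1 * S2 * (S3 * S4)) := by
    rw [e1]
    change P * (S1 * S2) * (Q * (S3 * S4)) = _
    calc P * (S1 * S2) * (Q * (S3 * S4)) = P * (S1 * (S2 * Q)) * (S3 * S4) := by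
          simp only [mul_assoc]
      _ = P * (S1 * (Q * S2)) * (S3 * S4) := by rw [cQ2]
      _ = P * ((S1 * Q) * S2) * (S3 * S4) := by simp only [mul_assoc]
      _ = P * ((Q * S1) * S2) * (S3 * S4) := by rw [cQ1]
      _ = _ := by simp only [mul_assoc]
  -- the square of the second factor
  have w3 : S1 * S2 * S3 = S4 * (S1 * S2) := by
    have a1 : S2 * S3 = De 0 (Sum.inl i) (Sum.inr 1) * S2 := by
      have := swap_De (l := (0 : F)) hn2 (Sum.inl i) (Sum.inl j)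
      rwa [Equiv.swap_apply_left, Equiv.swap_apply_of_ne_of_ne hn3 (by simp)] at this
    have a2 : S1 * De 0 (Sum.inl i) (Sum.inr 1) = S4 * S1 := by
      have := swap_De (l := (0 : F)) hn1 (Sum.inl i) (Sum.inr 1)
      rwa [Equiv.swap_apply_left, Equiv.swap_apply_of_ne_of_ne (by simp) (by simp)] at this
    rw [mul_assoc, a1, ← mul_assoc, a2, mul_assoc]
  have s12 : S1 * S2 * (S1 * S2) = 1 := by
    rw [c12, mul_assoc, ← mul_assoc S1 S2, c12, mul_assoc S2, s1, mul_one, s2]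
  have w4 : S1 * S2 * S4 = S3 * (S1 * S2) := by
    calc S1 * S2 * S4 = S1 * S2 * (S4 * (S1 * S2)) * (S1 * S2) := by
          simp only [mul_assoc]
          simp only [mul_assoc] at s12
          rw [s12, mul_one]
      _ = S1 * S2 * (S1 * S2 * S3) * (S1 * S2) := by rw [w3]
      _ = (S1 * S2 * (S1 * S2)) * S3 * (S1 * S2) := by simp only [mul_assoc]
      _ = _ := by rw [s12, one_mul]
  have v2 : (S1 * S2 * (S3 * S4)) ^ 2 = 1 := by
    rw [pow_two]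
    calc S1 * S2 * (S3 * S4) * (S1 * S2 * (S3 * S4))
        = S1 * S2 * S3 * (S4 * (S1 * S2)) * (S3 * S4) := by simp only [mul_assoc]
      _ = S1 * S2 * S3 * (S1 * S2 * S3) * (S3 * S4) := by rw [w3]
      _ = S1 * S2 * S3 * (S1 * S2) * (S3 * S3) * S4 := by simp only [mul_assoc]
      _ = S1 * S2 * S3 * (S1 * S2) * S4 := by rw [s3, mul_one]
      _ = S1 * S2 * S3 * (S1 * S2 * S4) := by simp only [mul_assoc]
      _ = S1 * S2 * S3 * (S3 * (S1 * S2)) := by rw [w4]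
      _ = S1 * S2 * (S3 * S3) * (S1 * S2) := by simp only [mul_assoc]
      _ = 1 := by rw [s3, mul_one, s12]
  have hcomm : Commute (P * Q) (S1 * S2 * (S3 * S4)) := by
    have d1 : Commute (P * Q) S1 := (Commute.mul_left cP1 cQ1)
    have d2 : Commute (P * Q) S2 := (Commute.mul_left cP2 cQ2)
    have d3 : Commute (P * Q) S3 := (Commute.mul_left cP3 cQ3)
    have d4 : Commute (P * Q) S4 := (Commute.mul_left cP4 cQ4)
    exact (d1.mul_right d2).mul_right (d3.mul_right d4)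
  refine ⟨N + 1, ?_⟩
  rw [e2, hcomm.mul_pow]
  have p1 : (P * Q) ^ (2 ^ (N + 1)) = 1 := by
    rw [hP, hQ, ← map_mul, ← map_pow, pow_succ, pow_mul, hN, one_pow, map_one]
  have p2 : (S1 * S2 * (S3 * S4)) ^ (2 ^ (N + 1)) = 1 := by
    rw [pow_succ', pow_mul, v2, one_pow]
  rw [p1, p2, one_mul]

theorem c3E (h : IsGadget l α β π i j) :
    SConj (alE α) (piE π i j * De 0 (Sum.inr 2) (Sum.inr 3)) := by
  have hij := h.hij
  have ho := h.off
  have hn1 : (Sum.inl i : ι ⊕ Fin 4) ≠ Sum.inr 0 := by simp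
  have hn2 : (Sum.inl j : ι ⊕ Fin 4) ≠ Sum.inr 1 := by simp
  have hn3 : (Sum.inl i : ι ⊕ Fin 4) ≠ Sum.inl j := by simpa using hij
  have hn5 : (Sum.inl j : ι ⊕ Fin 4) ≠ Sum.inr 0 := by simp
  have st1 : SConj (alE α) (fromBlocks (π * De 0 i j) 0 0 (A4 F)) :=
    SConj_blocks h.c3 (by simp : (1 : Matrix (Fin 4) (Fin 4) F).det = 1) (by simp)
  refine st1.trans ⟨De 0 (Sum.inl j) (Sum.inr 0), det_De hn5, ?_⟩
  set P := hat (Fin 4) π with hP
  set S1 := De (0 : F) (Sum.inl i : ι ⊕ Fin 4) (Sum.inr 0) with hS1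
  set S2 := De (0 : F) (Sum.inl j : ι ⊕ Fin 4) (Sum.inr 1) with hS2
  set S3 := De (0 : F) (Sum.inl i : ι ⊕ Fin 4) (Sum.inl j) with hS3
  set S4 := De (0 : F) (Sum.inr 0 : ι ⊕ Fin 4) (Sum.inr 1) with hS4
  set S5 := De (0 : F) (Sum.inr 2 : ι ⊕ Fin 4) (Sum.inr 3) with hS5
  set ρ := De (0 : F) (Sum.inl j : ι ⊕ Fin 4) (Sum.inr 0) with hρ
  have x1 : (fromBlocks (π * De 0 i j) 0 0 (A4 F) : Matrix (ι ⊕ Fin 4) (ι ⊕ Fin 4) F) =
      P * S3 * (S4 * S5) := by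
    rw [hP, hS3, ← hat_De, ← map_mul, hS4, hS5, De_inr, De_inr, blocks_mul, hat_apply, blocks_mul,
      one_mul, mul_one, one_mul]
    rfl
  have y1 : ρ * P = P * ρ := (De_comm' 0 (Off_hat_mix' (κ := Fin 4) ho 0)).symm
  have y2 : ρ * S3 = S1 * ρ := by
    have := swap_De (l := (0 : F)) hn5 (Sum.inl i) (Sum.inl j)
    rwa [Equiv.swap_apply_left, Equiv.swap_apply_of_ne_of_ne hn3 hn1] at this
  have y3 : ρ * S4 = S2 * ρ := by
    have := swap_De (l := (0 : F)) hn5 (Sum.inr 0) (Sum.inr 1)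
    rwa [Equiv.swap_apply_right, Equiv.swap_apply_of_ne_of_ne (by simp) (by simp)] at this
  have y4 : ρ * S5 = S5 * ρ := De_comm' 0 (Off_De (by simp) (by simp) (by simp) (by simp))
  rw [x1]
  change ρ * (P * S3 * (S4 * S5)) = P * (S1 * S2) * S5 * ρ
  calc ρ * (P * S3 * (S4 * S5)) = (ρ * P) * S3 * (S4 * S5) := by simp only [mul_assoc]
    _ = P * (ρ * S3) * (S4 * S5) := by rw [y1]; simp only [mul_assoc]
    _ = P * S1 * (ρ * S4) * S5 := by rw [y2]; simp only [mul_assoc]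
    _ = P * S1 * S2 * (ρ * S5) := by rw [y3]; simp only [mul_assoc]
    _ = _ := by rw [y4]; simp only [mul_assoc]

end ext3

end H47Inv
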