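import Mathlib
import Pool.Agent.H.MP_0335f8_al.Ext3

set_option linter.unusedSectionVars false

namespace H47Inv

open Matrix

section ext4

variable {F : Type*} [Field F] {ι : Type*} [Fintype ι] [DecidableEq ι] [CharP F 2]
variable {l : F} {α β π : Matrix ι ι F} {i j : ι}

theorem elim_ne {w : ι → F} (hw : w ≠ 0) : ∃ x, w x ≠ 0 := Function.ne_iff.mp hw

theorem colE {M : Submonoid (Matrix (ι ⊕ Fin 4) (ι ⊕ Fin 4) F)}
    (hF : Full M (Set.range Sum.inl)) (hij : i ≠ j) {w : ι → F} (hw : w ≠ 0) {k : Fin 4}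
    (h : R M (Sum.elim w 0) (e F (Sum.inr k))) (x : ι) :
    R M (e F (Sum.inl x)) (e F (Sum.inr k)) := by
  obtain ⟨x0, hx0⟩ := elim_ne hw
  obtain ⟨x1, hx1⟩ : ∃ x1 : ι, x1 ≠ x0 := by
    rcases eq_or_ne i x0 with rfl | h
    · exact ⟨j, hij.symm⟩
    · exact ⟨i, h⟩
  refine hF.col (y := Sum.inr k) (by simp) (v := Sum.elim w 0) ?_ (x0 := Sum.inl x0) (by simpa)
    (x1 := Sum.inl x1) ⟨x1, rfl⟩ (by simpa using hx1) h _ ⟨x, rfl⟩
  rintro (a | a) ha
  · exact absurd ⟨a, rfl⟩ ha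
  · simp

theorem rowE {M : Submonoid (Matrix (ι ⊕ Fin 4) (ι ⊕ Fin 4) F)}
    (hF : Full M (Set.range Sum.inl)) (hij : i ≠ j) {w : ι → F} (hw : w ≠ 0) {k : Fin 4}
    (h : R M (e F (Sum.inr k)) (Sum.elim w 0)) (x : ι) :
    R M (e F (Sum.inr k)) (e F (Sum.inl x)) := by
  obtain ⟨x0, hx0⟩ := elim_ne hw
  obtain ⟨x1, hx1⟩ : ∃ x1 : ι, x1 ≠ x0 := by
    rcases eq_or_ne i x0 with rfl | h
    · exact ⟨j, hij.symm⟩
    · exact ⟨i, h⟩
  refine hF.row (y := Sum.inr k) (by simp) (v := Sum.elim w 0) ?_ (x0 := Sum.inl x0) (by simpa)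
    (x1 := Sum.inl x1) ⟨x1, rfl⟩ (by simpa using hx1) h _ ⟨x, rfl⟩
  rintro (a | a) ha
  · exact absurd ⟨a, rfl⟩ ha
  · simp

theorem mulVec_ne {g : Matrix ι ι F} (hg : g * g = 1) (x : ι) : g *ᵥ e F x ≠ 0 := by
  intro h
  have h1 : g *ᵥ (g *ᵥ e F x) = e F x := by rw [mulVec_mulVec, hg, one_mulVec]
  rw [h, mulVec_zero] at h1
  have := congrFun h1 x
  simp [e_apply] at this

theorem vecMul_ne {g : Matrix ι ι F} (hg : g * g = 1) (x : ι) : e F x ᵥ* g ≠ 0 := by
  intro h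
  have h1 : (e F x ᵥ* g) ᵥ* g = e F x := by rw [vecMul_vecMul, hg, vecMul_one]
  rw [h, zero_vecMul] at h1
  have := congrFun h1 x
  simp [e_apply] at this

theorem beE_inr (k : Fin 4) :
    beE β *ᵥ e F (Sum.inr k) = e F (Sum.inr (Equiv.swap 0 2 (Equiv.swap 1 3 k))) := by
  rw [beE, e_inr, blocks_mulVec, mulVec_zero, B4_e, e_inr]

theorem inr_beE (k : Fin 4) :
    e F (Sum.inr k) ᵥ* beE β = e F (Sum.inr (Equiv.swap 1 3 (Equiv.swap 0 2 k))) := by
  rw [beE, e_inr, blocks_vecMul, zero_vecMul, e_B4, e_inr]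

theorem beE_inl (x : ι) : beE β *ᵥ e F (Sum.inl x) = Sum.elim (β *ᵥ e F x) 0 := by
  rw [beE, e_inl, blocks_mulVec, mulVec_zero]

theorem inl_beE (x : ι) : e F (Sum.inl x) ᵥ* beE β = Sum.elim (e F x ᵥ* β) 0 := by
  rw [beE, e_inl, blocks_vecMul, zero_vecMul]

theorem beE_sq (hβ : β * β = 1) : beE β * beE β = 1 := by
  rw [beE, blocks_mul, hβ, B4_sq, blocks_one]

theorem alE_sq (hα : α * α = 1) : alE α * alE α = 1 := by
  rw [alE, blocks_mul, hα, A4_sq, blocks_one]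

theorem piE_e (z : ι ⊕ Fin 4) :
    piE π i j *ᵥ e F z = hat (Fin 4) π *ᵥ e F (Equiv.swap (Sum.inl i) (Sum.inr 0)
      (Equiv.swap (Sum.inl j) (Sum.inr 1) z)) := by
  rw [piE, ← mulVec_mulVec, ← mulVec_mulVec, De0_e (by simp), De0_e (by simp)]

theorem piE_inr0 (ho : Off π i j) :
    piE π i j *ᵥ e F (Sum.inr 0) = e F (Sum.inl i) := by
  have : Equiv.swap (Sum.inl i : ι ⊕ Fin 4) (Sum.inr 0)
      (Equiv.swap (Sum.inl j) (Sum.inr 1) (Sum.inr 0)) = Sum.inl i := by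
    simp [Equiv.swap_apply_def]
  rw [piE_e, this, (Off_hat ho).h1]

theorem piE_inr1 (hij : i ≠ j) (ho : Off π i j) :
    piE π i j *ᵥ e F (Sum.inr 1) = e F (Sum.inl j) := by
  have : Equiv.swap (Sum.inl i : ι ⊕ Fin 4) (Sum.inr 0)
      (Equiv.swap (Sum.inl j) (Sum.inr 1) (Sum.inr 1)) = Sum.inl j := by
    simp [Equiv.swap_apply_def, hij.symm]
  rw [piE_e, this, (Off_hat ho).h2]

theorem piE_inli (hij : i ≠ j) :
    piE π i j *ᵥ e F (Sum.inl i) = e F (Sum.inr 0) := by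
  have : Equiv.swap (Sum.inl i : ι ⊕ Fin 4) (Sum.inr 0)
      (Equiv.swap (Sum.inl j) (Sum.inr 1) (Sum.inl i)) = Sum.inr 0 := by
    simp [Equiv.swap_apply_def, hij]
  rw [piE_e, this, hat_e_inr]

theorem piE_inlj (i j : ι) :
    piE π i j *ᵥ e F (Sum.inl j) = e F (Sum.inr 1) := by
  have : Equiv.swap (Sum.inl i : ι ⊕ Fin 4) (Sum.inr 0)
      (Equiv.swap (Sum.inl j) (Sum.inr 1) (Sum.inl j)) = Sum.inr 1 := by
    simp [Equiv.swap_apply_def]
  rw [piE_e, this, hat_e_inr]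

theorem inr0_piE (hij : i ≠ j) :
    e F (Sum.inr 0) ᵥ* piE π i j = e F (Sum.inl i) := by
  have : Equiv.swap (Sum.inl j : ι ⊕ Fin 4) (Sum.inr 1)
      (Equiv.swap (Sum.inl i) (Sum.inr 0) (Sum.inr 0)) = Sum.inl i := by
    simp [Equiv.swap_apply_def, hij]
  rw [piE, ← vecMul_vecMul, ← vecMul_vecMul, e_inr_hat, e_De0 (by simp), e_De0 (by simp), this]

theorem inr1_piE (i j : ι) :
    e F (Sum.inr 1) ᵥ* piE π i j = e F (Sum.inl j) := by
  have : Equiv.swap (Sum.inl j : ι ⊕ Fin 4) (Sum.inr 1)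
      (Equiv.swap (Sum.inl i) (Sum.inr 0) (Sum.inr 1)) = Sum.inl j := by
    simp [Equiv.swap_apply_def]
  rw [piE, ← vecMul_vecMul, ← vecMul_vecMul, e_inr_hat, e_De0 (by simp), e_De0 (by simp), this]

theorem inli_piE (ho : Off π i j) :
    e F (Sum.inl i) ᵥ* piE π i j = e F (Sum.inr 0) := by
  have : Equiv.swap (Sum.inl j : ι ⊕ Fin 4) (Sum.inr 1)
      (Equiv.swap (Sum.inl i) (Sum.inr 0) (Sum.inl i)) = Sum.inr 0 := by
    simp [Equiv.swap_apply_def]
  rw [piE, ← vecMul_vecMul, ← vecMul_vecMul, (Off_hat ho).h3, e_De0 (by simp), e_De0 (by simp),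
    this]

theorem inlj_piE (hij : i ≠ j) (ho : Off π i j) :
    e F (Sum.inl j) ᵥ* piE π i j = e F (Sum.inr 1) := by
  have : Equiv.swap (Sum.inl j : ι ⊕ Fin 4) (Sum.inr 1)
      (Equiv.swap (Sum.inl i) (Sum.inr 0) (Sum.inl j)) = Sum.inr 1 := by
    simp [Equiv.swap_apply_def, hij.symm]
  rw [piE, ← vecMul_vecMul, ← vecMul_vecMul, (Off_hat ho).h4, e_De0 (by simp), e_De0 (by simp),
    this]

theorem piE_inlk {k : ι} (hki : k ≠ i) (hkj : k ≠ j) :
    piE π i j *ᵥ e F (Sum.inl k) = Sum.elim (π *ᵥ e F k) 0 := by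
  have : Equiv.swap (Sum.inl i : ι ⊕ Fin 4) (Sum.inr 0)
      (Equiv.swap (Sum.inl j) (Sum.inr 1) (Sum.inl k)) = Sum.inl k := by
    simp [Equiv.swap_apply_def, hki, hkj]
  rw [piE_e, this, hat_apply, e_inl, blocks_mulVec, mulVec_zero]

theorem off_vec {π : Matrix ι ι F} (ho : Off π i j) {k : ι} (hki : k ≠ i) (hkj : k ≠ j) :
    (e F k ᵥ* π) i = 0 ∧ (e F k ᵥ* π) j = 0 := by
  constructor
  · have h1 : (e F k ᵥ* π) i = (e F k ᵥ* π) ⬝ᵥ e F i := (dot_e _ _).symm
    rw [h1, ← dotProduct_mulVec, ho.h1, e_dot_e, if_neg hki]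
  · have h1 : (e F k ᵥ* π) j = (e F k ᵥ* π) ⬝ᵥ e F j := (dot_e _ _).symm
    rw [h1, ← dotProduct_mulVec, ho.h2, e_dot_e, if_neg hkj]

theorem inlk_piE (ho : Off π i j) {k : ι} (hki : k ≠ i) (hkj : k ≠ j) :
    e F (Sum.inl k) ᵥ* piE π i j = Sum.elim (e F k ᵥ* π) 0 := by
  obtain ⟨z1, z2⟩ := off_vec ho hki hkj
  rw [piE, ← vecMul_vecMul, ← vecMul_vecMul, hat_apply, e_inl, blocks_vecMul, zero_vecMul,
    vecMul_De, vecMul_De]
  simp [z1, z2]

theorem LCE (h : IsGadget l α β π i j) :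
    LocalClosure l (alE α) (beE β) (piE π i j) (Sum.inr 2) (Sum.inr 3) := by
  intro M' hinv hD hα hβ hπ
  have hij := h.hij
  have ho := h.off
  have hbb : beE β * beE β = 1 := beE_sq h.hβ
  have hpp : piE π i j * piE π i j = 1 := piE_sq hij h.hπ ho
  have st1 : De l (Sum.inr 0) (Sum.inr 1) ∈ M' := by
    have := hβ _ hD
    rw [De, conj_Dm hbb, beE_inr, beE_inr, inr_beE, inr_beE] at this
    exact this
  have st2 : De l (Sum.inl i) (Sum.inl j) ∈ M' := by
    have := hπ _ st1 (Off_De (by simp) (by simp) (by simp) (by simp))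
    rw [De, conj_Dm hpp, piE_inr0 ho, piE_inr1 hij ho, inr0_piE hij,
      inr1_piE i j] at this
    exact this
  have hF0 : Full (M'.comap (hat (Fin 4))) (Set.univ : Set ι) := by
    refine h.LC _ ?_ ?_ ?_ ?_ ?_
    · intro x y hx hxy
      have : hat (Fin 4) x * hat (Fin 4) y = 1 := by rw [← map_mul, hxy, map_one]
      exact hinv _ _ hx this
    · change hat (Fin 4) (De l i j) ∈ M'
      rw [hat_De]; exact st2
    · intro x hx
      have := hα _ hx
      change hat (Fin 4) (α * x * α) ∈ M'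
      rw [hat_apply, alE, blocks_mul, blocks_mul, mul_one, A4_sq] at this
      exact this
    · intro x hx
      have := hβ _ hx
      change hat (Fin 4) (β * x * β) ∈ M'
      rw [hat_apply, beE, blocks_mul, blocks_mul, mul_one, B4_sq] at this
      exact this
    · intro x hx hox
      have := hπ _ hx (Off_hat_inr _ 2 3)
      change hat (Fin 4) (π * x * π) ∈ M'
      have e1 : piE π i j * hat (Fin 4) x * piE π i j = hat (Fin 4) (π * x * π) := by
        have c1 := De_comm' 0 (Off_hat_mix (κ := Fin 4) hox 0)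
        have c2 := De_comm' 0 (Off_hat_mix' (κ := Fin 4) hox 1)
        have d1 := De_comm' 0 (Off_hat_mix (κ := Fin 4) ho 0)
        have d2 := De_comm' 0 (Off_hat_mix' (κ := Fin 4) ho 1)
        rw [map_mul, map_mul]
        set P := hat (Fin 4) π with hP
        set X := hat (Fin 4) x with hX
        have s0 : piE π i j = P * (De (0 : F) (Sum.inl i : ι ⊕ Fin 4) (Sum.inr 0) *
          De (0 : F) (Sum.inl j : ι ⊕ Fin 4) (Sum.inr 1)) := rfl
        rw [s0] at hpp ⊢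
        set S1 := De (0 : F) (Sum.inl i : ι ⊕ Fin 4) (Sum.inr 0)
        set S2 := De (0 : F) (Sum.inl j : ι ⊕ Fin 4) (Sum.inr 1)
        have hPP : P * P = 1 := by rw [hP, ← map_mul, h.hπ, map_one]
        have t1 : (S1 * S2) * X = X * (S1 * S2) := by
          rw [mul_assoc, ← c2, ← mul_assoc, ← c1, mul_assoc]
        have t2 : (S1 * S2) * (P * (S1 * S2)) = P := by
          calc (S1 * S2) * (P * (S1 * S2)) = (P * P) * ((S1 * S2) * (P * (S1 * S2))) := by
                rw [hPP, one_mul]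
            _ = P * (P * (S1 * S2) * (P * (S1 * S2))) := by simp only [mul_assoc]
            _ = P := by rw [hpp, mul_one]
        calc P * (S1 * S2) * X * (P * (S1 * S2)) = P * ((S1 * S2) * X) * (P * (S1 * S2)) := by
              simp only [mul_assoc]
          _ = P * X * ((S1 * S2) * (P * (S1 * S2))) := by rw [t1]; simp only [mul_assoc]
          _ = P * X * P := by rw [t2]
      rw [e1] at this
      exact this
  have hF1 : Full M' (Set.range Sum.inl) := by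
    rintro _ ⟨x, rfl⟩ _ ⟨y, rfl⟩ hxy
    intro a
    have h1 := hF0 x (Set.mem_univ _) y (Set.mem_univ _) (fun h => hxy (by rw [h])) a
    change hat (Fin 4) (Tm (a • e F x) (e F y)) ∈ M' at h1
    rw [hat_Tm] at h1
    have e1 : a • e F (Sum.inl x : ι ⊕ Fin 4) = Sum.elim (a • e F x) 0 := by
      rw [e_inl]
      ext b
      rcases b with b | b <;> simp
    rw [e1, e_inl]
    exact h1
  obtain ⟨k, hki, hkj⟩ := h.hk
  have hr : ∀ x y : ι, x ≠ y → R M' (e F (Sum.inl x)) (e F (Sum.inl y)) := by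
    intro x y hxy
    exact hF1 _ ⟨x, rfl⟩ _ ⟨y, rfl⟩ (by simpa using hxy)
  have hoff : ∀ (a : F) (x y : ι), Off (Tm (a • e F (Sum.inl x : ι ⊕ Fin 4)) (e F (Sum.inl y)))
      (Sum.inr 2) (Sum.inr 3) := by
    intro a x y
    apply Off_Tm <;> simp [e_apply]
  have c0 : ∀ x, R M' (e F (Sum.inl x)) (e F (Sum.inr 0)) := by
    have := (hr k i hki).conj' hpp (fun a ha => hπ _ ha (hoff a k i))
    rw [piE_inlk hki hkj, inli_piE ho] at this
    exact colE hF1 hij (mulVec_ne h.hπ k) this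
  have c1 : ∀ x, R M' (e F (Sum.inl x)) (e F (Sum.inr 1)) := by
    have := (hr k j hkj).conj' hpp (fun a ha => hπ _ ha (hoff a k j))
    rw [piE_inlk hki hkj, inlj_piE hij ho] at this
    exact colE hF1 hij (mulVec_ne h.hπ k) this
  have r0 : ∀ x, R M' (e F (Sum.inr 0)) (e F (Sum.inl x)) := by
    have := (hr i k hki.symm).conj' hpp (fun a ha => hπ _ ha (hoff a i k))
    rw [piE_inli hij, inlk_piE ho hki hkj] at this
    exact rowE hF1 hij (vecMul_ne h.hπ k) this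
  have r1 : ∀ x, R M' (e F (Sum.inr 1)) (e F (Sum.inl x)) := by
    have := (hr j k hkj.symm).conj' hpp (fun a ha => hπ _ ha (hoff a j k))
    rw [piE_inlj i j, inlk_piE ho hki hkj] at this
    exact rowE hF1 hij (vecMul_ne h.hπ k) this
  have c2 : ∀ x, R M' (e F (Sum.inl x)) (e F (Sum.inr 2)) := by
    have := (c0 k).conj hbb hβ
    rw [beE_inl, inr_beE] at this
    exact colE hF1 hij (mulVec_ne h.hβ k) this
  have c3 : ∀ x, R M' (e F (Sum.inl x)) (e F (Sum.inr 3)) := by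
    have := (c1 k).conj hbb hβ
    rw [beE_inl, inr_beE] at this
    exact colE hF1 hij (mulVec_ne h.hβ k) this
  have r2 : ∀ x, R M' (e F (Sum.inr 2)) (e F (Sum.inl x)) := by
    have := (r0 k).conj hbb hβ
    rw [inl_beE, beE_inr] at this
    exact rowE hF1 hij (vecMul_ne h.hβ k) this
  have r3 : ∀ x, R M' (e F (Sum.inr 3)) (e F (Sum.inl x)) := by
    have := (r1 k).conj hbb hβ
    rw [inl_beE, beE_inr] at this
    exact rowE hF1 hij (vecMul_ne h.hβ k) this
  have cc : ∀ (m : Fin 4) (x : ι), R M' (e F (Sum.inl x)) (e F (Sum.inr m)) := by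
    intro m x
    fin_cases m
    · exact c0 x
    · exact c1 x
    · exact c2 x
    · exact c3 x
  have rr : ∀ (m : Fin 4) (x : ι), R M' (e F (Sum.inr m)) (e F (Sum.inl x)) := by
    intro m x
    fin_cases m
    · exact r0 x
    · exact r1 x
    · exact r2 x
    · exact r3 x
  rintro (a | a) - (b | b) - hab
  · exact hr a b (by simpa using hab)
  · exact cc b a
  · exact rr a b
  · exact R.comm_e (by simp) (by simp) hab (rr a i) (cc b i)

/-- Extension of a gadget by a regular block of size four. -/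
theorem IsGadget.ext4 (h : IsGadget l α β π i j) :
    IsGadget l (alE α) (beE β) (piE π i j) (Sum.inr 2) (Sum.inr 3) where
  hij := by simp
  hk := ⟨Sum.inr 0, by simp, by simp⟩
  hα := alE_sq h.hα
  hβ := beE_sq h.hβ
  hπ := piE_sq h.hij h.hπ h.off
  hαβ := by rw [alE, beE, blocks_mul, blocks_mul, h.hαβ, AB4]
  αi := by rw [alE, e_inr, blocks_mulVec, mulVec_zero, A4_e, e_inr]; rfl
  αj := by rw [alE, e_inr, blocks_mulVec, mulVec_zero, A4_e, e_inr]; rfl
  iα := by rw [alE, e_inr, blocks_vecMul, zero_vecMul, e_A4, e_inr]; rfl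
  jα := by rw [alE, e_inr, blocks_vecMul, zero_vecMul, e_A4, e_inr]; rfl
  off := by
    have o1 : Off (hat (Fin 4) π) (Sum.inr 2) (Sum.inr 3) := Off_hat_inr _ 2 3
    have o2 : Off (De (0 : F) (Sum.inl i : ι ⊕ Fin 4) (Sum.inr 0)) (Sum.inr 2) (Sum.inr 3) :=
      Off_De (by simp) (by simp) (by simp) (by simp)
    have o3 : Off (De (0 : F) (Sum.inl j : ι ⊕ Fin 4) (Sum.inr 1)) (Sum.inr 2) (Sum.inr 3) :=
      Off_De (by simp) (by simp) (by simp) (by simp)
    exact o1.mul (o2.mul o3)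
  nil := nilE h
  c1 := SConj_blocks h.c1 (det_De (by decide)) conjAB
  c2 := by
    have : alE α * beE β = fromBlocks (α * β) 0 0 (A4 F * B4 F) := by rw [alE, beE, blocks_mul]
    rw [this]
    exact SConj_blocks h.c2 (det_De (by decide)) conjAC
  c3 := c3E h
  LC := LCE h

end ext4

end H47Inv
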