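import Mathlib
import Pool.Agent.H.MP_0335f8_al.Ext

set_option linter.unusedSectionVars false
set_option linter.unusedSimpArgs false

namespace H47Inv

open Matrix

section vecrules

variable {F : Type*} [Field F] {ι : Type*} [Fintype ι] [DecidableEq ι] [CharP F 2]
variable {M : Submonoid (Matrix ι ι F)} {v0 v1 φ0 φ1 z ψ w : ι → F} {l : F}

theorem vecMul_Dm (ψ : ι → F) : ψ ᵥ* Dm l v0 v1 φ0 φ1 =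
    ψ + ((l - 1) * (ψ ⬝ᵥ v0) + ψ ⬝ᵥ v1) • φ0 + (ψ ⬝ᵥ v0 - ψ ⬝ᵥ v1) • φ1 := by
  simp only [Dm, vecMul_add, vecMul_vecMulVec, vecMul_one, dotProduct_add, dotProduct_sub,
    dotProduct_smul, smul_eq_mul]

theorem Dm_mulVec (v : ι → F) : Dm l v0 v1 φ0 φ1 *ᵥ v =
    v + (φ0 ⬝ᵥ v) • ((l - 1) • v0 + v1) + (φ1 ⬝ᵥ v) • (v0 - v1) := by
  simp [Dm, add_mulVec, vecMulVec_mulVec]

/-- the group part of the `D`-rules: the commutator of a transvection with a plane element -/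
theorem DW_right11 (hl : ∀ a : F, a ≠ 0 → ∃ k : ℕ, a = l ^ k) (hl0 : l ≠ 0)
    (hD : Dm l v0 v1 φ0 φ1 ∈ M) (hD' : Dm l v1 v0 φ1 φ0 ∈ M)
    (h00 : φ0 ⬝ᵥ v0 = 1) (h01 : φ0 ⬝ᵥ v1 = 0) (h10 : φ1 ⬝ᵥ v0 = 0) (h11 : φ1 ⬝ᵥ v1 = 1)
    (hz0 : φ0 ⬝ᵥ z = 0) (hz1 : φ1 ⬝ᵥ z = 0) (hψ : ψ ⬝ᵥ z = 0)
    (ha : ψ ⬝ᵥ v0 = 1) (hb : ψ ⬝ᵥ v1 = 1) {c : F} (hc : c ≠ 0) (h : Tm (c • z) ψ ∈ M) :
    R M z φ0 ∧ R M z φ1 := by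
  have i2 : Dm l v1 v0 φ1 φ0 * Dm l v0 v1 φ0 φ1 = 1 := Dm_inv h11 h10 h01 h00
  have h1 := M.mul_mem (M.mul_mem hD' h) hD
  rw [conj_Tm i2, vecMul_Dm, mulVec_smul, Dm_mulVec_of_zero hz1 hz0, ha, hb] at h1
  have h2 := M.mul_mem h h1
  rw [Tm_mul_right (by simp [hψ])] at h2
  have e1 : ψ + (ψ + ((l - 1) * 1 + 1) • φ0 + ((1 : F) - 1) • φ1) = l • φ0 := by
    ext x
    simp only [Pi.add_apply, Pi.smul_apply, smul_eq_mul]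
    linear_combination (ψ x) * (CharTwo.two_eq_zero : (2 : F) = 0)
  rw [e1, Tm_smul, smul_smul] at h2
  exact W_right hl hD hD' h00 h01 h10 h11 hz0 hz1 (mul_ne_zero hl0 hc) h2

theorem DW_right01 (hl : ∀ a : F, a ≠ 0 → ∃ k : ℕ, a = l ^ k) (hl0 : l ≠ 0)
    (hD : Dm l v0 v1 φ0 φ1 ∈ M) (hD' : Dm l v1 v0 φ1 φ0 ∈ M)
    (h00 : φ0 ⬝ᵥ v0 = 1) (h01 : φ0 ⬝ᵥ v1 = 0) (h10 : φ1 ⬝ᵥ v0 = 0) (h11 : φ1 ⬝ᵥ v1 = 1)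
    (hz0 : φ0 ⬝ᵥ z = 0) (hz1 : φ1 ⬝ᵥ z = 0) (hψ : ψ ⬝ᵥ z = 0)
    (ha : ψ ⬝ᵥ v0 = 0) (hb : ψ ⬝ᵥ v1 = 1) {c : F} (hc : c ≠ 0) (h : Tm (c • z) ψ ∈ M) :
    R M z φ0 ∧ R M z φ1 := by
  have i2 : Dm l v1 v0 φ1 φ0 * Dm l v0 v1 φ0 φ1 = 1 := Dm_inv h11 h10 h01 h00
  have h1 := M.mul_mem (M.mul_mem hD' h) hD
  rw [conj_Tm i2, vecMul_Dm, mulVec_smul, Dm_mulVec_of_zero hz1 hz0, ha, hb] at h1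
  have h2 := M.mul_mem h h1
  rw [Tm_mul_right (by simp [hψ])] at h2
  have e1 : ψ + (ψ + ((l - 1) * 0 + 1) • φ0 + ((0 : F) - 1) • φ1) = φ0 + φ1 := by
    ext x
    simp only [Pi.add_apply, Pi.smul_apply, smul_eq_mul]
    linear_combination (ψ x - φ1 x) * (CharTwo.two_eq_zero : (2 : F) = 0)
  rw [e1] at h2
  exact DW_right11 hl hl0 hD hD' h00 h01 h10 h11 hz0 hz1 (by simp [hz0, hz1])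
    (by simp [h00, h10]) (by simp [h01, h11]) hc h2

theorem DW_right (hl : ∀ a : F, a ≠ 0 → ∃ k : ℕ, a = l ^ k) (hl0 : l ≠ 0)
    (hD : Dm l v0 v1 φ0 φ1 ∈ M) (hD' : Dm l v1 v0 φ1 φ0 ∈ M)
    (h00 : φ0 ⬝ᵥ v0 = 1) (h01 : φ0 ⬝ᵥ v1 = 0) (h10 : φ1 ⬝ᵥ v0 = 0) (h11 : φ1 ⬝ᵥ v1 = 1)
    (hz0 : φ0 ⬝ᵥ z = 0) (hz1 : φ1 ⬝ᵥ z = 0) (hψ : ψ ⬝ᵥ z = 0)
    (hab : (ψ ⬝ᵥ v0 = 1 ∧ ψ ⬝ᵥ v1 = 1) ∨ (ψ ⬝ᵥ v0 = 0 ∧ ψ ⬝ᵥ v1 = 1) ∨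
      (ψ ⬝ᵥ v0 = 1 ∧ ψ ⬝ᵥ v1 = 0)) {c : F} (hc : c ≠ 0) (h : Tm (c • z) ψ ∈ M) :
    R M z φ0 ∧ R M z φ1 := by
  rcases hab with ⟨ha, hb⟩ | ⟨ha, hb⟩ | ⟨ha, hb⟩
  · exact DW_right11 hl hl0 hD hD' h00 h01 h10 h11 hz0 hz1 hψ ha hb hc h
  · exact DW_right01 hl hl0 hD hD' h00 h01 h10 h11 hz0 hz1 hψ ha hb hc h
  · exact (DW_right01 hl hl0 hD' hD h11 h10 h01 h00 hz1 hz0 hψ hb ha hc h).symm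

theorem DW_left11 (hl : ∀ a : F, a ≠ 0 → ∃ k : ℕ, a = l ^ k) (hl0 : l ≠ 0)
    (hD : Dm l v0 v1 φ0 φ1 ∈ M) (hD' : Dm l v1 v0 φ1 φ0 ∈ M)
    (h00 : φ0 ⬝ᵥ v0 = 1) (h01 : φ0 ⬝ᵥ v1 = 0) (h10 : φ1 ⬝ᵥ v0 = 0) (h11 : φ1 ⬝ᵥ v1 = 1)
    (hz0 : ψ ⬝ᵥ v0 = 0) (hz1 : ψ ⬝ᵥ v1 = 0) (hψ : ψ ⬝ᵥ z = 0)
    (ha : φ0 ⬝ᵥ z = 1) (hb : φ1 ⬝ᵥ z = 1) {c : F} (hc : c ≠ 0) (h : Tm (c • z) ψ ∈ M) :
    R M v0 ψ ∧ R M v1 ψ := by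
  have i1 : Dm l v0 v1 φ0 φ1 * Dm l v1 v0 φ1 φ0 = 1 := Dm_inv h00 h01 h10 h11
  have h1 := M.mul_mem (M.mul_mem hD h) hD'
  rw [conj_Tm i1, mulVec_smul, Dm_mulVec, vecMul_Dm_of_zero hz1 hz0, ha, hb] at h1
  have h2 := M.mul_mem h h1
  rw [Tm_mul_left] at h2
  · have e1 : c • z + c • (z + (1 : F) • ((l - 1) • v0 + v1) + (1 : F) • (v0 - v1)) =
        (c * l) • v0 := by
      ext x
      simp only [Pi.add_apply, Pi.smul_apply, Pi.sub_apply, smul_eq_mul]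
      linear_combination (c * z x) * (CharTwo.two_eq_zero : (2 : F) = 0)
    rw [e1] at h2
    exact W_left hl hD hD' h00 h01 h10 h11 hz0 hz1 (mul_ne_zero hc hl0) h2
  · simp [hψ, hz0, hz1]

theorem DW_left01 (hl : ∀ a : F, a ≠ 0 → ∃ k : ℕ, a = l ^ k) (hl0 : l ≠ 0)
    (hD : Dm l v0 v1 φ0 φ1 ∈ M) (hD' : Dm l v1 v0 φ1 φ0 ∈ M)
    (h00 : φ0 ⬝ᵥ v0 = 1) (h01 : φ0 ⬝ᵥ v1 = 0) (h10 : φ1 ⬝ᵥ v0 = 0) (h11 : φ1 ⬝ᵥ v1 = 1)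
    (hz0 : ψ ⬝ᵥ v0 = 0) (hz1 : ψ ⬝ᵥ v1 = 0) (hψ : ψ ⬝ᵥ z = 0)
    (ha : φ0 ⬝ᵥ z = 0) (hb : φ1 ⬝ᵥ z = 1) {c : F} (hc : c ≠ 0) (h : Tm (c • z) ψ ∈ M) :
    R M v0 ψ ∧ R M v1 ψ := by
  have i1 : Dm l v0 v1 φ0 φ1 * Dm l v1 v0 φ1 φ0 = 1 := Dm_inv h00 h01 h10 h11
  have h1 := M.mul_mem (M.mul_mem hD h) hD'
  rw [conj_Tm i1, mulVec_smul, Dm_mulVec, vecMul_Dm_of_zero hz1 hz0, ha, hb] at h1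
  have h2 := M.mul_mem h h1
  rw [Tm_mul_left] at h2
  · have e1 : c • z + c • (z + (0 : F) • ((l - 1) • v0 + v1) + (1 : F) • (v0 - v1)) =
        c • (v0 + v1) := by
      ext x
      simp only [Pi.add_apply, Pi.smul_apply, Pi.sub_apply, smul_eq_mul]
      linear_combination (c * z x - c * v1 x) * (CharTwo.two_eq_zero : (2 : F) = 0)
    rw [e1] at h2
    exact DW_left11 hl hl0 hD hD' h00 h01 h10 h11 hz0 hz1 (by simp [hz0, hz1])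
      (by simp [h00, h01]) (by simp [h10, h11]) hc h2
  · simp [hψ, hz0, hz1]

theorem DW_left (hl : ∀ a : F, a ≠ 0 → ∃ k : ℕ, a = l ^ k) (hl0 : l ≠ 0)
    (hD : Dm l v0 v1 φ0 φ1 ∈ M) (hD' : Dm l v1 v0 φ1 φ0 ∈ M)
    (h00 : φ0 ⬝ᵥ v0 = 1) (h01 : φ0 ⬝ᵥ v1 = 0) (h10 : φ1 ⬝ᵥ v0 = 0) (h11 : φ1 ⬝ᵥ v1 = 1)
    (hz0 : ψ ⬝ᵥ v0 = 0) (hz1 : ψ ⬝ᵥ v1 = 0) (hψ : ψ ⬝ᵥ z = 0)
    (hab : (φ0 ⬝ᵥ z = 1 ∧ φ1 ⬝ᵥ z = 1) ∨ (φ0 ⬝ᵥ z = 0 ∧ φ1 ⬝ᵥ z = 1) ∨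
      (φ0 ⬝ᵥ z = 1 ∧ φ1 ⬝ᵥ z = 0)) {c : F} (hc : c ≠ 0) (h : Tm (c • z) ψ ∈ M) :
    R M v0 ψ ∧ R M v1 ψ := by
  rcases hab with ⟨ha, hb⟩ | ⟨ha, hb⟩ | ⟨ha, hb⟩
  · exact DW_left11 hl hl0 hD hD' h00 h01 h10 h11 hz0 hz1 hψ ha hb hc h
  · exact DW_left01 hl hl0 hD hD' h00 h01 h10 h11 hz0 hz1 hψ ha hb hc h
  · exact (DW_left01 hl hl0 hD' hD h11 h10 h01 h00 hz1 hz0 hψ hb ha hc h).symm

/-- two plane elements with the same functionals and vectors differing by one vector -/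
theorem DS_rule (hl : ∀ a : F, a ≠ 0 → ∃ k : ℕ, a = l ^ k) (hl0 : l ≠ 0)
    (hD : Dm l v0 v1 φ0 φ1 ∈ M) (hD' : Dm l v1 v0 φ1 φ0 ∈ M)
    (h00 : φ0 ⬝ᵥ v0 = 1) (h01 : φ0 ⬝ᵥ v1 = 0) (h10 : φ1 ⬝ᵥ v0 = 0) (h11 : φ1 ⬝ᵥ v1 = 1)
    (hw0 : φ0 ⬝ᵥ w = 0) (hw1 : φ1 ⬝ᵥ w = 0)
    (hA : Dm l (v0 + w) (v1 + w) φ0 φ1 ∈ M) :
    R M w φ0 ∧ R M w φ1 := by
  have h1 := M.mul_mem hA hD'
  have e1 : Dm l (v0 + w) (v1 + w) φ0 φ1 * Dm l v1 v0 φ1 φ0 = Tm (l • w) φ1 := by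
    have h2 : (2 : F) = 0 := CharTwo.two_eq_zero
    simp only [Dm, Tm, mul_add, add_mul, mul_one, one_mul, vmv_mul, dotProduct_add,
      dotProduct_sub, dotProduct_smul, h00, h01, h10, h11, hw0, hw1, smul_eq_mul]
    ext i j
    simp only [Matrix.add_apply, Matrix.smul_apply, vecMulVec_apply, Pi.add_apply, Pi.smul_apply,
      Pi.sub_apply, smul_eq_mul]
    linear_combination (l * (v0 i + w i) * φ1 j - w i * φ1 j * l) * h2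
  rw [e1] at h1
  exact (W_right hl hD' hD h11 h10 h01 h00 hw1 hw0 hl0 h1).symm

end vecrules

section z2

variable (F : Type*) [Field F] [CharP F 2] {n : ℕ}

/-- the map from the prime field -/
def c2 : ZMod 2 →+* F := ZMod.castHom (dvd_refl 2) F

/-- lift of a matrix -/
def lf (A : Matrix (Fin n) (Fin n) (ZMod 2)) : Matrix (Fin n) (Fin n) F := A.map (c2 F)

/-- lift of a vector -/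
def lv (v : Fin n → ZMod 2) : Fin n → F := fun i => c2 F (v i)

/-- unit vectors over the prime field -/
def e2 (i : Fin n) : Fin n → ZMod 2 := fun k => if k = i then 1 else 0

theorem lf_mul (A B : Matrix (Fin n) (Fin n) (ZMod 2)) : lf F (A * B) = lf F A * lf F B := by
  simp [lf, Matrix.map_mul]

theorem lf_one : lf F (1 : Matrix (Fin n) (Fin n) (ZMod 2)) = 1 := by
  simp [lf]

theorem lf_pow (A : Matrix (Fin n) (Fin n) (ZMod 2)) (k : ℕ) : lf F (A ^ k) = (lf F A) ^ k := by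
  induction k with
  | zero => simp [lf_one]
  | succ k ih => rw [pow_succ, pow_succ, lf_mul, ih]

theorem lf_mulVec (A : Matrix (Fin n) (Fin n) (ZMod 2)) (v : Fin n → ZMod 2) :
    lf F A *ᵥ lv F v = lv F (A *ᵥ v) := by
  ext i
  simp [lf, lv, mulVec, dotProduct]

theorem lf_vecMul (A : Matrix (Fin n) (Fin n) (ZMod 2)) (v : Fin n → ZMod 2) :
    lv F v ᵥ* lf F A = lv F (v ᵥ* A) := by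
  ext i
  simp [lf, lv, vecMul, dotProduct]

theorem lv_dot (v w : Fin n → ZMod 2) : lv F v ⬝ᵥ lv F w = c2 F (v ⬝ᵥ w) := by
  simp [lv, dotProduct]

theorem lv_dot0 {v w : Fin n → ZMod 2} (h : v ⬝ᵥ w = 0) : lv F v ⬝ᵥ lv F w = 0 := by
  rw [lv_dot, h, map_zero]

theorem lv_dot1 {v w : Fin n → ZMod 2} (h : v ⬝ᵥ w = 1) : lv F v ⬝ᵥ lv F w = 1 := by
  rw [lv_dot, h, map_one]

theorem lv_add (v w : Fin n → ZMod 2) : lv F (v + w) = lv F v + lv F w := by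
  ext i
  simp [lv]

theorem lv_e2 (i : Fin n) : lv F (e2 i) = e F i := by
  ext k
  by_cases h : k = i <;> simp [lv, e2, e_apply, h]

variable {F}

/-- a root group with coordinates in the prime field -/
def R2 (M : Submonoid (Matrix (Fin n) (Fin n) F)) (v φ : Fin n → ZMod 2) : Prop :=
  R M (lv F v) (lv F φ) ∧ φ ⬝ᵥ v = 0

/-- a plane element with coordinates in the prime field -/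
def D2 (l : F) (M : Submonoid (Matrix (Fin n) (Fin n) F)) (v0 v1 φ0 φ1 : Fin n → ZMod 2) : Prop :=
  Dm l (lv F v0) (lv F v1) (lv F φ0) (lv F φ1) ∈ M ∧
    (φ0 ⬝ᵥ v0 = 1 ∧ φ0 ⬝ᵥ v1 = 0 ∧ φ1 ⬝ᵥ v0 = 0 ∧ φ1 ⬝ᵥ v1 = 1)

/-- the hypotheses of the local closure property over the prime field -/
structure Ctx (l : F) (α β π : Matrix (Fin n) (Fin n) (ZMod 2)) (i j : Fin n)
    (M : Submonoid (Matrix (Fin n) (Fin n) F)) : Prop where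
  inv : InvClosed M
  gen : ∀ a : F, a ≠ 0 → ∃ k : ℕ, a = l ^ k
  l0 : l ≠ 0
  D0 : De l i j ∈ M
  hα : α * α = 1
  hβ : β * β = 1
  hπ : π * π = 1
  al : ∀ x ∈ M, lf F α * x * lf F α ∈ M
  be : ∀ x ∈ M, lf F β * x * lf F β ∈ M
  pi : ∀ x ∈ M, Off x i j → lf F π * x * lf F π ∈ M

section rules

variable {l : F} {α β π : Matrix (Fin n) (Fin n) (ZMod 2)} {i j : Fin n}
  {M : Submonoid (Matrix (Fin n) (Fin n) F)}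
  {v v' φ φ' w ψ v0 v1 v2 φ0 φ1 φ2 w0 w1 ψ0 ψ1 : Fin n → ZMod 2}

theorem lf_sq {A : Matrix (Fin n) (Fin n) (ZMod 2)} (h : A * A = 1) : lf F A * lf F A = 1 := by
  rw [← lf_mul, h, lf_one]

theorem dot_conj {A : Matrix (Fin n) (Fin n) (ZMod 2)} (h : A * A = 1) (v φ : Fin n → ZMod 2) :
    (φ ᵥ* A) ⬝ᵥ (A *ᵥ v) = φ ⬝ᵥ v := by
  rw [dotProduct_mulVec, vecMul_vecMul, h, vecMul_one]

theorem R2.al (c : Ctx l α β π i j M) (h : R2 M v φ) (hv : α *ᵥ v = v' ∧ φ ᵥ* α = φ') :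
    R2 M v' φ' := by
  obtain ⟨rfl, rfl⟩ := hv
  refine ⟨?_, by rw [dot_conj c.hα, h.2]⟩
  have := h.1.conj (lf_sq c.hα) c.al
  rwa [lf_mulVec, lf_vecMul] at this

theorem R2.be (c : Ctx l α β π i j M) (h : R2 M v φ) (hv : β *ᵥ v = v' ∧ φ ᵥ* β = φ') :
    R2 M v' φ' := by
  obtain ⟨rfl, rfl⟩ := hv
  refine ⟨?_, by rw [dot_conj c.hβ, h.2]⟩
  have := h.1.conj (lf_sq c.hβ) c.be
  rwa [lf_mulVec, lf_vecMul] at this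

theorem lv_zero {v : Fin n → ZMod 2} {i : Fin n} (h : v i = 0) : lv F v i = 0 := by
  simp [lv, h]

theorem R2.pi (c : Ctx l α β π i j M) (h : R2 M v φ)
    (hv : π *ᵥ v = v' ∧ φ ᵥ* π = φ' ∧ v i = 0 ∧ v j = 0 ∧ φ i = 0 ∧ φ j = 0) :
    R2 M v' φ' := by
  obtain ⟨rfl, rfl, h1, h2, h3, h4⟩ := hv
  refine ⟨?_, by rw [dot_conj c.hπ, h.2]⟩
  have := h.1.conj' (lf_sq c.hπ) (fun a ha => c.pi _ ha (Off_Tm (by simp [lv_zero h1])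
    (by simp [lv_zero h2]) (lv_zero h3) (lv_zero h4)))
  rwa [lf_mulVec, lf_vecMul] at this

theorem D2.init (c : Ctx l α β π i j M) (hij : i ≠ j)
    (h : e2 i = v0 ∧ e2 j = v1) : D2 l M v0 v1 v0 v1 := by
  obtain ⟨rfl, rfl⟩ := h
  refine ⟨?_, ?_⟩
  · rw [lv_e2, lv_e2]
    exact c.D0
  · simp [e2, dotProduct, hij, hij.symm]

theorem D2.al (c : Ctx l α β π i j M) (h : D2 l M v0 v1 φ0 φ1)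
    (hv : α *ᵥ v0 = w0 ∧ α *ᵥ v1 = w1 ∧ φ0 ᵥ* α = ψ0 ∧ φ1 ᵥ* α = ψ1) : D2 l M w0 w1 ψ0 ψ1 := by
  obtain ⟨rfl, rfl, rfl, rfl⟩ := hv
  obtain ⟨h1, h2⟩ := h
  refine ⟨?_, by simp only [dot_conj c.hα]; exact h2⟩
  have := c.al _ h1
  rwa [conj_Dm (lf_sq c.hα), lf_mulVec, lf_mulVec, lf_vecMul, lf_vecMul] at this

theorem D2.be (c : Ctx l α β π i j M) (h : D2 l M v0 v1 φ0 φ1)
    (hv : β *ᵥ v0 = w0 ∧ β *ᵥ v1 = w1 ∧ φ0 ᵥ* β = ψ0 ∧ φ1 ᵥ* β = ψ1) : D2 l M w0 w1 ψ0 ψ1 := by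
  obtain ⟨rfl, rfl, rfl, rfl⟩ := hv
  obtain ⟨h1, h2⟩ := h
  refine ⟨?_, by simp only [dot_conj c.hβ]; exact h2⟩
  have := c.be _ h1
  rwa [conj_Dm (lf_sq c.hβ), lf_mulVec, lf_mulVec, lf_vecMul, lf_vecMul] at this

theorem D2.pi (c : Ctx l α β π i j M) (h : D2 l M v0 v1 φ0 φ1)
    (hv : π *ᵥ v0 = w0 ∧ π *ᵥ v1 = w1 ∧ φ0 ᵥ* π = ψ0 ∧ φ1 ᵥ* π = ψ1 ∧
      v0 i = 0 ∧ v0 j = 0 ∧ v1 i = 0 ∧ v1 j = 0 ∧ φ0 i = 0 ∧ φ0 j = 0 ∧ φ1 i = 0 ∧ φ1 j = 0) :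
    D2 l M w0 w1 ψ0 ψ1 := by
  obtain ⟨rfl, rfl, rfl, rfl, k1, k2, k3, k4, k5, k6, k7, k8⟩ := hv
  obtain ⟨h1, h2⟩ := h
  refine ⟨?_, by simp only [dot_conj c.hπ]; exact h2⟩
  have := c.pi _ h1 (Off_Dm (lv_zero k1) (lv_zero k2) (lv_zero k3) (lv_zero k4) (lv_zero k5)
    (lv_zero k6) (lv_zero k7) (lv_zero k8))
  rwa [conj_Dm (lf_sq c.hπ), lf_mulVec, lf_mulVec, lf_vecMul, lf_vecMul] at this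

theorem D2.symm (c : Ctx l α β π i j M) (h : D2 l M v0 v1 φ0 φ1) : D2 l M v1 v0 φ1 φ0 := by
  obtain ⟨h1, h00, h01, h10, h11⟩ := h
  exact ⟨c.inv _ _ h1 (Dm_inv (lv_dot1 F h00) (lv_dot0 F h01) (lv_dot0 F h10) (lv_dot1 F h11)),
    h11, h10, h01, h00⟩

theorem R2.addr (h : R2 M v φ) (h' : R2 M v ψ) (hv : φ + ψ = φ') : R2 M v φ' := by
  subst hv
  refine ⟨?_, by rw [add_dotProduct, h.2, h'.2, add_zero]⟩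
  rw [lv_add]
  exact h.1.add_right (lv_dot0 F h.2) h'.1

theorem R2.addl (h : R2 M v φ) (h' : R2 M w φ) (hv : v + w = v') : R2 M v' φ := by
  subst hv
  refine ⟨?_, by rw [dotProduct_add, h.2, h'.2, add_zero]⟩
  rw [lv_add]
  exact h.1.add_left (lv_dot0 F h'.2) h'.1

theorem R2.comm (h : R2 M v φ) (h' : R2 M w ψ) (hv : φ ⬝ᵥ w = 1 ∧ ψ ⬝ᵥ v = 0) : R2 M v ψ :=
  ⟨R.comm (lv_dot0 F h.2) (lv_dot0 F h'.2) (lv_dot0 F hv.2)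
    (by rw [lv_dot1 F hv.1]; exact one_ne_zero) h.1 h'.1, hv.2⟩

theorem T2 (c : Ctx l α β π i j M) (hA : D2 l M v0 v1 φ0 φ1) (hB : D2 l M v1 v2 φ1 φ2)
    (hv : φ0 ⬝ᵥ v2 = 0 ∧ φ2 ⬝ᵥ v0 = 0) :
    (R2 M v0 φ2 ∧ R2 M v0 φ1 ∧ R2 M v1 φ2) ∧ (R2 M v2 φ0 ∧ R2 M v2 φ1 ∧ R2 M v1 φ0) := by
  obtain ⟨hA, a00, a01, a10, a11⟩ := hA
  obtain ⟨hB, b00, b01, b10, b11⟩ := hB
  obtain ⟨⟨r1, r2, r3⟩, ⟨r4, r5, r6⟩⟩ := T_lemma c.inv c.gen c.l0 (lv_dot1 F a00) (lv_dot0 F a01)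
    (lv_dot0 F hv.1) (lv_dot0 F a10) (lv_dot1 F a11) (lv_dot0 F b01) (lv_dot0 F hv.2)
    (lv_dot0 F b10) (lv_dot1 F b11) hA hB
  exact ⟨⟨⟨r1, hv.2⟩, ⟨r2, a10⟩, ⟨r3, b10⟩⟩, ⟨⟨r4, hv.1⟩, ⟨r5, b01⟩, ⟨r6, a01⟩⟩⟩

theorem DS2 (c : Ctx l α β π i j M) (hA : D2 l M v0 v1 φ0 φ1) (hB : D2 l M w0 w1 φ0 φ1)
    (hv : v0 + w = w0 ∧ v1 + w = w1 ∧ φ0 ⬝ᵥ w = 0 ∧ φ1 ⬝ᵥ w = 0) :
    R2 M w φ0 ∧ R2 M w φ1 := by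
  obtain ⟨rfl, rfl, k1, k2⟩ := hv
  have hA' := hA.symm c
  obtain ⟨hA, a00, a01, a10, a11⟩ := hA
  have hB' := hB.1
  rw [lv_add, lv_add] at hB'
  obtain ⟨r1, r2⟩ := DS_rule c.gen c.l0 hA hA'.1 (lv_dot1 F a00) (lv_dot0 F a01)
    (lv_dot0 F a10) (lv_dot1 F a11) (lv_dot0 F k1) (lv_dot0 F k2) hB'
  exact ⟨⟨r1, k1⟩, ⟨r2, k2⟩⟩

theorem z2cases {a b : ZMod 2} (h : ¬ (a = 0 ∧ b = 0)) :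
    (a = 1 ∧ b = 1) ∨ (a = 0 ∧ b = 1) ∨ (a = 1 ∧ b = 0) := by
  revert a b
  decide

theorem WR2 (c : Ctx l α β π i j M) (hA : D2 l M v0 v1 φ0 φ1) (h : R2 M v φ)
    (hv : φ0 ⬝ᵥ v = 0 ∧ φ1 ⬝ᵥ v = 0 ∧ ¬ (φ ⬝ᵥ v0 = 0 ∧ φ ⬝ᵥ v1 = 0)) :
    R2 M v φ0 ∧ R2 M v φ1 := by
  obtain ⟨k0, k1, k2⟩ := hv
  have hA' := hA.symm c
  obtain ⟨hA, a00, a01, a10, a11⟩ := hA
  have h1 : Tm ((1 : F) • lv F v) (lv F φ) ∈ M := h.1 1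
  have hab : (lv F φ ⬝ᵥ lv F v0 = 1 ∧ lv F φ ⬝ᵥ lv F v1 = 1) ∨
      (lv F φ ⬝ᵥ lv F v0 = 0 ∧ lv F φ ⬝ᵥ lv F v1 = 1) ∨
      (lv F φ ⬝ᵥ lv F v0 = 1 ∧ lv F φ ⬝ᵥ lv F v1 = 0) := by
    rcases z2cases k2 with ⟨x, y⟩ | ⟨x, y⟩ | ⟨x, y⟩
    · exact Or.inl ⟨lv_dot1 F x, lv_dot1 F y⟩
    · exact Or.inr (Or.inl ⟨lv_dot0 F x, lv_dot1 F y⟩)
    · exact Or.inr (Or.inr ⟨lv_dot1 F x, lv_dot0 F y⟩)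
  obtain ⟨r1, r2⟩ := DW_right c.gen c.l0 hA hA'.1 (lv_dot1 F a00) (lv_dot0 F a01)
    (lv_dot0 F a10) (lv_dot1 F a11) (lv_dot0 F k0) (lv_dot0 F k1) (lv_dot0 F h.2) hab
    one_ne_zero h1
  exact ⟨⟨r1, k0⟩, ⟨r2, k1⟩⟩

theorem WL2 (c : Ctx l α β π i j M) (hA : D2 l M v0 v1 φ0 φ1) (h : R2 M v φ)
    (hv : φ ⬝ᵥ v0 = 0 ∧ φ ⬝ᵥ v1 = 0 ∧ ¬ (φ0 ⬝ᵥ v = 0 ∧ φ1 ⬝ᵥ v = 0)) :
    R2 M v0 φ ∧ R2 M v1 φ := by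
  obtain ⟨k0, k1, k2⟩ := hv
  have hA' := hA.symm c
  obtain ⟨hA, a00, a01, a10, a11⟩ := hA
  have h1 : Tm ((1 : F) • lv F v) (lv F φ) ∈ M := h.1 1
  have hab : (lv F φ0 ⬝ᵥ lv F v = 1 ∧ lv F φ1 ⬝ᵥ lv F v = 1) ∨
      (lv F φ0 ⬝ᵥ lv F v = 0 ∧ lv F φ1 ⬝ᵥ lv F v = 1) ∨
      (lv F φ0 ⬝ᵥ lv F v = 1 ∧ lv F φ1 ⬝ᵥ lv F v = 0) := by
    rcases z2cases k2 with ⟨x, y⟩ | ⟨x, y⟩ | ⟨x, y⟩
    · exact Or.inl ⟨lv_dot1 F x, lv_dot1 F y⟩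
    · exact Or.inr (Or.inl ⟨lv_dot0 F x, lv_dot1 F y⟩)
    · exact Or.inr (Or.inr ⟨lv_dot1 F x, lv_dot0 F y⟩)
  obtain ⟨r1, r2⟩ := DW_left c.gen c.l0 hA hA'.1 (lv_dot1 F a00) (lv_dot0 F a01)
    (lv_dot0 F a10) (lv_dot1 F a11) (lv_dot0 F k0) (lv_dot0 F k1) (lv_dot0 F h.2) hab
    one_ne_zero h1
  exact ⟨⟨r1, k0⟩, ⟨r2, k1⟩⟩

end rules

end z2

end H47Inv
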