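import Mathlib
import Pool.Agent.H.MP_0335f8_al.Rules
import Pool.Agent.H.MP_0335f8_al.Ext4

set_option linter.unusedSectionVars false

namespace H47Inv

open Matrix

section z2gad

variable {F : Type*} [Field F] [CharP F 2] {n : ℕ}

/-- permutation matrix of a transposition -/
def sw (i j : Fin n) : Matrix (Fin n) (Fin n) (ZMod 2) :=
  of fun a b => if a = Equiv.swap i j b then 1 else 0

theorem lf_sw {i j : Fin n} (hij : i ≠ j) : lf F (sw i j) = De 0 i j := by
  ext a b
  have h1 : (De (0 : F) i j) a b = (De (0 : F) i j *ᵥ e F b) a := by simp [e]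
  rw [h1, De0_e hij, e_apply]
  by_cases h : a = Equiv.swap i j b <;> simp [lf, sw, h]

theorem det_lf {g g' : Matrix (Fin n) (Fin n) (ZMod 2)} (h : g * g' = 1) : (lf F g).det = 1 := by
  have h1 : g.det * g'.det = 1 := by rw [← det_mul, h, det_one]
  have h2 : g.det = 1 := by
    revert h1
    generalize g.det = a
    generalize g'.det = b
    revert a b
    decide
  have h3 : (lf F g).det = c2 F g.det := by
    rw [lf, ← RingHom.mapMatrix_apply, RingHom.map_det]
  rw [h3, h2, map_one]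

theorem SConj_lf {A B g g' : Matrix (Fin n) (Fin n) (ZMod 2)} (h : g * g' = 1 ∧ g * A = B * g) :
    SConj (lf F A) (lf F B) :=
  ⟨lf F g, det_lf h.1, by rw [← lf_mul, ← lf_mul, h.2]⟩

/-- cyclic successor -/
def nxt (x : Fin n) : Fin n := ⟨(x.val + 1) % n, Nat.mod_lt _ (by have := x.isLt; omega)⟩

theorem full_of_cycle {M : Submonoid (Matrix (Fin n) (Fin n) F)}
    (h : ∀ x : Fin n, R M (e F x) (e F (nxt x))) : Full M Set.univ := by
  have key : ∀ k : ℕ, 0 < k → k < n → ∀ x y : Fin n, y.val = (x.val + k) % n →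
      R M (e F x) (e F y) := by
    intro k
    induction k with
    | zero => intro h0; omega
    | succ k ih =>
      intro _ hk x y hxy
      rcases Nat.eq_zero_or_pos k with rfl | hpos
      · have : y = nxt x := Fin.ext hxy
        rw [this]; exact h x
      · have hn : 0 < n := by omega
        let z : Fin n := ⟨(x.val + k) % n, Nat.mod_lt _ hn⟩
        have h1 := ih hpos (by omega) x z rfl
        have h2 := h z
        have e1 : nxt z = y := by
          apply Fin.ext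
          change ((x.val + k) % n + 1) % n = y.val
          rw [hxy, Nat.mod_add_mod]
          rfl
        rw [e1] at h2
        have hx := x.isLt
        have hmod : ∀ m, m < 2 * n → m % n = if m < n then m else m - n := by
          intro m hm
          split_ifs with hc
          · exact Nat.mod_eq_of_lt hc
          · rw [Nat.mod_eq_sub_mod (by omega), Nat.mod_eq_of_lt (by omega)]
        have hz : z.val = (x.val + k) % n := rfl
        rw [hmod _ (by omega)] at hz hxy
        refine R.comm_e ?_ ?_ ?_ h1 h2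
        · intro hc
          have := congrArg Fin.val hc
          split_ifs at hz <;> omega
        · intro hc
          have := congrArg Fin.val hc
          split_ifs at hz hxy <;> omega
        · intro hc
          have := congrArg Fin.val hc
          split_ifs at hxy <;> omega
  intro x _ y _ hxy
  have hx := x.isLt
  have hy := y.isLt
  have hne : x.val ≠ y.val := fun h => hxy (Fin.ext h)
  rcases Nat.lt_or_ge x.val y.val with hlt | hge
  · refine key (y.val - x.val) (by omega) (by omega) x y ?_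
    rw [Nat.mod_eq_of_lt (by omega)]; omega
  · refine key (y.val + n - x.val) (by omega) (by omega) x y ?_
    have : x.val + (y.val + n - x.val) = y.val + n := by omega
    rw [this, Nat.add_mod_right, Nat.mod_eq_of_lt hy]

theorem R2.cast {M : Submonoid (Matrix (Fin n) (Fin n) F)} {v v' φ φ' : Fin n → ZMod 2}
    (h : R2 M v φ) (hv : v = v' ∧ φ = φ') : R2 M v' φ' := by
  obtain ⟨rfl, rfl⟩ := hv
  exact h

/-- the decidable part of a gadget over the prime field -/
structure Z2Data (α β π g1 h1 g2 h2 g3 h3 c1 c2 c4 : Matrix (Fin n) (Fin n) (ZMod 2))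
    (i j : Fin n) : Prop where
  hij : i ≠ j
  hk : ∃ k, k ≠ i ∧ k ≠ j
  hα : α * α = 1
  hβ : β * β = 1
  hπ : π * π = 1
  hαβ : α * β = β * α
  αi : α *ᵥ e2 i = e2 j
  αj : α *ᵥ e2 j = e2 i
  iα : e2 i ᵥ* α = e2 j
  jα : e2 j ᵥ* α = e2 i
  πi : π *ᵥ e2 i = e2 i
  πj : π *ᵥ e2 j = e2 j
  iπ : e2 i ᵥ* π = e2 i
  jπ : e2 j ᵥ* π = e2 j
  n1 : π * (sw i j * α) = c1
  n2 : c1 * c1 = c2
  n3 : c2 * c2 = c4
  n4 : c4 * c4 = 1
  hg1 : g1 * h1 = 1 ∧ g1 * α = β * g1
  hg2 : g2 * h2 = 1 ∧ g2 * α = (α * β) * g2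
  hg3 : g3 * h3 = 1 ∧ g3 * α = (π * sw i j) * g3

theorem gadget_of_z2
    {α β π g1 h1 g2 h2 g3 h3 c1 c2 c4 : Matrix (Fin n) (Fin n) (ZMod 2)} {i j : Fin n}
    (hd : Z2Data α β π g1 h1 g2 h2 g3 h3 c1 c2 c4 i j) {l : F}
    (hl : ∀ a : F, a ≠ 0 → ∃ k : ℕ, a = l ^ k) (hl0 : l ≠ 0)
    (hLC : ∀ M : Submonoid (Matrix (Fin n) (Fin n) F), Ctx l α β π i j M →
      ∀ x : Fin n, R2 M (e2 x) (e2 (nxt x))) :
    IsGadget l (lf F α) (lf F β) (lf F π) i j where
  hij := hd.hij
  hk := hd.hk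
  hα := lf_sq hd.hα
  hβ := lf_sq hd.hβ
  hπ := lf_sq hd.hπ
  hαβ := by rw [← lf_mul, ← lf_mul, hd.hαβ]
  αi := by rw [← lv_e2, ← lv_e2, lf_mulVec, hd.αi]
  αj := by rw [← lv_e2, ← lv_e2, lf_mulVec, hd.αj]
  iα := by rw [← lv_e2, ← lv_e2, lf_vecMul, hd.iα]
  jα := by rw [← lv_e2, ← lv_e2, lf_vecMul, hd.jα]
  off := ⟨by rw [← lv_e2, lf_mulVec, hd.πi], by rw [← lv_e2, lf_mulVec, hd.πj],
    by rw [← lv_e2, lf_vecMul, hd.iπ], by rw [← lv_e2, lf_vecMul, hd.jπ]⟩
  nil := by
    refine ⟨3, ?_⟩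
    rw [← lf_sw hd.hij, ← lf_mul, ← lf_mul, hd.n1, ← lf_pow]
    have : c1 ^ (2 ^ 3) = 1 := by
      have e1 : c1 ^ (2 ^ 3) = ((c1 ^ 2) ^ 2) ^ 2 := by rw [← pow_mul, ← pow_mul]; norm_num
      rw [e1, pow_two c1, hd.n2, pow_two c2, hd.n3, pow_two c4, hd.n4]
    rw [this, lf_one]
  c1 := SConj_lf hd.hg1
  c2 := by rw [← lf_mul]; exact SConj_lf hd.hg2
  c3 := by rw [← lf_sw hd.hij, ← lf_mul]; exact SConj_lf hd.hg3
  LC := by
    intro M hinv hD hα hβ hπ
    have ctx : Ctx l α β π i j M := ⟨hinv, hl, hl0, hD, hd.hα, hd.hβ, hd.hπ, hα, hβ, hπ⟩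
    apply full_of_cycle
    intro x
    have := (hLC M ctx x).1
    rwa [lv_e2, lv_e2] at this

end z2gad

end H47Inv
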