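import Mathlib
import Pool.Agent.H.MP_0335f8_al.Z2Gad

set_option linter.unusedSectionVars false
set_option maxRecDepth 20000

namespace H47Inv

open Matrix

section base10

/-- data -/
def al10 : Matrix (Fin 10) (Fin 10) (ZMod 2) :=
  !![0, 1, 0, 0, 0, 0, 0, 0, 0, 0; 1, 0, 0, 0, 0, 0, 0, 0, 0, 0; 0, 0, 0, 1, 0, 0, 0, 0, 0, 0; 0, 0, 1, 0, 0, 0, 0, 0, 0, 0; 0, 0, 0, 0, 0, 1, 0, 0, 0, 0; 0, 0, 0, 0, 1, 0, 0, 0, 0, 0; 0, 0, 0, 0, 0, 0, 1, 0, 0, 0; 0, 0, 0, 0, 0, 0, 0, 0, 1, 0; 0, 0, 0, 0, 0, 0, 0, 1, 0, 0; 0, 0, 0, 0, 0, 0, 0, 0, 0, 1]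

/-- data -/
def be10 : Matrix (Fin 10) (Fin 10) (ZMod 2) :=
  !![0, 0, 1, 0, 0, 0, 0, 0, 0, 0; 0, 0, 0, 1, 0, 0, 0, 0, 0, 0; 1, 0, 0, 0, 0, 0, 0, 0, 0, 0; 0, 1, 0, 0, 0, 0, 0, 0, 0, 0; 0, 0, 0, 0, 1, 0, 1, 0, 0, 0; 0, 0, 0, 0, 0, 1, 1, 0, 0, 0; 0, 0, 0, 0, 0, 0, 1, 0, 0, 0; 0, 0, 0, 0, 0, 0, 0, 1, 0, 0; 0, 0, 0, 0, 0, 0, 0, 0, 1, 0; 0, 0, 0, 0, 0, 0, 0, 1, 1, 1]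

/-- data -/
def pi10 : Matrix (Fin 10) (Fin 10) (ZMod 2) :=
  !![1, 0, 0, 0, 0, 0, 0, 0, 0, 0; 0, 1, 0, 0, 0, 0, 0, 0, 0, 0; 0, 0, 1, 0, 0, 0, 0, 0, 0, 0; 0, 0, 0, 0, 0, 0, 0, 0, 1, 0; 0, 0, 0, 0, 0, 0, 1, 0, 0, 0; 0, 0, 0, 0, 0, 0, 0, 0, 0, 1; 0, 0, 0, 0, 1, 0, 0, 0, 0, 0; 0, 0, 0, 0, 0, 1, 0, 1, 0, 1; 0, 0, 0, 1, 0, 0, 0, 0, 0, 0; 0, 0, 0, 0, 0, 1, 0, 0, 0, 0]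

/-- data -/
def ga10 : Matrix (Fin 10) (Fin 10) (ZMod 2) :=
  !![0, 0, 0, 0, 1, 0, 0, 0, 1, 0; 0, 0, 1, 0, 0, 0, 0, 1, 0, 0; 0, 0, 0, 0, 0, 1, 0, 1, 0, 0; 0, 0, 0, 1, 0, 0, 0, 0, 1, 0; 0, 1, 0, 0, 0, 1, 1, 0, 0, 0; 0, 1, 0, 0, 0, 1, 0, 0, 0, 0; 1, 1, 0, 0, 1, 1, 0, 0, 0, 0; 0, 0, 0, 0, 1, 1, 0, 0, 0, 1; 0, 0, 0, 0, 0, 0, 0, 0, 0, 1; 0, 0, 0, 0, 0, 1, 0, 0, 0, 0]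

/-- data -/
def ha10 : Matrix (Fin 10) (Fin 10) (ZMod 2) :=
  !![0, 0, 0, 0, 0, 1, 1, 1, 1, 1; 0, 0, 0, 0, 0, 1, 0, 0, 0, 1; 0, 1, 1, 0, 0, 0, 0, 0, 0, 1; 1, 0, 0, 1, 0, 0, 0, 1, 1, 1; 0, 0, 0, 0, 0, 0, 0, 1, 1, 1; 0, 0, 0, 0, 0, 0, 0, 0, 0, 1; 0, 0, 0, 0, 1, 1, 0, 0, 0, 0; 0, 0, 1, 0, 0, 0, 0, 0, 0, 1; 1, 0, 0, 0, 0, 0, 0, 1, 1, 1; 0, 0, 0, 0, 0, 0, 0, 0, 1, 0]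

/-- data -/
def gb10 : Matrix (Fin 10) (Fin 10) (ZMod 2) :=
  !![0, 0, 0, 0, 1, 0, 0, 0, 0, 0; 0, 0, 0, 1, 0, 0, 0, 0, 0, 0; 0, 0, 1, 0, 0, 0, 0, 0, 0, 0; 0, 0, 0, 0, 0, 1, 0, 0, 0, 0; 1, 0, 1, 1, 0, 0, 0, 0, 1, 0; 0, 1, 0, 0, 1, 1, 0, 0, 1, 1; 0, 0, 1, 1, 1, 1, 0, 1, 1, 1; 0, 0, 1, 0, 0, 0, 0, 1, 0, 0; 0, 0, 0, 1, 0, 0, 0, 0, 1, 0; 0, 0, 0, 1, 0, 0, 1, 0, 1, 0]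

/-- data -/
def hb10 : Matrix (Fin 10) (Fin 10) (ZMod 2) :=
  !![0, 0, 1, 0, 1, 0, 0, 0, 1, 0; 0, 1, 0, 0, 0, 1, 1, 1, 0, 0; 0, 0, 1, 0, 0, 0, 0, 0, 0, 0; 0, 1, 0, 0, 0, 0, 0, 0, 0, 0; 1, 0, 0, 0, 0, 0, 0, 0, 0, 0; 0, 0, 0, 1, 0, 0, 0, 0, 0, 0; 0, 0, 0, 0, 0, 0, 0, 0, 1, 1; 0, 0, 1, 0, 0, 0, 0, 1, 0, 0; 0, 1, 0, 0, 0, 0, 0, 0, 1, 0; 1, 0, 0, 1, 0, 0, 1, 1, 1, 0]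

/-- data -/
def gc10 : Matrix (Fin 10) (Fin 10) (ZMod 2) :=
  !![0, 0, 1, 0, 0, 0, 0, 0, 0, 1; 0, 0, 0, 1, 0, 0, 0, 0, 0, 1; 0, 0, 0, 0, 0, 0, 1, 1, 1, 1; 0, 0, 0, 0, 0, 1, 0, 0, 0, 0; 1, 0, 0, 0, 1, 0, 0, 0, 0, 0; 0, 0, 1, 0, 0, 0, 0, 0, 1, 1; 0, 1, 0, 0, 0, 1, 0, 0, 0, 0; 0, 0, 0, 1, 0, 0, 0, 0, 1, 0; 0, 0, 0, 0, 1, 0, 0, 0, 0, 0; 0, 0, 0, 1, 0, 0, 0, 1, 0, 1]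

/-- data -/
def hc10 : Matrix (Fin 10) (Fin 10) (ZMod 2) :=
  !![0, 0, 0, 0, 1, 0, 0, 0, 1, 0; 0, 0, 0, 1, 0, 0, 1, 0, 0, 0; 0, 1, 0, 0, 0, 1, 0, 1, 0, 0; 1, 0, 0, 0, 0, 1, 0, 1, 0, 0; 0, 0, 0, 0, 0, 0, 0, 0, 1, 0; 0, 0, 0, 1, 0, 0, 0, 0, 0, 0; 0, 0, 1, 0, 0, 0, 0, 1, 0, 1; 0, 1, 0, 0, 0, 0, 0, 0, 0, 1; 1, 0, 0, 0, 0, 1, 0, 0, 0, 0; 1, 1, 0, 0, 0, 1, 0, 1, 0, 0]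

/-- data -/
def cu10 : Matrix (Fin 10) (Fin 10) (ZMod 2) :=
  !![1, 0, 0, 0, 0, 0, 0, 0, 0, 0; 0, 1, 0, 0, 0, 0, 0, 0, 0, 0; 0, 0, 0, 1, 0, 0, 0, 0, 0, 0; 0, 0, 0, 0, 0, 0, 0, 1, 0, 0; 0, 0, 0, 0, 0, 0, 1, 0, 0, 0; 0, 0, 0, 0, 0, 0, 0, 0, 0, 1; 0, 0, 0, 0, 0, 1, 0, 0, 0, 0; 0, 0, 0, 0, 1, 0, 0, 0, 1, 1; 0, 0, 1, 0, 0, 0, 0, 0, 0, 0; 0, 0, 0, 0, 1, 0, 0, 0, 0, 0]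

/-- data -/
def cv10 : Matrix (Fin 10) (Fin 10) (ZMod 2) :=
  !![1, 0, 0, 0, 0, 0, 0, 0, 0, 0; 0, 1, 0, 0, 0, 0, 0, 0, 0, 0; 0, 0, 0, 0, 0, 0, 0, 1, 0, 0; 0, 0, 0, 0, 1, 0, 0, 0, 1, 1; 0, 0, 0, 0, 0, 1, 0, 0, 0, 0; 0, 0, 0, 0, 1, 0, 0, 0, 0, 0; 0, 0, 0, 0, 0, 0, 0, 0, 0, 1; 0, 0, 1, 0, 1, 0, 1, 0, 0, 0; 0, 0, 0, 1, 0, 0, 0, 0, 0, 0; 0, 0, 0, 0, 0, 0, 1, 0, 0, 0]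

/-- data -/
def cw10 : Matrix (Fin 10) (Fin 10) (ZMod 2) :=
  !![1, 0, 0, 0, 0, 0, 0, 0, 0, 0; 0, 1, 0, 0, 0, 0, 0, 0, 0, 0; 0, 0, 1, 0, 1, 0, 1, 0, 0, 0; 0, 0, 0, 1, 0, 1, 1, 0, 0, 0; 0, 0, 0, 0, 1, 0, 0, 0, 0, 0; 0, 0, 0, 0, 0, 1, 0, 0, 0, 0; 0, 0, 0, 0, 0, 0, 1, 0, 0, 0; 0, 0, 0, 0, 0, 1, 0, 1, 0, 1; 0, 0, 0, 0, 1, 0, 0, 0, 1, 1; 0, 0, 0, 0, 0, 0, 0, 0, 0, 1]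

theorem data10 : Z2Data al10 be10 pi10 ga10 ha10 gb10 hb10 gc10 hc10 cu10 cv10 cw10 0 1 where
  hij := by decide +kernel
  hk := by decide +kernel
  hα := by decide +kernel
  hβ := by decide +kernel
  hπ := by decide +kernel
  hαβ := by decide +kernel
  αi := by decide +kernel
  αj := by decide +kernel
  iα := by decide +kernel
  jα := by decide +kernel
  πi := by decide +kernel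
  πj := by decide +kernel
  iπ := by decide +kernel
  jπ := by decide +kernel
  n1 := by decide +kernel
  n2 := by decide +kernel
  n3 := by decide +kernel
  n4 := by decide +kernel
  hg1 := by decide +kernel
  hg2 := by decide +kernel
  hg3 := by decide +kernel

theorem lc10 {F : Type*} [Field F] [CharP F 2] {l : F} (M : Submonoid (Matrix (Fin 10) (Fin 10) F))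
    (c : Ctx l al10 be10 pi10 0 1 M) (x : Fin 10) : R2 M (e2 x) (e2 (nxt x)) := by
  have d0 : D2 l M ![1, 0, 0, 0, 0, 0, 0, 0, 0, 0] ![0, 1, 0, 0, 0, 0, 0, 0, 0, 0] ![1, 0, 0, 0, 0, 0, 0, 0, 0, 0] ![0, 1, 0, 0, 0, 0, 0, 0, 0, 0] :=
    D2.init c (by decide) (by decide +kernel)
  have d1 : D2 l M ![0, 0, 1, 0, 0, 0, 0, 0, 0, 0] ![0, 0, 0, 1, 0, 0, 0, 0, 0, 0] ![0, 0, 1, 0, 0, 0, 0, 0, 0, 0] ![0, 0, 0, 1, 0, 0, 0, 0, 0, 0] :=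
    D2.be c d0 (by decide +kernel)
  have d2 : D2 l M ![0, 0, 1, 0, 0, 0, 0, 0, 0, 0] ![0, 0, 0, 0, 0, 0, 0, 0, 1, 0] ![0, 0, 1, 0, 0, 0, 0, 0, 0, 0] ![0, 0, 0, 0, 0, 0, 0, 0, 1, 0] :=
    D2.pi c d1 (by decide +kernel)
  have d3 : D2 l M ![0, 0, 0, 1, 0, 0, 0, 0, 0, 0] ![0, 0, 0, 0, 0, 0, 0, 1, 0, 0] ![0, 0, 0, 1, 0, 0, 0, 0, 0, 0] ![0, 0, 0, 0, 0, 0, 0, 1, 0, 0] :=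
    D2.al c d2 (by decide +kernel)
  have d4 : D2 l M ![0, 1, 0, 0, 0, 0, 0, 0, 0, 0] ![0, 0, 0, 0, 0, 0, 0, 1, 0, 1] ![0, 1, 0, 0, 0, 0, 0, 0, 0, 0] ![0, 0, 0, 0, 0, 0, 0, 1, 0, 0] :=
    D2.be c d3 (by decide +kernel)
  have r5 : R2 M ![1, 0, 0, 0, 0, 0, 0, 0, 0, 0] ![0, 1, 0, 0, 0, 0, 0, 0, 0, 0] :=
    (T2 c d0 d4 (by decide +kernel)).1.2.1
  have d6 : D2 l M ![0, 1, 0, 0, 0, 0, 0, 0, 0, 0] ![1, 0, 0, 0, 0, 0, 0, 0, 0, 0] ![0, 1, 0, 0, 0, 0, 0, 0, 0, 0] ![1, 0, 0, 0, 0, 0, 0, 0, 0, 0] :=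
    D2.symm c d0
  have d7 : D2 l M ![1, 0, 0, 0, 0, 0, 0, 0, 0, 0] ![0, 0, 0, 0, 0, 0, 0, 0, 1, 1] ![1, 0, 0, 0, 0, 0, 0, 0, 0, 0] ![0, 0, 0, 0, 0, 0, 0, 0, 1, 0] :=
    D2.be c d2 (by decide +kernel)
  have r8 : R2 M ![0, 1, 0, 0, 0, 0, 0, 0, 0, 0] ![0, 0, 0, 0, 0, 0, 0, 0, 1, 0] :=
    (T2 c d6 d7 (by decide +kernel)).1.1
  have r9 : R2 M ![0, 1, 0, 0, 0, 0, 0, 0, 0, 0] ![0, 0, 1, 0, 0, 0, 0, 0, 0, 0] :=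
    (WR2 c d2 r8 (by decide +kernel)).1
  have r10 : R2 M ![0, 0, 1, 0, 0, 0, 0, 0, 0, 0] ![0, 0, 0, 1, 0, 0, 0, 0, 0, 0] :=
    (T2 c d1 d3 (by decide +kernel)).1.2.1
  have r11 : R2 M ![0, 0, 0, 1, 0, 0, 0, 0, 0, 0] ![0, 0, 0, 0, 0, 0, 0, 1, 0, 0] :=
    (T2 c d1 d3 (by decide +kernel)).1.2.2
  have r12 : R2 M ![0, 0, 0, 1, 0, 0, 0, 0, 0, 0] ![0, 1, 0, 0, 0, 0, 0, 0, 0, 0] :=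
    (WR2 c d4 r11 (by decide +kernel)).1
  have d13 : D2 l M ![0, 0, 0, 0, 0, 0, 0, 0, 1, 0] ![0, 0, 0, 0, 0, 0, 0, 1, 0, 0] ![0, 0, 0, 0, 0, 0, 0, 0, 1, 0] ![0, 0, 0, 0, 0, 1, 0, 1, 0, 1] :=
    D2.pi c d3 (by decide +kernel)
  have d14 : D2 l M ![0, 0, 0, 0, 0, 0, 0, 1, 0, 0] ![0, 0, 0, 0, 0, 0, 0, 0, 1, 0] ![0, 0, 0, 0, 0, 0, 0, 1, 0, 0] ![0, 0, 0, 0, 1, 0, 0, 0, 1, 1] :=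
    D2.al c d13 (by decide +kernel)
  have d15 : D2 l M ![0, 0, 0, 0, 0, 0, 0, 1, 0, 0] ![0, 0, 0, 1, 0, 0, 0, 0, 0, 0] ![0, 0, 0, 0, 0, 1, 0, 1, 0, 1] ![0, 0, 0, 1, 0, 1, 1, 0, 0, 0] :=
    D2.pi c d14 (by decide +kernel)
  have d16 : D2 l M ![0, 0, 0, 0, 0, 0, 0, 1, 0, 1] ![0, 1, 0, 0, 0, 0, 0, 0, 0, 0] ![0, 0, 0, 0, 0, 1, 1, 0, 1, 1] ![0, 1, 0, 0, 0, 1, 0, 0, 0, 0] :=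
    D2.be c d15 (by decide +kernel)
  have d17 : D2 l M ![0, 0, 0, 0, 0, 0, 0, 0, 1, 0] ![0, 0, 1, 0, 0, 0, 0, 0, 0, 0] ![0, 0, 0, 0, 1, 0, 0, 0, 1, 1] ![0, 0, 1, 0, 1, 0, 1, 0, 0, 0] :=
    D2.al c d15 (by decide +kernel)
  have d18 : D2 l M ![0, 0, 0, 1, 0, 0, 0, 0, 0, 0] ![0, 0, 1, 0, 0, 0, 0, 0, 0, 0] ![0, 0, 0, 1, 0, 1, 1, 0, 0, 0] ![0, 0, 1, 0, 1, 0, 1, 0, 0, 0] :=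
    D2.pi c d17 (by decide +kernel)
  have d19 : D2 l M ![0, 1, 0, 0, 0, 0, 0, 0, 0, 0] ![1, 0, 0, 0, 0, 0, 0, 0, 0, 0] ![0, 1, 0, 0, 0, 1, 0, 0, 0, 0] ![1, 0, 0, 0, 1, 0, 0, 0, 0, 0] :=
    D2.be c d18 (by decide +kernel)
  have r20 : R2 M ![0, 1, 0, 0, 0, 0, 0, 0, 0, 0] ![1, 0, 0, 0, 1, 0, 0, 0, 0, 0] :=
    (T2 c d16 d19 (by decide +kernel)).1.2.2
  have r21 : R2 M ![0, 1, 0, 0, 0, 0, 0, 0, 0, 0] ![1, 0, 0, 0, 0, 0, 0, 0, 0, 0] :=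
    (T2 c d0 d4 (by decide +kernel)).2.2.2
  have r22 : R2 M ![0, 1, 0, 0, 0, 0, 0, 0, 0, 0] ![0, 0, 0, 0, 1, 0, 0, 0, 0, 0] :=
    R2.addr r20 r21 (by decide +kernel)
  have r23 : R2 M ![0, 0, 0, 1, 0, 0, 0, 0, 0, 0] ![0, 0, 0, 0, 1, 0, 0, 0, 0, 0] :=
    R2.comm r12 r22 (by decide +kernel)
  have d24 : D2 l M ![0, 0, 0, 0, 0, 0, 0, 0, 1, 1] ![0, 0, 0, 0, 0, 0, 0, 1, 0, 1] ![0, 0, 0, 0, 0, 0, 0, 0, 1, 0] ![0, 0, 0, 0, 0, 1, 1, 0, 1, 1] :=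
    D2.be c d13 (by decide +kernel)
  have d25 : D2 l M ![0, 0, 0, 1, 0, 1, 0, 1, 0, 0] ![0, 0, 0, 0, 0, 1, 0, 0, 0, 0] ![0, 0, 0, 1, 0, 0, 0, 0, 0, 0] ![0, 0, 0, 1, 1, 1, 0, 0, 0, 1] :=
    D2.pi c d24 (by decide +kernel)
  have d26 : D2 l M ![0, 0, 1, 0, 1, 0, 0, 0, 1, 0] ![0, 0, 0, 0, 1, 0, 0, 0, 0, 0] ![0, 0, 1, 0, 0, 0, 0, 0, 0, 0] ![0, 0, 1, 0, 1, 1, 0, 0, 0, 1] :=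
    D2.al c d25 (by decide +kernel)
  have d27 : D2 l M ![1, 0, 0, 0, 1, 0, 0, 0, 1, 1] ![0, 0, 0, 0, 1, 0, 0, 0, 0, 0] ![1, 0, 0, 0, 0, 0, 0, 0, 0, 0] ![1, 0, 0, 0, 1, 1, 0, 1, 1, 1] :=
    D2.be c d26 (by decide +kernel)
  have r28 : R2 M ![1, 0, 0, 0, 0, 0, 0, 0, 0, 0] ![0, 0, 0, 0, 0, 1, 0, 0, 0, 0] :=
    R2.al c r22 (by decide +kernel)
  have r29 : R2 M ![0, 0, 0, 0, 1, 0, 0, 0, 0, 0] ![0, 0, 0, 0, 0, 1, 0, 0, 0, 0] :=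
    (WL2 c d27 r28 (by decide +kernel)).2
  have d30 : D2 l M ![0, 0, 0, 0, 0, 0, 0, 1, 0, 1] ![0, 0, 0, 0, 0, 0, 0, 0, 1, 1] ![0, 0, 0, 0, 0, 0, 0, 1, 0, 0] ![0, 0, 0, 0, 1, 0, 1, 1, 0, 1] :=
    D2.be c d14 (by decide +kernel)
  have d31 : D2 l M ![0, 0, 0, 0, 0, 1, 0, 0, 0, 0] ![0, 0, 0, 1, 0, 1, 0, 1, 0, 0] ![0, 0, 0, 0, 0, 1, 0, 1, 0, 1] ![0, 0, 0, 0, 1, 0, 1, 1, 0, 1] :=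
    D2.pi c d30 (by decide +kernel)
  have r32 : R2 M ![0, 0, 0, 0, 0, 0, 0, 1, 0, 0] ![0, 0, 1, 0, 0, 0, 0, 0, 0, 0] :=
    (T2 c d1 d3 (by decide +kernel)).2.1
  have r33 : R2 M ![0, 0, 0, 0, 0, 1, 0, 0, 0, 0] ![0, 0, 1, 0, 0, 0, 0, 0, 0, 0] :=
    (WL2 c d31 r32 (by decide +kernel)).1
  have r34 : R2 M ![0, 0, 1, 0, 0, 0, 0, 0, 0, 0] ![0, 0, 0, 0, 0, 0, 0, 1, 0, 0] :=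
    (T2 c d1 d3 (by decide +kernel)).1.1
  have r35 : R2 M ![0, 0, 1, 0, 0, 0, 0, 0, 0, 0] ![0, 1, 0, 0, 0, 0, 0, 0, 0, 0] :=
    (WR2 c d4 r34 (by decide +kernel)).1
  have r36 : R2 M ![0, 0, 1, 0, 0, 0, 0, 0, 0, 0] ![0, 0, 0, 0, 1, 0, 0, 0, 0, 0] :=
    R2.comm r35 r22 (by decide +kernel)
  have r37 : R2 M ![0, 0, 1, 0, 0, 0, 0, 0, 0, 0] ![0, 0, 0, 0, 0, 0, 1, 0, 0, 0] :=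
    R2.pi c r36 (by decide +kernel)
  have r38 : R2 M ![0, 0, 0, 0, 0, 1, 0, 0, 0, 0] ![0, 0, 0, 0, 0, 0, 1, 0, 0, 0] :=
    R2.comm r33 r37 (by decide +kernel)
  have d39 : D2 l M ![0, 0, 1, 1, 0, 0, 1, 0, 0, 0] ![0, 0, 0, 0, 0, 0, 1, 0, 0, 0] ![0, 0, 1, 0, 0, 0, 0, 0, 0, 0] ![0, 0, 1, 0, 0, 1, 1, 0, 0, 1] :=
    D2.pi c d26 (by decide +kernel)
  have r40 : R2 M ![0, 0, 0, 0, 0, 0, 1, 0, 0, 0] ![0, 0, 0, 0, 0, 0, 0, 1, 0, 0] :=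
    (WL2 c d39 r34 (by decide +kernel)).2
  have r41 : R2 M ![0, 0, 0, 0, 0, 0, 0, 1, 0, 0] ![0, 0, 0, 0, 0, 0, 0, 0, 1, 0] :=
    (T2 c d2 d13 (by decide +kernel)).2.2.1
  have d42 : D2 l M ![0, 0, 0, 1, 0, 0, 0, 0, 0, 0] ![0, 0, 1, 0, 0, 0, 0, 0, 0, 0] ![0, 0, 0, 1, 0, 0, 0, 0, 0, 0] ![0, 0, 1, 0, 0, 0, 0, 0, 0, 0] :=
    D2.be c d6 (by decide +kernel)
  have r43 : R2 M ![0, 0, 0, 1, 0, 0, 0, 0, 0, 0] ![0, 0, 0, 0, 0, 0, 0, 0, 1, 0] :=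
    (T2 c d42 d2 (by decide +kernel)).1.1
  have r44 : R2 M ![0, 0, 0, 1, 0, 0, 0, 0, 0, 0] ![1, 0, 0, 0, 0, 0, 0, 0, 0, 0] :=
    (WR2 c d7 r43 (by decide +kernel)).1
  have r45 : R2 M ![0, 0, 0, 1, 0, 0, 0, 0, 0, 0] ![0, 0, 0, 0, 0, 1, 0, 0, 0, 0] :=
    R2.comm r44 r28 (by decide +kernel)
  have r46 : R2 M ![0, 0, 0, 0, 0, 0, 0, 0, 1, 0] ![0, 0, 0, 0, 0, 0, 0, 0, 0, 1] :=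
    R2.pi c r45 (by decide +kernel)
  have r47 : R2 M ![0, 0, 0, 0, 0, 0, 0, 1, 0, 1] ![1, 0, 0, 0, 0, 0, 0, 0, 0, 0] :=
    (T2 c d0 d4 (by decide +kernel)).2.1
  have r48 : R2 M ![0, 0, 0, 0, 0, 0, 0, 1, 0, 0] ![1, 0, 0, 0, 0, 0, 0, 0, 0, 0] :=
    (WR2 c d7 r41 (by decide +kernel)).1
  have r49 : R2 M ![0, 0, 0, 0, 0, 0, 0, 0, 0, 1] ![1, 0, 0, 0, 0, 0, 0, 0, 0, 0] :=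
    R2.addl r47 r48 (by decide +kernel)
  fin_cases x
  · exact r5.cast (by decide +kernel)
  · exact r9.cast (by decide +kernel)
  · exact r10.cast (by decide +kernel)
  · exact r23.cast (by decide +kernel)
  · exact r29.cast (by decide +kernel)
  · exact r38.cast (by decide +kernel)
  · exact r40.cast (by decide +kernel)
  · exact r41.cast (by decide +kernel)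
  · exact r46.cast (by decide +kernel)
  · exact r49.cast (by decide +kernel)

/-- the gadget of size 10 -/
theorem gadget10 {F : Type*} [Field F] [CharP F 2] {l : F}
    (hl : ∀ a : F, a ≠ 0 → ∃ k : ℕ, a = l ^ k) (hl0 : l ≠ 0) :
    IsGadget l (lf F al10) (lf F be10) (lf F pi10) 0 1 :=
  gadget_of_z2 data10 hl hl0 (fun M c x => lc10 M c x)

end base10

end H47Inv
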