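import Mathlib
import Pool.Agent.H.MP_0335f8_al.Z2Gad

set_option linter.unusedSectionVars false
set_option maxRecDepth 20000

namespace H47Inv

open Matrix

section base5

/-- data -/
def al5 : Matrix (Fin 5) (Fin 5) (ZMod 2) :=
  !![0, 1, 0, 0, 0; 1, 0, 0, 0, 0; 0, 0, 0, 1, 0; 0, 0, 1, 0, 0; 0, 0, 0, 0, 1]

/-- data -/
def be5 : Matrix (Fin 5) (Fin 5) (ZMod 2) :=
  !![0, 0, 1, 0, 0; 0, 0, 0, 1, 0; 1, 0, 0, 0, 0; 0, 1, 0, 0, 0; 0, 0, 0, 0, 1]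

/-- data -/
def pi5 : Matrix (Fin 5) (Fin 5) (ZMod 2) :=
  !![1, 0, 0, 0, 0; 0, 1, 0, 0, 0; 0, 0, 0, 0, 1; 0, 0, 1, 1, 1; 0, 0, 1, 0, 0]

/-- data -/
def ga5 : Matrix (Fin 5) (Fin 5) (ZMod 2) :=
  !![0, 0, 0, 1, 0; 1, 0, 0, 0, 0; 0, 0, 1, 0, 0; 0, 1, 0, 0, 0; 0, 0, 0, 0, 1]

/-- data -/
def ha5 : Matrix (Fin 5) (Fin 5) (ZMod 2) :=
  !![0, 1, 0, 0, 0; 0, 0, 0, 1, 0; 0, 0, 1, 0, 0; 1, 0, 0, 0, 0; 0, 0, 0, 0, 1]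

/-- data -/
def gb5 : Matrix (Fin 5) (Fin 5) (ZMod 2) :=
  !![1, 0, 0, 0, 0; 0, 0, 0, 1, 0; 0, 0, 1, 0, 0; 0, 1, 0, 0, 0; 0, 0, 0, 0, 1]

/-- data -/
def hb5 : Matrix (Fin 5) (Fin 5) (ZMod 2) :=
  !![1, 0, 0, 0, 0; 0, 0, 0, 1, 0; 0, 0, 1, 0, 0; 0, 1, 0, 0, 0; 0, 0, 0, 0, 1]

/-- data -/
def gc5 : Matrix (Fin 5) (Fin 5) (ZMod 2) :=
  !![1, 0, 0, 0, 0; 0, 1, 0, 0, 0; 0, 0, 0, 1, 0; 0, 0, 1, 0, 1; 0, 0, 1, 0, 0]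

/-- data -/
def hc5 : Matrix (Fin 5) (Fin 5) (ZMod 2) :=
  !![1, 0, 0, 0, 0; 0, 1, 0, 0, 0; 0, 0, 0, 0, 1; 0, 0, 1, 0, 0; 0, 0, 0, 1, 1]

/-- data -/
def cu5 : Matrix (Fin 5) (Fin 5) (ZMod 2) :=
  !![1, 0, 0, 0, 0; 0, 1, 0, 0, 0; 0, 0, 0, 0, 1; 0, 0, 1, 1, 1; 0, 0, 0, 1, 0]

/-- data -/
def cv5 : Matrix (Fin 5) (Fin 5) (ZMod 2) :=
  !![1, 0, 0, 0, 0; 0, 1, 0, 0, 0; 0, 0, 0, 1, 0; 0, 0, 1, 0, 0; 0, 0, 1, 1, 1]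

/-- data -/
def cw5 : Matrix (Fin 5) (Fin 5) (ZMod 2) :=
  !![1, 0, 0, 0, 0; 0, 1, 0, 0, 0; 0, 0, 1, 0, 0; 0, 0, 0, 1, 0; 0, 0, 0, 0, 1]

theorem data5 : Z2Data al5 be5 pi5 ga5 ha5 gb5 hb5 gc5 hc5 cu5 cv5 cw5 0 1 where
  hij := by decide +kernel
  hk := by decide +kernel
  hα := by decide +kernel
  hβ := by decide +kernel
  hπ := by decide +kernel
  hαβ := by decide +kernel
  αi := by decide +kernel
  αj := by decide +kernel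
  iα := by decide +kernel
  jα := by decide +kernel
  πi := by decide +kernel
  πj := by decide +kernel
  iπ := by decide +kernel
  jπ := by decide +kernel
  n1 := by decide +kernel
  n2 := by decide +kernel
  n3 := by decide +kernel
  n4 := by decide +kernel
  hg1 := by decide +kernel
  hg2 := by decide +kernel
  hg3 := by decide +kernel

theorem lc5 {F : Type*} [Field F] [CharP F 2] {l : F} (M : Submonoid (Matrix (Fin 5) (Fin 5) F))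
    (c : Ctx l al5 be5 pi5 0 1 M) (x : Fin 5) : R2 M (e2 x) (e2 (nxt x)) := by
  have d0 : D2 l M ![1, 0, 0, 0, 0] ![0, 1, 0, 0, 0] ![1, 0, 0, 0, 0] ![0, 1, 0, 0, 0] :=
    D2.init c (by decide) (by decide +kernel)
  have d1 : D2 l M ![0, 0, 1, 0, 0] ![0, 0, 0, 1, 0] ![0, 0, 1, 0, 0] ![0, 0, 0, 1, 0] :=
    D2.be c d0 (by decide +kernel)
  have d2 : D2 l M ![0, 0, 0, 1, 1] ![0, 0, 0, 1, 0] ![0, 0, 0, 0, 1] ![0, 0, 1, 1, 1] :=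
    D2.pi c d1 (by decide +kernel)
  have d3 : D2 l M ![0, 0, 1, 0, 1] ![0, 0, 1, 0, 0] ![0, 0, 0, 0, 1] ![0, 0, 1, 1, 1] :=
    D2.al c d2 (by decide +kernel)
  have d4 : D2 l M ![1, 0, 0, 0, 1] ![1, 0, 0, 0, 0] ![0, 0, 0, 0, 1] ![1, 1, 0, 0, 1] :=
    D2.be c d3 (by decide +kernel)
  have d5 : D2 l M ![0, 0, 1, 0, 1] ![0, 0, 0, 1, 1] ![0, 0, 1, 0, 0] ![0, 0, 0, 1, 0] :=
    D2.pi c d3 (by decide +kernel)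
  have d6 : D2 l M ![1, 0, 0, 0, 1] ![0, 1, 0, 0, 1] ![1, 0, 0, 0, 0] ![0, 1, 0, 0, 0] :=
    D2.be c d5 (by decide +kernel)
  have r7 : R2 M ![0, 0, 0, 0, 1] ![0, 1, 0, 0, 0] :=
    (DS2 c d0 d6 (by decide +kernel)).2
  have r8 : R2 M ![1, 0, 0, 0, 0] ![0, 1, 0, 0, 0] :=
    (WL2 c d4 r7 (by decide +kernel)).2
  have d9 : D2 l M ![0, 1, 0, 0, 1] ![0, 1, 0, 0, 0] ![0, 0, 0, 0, 1] ![1, 1, 0, 0, 1] :=
    D2.be c d2 (by decide +kernel)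
  have r10 : R2 M ![0, 0, 0, 0, 1] ![0, 0, 1, 0, 0] :=
    (DS2 c d1 d5 (by decide +kernel)).1
  have r11 : R2 M ![0, 1, 0, 0, 0] ![0, 0, 1, 0, 0] :=
    (WL2 c d9 r10 (by decide +kernel)).2
  have r12 : R2 M ![0, 0, 0, 0, 1] ![0, 0, 0, 1, 0] :=
    (DS2 c d1 d5 (by decide +kernel)).2
  have r13 : R2 M ![0, 0, 1, 0, 0] ![0, 0, 0, 1, 0] :=
    (WL2 c d3 r12 (by decide +kernel)).2
  have r14 : R2 M ![0, 0, 0, 0, 1] ![1, 0, 0, 0, 0] :=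
    (DS2 c d0 d6 (by decide +kernel)).1
  have r15 : R2 M ![0, 0, 0, 1, 0] ![1, 0, 0, 0, 0] :=
    (WL2 c d2 r14 (by decide +kernel)).2
  have r16 : R2 M ![0, 0, 0, 1, 0] ![0, 0, 0, 0, 1] :=
    (WR2 c d4 r15 (by decide +kernel)).1
  fin_cases x
  · exact r8.cast (by decide +kernel)
  · exact r11.cast (by decide +kernel)
  · exact r13.cast (by decide +kernel)
  · exact r16.cast (by decide +kernel)
  · exact r14.cast (by decide +kernel)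

/-- the gadget of size 5 -/
theorem gadget5 {F : Type*} [Field F] [CharP F 2] {l : F}
    (hl : ∀ a : F, a ≠ 0 → ∃ k : ℕ, a = l ^ k) (hl0 : l ≠ 0) :
    IsGadget l (lf F al5) (lf F be5) (lf F pi5) 0 1 :=
  gadget_of_z2 data5 hl hl0 (fun M c x => lc5 M c x)

end base5

end H47Inv
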