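import Mathlib
import Pool.Agent.H.MP_0335f8_al.Z2Gad

set_option linter.unusedSectionVars false
set_option maxRecDepth 20000

namespace H47Inv

open Matrix

section base7

/-- data -/
def al7 : Matrix (Fin 7) (Fin 7) (ZMod 2) :=
  !![0, 1, 0, 0, 0, 0, 0; 1, 0, 0, 0, 0, 0, 0; 0, 0, 0, 1, 0, 0, 0; 0, 0, 1, 0, 0, 0, 0; 0, 0, 0, 0, 0, 1, 0; 0, 0, 0, 0, 1, 0, 0; 0, 0, 0, 0, 0, 0, 1]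

/-- data -/
def be7 : Matrix (Fin 7) (Fin 7) (ZMod 2) :=
  !![0, 0, 1, 0, 0, 0, 0; 0, 0, 0, 1, 0, 0, 0; 1, 0, 0, 0, 0, 0, 0; 0, 1, 0, 0, 0, 0, 0; 0, 0, 0, 0, 1, 0, 1; 0, 0, 0, 0, 0, 1, 1; 0, 0, 0, 0, 0, 0, 1]

/-- data -/
def pi7 : Matrix (Fin 7) (Fin 7) (ZMod 2) :=
  !![1, 0, 0, 0, 0, 0, 0; 0, 1, 0, 0, 0, 0, 0; 0, 0, 0, 0, 0, 1, 0; 0, 0, 0, 1, 0, 0, 0; 0, 0, 0, 0, 1, 0, 0; 0, 0, 1, 0, 0, 0, 0; 0, 0, 0, 0, 1, 0, 1]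

/-- data -/
def ga7 : Matrix (Fin 7) (Fin 7) (ZMod 2) :=
  !![0, 0, 0, 1, 0, 0, 0; 0, 0, 0, 0, 0, 1, 0; 0, 0, 1, 0, 0, 0, 0; 0, 0, 0, 0, 1, 0, 0; 1, 0, 0, 0, 0, 0, 1; 1, 0, 0, 0, 0, 0, 0; 1, 1, 0, 0, 0, 0, 0]

/-- data -/
def ha7 : Matrix (Fin 7) (Fin 7) (ZMod 2) :=
  !![0, 0, 0, 0, 0, 1, 0; 0, 0, 0, 0, 0, 1, 1; 0, 0, 1, 0, 0, 0, 0; 1, 0, 0, 0, 0, 0, 0; 0, 0, 0, 1, 0, 0, 0; 0, 1, 0, 0, 0, 0, 0; 0, 0, 0, 0, 1, 1, 0]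

/-- data -/
def gb7 : Matrix (Fin 7) (Fin 7) (ZMod 2) :=
  !![0, 0, 0, 0, 1, 0, 0; 0, 1, 0, 0, 0, 0, 0; 1, 0, 0, 0, 0, 0, 0; 0, 0, 0, 0, 0, 1, 0; 0, 0, 1, 0, 0, 0, 1; 0, 0, 0, 1, 0, 0, 0; 0, 0, 0, 0, 0, 0, 1]

/-- data -/
def hb7 : Matrix (Fin 7) (Fin 7) (ZMod 2) :=
  !![0, 0, 1, 0, 0, 0, 0; 0, 1, 0, 0, 0, 0, 0; 0, 0, 0, 0, 1, 0, 1; 0, 0, 0, 0, 0, 1, 0; 1, 0, 0, 0, 0, 0, 0; 0, 0, 0, 1, 0, 0, 0; 0, 0, 0, 0, 0, 0, 1]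

/-- data -/
def gc7 : Matrix (Fin 7) (Fin 7) (ZMod 2) :=
  !![0, 0, 0, 0, 0, 1, 0; 0, 0, 0, 0, 1, 0, 0; 0, 1, 0, 0, 0, 0, 0; 0, 0, 0, 0, 0, 0, 1; 0, 0, 1, 1, 0, 0, 0; 1, 0, 0, 0, 0, 0, 0; 0, 0, 0, 1, 0, 0, 0]

/-- data -/
def hc7 : Matrix (Fin 7) (Fin 7) (ZMod 2) :=
  !![0, 0, 0, 0, 0, 1, 0; 0, 0, 1, 0, 0, 0, 0; 0, 0, 0, 0, 1, 0, 1; 0, 0, 0, 0, 0, 0, 1; 0, 1, 0, 0, 0, 0, 0; 1, 0, 0, 0, 0, 0, 0; 0, 0, 0, 1, 0, 0, 0]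

/-- data -/
def cu7 : Matrix (Fin 7) (Fin 7) (ZMod 2) :=
  !![1, 0, 0, 0, 0, 0, 0; 0, 1, 0, 0, 0, 0, 0; 0, 0, 0, 0, 1, 0, 0; 0, 0, 1, 0, 0, 0, 0; 0, 0, 0, 0, 0, 1, 0; 0, 0, 0, 1, 0, 0, 0; 0, 0, 0, 0, 0, 1, 1]

/-- data -/
def cv7 : Matrix (Fin 7) (Fin 7) (ZMod 2) :=
  !![1, 0, 0, 0, 0, 0, 0; 0, 1, 0, 0, 0, 0, 0; 0, 0, 0, 0, 0, 1, 0; 0, 0, 0, 0, 1, 0, 0; 0, 0, 0, 1, 0, 0, 0; 0, 0, 1, 0, 0, 0, 0; 0, 0, 0, 1, 0, 1, 1]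

/-- data -/
def cw7 : Matrix (Fin 7) (Fin 7) (ZMod 2) :=
  !![1, 0, 0, 0, 0, 0, 0; 0, 1, 0, 0, 0, 0, 0; 0, 0, 1, 0, 0, 0, 0; 0, 0, 0, 1, 0, 0, 0; 0, 0, 0, 0, 1, 0, 0; 0, 0, 0, 0, 0, 1, 0; 0, 0, 1, 1, 1, 1, 1]

theorem data7 : Z2Data al7 be7 pi7 ga7 ha7 gb7 hb7 gc7 hc7 cu7 cv7 cw7 0 1 where
  hij := by decide +kernel
  hk := by decide +kernel
  hα := by decide +kernel
  hβ := by decide +kernel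
  hπ := by decide +kernel
  hαβ := by decide +kernel
  αi := by decide +kernel
  αj := by decide +kernel
  iα := by decide +kernel
  jα := by decide +kernel
  πi := by decide +kernel
  πj := by decide +kernel
  iπ := by decide +kernel
  jπ := by decide +kernel
  n1 := by decide +kernel
  n2 := by decide +kernel
  n3 := by decide +kernel
  n4 := by decide +kernel
  hg1 := by decide +kernel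
  hg2 := by decide +kernel
  hg3 := by decide +kernel

theorem lc7 {F : Type*} [Field F] [CharP F 2] {l : F} (M : Submonoid (Matrix (Fin 7) (Fin 7) F))
    (c : Ctx l al7 be7 pi7 0 1 M) (x : Fin 7) : R2 M (e2 x) (e2 (nxt x)) := by
  have d0 : D2 l M ![1, 0, 0, 0, 0, 0, 0] ![0, 1, 0, 0, 0, 0, 0] ![1, 0, 0, 0, 0, 0, 0] ![0, 1, 0, 0, 0, 0, 0] :=
    D2.init c (by decide) (by decide +kernel)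
  have d1 : D2 l M ![0, 1, 0, 0, 0, 0, 0] ![1, 0, 0, 0, 0, 0, 0] ![0, 1, 0, 0, 0, 0, 0] ![1, 0, 0, 0, 0, 0, 0] :=
    D2.symm c d0
  have d2 : D2 l M ![0, 0, 0, 1, 0, 0, 0] ![0, 0, 1, 0, 0, 0, 0] ![0, 0, 0, 1, 0, 0, 0] ![0, 0, 1, 0, 0, 0, 0] :=
    D2.be c d1 (by decide +kernel)
  have d3 : D2 l M ![0, 0, 0, 1, 0, 0, 0] ![0, 0, 0, 0, 0, 1, 0] ![0, 0, 0, 1, 0, 0, 0] ![0, 0, 0, 0, 0, 1, 0] :=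
    D2.pi c d2 (by decide +kernel)
  have d4 : D2 l M ![0, 1, 0, 0, 0, 0, 0] ![0, 0, 0, 0, 0, 1, 0] ![0, 1, 0, 0, 0, 0, 0] ![0, 0, 0, 0, 0, 1, 1] :=
    D2.be c d3 (by decide +kernel)
  have r5 : R2 M ![1, 0, 0, 0, 0, 0, 0] ![0, 1, 0, 0, 0, 0, 0] :=
    (T2 c d0 d4 (by decide +kernel)).1.2.1
  have d6 : D2 l M ![0, 0, 1, 0, 0, 0, 0] ![0, 0, 0, 1, 0, 0, 0] ![0, 0, 1, 0, 0, 0, 0] ![0, 0, 0, 1, 0, 0, 0] :=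
    D2.be c d0 (by decide +kernel)
  have d7 : D2 l M ![0, 0, 0, 0, 0, 1, 0] ![0, 0, 0, 1, 0, 0, 0] ![0, 0, 0, 0, 0, 1, 0] ![0, 0, 0, 1, 0, 0, 0] :=
    D2.pi c d6 (by decide +kernel)
  have d8 : D2 l M ![0, 0, 0, 0, 0, 1, 0] ![0, 1, 0, 0, 0, 0, 0] ![0, 0, 0, 0, 0, 1, 1] ![0, 1, 0, 0, 0, 0, 0] :=
    D2.be c d7 (by decide +kernel)
  have r9 : R2 M ![0, 0, 0, 0, 0, 1, 0] ![0, 0, 1, 0, 0, 0, 0] :=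
    (T2 c d6 d3 (by decide +kernel)).2.1
  have r10 : R2 M ![0, 1, 0, 0, 0, 0, 0] ![0, 0, 1, 0, 0, 0, 0] :=
    (WL2 c d8 r9 (by decide +kernel)).2
  have r11 : R2 M ![0, 0, 1, 0, 0, 0, 0] ![0, 0, 0, 1, 0, 0, 0] :=
    (T2 c d6 d3 (by decide +kernel)).1.2.1
  have d12 : D2 l M ![0, 0, 1, 0, 0, 0, 0] ![0, 0, 0, 0, 1, 0, 0] ![0, 0, 1, 0, 0, 0, 0] ![0, 0, 0, 0, 1, 0, 0] :=
    D2.al c d3 (by decide +kernel)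
  have r13 : R2 M ![0, 0, 0, 1, 0, 0, 0] ![0, 0, 0, 0, 1, 0, 0] :=
    (T2 c d2 d12 (by decide +kernel)).1.1
  have d14 : D2 l M ![0, 0, 0, 0, 0, 1, 0] ![0, 0, 0, 0, 1, 0, 1] ![0, 0, 0, 0, 0, 1, 0] ![0, 0, 0, 0, 1, 0, 0] :=
    D2.pi c d12 (by decide +kernel)
  have d15 : D2 l M ![0, 0, 0, 0, 1, 0, 0] ![0, 0, 0, 0, 0, 1, 1] ![0, 0, 0, 0, 1, 0, 0] ![0, 0, 0, 0, 0, 1, 0] :=
    D2.al c d14 (by decide +kernel)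
  have r16 : R2 M ![0, 0, 0, 0, 1, 0, 0] ![0, 0, 0, 0, 0, 1, 0] :=
    (T2 c d12 d15 (by decide +kernel)).1.2.2
  have d17 : D2 l M ![0, 0, 0, 0, 1, 0, 0] ![0, 0, 1, 0, 0, 0, 0] ![0, 0, 0, 0, 1, 0, 0] ![0, 0, 1, 0, 0, 0, 0] :=
    D2.al c d7 (by decide +kernel)
  have d18 : D2 l M ![0, 0, 0, 0, 1, 0, 1] ![0, 0, 0, 0, 0, 1, 0] ![0, 0, 0, 0, 1, 0, 0] ![0, 0, 0, 0, 0, 1, 0] :=
    D2.pi c d17 (by decide +kernel)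
  have d19 : D2 l M ![0, 0, 0, 0, 0, 1, 1] ![0, 0, 0, 0, 1, 0, 0] ![0, 0, 0, 0, 0, 1, 0] ![0, 0, 0, 0, 1, 0, 0] :=
    D2.al c d18 (by decide +kernel)
  have d20 : D2 l M ![0, 0, 0, 0, 1, 0, 1] ![0, 0, 0, 0, 1, 0, 0] ![0, 0, 0, 0, 0, 1, 1] ![0, 0, 0, 0, 1, 0, 1] :=
    D2.be c d19 (by decide +kernel)
  have d21 : D2 l M ![0, 0, 0, 0, 1, 0, 0] ![0, 0, 0, 0, 1, 0, 1] ![0, 0, 1, 0, 1, 0, 1] ![0, 0, 0, 0, 0, 0, 1] :=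
    D2.pi c d20 (by decide +kernel)
  have d22 : D2 l M ![0, 0, 0, 0, 1, 0, 0] ![0, 0, 0, 0, 1, 0, 1] ![0, 0, 0, 0, 1, 0, 1] ![0, 0, 0, 0, 0, 1, 1] :=
    D2.be c d15 (by decide +kernel)
  have d23 : D2 l M ![0, 0, 0, 0, 1, 0, 1] ![0, 0, 0, 0, 1, 0, 0] ![0, 0, 0, 0, 0, 0, 1] ![0, 0, 1, 0, 1, 0, 1] :=
    D2.pi c d22 (by decide +kernel)
  have d24 : D2 l M ![0, 0, 0, 0, 0, 1, 1] ![0, 0, 0, 0, 0, 1, 0] ![0, 0, 0, 0, 0, 0, 1] ![0, 0, 0, 1, 0, 1, 1] :=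
    D2.al c d23 (by decide +kernel)
  have d25 : D2 l M ![0, 0, 0, 0, 1, 0, 1] ![0, 0, 0, 0, 0, 1, 0] ![0, 0, 0, 0, 0, 0, 1] ![0, 1, 0, 0, 0, 1, 0] :=
    D2.be c d24 (by decide +kernel)
  have r26 : R2 M ![0, 0, 0, 0, 0, 1, 0] ![0, 0, 0, 0, 0, 0, 1] :=
    (T2 c d21 d25 (by decide +kernel)).2.2.1
  have d27 : D2 l M ![0, 0, 1, 0, 0, 0, 1] ![0, 0, 0, 0, 1, 0, 1] ![0, 0, 1, 0, 0, 0, 0] ![0, 0, 0, 0, 1, 0, 0] :=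
    D2.pi c d19 (by decide +kernel)
  have d28 : D2 l M ![0, 0, 0, 1, 0, 0, 1] ![0, 0, 0, 0, 0, 1, 1] ![0, 0, 0, 1, 0, 0, 0] ![0, 0, 0, 0, 0, 1, 0] :=
    D2.al c d27 (by decide +kernel)
  have d29 : D2 l M ![0, 0, 0, 1, 0, 0, 1] ![0, 0, 1, 0, 0, 0, 1] ![0, 0, 0, 1, 0, 0, 0] ![0, 0, 1, 0, 0, 0, 0] :=
    D2.pi c d28 (by decide +kernel)
  have d30 : D2 l M ![0, 1, 0, 0, 1, 1, 1] ![1, 0, 0, 0, 1, 1, 1] ![0, 1, 0, 0, 0, 0, 0] ![1, 0, 0, 0, 0, 0, 0] :=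
    D2.be c d29 (by decide +kernel)
  have d31 : D2 l M ![0, 0, 0, 0, 1, 0, 1] ![0, 0, 1, 0, 0, 0, 1] ![0, 0, 0, 0, 1, 0, 0] ![0, 0, 1, 0, 0, 0, 0] :=
    D2.pi c d15 (by decide +kernel)
  have d32 : D2 l M ![0, 0, 0, 0, 0, 1, 1] ![0, 0, 0, 1, 0, 0, 1] ![0, 0, 0, 0, 0, 1, 0] ![0, 0, 0, 1, 0, 0, 0] :=
    D2.al c d31 (by decide +kernel)
  have r33 : R2 M ![0, 0, 0, 0, 0, 0, 1] ![0, 0, 0, 0, 0, 1, 0] :=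
    (DS2 c d7 d32 (by decide +kernel)).1
  have r34 : R2 M ![0, 0, 0, 0, 0, 0, 1] ![1, 0, 0, 0, 0, 0, 0] :=
    (WR2 c d30 r33 (by decide +kernel)).2
  fin_cases x
  · exact r5.cast (by decide +kernel)
  · exact r10.cast (by decide +kernel)
  · exact r11.cast (by decide +kernel)
  · exact r13.cast (by decide +kernel)
  · exact r16.cast (by decide +kernel)
  · exact r26.cast (by decide +kernel)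
  · exact r34.cast (by decide +kernel)

/-- the gadget of size 7 -/
theorem gadget7 {F : Type*} [Field F] [CharP F 2] {l : F}
    (hl : ∀ a : F, a ≠ 0 → ∃ k : ℕ, a = l ^ k) (hl0 : l ≠ 0) :
    IsGadget l (lf F al7) (lf F be7) (lf F pi7) 0 1 :=
  gadget_of_z2 data7 hl hl0 (fun M c x => lc7 M c x)

end base7

end H47Inv
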