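import Mathlib
import Pool.Agent.H.MP_0335f8_al.Z2Gad

set_option linter.unusedSectionVars false
set_option maxRecDepth 20000

namespace H47Inv

open Matrix

section base8

/-- data -/
def al8 : Matrix (Fin 8) (Fin 8) (ZMod 2) :=
  !![0, 1, 0, 0, 0, 0, 0, 0; 1, 0, 0, 0, 0, 0, 0, 0; 0, 0, 0, 1, 0, 0, 0, 0; 0, 0, 1, 0, 0, 0, 0, 0; 0, 0, 0, 0, 0, 1, 0, 0; 0, 0, 0, 0, 1, 0, 0, 0; 0, 0, 0, 0, 0, 0, 0, 1; 0, 0, 0, 0, 0, 0, 1, 0]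

/-- data -/
def be8 : Matrix (Fin 8) (Fin 8) (ZMod 2) :=
  !![0, 0, 1, 0, 0, 0, 0, 0; 0, 0, 0, 1, 0, 0, 0, 0; 1, 0, 0, 0, 0, 0, 0, 0; 0, 1, 0, 0, 0, 0, 0, 0; 0, 0, 0, 0, 0, 0, 1, 0; 0, 0, 0, 0, 0, 0, 0, 1; 0, 0, 0, 0, 1, 0, 0, 0; 0, 0, 0, 0, 0, 1, 0, 0]

/-- data -/
def pi8 : Matrix (Fin 8) (Fin 8) (ZMod 2) :=
  !![1, 0, 0, 0, 0, 0, 0, 0; 0, 1, 0, 0, 0, 0, 0, 0; 0, 0, 1, 0, 0, 0, 0, 0; 0, 0, 0, 0, 1, 0, 0, 0; 0, 0, 0, 1, 0, 0, 0, 0; 0, 0, 0, 0, 0, 1, 0, 0; 0, 0, 0, 0, 0, 1, 1, 0; 0, 0, 1, 0, 0, 0, 0, 1]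

/-- data -/
def ga8 : Matrix (Fin 8) (Fin 8) (ZMod 2) :=
  !![0, 0, 0, 1, 0, 0, 0, 0; 1, 0, 0, 0, 0, 0, 0, 0; 0, 0, 1, 0, 0, 0, 0, 0; 0, 1, 0, 0, 0, 0, 0, 0; 0, 0, 0, 0, 0, 1, 0, 0; 0, 0, 0, 0, 0, 0, 1, 0; 0, 0, 0, 0, 1, 0, 0, 0; 0, 0, 0, 0, 0, 0, 0, 1]

/-- data -/
def ha8 : Matrix (Fin 8) (Fin 8) (ZMod 2) :=
  !![0, 1, 0, 0, 0, 0, 0, 0; 0, 0, 0, 1, 0, 0, 0, 0; 0, 0, 1, 0, 0, 0, 0, 0; 1, 0, 0, 0, 0, 0, 0, 0; 0, 0, 0, 0, 0, 0, 1, 0; 0, 0, 0, 0, 1, 0, 0, 0; 0, 0, 0, 0, 0, 1, 0, 0; 0, 0, 0, 0, 0, 0, 0, 1]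

/-- data -/
def gb8 : Matrix (Fin 8) (Fin 8) (ZMod 2) :=
  !![0, 0, 0, 0, 0, 0, 1, 0; 0, 1, 0, 0, 0, 0, 0, 0; 1, 0, 0, 0, 0, 0, 0, 0; 0, 0, 0, 0, 0, 0, 0, 1; 0, 0, 0, 1, 0, 0, 0, 0; 0, 0, 0, 0, 1, 0, 0, 0; 0, 0, 0, 0, 0, 1, 0, 0; 0, 0, 1, 0, 0, 0, 0, 0]

/-- data -/
def hb8 : Matrix (Fin 8) (Fin 8) (ZMod 2) :=
  !![0, 0, 1, 0, 0, 0, 0, 0; 0, 1, 0, 0, 0, 0, 0, 0; 0, 0, 0, 0, 0, 0, 0, 1; 0, 0, 0, 0, 1, 0, 0, 0; 0, 0, 0, 0, 0, 1, 0, 0; 0, 0, 0, 0, 0, 0, 1, 0; 1, 0, 0, 0, 0, 0, 0, 0; 0, 0, 0, 1, 0, 0, 0, 0]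

/-- data -/
def gc8 : Matrix (Fin 8) (Fin 8) (ZMod 2) :=
  !![0, 0, 0, 0, 1, 0, 1, 0; 0, 0, 0, 0, 0, 1, 0, 1; 0, 0, 1, 1, 0, 0, 0, 0; 0, 0, 0, 0, 0, 1, 0, 0; 0, 0, 0, 0, 1, 0, 0, 0; 1, 1, 0, 0, 0, 0, 0, 0; 0, 1, 0, 0, 0, 0, 0, 0; 0, 0, 0, 1, 0, 0, 0, 0]

/-- data -/
def hc8 : Matrix (Fin 8) (Fin 8) (ZMod 2) :=
  !![0, 0, 0, 0, 0, 1, 1, 0; 0, 0, 0, 0, 0, 0, 1, 0; 0, 0, 1, 0, 0, 0, 0, 1; 0, 0, 0, 0, 0, 0, 0, 1; 0, 0, 0, 0, 1, 0, 0, 0; 0, 0, 0, 1, 0, 0, 0, 0; 1, 0, 0, 0, 1, 0, 0, 0; 0, 1, 0, 1, 0, 0, 0, 0]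

/-- data -/
def cu8 : Matrix (Fin 8) (Fin 8) (ZMod 2) :=
  !![1, 0, 0, 0, 0, 0, 0, 0; 0, 1, 0, 0, 0, 0, 0, 0; 0, 0, 0, 1, 0, 0, 0, 0; 0, 0, 0, 0, 0, 1, 0, 0; 0, 0, 1, 0, 0, 0, 0, 0; 0, 0, 0, 0, 1, 0, 0, 0; 0, 0, 0, 0, 1, 0, 0, 1; 0, 0, 0, 1, 0, 0, 1, 0]

/-- data -/
def cv8 : Matrix (Fin 8) (Fin 8) (ZMod 2) :=
  !![1, 0, 0, 0, 0, 0, 0, 0; 0, 1, 0, 0, 0, 0, 0, 0; 0, 0, 0, 0, 0, 1, 0, 0; 0, 0, 0, 0, 1, 0, 0, 0; 0, 0, 0, 1, 0, 0, 0, 0; 0, 0, 1, 0, 0, 0, 0, 0; 0, 0, 1, 1, 0, 0, 1, 0; 0, 0, 0, 0, 1, 1, 0, 1]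

/-- data -/
def cw8 : Matrix (Fin 8) (Fin 8) (ZMod 2) :=
  !![1, 0, 0, 0, 0, 0, 0, 0; 0, 1, 0, 0, 0, 0, 0, 0; 0, 0, 1, 0, 0, 0, 0, 0; 0, 0, 0, 1, 0, 0, 0, 0; 0, 0, 0, 0, 1, 0, 0, 0; 0, 0, 0, 0, 0, 1, 0, 0; 0, 0, 1, 1, 1, 1, 1, 0; 0, 0, 1, 1, 1, 1, 0, 1]

theorem data8 : Z2Data al8 be8 pi8 ga8 ha8 gb8 hb8 gc8 hc8 cu8 cv8 cw8 0 1 where
  hij := by decide +kernel
  hk := by decide +kernel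
  hα := by decide +kernel
  hβ := by decide +kernel
  hπ := by decide +kernel
  hαβ := by decide +kernel
  αi := by decide +kernel
  αj := by decide +kernel
  iα := by decide +kernel
  jα := by decide +kernel
  πi := by decide +kernel
  πj := by decide +kernel
  iπ := by decide +kernel
  jπ := by decide +kernel
  n1 := by decide +kernel
  n2 := by decide +kernel
  n3 := by decide +kernel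
  n4 := by decide +kernel
  hg1 := by decide +kernel
  hg2 := by decide +kernel
  hg3 := by decide +kernel

theorem lc8 {F : Type*} [Field F] [CharP F 2] {l : F} (M : Submonoid (Matrix (Fin 8) (Fin 8) F))
    (c : Ctx l al8 be8 pi8 0 1 M) (x : Fin 8) : R2 M (e2 x) (e2 (nxt x)) := by
  have d0 : D2 l M ![1, 0, 0, 0, 0, 0, 0, 0] ![0, 1, 0, 0, 0, 0, 0, 0] ![1, 0, 0, 0, 0, 0, 0, 0] ![0, 1, 0, 0, 0, 0, 0, 0] :=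
    D2.init c (by decide) (by decide +kernel)
  have d1 : D2 l M ![0, 0, 1, 0, 0, 0, 0, 0] ![0, 0, 0, 1, 0, 0, 0, 0] ![0, 0, 1, 0, 0, 0, 0, 0] ![0, 0, 0, 1, 0, 0, 0, 0] :=
    D2.be c d0 (by decide +kernel)
  have d2 : D2 l M ![0, 0, 1, 0, 0, 0, 0, 1] ![0, 0, 0, 0, 1, 0, 0, 0] ![0, 0, 1, 0, 0, 0, 0, 0] ![0, 0, 0, 0, 1, 0, 0, 0] :=
    D2.pi c d1 (by decide +kernel)
  have d3 : D2 l M ![0, 0, 0, 1, 0, 0, 1, 0] ![0, 0, 0, 0, 0, 1, 0, 0] ![0, 0, 0, 1, 0, 0, 0, 0] ![0, 0, 0, 0, 0, 1, 0, 0] :=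
    D2.al c d2 (by decide +kernel)
  have d4 : D2 l M ![0, 0, 0, 0, 1, 0, 1, 0] ![0, 0, 0, 0, 0, 1, 1, 0] ![0, 0, 0, 0, 1, 0, 0, 0] ![0, 0, 0, 0, 0, 1, 0, 0] :=
    D2.pi c d3 (by decide +kernel)
  have d5 : D2 l M ![0, 0, 0, 0, 0, 1, 0, 1] ![0, 0, 0, 0, 1, 0, 0, 1] ![0, 0, 0, 0, 0, 1, 0, 0] ![0, 0, 0, 0, 1, 0, 0, 0] :=
    D2.al c d4 (by decide +kernel)
  have d6 : D2 l M ![0, 0, 0, 0, 0, 1, 0, 1] ![0, 0, 0, 0, 0, 1, 1, 0] ![0, 0, 0, 0, 0, 0, 0, 1] ![0, 0, 0, 0, 0, 0, 1, 0] :=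
    D2.be c d5 (by decide +kernel)
  have d7 : D2 l M ![0, 0, 0, 0, 0, 1, 1, 1] ![0, 0, 0, 0, 0, 1, 0, 0] ![0, 0, 1, 0, 0, 0, 0, 1] ![0, 0, 0, 0, 0, 1, 1, 0] :=
    D2.pi c d6 (by decide +kernel)
  have d8 : D2 l M ![0, 0, 0, 0, 1, 0, 1, 1] ![0, 0, 0, 0, 1, 0, 0, 0] ![0, 0, 0, 1, 0, 0, 1, 0] ![0, 0, 0, 0, 1, 0, 0, 1] :=
    D2.al c d7 (by decide +kernel)
  have d9 : D2 l M ![0, 0, 0, 1, 0, 0, 1, 1] ![0, 0, 0, 1, 0, 0, 0, 0] ![0, 0, 0, 0, 1, 1, 1, 0] ![0, 0, 1, 1, 0, 0, 0, 1] :=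
    D2.pi c d8 (by decide +kernel)
  have d10 : D2 l M ![0, 1, 0, 0, 1, 1, 0, 0] ![0, 1, 0, 0, 0, 0, 0, 0] ![0, 0, 0, 0, 1, 0, 1, 1] ![1, 1, 0, 0, 0, 1, 0, 0] :=
    D2.be c d9 (by decide +kernel)
  have d11 : D2 l M ![0, 1, 0, 0, 0, 0, 0, 0] ![1, 0, 0, 0, 0, 0, 0, 0] ![0, 1, 0, 0, 0, 0, 0, 0] ![1, 0, 0, 0, 0, 0, 0, 0] :=
    D2.symm c d0
  have d12 : D2 l M ![0, 0, 0, 1, 0, 0, 0, 0] ![0, 0, 1, 0, 0, 0, 0, 0] ![0, 0, 0, 1, 0, 0, 0, 0] ![0, 0, 1, 0, 0, 0, 0, 0] :=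
    D2.be c d11 (by decide +kernel)
  have d13 : D2 l M ![0, 0, 0, 0, 1, 0, 0, 0] ![0, 0, 1, 0, 0, 0, 0, 1] ![0, 0, 0, 0, 1, 0, 0, 0] ![0, 0, 1, 0, 0, 0, 0, 0] :=
    D2.pi c d12 (by decide +kernel)
  have d14 : D2 l M ![0, 0, 0, 0, 0, 1, 0, 0] ![0, 0, 0, 1, 0, 0, 1, 0] ![0, 0, 0, 0, 0, 1, 0, 0] ![0, 0, 0, 1, 0, 0, 0, 0] :=
    D2.al c d13 (by decide +kernel)
  have d15 : D2 l M ![0, 0, 0, 0, 0, 1, 1, 0] ![0, 0, 0, 0, 1, 0, 1, 0] ![0, 0, 0, 0, 0, 1, 0, 0] ![0, 0, 0, 0, 1, 0, 0, 0] :=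
    D2.pi c d14 (by decide +kernel)
  have d16 : D2 l M ![0, 0, 0, 0, 1, 0, 0, 1] ![0, 0, 0, 0, 0, 1, 0, 1] ![0, 0, 0, 0, 1, 0, 0, 0] ![0, 0, 0, 0, 0, 1, 0, 0] :=
    D2.al c d15 (by decide +kernel)
  have d17 : D2 l M ![0, 0, 0, 1, 0, 0, 0, 1] ![0, 0, 0, 0, 0, 1, 1, 1] ![0, 0, 0, 1, 0, 0, 0, 0] ![0, 0, 0, 0, 0, 1, 0, 0] :=
    D2.pi c d16 (by decide +kernel)
  have d18 : D2 l M ![0, 0, 1, 0, 0, 0, 1, 0] ![0, 0, 0, 0, 1, 0, 1, 1] ![0, 0, 1, 0, 0, 0, 0, 0] ![0, 0, 0, 0, 1, 0, 0, 0] :=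
    D2.al c d17 (by decide +kernel)
  have d19 : D2 l M ![0, 0, 1, 0, 0, 0, 1, 1] ![0, 0, 0, 1, 0, 0, 1, 1] ![0, 0, 1, 0, 0, 0, 0, 0] ![0, 0, 0, 1, 0, 0, 0, 0] :=
    D2.pi c d18 (by decide +kernel)
  have d20 : D2 l M ![1, 0, 0, 0, 1, 1, 0, 0] ![0, 1, 0, 0, 1, 1, 0, 0] ![1, 0, 0, 0, 0, 0, 0, 0] ![0, 1, 0, 0, 0, 0, 0, 0] :=
    D2.be c d19 (by decide +kernel)
  have r21 : R2 M ![0, 0, 0, 0, 1, 1, 0, 0] ![1, 0, 0, 0, 0, 0, 0, 0] :=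
    (DS2 c d0 d20 (by decide +kernel)).1
  have r22 : R2 M ![0, 1, 0, 0, 0, 0, 0, 0] ![1, 0, 0, 0, 0, 0, 0, 0] :=
    (WL2 c d10 r21 (by decide +kernel)).2
  have r23 : R2 M ![1, 0, 0, 0, 0, 0, 0, 0] ![0, 1, 0, 0, 0, 0, 0, 0] :=
    R2.al c r22 (by decide +kernel)
  have r24 : R2 M ![0, 0, 0, 0, 1, 0, 0, 0] ![1, 0, 0, 0, 0, 0, 0, 0] :=
    (WL2 c d2 r21 (by decide +kernel)).2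
  have r25 : R2 M ![0, 0, 0, 0, 0, 0, 1, 0] ![0, 0, 1, 0, 0, 0, 0, 0] :=
    R2.be c r24 (by decide +kernel)
  have r26 : R2 M ![0, 1, 0, 0, 0, 0, 0, 0] ![0, 0, 1, 0, 0, 0, 0, 0] :=
    (WL2 c d10 r25 (by decide +kernel)).2
  have r27 : R2 M ![0, 0, 1, 0, 0, 0, 0, 0] ![0, 0, 0, 1, 0, 0, 0, 0] :=
    R2.be c r23 (by decide +kernel)
  have r28 : R2 M ![0, 0, 0, 1, 0, 0, 0, 0] ![0, 0, 1, 0, 0, 0, 0, 0] :=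
    R2.be c r22 (by decide +kernel)
  have r29 : R2 M ![0, 0, 0, 1, 0, 0, 0, 0] ![0, 0, 0, 0, 1, 0, 0, 0] :=
    (WR2 c d2 r28 (by decide +kernel)).2
  have d30 : D2 l M ![1, 0, 0, 0, 0, 1, 0, 0] ![0, 0, 0, 0, 0, 0, 1, 0] ![1, 0, 0, 0, 0, 0, 0, 0] ![0, 0, 0, 0, 0, 0, 1, 0] :=
    D2.be c d2 (by decide +kernel)
  have r31 : R2 M ![0, 0, 0, 0, 1, 0, 0, 0] ![0, 0, 0, 0, 0, 0, 1, 0] :=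
    (WR2 c d30 r24 (by decide +kernel)).2
  have r32 : R2 M ![0, 0, 0, 0, 1, 0, 0, 0] ![0, 0, 0, 0, 0, 1, 0, 0] :=
    (WR2 c d3 r31 (by decide +kernel)).2
  have r33 : R2 M ![0, 0, 0, 0, 0, 1, 0, 0] ![1, 0, 0, 0, 0, 0, 0, 0] :=
    (WL2 c d3 r21 (by decide +kernel)).2
  have r34 : R2 M ![0, 0, 0, 0, 0, 1, 0, 0] ![0, 0, 0, 0, 0, 0, 1, 0] :=
    (WR2 c d30 r33 (by decide +kernel)).2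
  have d35 : D2 l M ![0, 1, 0, 0, 1, 0, 0, 0] ![0, 0, 0, 0, 0, 0, 0, 1] ![0, 1, 0, 0, 0, 0, 0, 0] ![0, 0, 0, 0, 0, 0, 0, 1] :=
    D2.be c d3 (by decide +kernel)
  have d36 : D2 l M ![0, 0, 0, 0, 1, 1, 0, 1] ![0, 0, 0, 0, 0, 0, 0, 1] ![1, 0, 0, 0, 0, 1, 0, 0] ![0, 0, 0, 0, 1, 0, 0, 1] :=
    D2.be c d7 (by decide +kernel)
  have r37 : R2 M ![0, 0, 0, 0, 0, 0, 0, 1] ![1, 0, 0, 0, 0, 0, 0, 0] :=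
    (WL2 c d36 r21 (by decide +kernel)).2
  have r38 : R2 M ![0, 0, 0, 0, 0, 0, 1, 0] ![0, 1, 0, 0, 0, 0, 0, 0] :=
    R2.al c r37 (by decide +kernel)
  have r39 : R2 M ![0, 0, 0, 0, 0, 0, 1, 0] ![0, 0, 0, 0, 0, 0, 0, 1] :=
    (WR2 c d35 r38 (by decide +kernel)).2
  fin_cases x
  · exact r23.cast (by decide +kernel)
  · exact r26.cast (by decide +kernel)
  · exact r27.cast (by decide +kernel)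
  · exact r29.cast (by decide +kernel)
  · exact r32.cast (by decide +kernel)
  · exact r34.cast (by decide +kernel)
  · exact r39.cast (by decide +kernel)
  · exact r37.cast (by decide +kernel)

/-- the gadget of size 8 -/
theorem gadget8 {F : Type*} [Field F] [CharP F 2] {l : F}
    (hl : ∀ a : F, a ≠ 0 → ∃ k : ℕ, a = l ^ k) (hl0 : l ≠ 0) :
    IsGadget l (lf F al8) (lf F be8) (lf F pi8) 0 1 :=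
  gadget_of_z2 data8 hl hl0 (fun M c x => lc8 M c x)

end base8

end H47Inv
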