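import Mathlib
import Pool.Agent.H.MP_0335f8_al.Ext

set_option linter.unusedSectionVars false

namespace H47Inv

open Matrix

section power

variable {F : Type*} [Field F]

/-- the `2 x 2` matrix of the plane element -/
def X2 (l : F) : Matrix (Fin 2) (Fin 2) F := !![l, 1; 1, 0]

theorem X2_sq (l : F) : X2 l * X2 l = l • X2 l + 1 := by
  ext i j
  fin_cases i <;> fin_cases j <;> simp [X2, mul_apply, Fin.sum_univ_two]

theorem two_mat' [CharP F 2] {n : Type*} (x : Matrix n n F) : x + x = 0 := by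
  ext i j
  simp [CharTwo.add_self_eq_zero]

theorem X2_pow [CharP F 2] (l : F) (hl0 : l ≠ 0) (k : ℕ) :
    ∃ b : F, (X2 l) ^ (2 ^ k) = (l ^ (2 ^ k - 1)) • X2 l + b • 1 := by
  induction k with
  | zero => exact ⟨0, by simp⟩
  | succ k ih =>
    obtain ⟨b, hb⟩ := ih
    refine ⟨(l ^ (2 ^ k - 1)) ^ 2 + b ^ 2, ?_⟩
    rw [pow_succ, pow_mul, hb, pow_two]
    set a := l ^ (2 ^ k - 1) with ha
    have e1 : (a • X2 l + b • (1 : Matrix (Fin 2) (Fin 2) F)) * (a • X2 l + b • 1) =
        (a ^ 2) • (X2 l * X2 l) + ((a * b) • X2 l + (a * b) • X2 l) + (b ^ 2) • 1 := by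
      simp only [mul_add, add_mul, smul_mul_assoc, mul_smul_comm, mul_one, one_mul, smul_smul,
        pow_two, smul_add]
      rw [mul_comm b a]
      abel
    rw [e1, two_mat', add_zero, X2_sq, smul_add, smul_smul, add_smul]
    have e2 : a ^ 2 * l = l ^ (2 ^ k * 2 - 1) := by
      rw [ha, ← pow_mul, ← pow_succ]
      congr 1
      have : 1 ≤ 2 ^ k := Nat.one_le_two_pow
      omega
    rw [e2]
    abel

theorem X2_pow_card [Fintype F] [CharP F 2] (l : F) (hl0 : l ≠ 0) :
    (X2 l) ^ ((Fintype.card F) ^ 2) = X2 l := by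
  obtain ⟨m, hm, hq⟩ := FiniteField.card F 2
  obtain ⟨b, hb⟩ := X2_pow l hl0 m
  rw [← hq] at hb
  have hl1 : l ^ (Fintype.card F - 1) = 1 := FiniteField.pow_card_sub_one_eq_one l hl0
  rw [hl1, one_smul] at hb
  have key : ∀ k : ℕ, (X2 l + b • (1 : Matrix (Fin 2) (Fin 2) F)) ^ (2 ^ k) =
      (X2 l) ^ (2 ^ k) + (b ^ (2 ^ k)) • 1 := by
    intro k
    induction k with
    | zero => simp
    | succ k ih =>
      rw [pow_succ, pow_mul, ih, pow_mul, pow_mul, pow_two, pow_two, pow_two]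
      set Y := (X2 l) ^ (2 ^ k)
      set c := b ^ (2 ^ k)
      have : (Y + c • (1 : Matrix (Fin 2) (Fin 2) F)) * (Y + c • 1) =
          Y * Y + (c • Y + c • Y) + (c * c) • 1 := by
        simp only [mul_add, add_mul, smul_mul_assoc, mul_smul_comm, mul_one, one_mul, smul_smul,
          smul_add]
        abel
      rw [this, two_mat', add_zero]
  rw [pow_two, pow_mul, hb]
  conv_lhs => rw [hq]
  rw [key, ← hq, hb, FiniteField.pow_card, add_assoc, two_mat', add_zero]

end power

section emb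

variable {F : Type*} [Field F] {ι : Type*} [Fintype ι] [DecidableEq ι]

/-- embedding of `2 x 2` matrices on the coordinates `i`, `j` -/
def emb (i j : ι) (hij : i ≠ j) : Matrix (Fin 2) (Fin 2) F →* Matrix ι ι F where
  toFun X := 1 + (of fun a b => e F (![i, j] b) a : Matrix ι (Fin 2) F) * (X - 1) *
    (of fun b a => e F (![i, j] b) a : Matrix (Fin 2) ι F)
  map_one' := by simp
  map_mul' X Y := by
    have hQP : (of fun b a => e F (![i, j] b) a : Matrix (Fin 2) ι F) *
        (of fun a b => e F (![i, j] b) a : Matrix ι (Fin 2) F) = 1 := by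
      ext a b
      change e F (![i, j] a) ⬝ᵥ e F (![i, j] b) = _
      rw [e_dot_e]
      fin_cases a <;> fin_cases b <;> simp [hij, hij.symm]
    set P := (of fun a b => e F (![i, j] b) a : Matrix ι (Fin 2) F)
    set Q := (of fun b a => e F (![i, j] b) a : Matrix (Fin 2) ι F)
    have e1 : P * (X - 1) * Q * (P * (Y - 1) * Q) = P * ((X - 1) * (Y - 1)) * Q := by
      calc P * (X - 1) * Q * (P * (Y - 1) * Q) = P * (X - 1) * (Q * P) * (Y - 1) * Q := by
            simp only [Matrix.mul_assoc]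
        _ = _ := by rw [hQP, Matrix.mul_one]; simp only [Matrix.mul_assoc]
    rw [add_mul, mul_add, mul_add, e1, one_mul, one_mul, mul_one]
    have e2 : X * Y - 1 = (X - 1) + (Y - 1) + (X - 1) * (Y - 1) := by noncomm_ring
    rw [e2, Matrix.mul_add, Matrix.mul_add, Matrix.add_mul, Matrix.add_mul]
    abel

theorem emb_X2 (l : F) (i j : ι) (hij : i ≠ j) : emb i j hij (X2 l) = De l i j := by
  ext a b
  simp [emb, X2, De, Dm, mul_apply, Fin.sum_univ_two, vecMulVec_apply]
  ring

theorem De_pow_card [Fintype F] [CharP F 2] (l : F) (hl0 : l ≠ 0) {i j : ι} (hij : i ≠ j) :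
    (De l i j) ^ ((Fintype.card F) ^ 2) = De l i j := by
  rw [← emb_X2 l i j hij, ← map_pow, X2_pow_card l hl0]

/-- The power trick. -/
theorem power_trick [Fintype F] [CharP F 2] {l : F} (hl0 : l ≠ 0) {i j : ι} (hij : i ≠ j)
    {M : Submonoid (Matrix ι ι F)} {u : Matrix ι ι F} (hu : Off u i j) {N : ℕ}
    (hN : u ^ (2 ^ N) = 1) (h : De l i j * u ∈ M) : De l i j ∈ M := by
  obtain ⟨m, hm, hq⟩ := FiniteField.card F 2
  have hc : Commute (De l i j) u := (De_comm' l hu).symm
  have h1 : ∀ K : ℕ, (De l i j) ^ (((Fintype.card F) ^ 2) ^ K) = De l i j := by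
    intro K
    induction K with
    | zero => simp
    | succ K ih => rw [pow_succ, pow_mul, ih, De_pow_card l hl0 hij]
  have h2 : u ^ (((Fintype.card F) ^ 2) ^ N) = 1 := by
    have e1 : ((Fintype.card F) ^ 2) ^ N = 2 ^ N * 2 ^ (((m : ℕ) * 2 - 1) * N) := by
      rw [hq, ← pow_mul, ← pow_mul, ← pow_add]
      congr 1
      obtain ⟨m', hm'⟩ : ∃ m', (m : ℕ) = m' + 1 := ⟨(m : ℕ) - 1, by have := m.pos; omega⟩
      have h3 : (m' + 1) * 2 - 1 = 2 * m' + 1 := by omega
      rw [hm', h3]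
      ring
    rw [e1, pow_mul, hN, one_pow]
  have h3 := M.pow_mem h (((Fintype.card F) ^ 2) ^ N)
  rwa [hc.mul_pow, h1, h2, mul_one] at h3

end emb

end H47Inv
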