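import Mathlib

namespace H47Inv

/-- `G` is generated by `k` pairwise conjugate involutions with product one: there is a
`k`-tuple of elements of order exactly two, pairwise conjugate in `G`, generating `G`, with
product `1`. -/
def Admissible (G : Type*) [Group G] (k : ℕ) : Prop :=
  ∃ t : Fin k → G, (∀ i, orderOf (t i) = 2) ∧ (∀ i j, IsConj (t i) (t j)) ∧
    Subgroup.closure (Set.range t) = ⊤ ∧ (List.ofFn t).prod = 1

end H47Inv
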