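import Mathlib
import Pool.Agent.H.MP_0335f8_al.Defs

set_option linter.unusedSectionVars false
set_option linter.unusedSimpArgs false

namespace H47Inv

open Matrix

private theorem transfer_diag {F : Type*} [Field F] {ι : Type*} [Fintype ι] [DecidableEq ι]
    {i j : ι} (hij : i ≠ j) (a : F) (ha : a ≠ 0) :
    SpecialLinearGroup.diag2n hij a ha = SpecialLinearGroup.transvection hij a *
      SpecialLinearGroup.transvection hij.symm (- a⁻¹) *
      SpecialLinearGroup.transvection hij a *
      SpecialLinearGroup.transvection hij (-1) *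
      SpecialLinearGroup.transvection hij.symm 1 *
      SpecialLinearGroup.transvection hij (-1) := by
  apply SpecialLinearGroup.coeMonoidHom_injective
  simp only [map_mul, SpecialLinearGroup.coeMonoidHom_apply]
  have key : ∀ (i j : ι) (h : i ≠ j) (b : F),
      (SpecialLinearGroup.transvection h b : Matrix ι ι F) = 1 + Matrix.single i j b :=
    fun i j h b => rfl
  rw [show (SpecialLinearGroup.diag2n hij a ha : Matrix ι ι F) =
    diagonal (fun k ↦ if k = i then a else if k = j then a⁻¹ else 1) from rfl,
    key, key, key, key]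
  simp only [mul_add, add_mul, Matrix.mul_one, Matrix.one_mul,
    Matrix.single_mul_single_same, Matrix.single_mul_single_of_ne _ _ _ _ hij,
    Matrix.single_mul_single_of_ne _ _ _ _ hij.symm, add_zero, zero_add, Matrix.zero_mul]
  ext x y
  simp only [Matrix.add_apply, Matrix.single_apply, Matrix.diagonal_apply, Matrix.one_apply]
  by_cases hxi : x = i
  · subst hxi
    by_cases hyi : y = x
    · subst hyi
      simp [hij, hij.symm]
      field_simp
      ring
    · by_cases hyj : y = j
      · subst hyj
        simp [hij, hij.symm]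
        field_simp
        ring
      · simp [hyi, hyj, Ne.symm hyi, Ne.symm hyj, hij]
  · by_cases hxj : x = j
    · subst hxj
      by_cases hyi : y = i
      · subst hyi
        simp [hij, hij.symm]
        field_simp
        ring
      · by_cases hyj : y = x
        · subst hyj
          simp [hij, hij.symm]
          field_simp
          ring
        · simp [hyi, hyj, Ne.symm hyi, Ne.symm hyj, hij]
    · simp [hxi, hxj, Ne.symm hxi, Ne.symm hxj]

theorem top_of_transvections {F : Type*} [Field F] {ι : Type*} [Fintype ι] [DecidableEq ι]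
    [Nontrivial ι] (H : Subgroup (SpecialLinearGroup ι F))
    (h : ∀ (i j : ι) (hij : i ≠ j) (c : F), SpecialLinearGroup.transvection hij c ∈ H) :
    H = ⊤ := by
  rw [eq_top_iff]
  intro M _
  refine SpecialLinearGroup.diagonal_transvection_induction' (fun A => A ∈ H) M ?_ h
    (fun A B hA hB => H.mul_mem hA hB)
  intro i j hij c hc
  rw [transfer_diag hij c hc]
  exact H.mul_mem (H.mul_mem (H.mul_mem (H.mul_mem (H.mul_mem (h _ _ _ _) (h _ _ _ _))
    (h _ _ _ _)) (h _ _ _ _)) (h _ _ _ _)) (h _ _ _ _)

/-- An admissible tuple of `SL` gives one of `PSL`. -/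
theorem admissible_PSL {F : Type*} [Field F] {ι : Type*} [Fintype ι] [DecidableEq ι]
    [Nontrivial ι] {k : ℕ} (t : Fin k → SpecialLinearGroup ι F) (hsq : ∀ i, t i * t i = 1)
    (hconj : ∀ i j, IsConj (t i) (t j)) (hgen : Subgroup.closure (Set.range t) = ⊤)
    (hprod : (List.ofFn t).prod = 1) :
    Admissible (ProjectiveSpecialLinearGroup ι F) k := by
  set Z := Subgroup.center (SpecialLinearGroup ι F) with hZ
  set π : SpecialLinearGroup ι F →* SpecialLinearGroup ι F ⧸ Z := QuotientGroup.mk' Z with hπ
  have hncen : ∀ i, t i ∉ Z := by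
    intro i hi
    have hle : Subgroup.closure (Set.range t) ≤ Z := by
      rw [Subgroup.closure_le]
      rintro _ ⟨j, rfl⟩
      obtain ⟨c, hc⟩ := isConj_iff.1 (hconj i j)
      rw [Subgroup.mem_center_iff.1 hi c, mul_assoc, mul_inv_cancel, mul_one] at hc
      rw [← hc]
      exact hi
    rw [hgen] at hle
    obtain ⟨a, b, hab⟩ := exists_pair_ne ι
    have hmem : SpecialLinearGroup.transvection hab (1 : F) ∈ Z := hle (Subgroup.mem_top _)
    exact one_ne_zero ((SpecialLinearGroup.transvection_mem_center_iff hab (1 : F)).1 hmem)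
  refine ⟨fun i => π (t i), ?_, ?_, ?_, ?_⟩
  · intro i
    apply orderOf_eq_prime
    · rw [pow_two, ← map_mul, hsq, map_one]
    · intro h1
      exact hncen i ((QuotientGroup.eq_one_iff (t i)).1 h1)
  · intro i j
    exact π.map_isConj (hconj i j)
  · have hr : Set.range (fun i => π (t i)) = π '' Set.range t := by
      rw [← Set.range_comp]; rfl
    rw [hr, ← MonoidHom.map_closure, hgen]
    exact Subgroup.map_top_of_surjective π (QuotientGroup.mk'_surjective Z)
  · have hl : List.ofFn (fun i => π (t i)) = (List.ofFn t).map π := by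
      rw [List.map_ofFn]; rfl
    rw [hl, ← map_list_prod, hprod, map_one]

private theorem transfer_mulEquiv {G H : Type*} [Group G] [Group H] (e : G ≃* H) {k : ℕ}
    (h : Admissible G k) : Admissible H k := by
  obtain ⟨t, h1, h2, h3, h4⟩ := h
  refine ⟨fun i => e (t i), ?_, ?_, ?_, ?_⟩
  · intro i
    rw [e.orderOf_eq, h1]
  · intro i j
    exact e.toMonoidHom.map_isConj (h2 i j)
  · have hr : Set.range (fun i => e (t i)) = e.toMonoidHom '' Set.range t := by
      rw [← Set.range_comp]; rfl
    rw [hr, ← MonoidHom.map_closure, h3]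
    exact Subgroup.map_top_of_surjective _ e.surjective
  · have hl : List.ofFn (fun i => e (t i)) = (List.ofFn t).map e := by
      rw [List.map_ofFn]; rfl
    rw [hl, ← map_list_prod, h4, map_one]

private theorem transfer_center {G H : Type*} [Group G] [Group H] (e : G ≃* H) :
    (Subgroup.center G).map e.toMonoidHom = Subgroup.center H := by
  ext y
  rw [Subgroup.mem_map]
  constructor
  · rintro ⟨x, hx, rfl⟩
    rw [Subgroup.mem_center_iff] at hx ⊢
    intro z
    have := congrArg e (hx (e.symm z))
    simpa using this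
  · intro hy
    refine ⟨e.symm y, ?_, e.apply_symm_apply y⟩
    rw [Subgroup.mem_center_iff] at hy ⊢
    intro z
    have := congrArg e.symm (hy (e z))
    simpa using this

private def transfer_eqv {F : Type*} [Field F] {ι κ : Type*} [Fintype ι] [DecidableEq ι]
    [Fintype κ] [DecidableEq κ] (σ : ι ≃ κ) :
    SpecialLinearGroup ι F ≃* SpecialLinearGroup κ F where
  toFun A := ⟨Matrix.reindex σ σ A.1, by rw [Matrix.det_reindex_self]; exact A.2⟩
  invFun B := ⟨Matrix.reindex σ.symm σ.symm B.1, by rw [Matrix.det_reindex_self]; exact B.2⟩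
  left_inv A := by
    apply Matrix.SpecialLinearGroup.ext
    intro i j
    show A.1 (σ.symm (σ i)) (σ.symm (σ j)) = A.1 i j
    rw [σ.symm_apply_apply, σ.symm_apply_apply]
  right_inv B := by
    apply Matrix.SpecialLinearGroup.ext
    intro i j
    show B.1 (σ (σ.symm i)) (σ (σ.symm j)) = B.1 i j
    rw [σ.apply_symm_apply, σ.apply_symm_apply]
  map_mul' A B := by
    apply SpecialLinearGroup.coeMonoidHom_injective
    rw [map_mul]
    show Matrix.reindex σ σ (A.1 * B.1) = Matrix.reindex σ σ A.1 * Matrix.reindex σ σ B.1
    rw [Matrix.reindex_apply, Matrix.reindex_apply, Matrix.reindex_apply,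
      Matrix.submatrix_mul_equiv]

/-- Reindexing. -/
theorem admissible_reindex {F : Type*} [Field F] {ι κ : Type*} [Fintype ι] [DecidableEq ι]
    [Fintype κ] [DecidableEq κ] (σ : ι ≃ κ) {k : ℕ}
    (h : Admissible (ProjectiveSpecialLinearGroup ι F) k) :
    Admissible (ProjectiveSpecialLinearGroup κ F) k :=
  transfer_mulEquiv (QuotientGroup.congr _ _ (transfer_eqv σ) (transfer_center _)) h

end H47Inv
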