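import Mathlib
import Pool.Agent.H.MP_0335f8_al.Power
import Pool.Agent.H.MP_0335f8_al.Ext4
import Pool.Agent.H.MP_0335f8_al.Transfer

set_option linter.unusedSectionVars false
set_option linter.unusedSimpArgs false

namespace H47Inv

open Matrix

section conjE

variable {F : Type*} [Field F] [CharP F 2] {ι : Type*} [Fintype ι] [DecidableEq ι]

theorem det_of_sq {A : Matrix ι ι F} (h : A * A = 1) : A.det = 1 := by
  have h1 := congrArg det h
  rw [det_mul, det_one] at h1
  have h2 : (A.det - 1) ^ 2 = 0 := by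
    have : (2 : F) = 0 := CharTwo.two_eq_zero
    linear_combination h1 + (1 - A.det) * this
  have := pow_eq_zero_iff (two_ne_zero) |>.mp h2
  exact sub_eq_zero.mp this

/-- the diagonal matrix `(a, a⁻¹)` on the coordinates `i`, `j` -/
def Dg (i j : ι) (a : F) : Matrix ι ι F :=
  1 + vecMulVec ((a - 1) • e F i) (e F i) + vecMulVec ((a⁻¹ - 1) • e F j) (e F j)

theorem Dg_eq {i j : ι} (hij : i ≠ j) (a : F) :
    Dg i j a = diagonal (fun k ↦ if k = i then a else if k = j then a⁻¹ else 1) := by
  ext x y
  rcases eq_or_ne x y with rfl | hxy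
  · rcases eq_or_ne x i with rfl | hxi
    · simp [Dg, vecMulVec_apply, e_apply, hij]
    · rcases eq_or_ne x j with rfl | hxj
      · simp [Dg, vecMulVec_apply, e_apply, hij.symm]
      · simp [Dg, vecMulVec_apply, e_apply, hxi, hxj]
  · have h1 : (e F i x) * (e F i y) = 0 := by
      rw [e_apply, e_apply]
      rcases eq_or_ne x i with rfl | hxi
      · simp [hxy.symm]
      · simp [hxi]
    have h2 : (e F j x) * (e F j y) = 0 := by
      rw [e_apply, e_apply]
      rcases eq_or_ne x j with rfl | hxi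
      · simp [hxy.symm]
      · simp [hxi]
    simp [Dg, vecMulVec_apply, hxy, mul_assoc, h1, h2]

theorem det_Dg {i j : ι} (hij : i ≠ j) {a : F} (ha : a ≠ 0) : (Dg i j a).det = 1 := by
  rw [Dg_eq hij]
  exact (SpecialLinearGroup.diag2n hij a ha).2

theorem Off_comm_Dg {x : Matrix ι ι F} {i j : ι} (h : Off x i j) (a : F) :
    x * Dg i j a = Dg i j a * x := by
  simp only [Dg, mul_add, add_mul, mul_one, one_mul, mul_vecMulVec, vecMulVec_mul,
    mulVec_smul, h.h1, h.h2, h.h3, h.h4]

theorem Off_comm_Tm {x : Matrix ι ι F} {i j : ι} (h : Off x i j) (a : F) :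
    x * Tm (a • e F i) (e F j) = Tm (a • e F i) (e F j) * x := by
  simp only [Tm, mul_add, add_mul, mul_one, one_mul, mul_vecMulVec, vecMulVec_mul,
    mulVec_smul, h.h1, h.h2, h.h3, h.h4]

theorem Off_comm_Tm' {x : Matrix ι ι F} {i j : ι} (h : Off x i j) (a : F) :
    x * Tm (a • e F j) (e F i) = Tm (a • e F j) (e F i) * x := by
  simp only [Tm, mul_add, add_mul, mul_one, one_mul, mul_vecMulVec, vecMulVec_mul,
    mulVec_smul, h.h1, h.h2, h.h3, h.h4]

theorem De_split {l : F} {i j : ι} (hij : i ≠ j) :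
    De l i j = Tm (l • e F i) (e F j) * De 0 i j := by
  simp only [De, Dm, Tm, mul_add, add_mul, mul_one, one_mul, vmv_mul, e_dot_e, hij, hij.symm,
    dotProduct_add, dotProduct_sub, dotProduct_smul, smul_eq_mul]
  ext a b
  simp only [Matrix.add_apply, Matrix.smul_apply, vecMulVec_apply, Pi.add_apply, Pi.smul_apply,
    Pi.sub_apply, smul_eq_mul, if_true, if_false]
  ring

theorem Tm_sq {l : F} {i j : ι} (hij : i ≠ j) :
    Tm (l • e F i) (e F j) * Tm (l • e F i) (e F j) = 1 := by
  rw [Tm_mul_right (by simp [e_dot_e, hij.symm])]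
  have : e F j + e F j = 0 := by
    ext x; simp [CharTwo.add_self_eq_zero]
  rw [this]
  simp [Tm]

theorem conj_swap {π : Matrix ι ι F} {i j : ι} (hij : i ≠ j) (h : Off π i j) :
    SConj (π * De 0 i j) (π * Tm ((1 : F) • e F i) (e F j)) := by
  refine ⟨Tm ((1 : F) • e F j) (e F i), ?_, ?_⟩
  · rw [show Tm ((1 : F) • e F j) (e F i) = transvection j i 1 from Tm_single j i 1,
      det_transvection_of_ne j i hij.symm]
  · rw [← mul_assoc, ← Off_comm_Tm' h, mul_assoc, mul_assoc]
    congr 1
    have h2 : (2 : F) = 0 := CharTwo.two_eq_zero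
    simp only [De, Dm, Tm, mul_add, add_mul, mul_one, one_mul, vmv_mul, e_dot_e, hij, hij.symm,
      dotProduct_add, dotProduct_sub, dotProduct_smul, smul_dotProduct, smul_eq_mul]
    ext a b
    simp only [Matrix.add_apply, Matrix.smul_apply, vecMulVec_apply, Pi.add_apply, Pi.smul_apply,
      Pi.sub_apply, smul_eq_mul, if_true, if_false]
    linear_combination (- e F i a * e F i b) * h2

theorem conj_diag {π : Matrix ι ι F} {i j : ι} (hij : i ≠ j) (h : Off π i j) {a : F} (ha : a ≠ 0) :
    SConj (π * Tm ((1 : F) • e F i) (e F j)) (π * Tm ((a * a) • e F i) (e F j)) := by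
  refine ⟨Dg i j a, det_Dg hij ha, ?_⟩
  rw [← mul_assoc, ← Off_comm_Dg h, mul_assoc, mul_assoc]
  congr 1
  simp only [Dg, Tm, mul_add, add_mul, mul_one, one_mul, vmv_mul, e_dot_e, hij, hij.symm,
    dotProduct_add, dotProduct_sub, dotProduct_smul, smul_dotProduct, smul_eq_mul]
  ext x y
  simp only [Matrix.add_apply, Matrix.smul_apply, vecMulVec_apply, Pi.add_apply, Pi.smul_apply,
    Pi.sub_apply, smul_eq_mul, if_true, if_false]
  field_simp
  ring

end conjE

section main

variable {F : Type*} [Field F] [CharP F 2] {ι : Type*} [Fintype ι] [DecidableEq ι]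

/-- an involution as an element of the special linear group -/
def toSL (A : Matrix ι ι F) (h : A * A = 1) : SpecialLinearGroup ι F := ⟨A, det_of_sq h⟩

theorem isConj_of_SConj {A B : SpecialLinearGroup ι F} (h : SConj A.1 B.1) : IsConj A B := by
  obtain ⟨g, hd, hg⟩ := h
  rw [isConj_iff]
  let g' : SpecialLinearGroup ι F := ⟨g, hd⟩
  have h1 : g' * A = B * g' := Subtype.ext hg
  exact ⟨g', mul_inv_eq_iff_eq_mul.2 h1⟩

/-- the submonoid of matrices of a subgroup of `SL` -/
def matOf (H : Subgroup (SpecialLinearGroup ι F)) : Submonoid (Matrix ι ι F) :=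
  H.toSubmonoid.map (SpecialLinearGroup.coeMonoidHom (ι := ι) (R := F))

theorem mem_matOf {H : Subgroup (SpecialLinearGroup ι F)} {x : Matrix ι ι F} :
    x ∈ matOf H ↔ ∃ h ∈ H, h.1 = x := by
  simp only [matOf, Submonoid.mem_map, Subgroup.mem_toSubmonoid]
  rfl

theorem matOf_inv (H : Subgroup (SpecialLinearGroup ι F)) : InvClosed (matOf H) := by
  intro x y hx hxy
  rw [mem_matOf] at hx ⊢
  obtain ⟨h, hh, rfl⟩ := hx
  refine ⟨h⁻¹, H.inv_mem hh, ?_⟩
  have h1 : (h⁻¹).1 * h.1 = 1 := by
    have : h⁻¹ * h = 1 := inv_mul_cancel h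
    exact congrArg Subtype.val this
  calc (h⁻¹).1 = (h⁻¹).1 * (h.1 * y) := by rw [hxy, mul_one]
    _ = y := by rw [← mul_assoc, h1, one_mul]

theorem top_of_full [Nontrivial ι] {H : Subgroup (SpecialLinearGroup ι F)}
    (h : Full (matOf H) Set.univ) : H = ⊤ := by
  apply top_of_transvections
  intro i j hij c
  have := h i (Set.mem_univ _) j (Set.mem_univ _) hij c
  rw [show e F i = Pi.single i 1 from rfl, show e F j = Pi.single j 1 from rfl, Tm_single,
    mem_matOf] at this
  obtain ⟨g, hg, hgc⟩ := this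
  have : g = SpecialLinearGroup.transvection hij c := Subtype.ext hgc
  rwa [← this]

theorem square_root [Finite F] (l : F) : ∃ a : F, a * a = l := by
  have : Fintype F := Fintype.ofFinite F
  obtain ⟨m, hm, hq⟩ := FiniteField.card F 2
  refine ⟨l ^ (2 ^ ((m : ℕ) - 1)), ?_⟩
  rw [← pow_two, ← pow_mul, ← pow_succ]
  have : (m : ℕ) - 1 + 1 = m := by have := m.pos; omega
  rw [this, ← hq, FiniteField.pow_card]

theorem exists_tuple [Finite F] [Nontrivial ι] {l : F} (hl0 : l ≠ 0)
    {α β π : Matrix ι ι F} {i j : ι} (h : IsGadget l α β π i j) :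
    ∃ t : Fin 5 → SpecialLinearGroup ι F, (∀ k, t k * t k = 1) ∧ (∀ k m, IsConj (t k) (t m)) ∧
      Subgroup.closure (Set.range t) = ⊤ ∧ (List.ofFn t).prod = 1 := by
  have : Fintype F := Fintype.ofFinite F
  have hij := h.hij
  set E : Matrix ι ι F := Tm (l • e F i) (e F j) with hE
  have hEE : E * E = 1 := Tm_sq hij
  have hπE : π * E = E * π := Off_comm_Tm h.off l
  obtain ⟨γ, hγ⟩ : ∃ γ : Matrix ι ι F, γ = π * E := ⟨_, rfl⟩
  have hγγ : γ * γ = 1 := by
    rw [hγ]
    calc π * E * (π * E) = π * (E * π) * E := by simp only [mul_assoc]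
      _ = (π * π) * (E * E) := by rw [← hπE]; simp only [mul_assoc]
      _ = 1 := by rw [h.hπ, hEE, mul_one]
  have hab : (α * β) * (α * β) = 1 := by
    calc α * β * (α * β) = α * (β * α) * β := by simp only [mul_assoc]
      _ = α * α * (β * β) := by rw [← h.hαβ]; simp only [mul_assoc]
      _ = 1 := by rw [h.hα, h.hβ, mul_one]
  have hgbg : (γ * β * γ) * (γ * β * γ) = 1 := by
    calc γ * β * γ * (γ * β * γ) = γ * β * (γ * γ) * β * γ := by simp only [mul_assoc]
      _ = γ * (β * β) * γ := by rw [hγγ, mul_one]; simp only [mul_assoc]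
      _ = 1 := by rw [h.hβ, mul_one, hγγ]
  set a := toSL α h.hα with ha
  set b := toSL β h.hβ with hb
  set ab := toSL (α * β) hab
  set c := toSL γ hγγ with hc
  set cbc := toSL (γ * β * γ) hgbg
  -- relations in `SL`
  have raa : a * a = 1 := Subtype.ext h.hα
  have rbb : b * b = 1 := Subtype.ext h.hβ
  have rcc : c * c = 1 := Subtype.ext hγγ
  have rab : ab = a * b := rfl
  have rcbc : cbc = c * b * c := rfl
  have rabab : ab * ab = 1 := Subtype.ext hab
  have rcbcs : cbc * cbc = 1 := Subtype.ext hgbg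
  -- conjugacy
  obtain ⟨μ, hμ⟩ := square_root l
  have hμ0 : μ ≠ 0 := by rintro rfl; simp at hμ; exact hl0 hμ.symm
  have k1 : SConj α γ := by
    have h1 := conj_swap hij h.off
    have h2 := conj_diag hij h.off hμ0
    rw [hμ] at h2
    rw [hγ]
    exact (h.c3.trans h1).trans h2
  have j1 : IsConj a b := isConj_of_SConj h.c1
  have j2 : IsConj a ab := isConj_of_SConj h.c2
  have j3 : IsConj a c := isConj_of_SConj k1
  have j4 : IsConj a cbc := by
    refine j1.trans ?_
    rw [isConj_iff]
    refine ⟨c, ?_⟩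
    have : c⁻¹ = c := inv_eq_of_mul_eq_one_left rcc
    rw [this, rcbc]
  refine ⟨![c, cbc, c, a, ab], ?_, ?_, ?_, ?_⟩
  · intro k
    fin_cases k
    · exact rcc
    · exact rcbcs
    · exact rcc
    · exact raa
    · exact rabab
  · have hall : ∀ k, IsConj a ((![c, cbc, c, a, ab] : Fin 5 → SpecialLinearGroup ι F) k) := by
      intro k
      fin_cases k
      · exact j3
      · exact j4
      · exact j3
      · exact IsConj.refl a
      · exact j2
    intro k m
    exact (hall k).symm.trans (hall m)
  · set H := Subgroup.closure (Set.range (![c, cbc, c, a, ab] : Fin 5 → SpecialLinearGroup ι F))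
      with hH
    have mc : c ∈ H := Subgroup.subset_closure ⟨0, rfl⟩
    have ma : a ∈ H := Subgroup.subset_closure ⟨3, rfl⟩
    have mab : ab ∈ H := Subgroup.subset_closure ⟨4, rfl⟩
    have mb : b ∈ H := by
      have : b = a * ab := by rw [rab, ← mul_assoc, raa, one_mul]
      rw [this]; exact H.mul_mem ma mab
    have Mα : α ∈ matOf H := mem_matOf.2 ⟨a, ma, rfl⟩
    have Mβ : β ∈ matOf H := mem_matOf.2 ⟨b, mb, rfl⟩
    have Mγ : γ ∈ matOf H := mem_matOf.2 ⟨c, mc, rfl⟩
    obtain ⟨N, hN⟩ := h.nil
    have hoA := h.offA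
    have hoff : Off (π * (De 0 i j * α)) i j := h.off.mul hoA
    have s2 : De (0 : F) i j * De 0 i j = 1 := De_sq hij
    have hD : De l i j ∈ matOf H := by
      refine power_trick hl0 hij hoff hN ?_
      have e1 : De l i j * (π * (De 0 i j * α)) = γ * α := by
        calc De l i j * (π * (De 0 i j * α)) = (De l i j * π) * (De 0 i j * α) := by
              simp only [mul_assoc]
          _ = π * De l i j * (De 0 i j * α) := by rw [De_comm' l h.off]
          _ = π * E * (De 0 i j * De 0 i j) * α := by rw [De_split hij, ← hE]; simp only [mul_assoc]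
          _ = γ * α := by rw [s2, mul_one, hγ]
      rw [e1]
      exact (matOf H).mul_mem Mγ Mα
    -- the matrix `s * π`
    have hsπ : π * De 0 i j ∈ matOf H := by
      have hinv := matOf_inv H
      have e2 : De l i j * (De 0 i j * E) = 1 := by
        calc De l i j * (De 0 i j * E) = E * (De 0 i j * De 0 i j) * E := by
              rw [De_split hij, ← hE]; simp only [mul_assoc]
          _ = 1 := by rw [s2, mul_one, hEE]
      have m1 : De 0 i j * E ∈ matOf H := hinv _ _ hD e2
      have m2 : De 0 i j * E * γ ∈ matOf H := (matOf H).mul_mem m1 Mγ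
      have e4 : De 0 i j * E * γ = π * De 0 i j := by
        rw [hγ]
        calc De 0 i j * E * (π * E) = De 0 i j * (E * π) * E := by simp only [mul_assoc]
          _ = De 0 i j * π * (E * E) := by rw [← hπE]; simp only [mul_assoc]
          _ = π * De 0 i j := by rw [hEE, mul_one, De_comm' 0 h.off]
      rwa [e4] at m2
    apply top_of_full
    refine h.LC (matOf H) (matOf_inv H) hD ?_ ?_ ?_
    · intro x hx
      exact (matOf H).mul_mem ((matOf H).mul_mem Mα hx) Mα
    · intro x hx
      exact (matOf H).mul_mem ((matOf H).mul_mem Mβ hx) Mβ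
    · intro x hx hox
      have m3 := (matOf H).mul_mem ((matOf H).mul_mem hsπ hx) hsπ
      have e5 : π * De 0 i j * x * (π * De 0 i j) = π * x * π := by
        have c1 := De_comm' 0 hox
        have c2 := De_comm' 0 h.off
        calc π * De 0 i j * x * (π * De 0 i j) = π * (De 0 i j * x) * (π * De 0 i j) := by
              simp only [mul_assoc]
          _ = π * x * (De 0 i j * π) * De 0 i j := by rw [← c1]; simp only [mul_assoc]
          _ = π * x * π * (De 0 i j * De 0 i j) := by rw [← c2]; simp only [mul_assoc]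
          _ = _ := by rw [s2, mul_one]
      rwa [e5] at m3
  · have : (List.ofFn (![c, cbc, c, a, ab] : Fin 5 → SpecialLinearGroup ι F)).prod =
        c * (cbc * (c * (a * ab))) := by
      simp [List.ofFn_succ]
    rw [this, rcbc, rab]
    have e1 : c * (c * b * c * (c * (a * (a * b)))) = (c * c) * b * (c * c) * (a * a) * b := by
      simp only [mul_assoc]
    rw [e1, rcc, raa, one_mul, mul_one, mul_one, rbb]

/-- From a gadget to an admissible quintuple of the projective group. -/
theorem admissible_of_gadget [Finite F] [Nontrivial ι] {l : F} (hl0 : l ≠ 0)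
    {α β π : Matrix ι ι F} {i j : ι} (h : IsGadget l α β π i j) :
    Admissible (ProjectiveSpecialLinearGroup ι F) 5 := by
  obtain ⟨t, h1, h2, h3, h4⟩ := exists_tuple hl0 h
  exact admissible_PSL t h1 h2 h3 h4

end main

end H47Inv
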