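import Mathlib
import Pool.Agent.H.MP_0335f8_al.Base5
import Pool.Agent.H.MP_0335f8_al.Base7
import Pool.Agent.H.MP_0335f8_al.Base8
import Pool.Agent.H.MP_0335f8_al.Base10
import Pool.Agent.H.MP_0335f8_al.Main

set_option linter.unusedSectionVars false

namespace H47Inv

open Matrix

/-- there is a gadget of size `n` -/
def HasGadget {F : Type*} [Field F] (l : F) (n : ℕ) : Prop :=
  ∃ (ι : Type) (_ : Fintype ι) (_ : DecidableEq ι), Fintype.card ι = n ∧
    ∃ (α β π : Matrix ι ι F) (i j : ι), IsGadget l α β π i j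

theorem HasGadget.add4 {F : Type*} [Field F] [CharP F 2] {l : F} {n : ℕ} (h : HasGadget l n) :
    HasGadget l (n + 4) := by
  obtain ⟨ι, hι, hd, hc, α, β, π, i, j, hg⟩ := h
  refine ⟨ι ⊕ Fin 4, inferInstance, inferInstance, ?_, _, _, _, _, _, hg.ext4⟩
  rw [Fintype.card_sum, hc, Fintype.card_fin]

theorem HasGadget.add4k {F : Type*} [Field F] [CharP F 2] {l : F} {n : ℕ} (h : HasGadget l n)
    (k : ℕ) : HasGadget l (n + 4 * k) := by
  induction k with
  | zero => exact h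
  | succ k ih => exact ih.add4

theorem hasGadget {F : Type*} [Field F] [CharP F 2] {l : F}
    (hl : ∀ a : F, a ≠ 0 → ∃ k : ℕ, a = l ^ k) (hl0 : l ≠ 0) (n : ℕ) (hn : 5 ≤ n) (h6 : n ≠ 6) :
    HasGadget l n := by
  have g5 : HasGadget l 5 := ⟨Fin 5, inferInstance, inferInstance, by simp, _, _, _, _, _,
    gadget5 hl hl0⟩
  have g7 : HasGadget l 7 := ⟨Fin 7, inferInstance, inferInstance, by simp, _, _, _, _, _,
    gadget7 hl hl0⟩
  have g8 : HasGadget l 8 := ⟨Fin 8, inferInstance, inferInstance, by simp, _, _, _, _, _,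
    gadget8 hl hl0⟩
  have g10 : HasGadget l 10 := ⟨Fin 10, inferInstance, inferInstance, by simp, _, _, _, _, _,
    gadget10 hl hl0⟩
  have h4 : n % 4 = 0 ∨ n % 4 = 1 ∨ n % 4 = 2 ∨ n % 4 = 3 := by omega
  rcases h4 with h | h | h | h
  · have : n = 8 + 4 * ((n - 8) / 4) := by omega
    rw [this]; exact g8.add4k _
  · have : n = 5 + 4 * ((n - 5) / 4) := by omega
    rw [this]; exact g5.add4k _
  · have : n = 10 + 4 * ((n - 10) / 4) := by omega
    rw [this]; exact g10.add4k _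
  · have : n = 7 + 4 * ((n - 7) / 4) := by omega
    rw [this]; exact g7.add4k _

theorem exists_gen (F : Type*) [Field F] [Finite F] :
    ∃ l : F, l ≠ 0 ∧ ∀ a : F, a ≠ 0 → ∃ k : ℕ, a = l ^ k := by
  obtain ⟨g, hg⟩ := IsCyclic.exists_monoid_generator (α := Fˣ)
  refine ⟨g, g.ne_zero, ?_⟩
  intro a ha
  obtain ⟨k, hk⟩ := hg (Units.mk0 a ha)
  refine ⟨k, ?_⟩
  have := congrArg Units.val hk
  simpa using this.symm

theorem admissible_five (F : Type*) [Field F] [Finite F] [CharP F 2] (n : ℕ) (hn : 5 ≤ n)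
    (h6 : n ≠ 6) : Admissible (ProjectiveSpecialLinearGroup (Fin n) F) 5 := by
  obtain ⟨l, hl0, hl⟩ := exists_gen F
  obtain ⟨ι, hι, hd, hc, α, β, π, i, j, hg⟩ := hasGadget hl hl0 n hn h6
  have : Nontrivial ι := ⟨⟨i, j, hg.hij⟩⟩
  have h1 := admissible_of_gadget hl0 hg
  exact admissible_reindex (Fintype.equivFinOfCardEq hc) h1

end H47Inv
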