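import Mathlib
import Pool.Agent.H.MP_0335f8_al.Z2Gad
import Pool.Agent.H.MP_0335f8_al.Power

set_option linter.unusedSectionVars false
set_option linter.unusedSimpArgs false
set_option maxRecDepth 20000

namespace H47Inv

open Matrix

section quad

variable {F : Type*} [Field F] [CharP F 2]

theorem quad_pow (X : Matrix (Fin 2) (Fin 2) F) {t : F} (hX : X * X = t • X + 1) (k : ℕ) :
    ∃ b : F, X ^ (2 ^ k) = (t ^ (2 ^ k - 1)) • X + b • 1 := by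
  induction k with
  | zero => exact ⟨0, by simp⟩
  | succ k ih =>
    obtain ⟨b, hb⟩ := ih
    refine ⟨(t ^ (2 ^ k - 1)) ^ 2 + b ^ 2, ?_⟩
    rw [pow_succ, pow_mul, hb, pow_two]
    set a := t ^ (2 ^ k - 1) with ha
    have e1 : (a • X + b • (1 : Matrix (Fin 2) (Fin 2) F)) * (a • X + b • 1) =
        (a ^ 2) • (X * X) + ((a * b) • X + (a * b) • X) + (b ^ 2) • 1 := by
      simp only [mul_add, add_mul, smul_mul_assoc, mul_smul_comm, mul_one, one_mul, smul_smul,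
        pow_two, smul_add]
      rw [mul_comm b a]
      abel
    rw [e1, two_mat', add_zero, hX, smul_add, smul_smul, add_smul]
    have e2 : a ^ 2 * t = t ^ (2 ^ k * 2 - 1) := by
      rw [ha, ← pow_mul, ← pow_succ]
      congr 1
      have : 1 ≤ 2 ^ k := Nat.one_le_two_pow
      omega
    rw [e2]
    abel

theorem quad_pow_card [Fintype F] (X : Matrix (Fin 2) (Fin 2) F) {t : F} (ht : t ≠ 0)
    (hX : X * X = t • X + 1) : X ^ ((Fintype.card F) ^ 2) = X := by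
  obtain ⟨m, hm, hq⟩ := FiniteField.card F 2
  obtain ⟨b, hb⟩ := quad_pow X hX m
  rw [← hq] at hb
  have hl1 : t ^ (Fintype.card F - 1) = 1 := FiniteField.pow_card_sub_one_eq_one t ht
  rw [hl1, one_smul] at hb
  have key : ∀ k : ℕ, (X + b • (1 : Matrix (Fin 2) (Fin 2) F)) ^ (2 ^ k) =
      X ^ (2 ^ k) + (b ^ (2 ^ k)) • 1 := by
    intro k
    induction k with
    | zero => simp
    | succ k ih =>
      rw [pow_succ, pow_mul, ih, pow_mul, pow_mul, pow_two, pow_two, pow_two]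
      set Y := X ^ (2 ^ k)
      set c := b ^ (2 ^ k)
      have : (Y + c • (1 : Matrix (Fin 2) (Fin 2) F)) * (Y + c • 1) =
          Y * Y + (c • Y + c • Y) + (c * c) • 1 := by
        simp only [mul_add, add_mul, smul_mul_assoc, mul_smul_comm, mul_one, one_mul, smul_smul,
          smul_add]
        abel
      rw [this, two_mat', add_zero]
  rw [pow_two, pow_mul, hb]
  conv_lhs => rw [hq]
  rw [key, ← hq, hb, FiniteField.pow_card, add_assoc, two_mat', add_zero]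

/-- embedding along a frame -/
def embG {ι : Type*} [Fintype ι] [DecidableEq ι] (P : Matrix ι (Fin 2) F) (Q : Matrix (Fin 2) ι F)
    (G' : Matrix (Fin 2) (Fin 2) F) (h : (Q * P) * G' = 1) :
    Matrix (Fin 2) (Fin 2) F →* Matrix ι ι F where
  toFun X := 1 + P * (G' * (X - 1)) * Q
  map_one' := by simp
  map_mul' X Y := by
    have e1 : P * (G' * (X - 1)) * Q * (P * (G' * (Y - 1)) * Q) =
        P * (G' * ((X - 1) * (Y - 1))) * Q := by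
      calc P * (G' * (X - 1)) * Q * (P * (G' * (Y - 1)) * Q)
          = P * (G' * (X - 1)) * ((Q * P) * G') * (Y - 1) * Q := by
            simp only [Matrix.mul_assoc]
        _ = _ := by rw [h, Matrix.mul_one]; simp only [Matrix.mul_assoc]
    rw [add_mul, mul_add, mul_add, e1, one_mul, one_mul, mul_one]
    have e2 : X * Y - 1 = (X - 1) + (Y - 1) + (X - 1) * (Y - 1) := by noncomm_ring
    rw [e2, Matrix.mul_add, Matrix.mul_add, Matrix.mul_add, Matrix.mul_add, Matrix.add_mul,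
      Matrix.add_mul]
    abel

end quad

section key4

variable {F : Type*} [Field F] [CharP F 2]

/-- `(0 1)(2 3)` -/
def al4 : Matrix (Fin 4) (Fin 4) (ZMod 2) := !![0, 1, 0, 0; 1, 0, 0, 0; 0, 0, 0, 1; 0, 0, 1, 0]

/-- the second involution -/
def pi4 : Matrix (Fin 4) (Fin 4) (ZMod 2) := !![0, 1, 0, 1; 0, 1, 1, 0; 0, 0, 1, 0; 1, 1, 1, 0]

/-- vectors -/
def pv (l k : F) : Fin 4 → F := ![l, 0, k * l, 0]
/-- vectors -/
def rv (l k : F) : Fin 4 → F := ![l * (1 + l), l, k, l]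
/-- vectors -/
def Av : Fin 4 → F := ![1, 1, 0, 0]
/-- vectors -/
def Bv (l : F) : Fin 4 → F := ![l, 0, 0, 1]

/-- the semisimple part of the word -/
def wss (l k : F) : Matrix (Fin 4) (Fin 4) F := 1 + vecMulVec (pv l k) Av + vecMulVec (rv l k) (Bv l)

/-- the transvection part of the word -/
def wtr (l k : F) : Matrix (Fin 4) (Fin 4) F :=
  Tm ((k * l) • lv F ![0, 0, 1, 0]) (lv F ![0, 1, 0, 1])

theorem word_eq (l k : F) (hk : k * (1 + l) = l) :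
    Dm l (lv F ![1, 0, 0, 0]) (lv F ![0, 1, 0, 0]) (lv F ![1, 0, 0, 0]) (lv F ![0, 1, 0, 0]) *
    Dm l (lv F ![1, 1, 0, 1]) (lv F ![0, 0, 0, 1]) (lv F ![0, 1, 1, 0]) (lv F ![0, 1, 0, 1]) *
    Dm l (lv F ![1, 0, 1, 1]) (lv F ![0, 1, 1, 1]) (lv F ![1, 0, 1, 1]) (lv F ![0, 1, 1, 1]) *
    Dm l (lv F ![1, 1, 1, 0]) (lv F ![0, 0, 1, 0]) (lv F ![1, 0, 0, 1]) (lv F ![1, 0, 1, 0]) =
    wtr l k * wss l k := by
  have e1 : Dm l (lv F ![1, 0, 0, 0]) (lv F ![0, 1, 0, 0]) (lv F ![1, 0, 0, 0])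
      (lv F ![0, 1, 0, 0]) = !![l, 1, 0, 0; 1, 0, 0, 0; 0, 0, 1, 0; 0, 0, 0, 1] := by
    ext i j
    fin_cases i <;> fin_cases j <;> simp [Dm, lv, vecMulVec_apply]
  have e2 : Dm l (lv F ![1, 1, 0, 1]) (lv F ![0, 0, 0, 1]) (lv F ![0, 1, 1, 0])
      (lv F ![0, 1, 0, 1]) = !![1, l, l + 1, 1; 0, l + 1, l + 1, 1; 0, 0, 1, 0; 0, l, l, 1] := by
    ext i j
    fin_cases i <;> fin_cases j <;> simp [Dm, lv, vecMulVec_apply] <;> ring_nf <;>
      reduce_mod_char!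
  have e3 : Dm l (lv F ![1, 0, 1, 1]) (lv F ![0, 1, 1, 1]) (lv F ![1, 0, 1, 1])
      (lv F ![0, 1, 1, 1]) =
      !![l, 1, l, l; 1, 0, 0, 0; l, 0, l + 1, l; l, 0, l, l + 1] := by
    ext i j
    fin_cases i <;> fin_cases j <;> simp [Dm, lv, vecMulVec_apply] <;> ring_nf <;>
      reduce_mod_char!
  have e4 : Dm l (lv F ![1, 1, 1, 0]) (lv F ![0, 0, 1, 0]) (lv F ![1, 0, 0, 1])
      (lv F ![1, 0, 1, 0]) =
      !![l + 1, 0, 1, l + 1; l, 1, 1, l + 1; l, 0, 1, l; 0, 0, 0, 1] := by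
    ext i j
    fin_cases i <;> fin_cases j <;> simp [Dm, lv, vecMulVec_apply] <;> ring_nf <;>
      reduce_mod_char!
  have e5 : (!![l, 1, 0, 0; 1, 0, 0, 0; 0, 0, 1, 0; 0, 0, 0, 1] *
      !![1, l, l + 1, 1; 0, l + 1, l + 1, 1; 0, 0, 1, 0; 0, l, l, 1] : Matrix (Fin 4) (Fin 4) F) =
      !![l, l ^ 2 + l + 1, l ^ 2 + 1, l + 1; 1, l, l + 1, 1; 0, 0, 1, 0; 0, l, l, 1] := by
    ext i j
    fin_cases i <;> fin_cases j <;> simp [Matrix.mul_apply, Fin.sum_univ_four] <;> ring_nf <;>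
      reduce_mod_char!
  have e6 : (!![l, l ^ 2 + l + 1, l ^ 2 + 1, l + 1; 1, l, l + 1, 1; 0, 0, 1, 0; 0, l, l, 1] *
      !![l, 1, l, l; 1, 0, 0, 0; l, 0, l + 1, l; l, 0, l, l + 1] : Matrix (Fin 4) (Fin 4) F) =
      !![l ^ 3 + l ^ 2 + l + 1, l, l ^ 3 + l ^ 2 + 1, l ^ 3 + l + 1;
        l ^ 2, 1, l ^ 2 + 1, l ^ 2 + l + 1; l, 0, l + 1, l;
        l ^ 2, 0, l ^ 2, l ^ 2 + l + 1] := by
    ext i j
    fin_cases i <;> fin_cases j <;> simp [Matrix.mul_apply, Fin.sum_univ_four] <;> ring_nf <;>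
      reduce_mod_char!
  have e7 : (!![l ^ 3 + l ^ 2 + l + 1, l, l ^ 3 + l ^ 2 + 1, l ^ 3 + l + 1;
        l ^ 2, 1, l ^ 2 + 1, l ^ 2 + l + 1; l, 0, l + 1, l;
        l ^ 2, 0, l ^ 2, l ^ 2 + l + 1] *
      !![l + 1, 0, 1, l + 1; l, 1, 1, l + 1; l, 0, 1, l; 0, 0, 0, 1] : Matrix (Fin 4) (Fin 4) F) =
      !![l ^ 3 + l ^ 2 + l + 1, l, 0, l ^ 2 + l; l ^ 2, 1, 0, l; 0, 0, 1, l;
        l ^ 2, 0, 0, l + 1] := by
    ext i j
    fin_cases i <;> fin_cases j <;> simp [Matrix.mul_apply, Fin.sum_univ_four] <;> ring_nf <;>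
      reduce_mod_char!
  have e8 : wss l k = !![l ^ 3 + l ^ 2 + l + 1, l, 0, l ^ 2 + l; l ^ 2, 1, 0, l;
      0, k * l, 1, k; l ^ 2, 0, 0, l + 1] := by
    ext i j
    fin_cases i <;> fin_cases j <;>
      simp [wss, pv, rv, Av, Bv, vecMulVec_apply] <;> ring_nf <;> reduce_mod_char!
  have e9 : wtr l k = !![1, 0, 0, 0; 0, 1, 0, 0; 0, k * l, 1, k * l; 0, 0, 0, 1] := by
    ext i j
    fin_cases i <;> fin_cases j <;> simp [wtr, Tm, lv, vecMulVec_apply]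
  have e10 : (!![1, 0, 0, 0; 0, 1, 0, 0; 0, k * l, 1, k * l; 0, 0, 0, 1] *
      !![l ^ 3 + l ^ 2 + l + 1, l, 0, l ^ 2 + l; l ^ 2, 1, 0, l;
      0, k * l, 1, k; l ^ 2, 0, 0, l + 1] : Matrix (Fin 4) (Fin 4) F) =
      !![l ^ 3 + l ^ 2 + l + 1, l, 0, l ^ 2 + l; l ^ 2, 1, 0, l; 0, 0, 1, k * (1 + l);
        l ^ 2, 0, 0, l + 1] := by
    ext i j
    fin_cases i <;> fin_cases j <;> simp [Matrix.mul_apply, Fin.sum_univ_four] <;> ring_nf <;>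
      reduce_mod_char!
  rw [e1, e2, e3, e4, e5, e6, e7, e8, e9, e10, hk]

/-- the columns `p`, `r` -/
def Pm (l k : F) : Matrix (Fin 4) (Fin 2) F := of fun a b => ![pv l k a, rv l k a] b

/-- the rows `A`, `B` -/
def Qm (l : F) : Matrix (Fin 2) (Fin 4) F := of fun a b => ![Av b, Bv l b] a

/-- Gram matrix -/
def Gm (l : F) : Matrix (Fin 2) (Fin 2) F := !![l, l ^ 2; l ^ 2, l ^ 3 + l ^ 2 + l]

/-- its inverse -/
def Gi (l : F) : Matrix (Fin 2) (Fin 2) F :=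
  (l ^ 3 + l ^ 2)⁻¹ • !![l ^ 3 + l ^ 2 + l, l ^ 2; l ^ 2, l]

theorem QP_eq (l k : F) : Qm l * Pm l k = Gm l := by
  ext i j
  fin_cases i <;> fin_cases j <;>
    simp [Qm, Pm, Gm, pv, rv, Av, Bv, Matrix.mul_apply, Fin.sum_univ_four] <;> ring_nf <;>
    reduce_mod_char!

theorem GGi {l : F} (ht : l ^ 3 + l ^ 2 ≠ 0) : Gm l * Gi l = 1 := by
  have h : Gm l * !![l ^ 3 + l ^ 2 + l, l ^ 2; l ^ 2, l] = (l ^ 3 + l ^ 2) • 1 := by
    ext i j
    fin_cases i <;> fin_cases j <;>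
      simp [Gm, Matrix.mul_apply, Fin.sum_univ_two] <;> ring_nf <;> reduce_mod_char!
  rw [Gi, mul_smul_comm, h, smul_smul, inv_mul_cancel₀ ht, one_smul]

theorem XX_eq (l : F) : (1 + Gm l) * (1 + Gm l) = (l ^ 3 + l ^ 2) • (1 + Gm l) + 1 := by
  ext i j
  fin_cases i <;> fin_cases j <;>
    simp [Gm, Matrix.mul_apply, Fin.sum_univ_two] <;> ring_nf <;> reduce_mod_char!

theorem wss_eq {l : F} (k : F) (ht : l ^ 3 + l ^ 2 ≠ 0) :
    wss l k = embG (Pm l k) (Qm l) (Gi l) (by rw [QP_eq, GGi ht]) (1 + Gm l) := by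
  have h1 : Gi l * Gm l = 1 := mul_eq_one_comm.mp (GGi ht)
  have h2 : embG (Pm l k) (Qm l) (Gi l) (by rw [QP_eq, GGi ht]) (1 + Gm l) =
      1 + Pm l k * (Gi l * ((1 + Gm l) - 1)) * Qm l := rfl
  rw [h2, add_sub_cancel_left, h1, Matrix.mul_one]
  ext i j
  fin_cases i <;> fin_cases j <;>
    simp [wss, Pm, Qm, pv, rv, Av, Bv, vecMulVec_apply, Matrix.mul_apply, Fin.sum_univ_two,
      add_assoc]

theorem wss_pow [Fintype F] {l : F} (k : F) (ht : l ^ 3 + l ^ 2 ≠ 0) :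
    (wss l k) ^ ((Fintype.card F) ^ 2) = wss l k := by
  rw [wss_eq k ht, ← map_pow, quad_pow_card _ ht (XX_eq l)]

theorem wss_inv {l : F} (k : F) (ht : l ^ 3 + l ^ 2 ≠ 0) : ∃ y, wss l k * y = 1 := by
  refine ⟨embG (Pm l k) (Qm l) (Gi l) (by rw [QP_eq, GGi ht])
    ((1 + Gm l) + (l ^ 3 + l ^ 2) • 1), ?_⟩
  rw [wss_eq k ht, ← map_mul, mul_add, XX_eq, mul_smul_comm, mul_one]
  have : (l ^ 3 + l ^ 2) • (1 + Gm l) + 1 + (l ^ 3 + l ^ 2) • (1 + Gm l) =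
      1 + ((l ^ 3 + l ^ 2) • (1 + Gm l) + (l ^ 3 + l ^ 2) • (1 + Gm l)) := by abel
  rw [this, two_mat', add_zero, map_one]

theorem wtr_sq (l k : F) : wtr l k * wtr l k = 1 := by
  rw [wtr, Tm_mul_right]
  · have : lv F ![0, 1, 0, 1] + lv F ![0, 1, 0, 1] = 0 := by
      ext x; simp [CharTwo.add_self_eq_zero]
    rw [this]
    simp [Tm]
  · rw [dotProduct_smul, lv_dot0 F (by decide), smul_zero]

theorem wtr_comm (l k : F) : wss l k * wtr l k = wtr l k * wss l k := by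
  have k1 : Av ⬝ᵥ lv F ![0, 0, 1, 0] = 0 := by
    simp [Av, lv, dotProduct, Fin.sum_univ_four]
  have k2 : Bv l ⬝ᵥ lv F ![0, 0, 1, 0] = 0 := by
    simp [Bv, lv, dotProduct, Fin.sum_univ_four]
  have k3 : lv F ![0, 1, 0, 1] ⬝ᵥ pv l k = 0 := by
    simp [pv, lv, dotProduct, Fin.sum_univ_four]
  have k4 : lv F ![0, 1, 0, 1] ⬝ᵥ rv l k = 0 := by
    simp [rv, lv, dotProduct, Fin.sum_univ_four, CharTwo.add_self_eq_zero]
  have h1 : wss l k *ᵥ lv F ![0, 0, 1, 0] = lv F ![0, 0, 1, 0] := by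
    rw [wss, add_mulVec, add_mulVec, one_mulVec, vecMulVec_mulVec, vecMulVec_mulVec, k1, k2]
    simp
  have h2 : lv F ![0, 1, 0, 1] ᵥ* wss l k = lv F ![0, 1, 0, 1] := by
    rw [wss, vecMul_add, vecMul_add, vecMul_one, vecMul_vecMulVec, vecMul_vecMulVec, k3, k4]
    simp
  simp only [wtr, Tm, mul_add, add_mul, mul_one, one_mul, mul_vecMulVec, vecMulVec_mul,
    mulVec_smul, h1, h2]

/-- the transvection found in the group -/
theorem wtr_mem [Fintype F] {l : F} {M : Submonoid (Matrix (Fin 4) (Fin 4) F)}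
    (c : Ctx l al4 pi4 1 0 1 M) (hl1 : l ≠ 1) :
    ∃ a : F, a ≠ 0 ∧ Tm (a • lv F ![0, 0, 1, 0]) (lv F ![0, 1, 0, 1]) ∈ M := by
  have h1l : 1 + l ≠ 0 := by
    intro h
    apply hl1
    linear_combination h - (CharTwo.two_eq_zero : (2 : F) = 0)
  have ht : l ^ 3 + l ^ 2 ≠ 0 := by
    have : l ^ 3 + l ^ 2 = l ^ 2 * (1 + l) := by ring
    rw [this]
    exact mul_ne_zero (pow_ne_zero 2 c.l0) h1l
  obtain ⟨k, hk⟩ : ∃ k : F, k * (1 + l) = l := ⟨l / (1 + l), div_mul_cancel₀ _ h1l⟩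
  have hk0 : k ≠ 0 := by
    rintro rfl
    rw [zero_mul] at hk
    exact c.l0 hk.symm
  have d0 : D2 l M ![1, 0, 0, 0] ![0, 1, 0, 0] ![1, 0, 0, 0] ![0, 1, 0, 0] :=
    D2.init c (by decide) (by decide +kernel)
  have d1 : D2 l M ![0, 0, 0, 1] ![1, 1, 0, 1] ![0, 1, 0, 1] ![0, 1, 1, 0] :=
    D2.be c d0 (by decide +kernel)
  have d2 : D2 l M ![0, 0, 1, 0] ![1, 1, 1, 0] ![1, 0, 1, 0] ![1, 0, 0, 1] :=
    D2.al c d1 (by decide +kernel)
  have d3 : D2 l M ![0, 1, 1, 1] ![1, 0, 1, 1] ![0, 1, 1, 1] ![1, 0, 1, 1] :=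
    D2.be c d2 (by decide +kernel)
  have hw : wtr l k * wss l k ∈ M := by
    rw [← word_eq l k hk]
    exact M.mul_mem (M.mul_mem (M.mul_mem d0.1 (d1.symm c).1) (d3.symm c).1) (d2.symm c).1
  obtain ⟨m, hm, hq⟩ := FiniteField.card F 2
  have hcm : Commute (wtr l k) (wss l k) := (wtr_comm l k).symm
  have hwss : wss l k ∈ M := by
    have h1 := M.pow_mem hw ((Fintype.card F) ^ 2)
    rw [hcm.mul_pow, wss_pow k ht] at h1
    have h2 : (wtr l k) ^ ((Fintype.card F) ^ 2) = 1 := by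
      obtain ⟨m', hm'⟩ : ∃ m', (m : ℕ) = m' + 1 := ⟨(m : ℕ) - 1, by have := m.pos; omega⟩
      have h3 : (Fintype.card F) ^ 2 = 2 * (2 ^ (2 * m' + 1)) := by
        rw [hq, hm', ← pow_mul]
        ring
      rw [h3, pow_mul, pow_two, wtr_sq, one_pow]
    rwa [h2, one_mul] at h1
  obtain ⟨y, hy⟩ := wss_inv k ht
  have hyM := c.inv _ _ hwss hy
  refine ⟨k * l, mul_ne_zero hk0 c.l0, ?_⟩
  have h4 := M.mul_mem hw hyM
  rwa [mul_assoc, hy, mul_one] at h4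

theorem key4_steps {l : F} {M : Submonoid (Matrix (Fin 4) (Fin 4) F)}
    (c : Ctx l al4 pi4 1 0 1 M) (ra : R2 M ![0, 0, 1, 0] ![1, 0, 0, 0])
    (rb : R2 M ![0, 0, 1, 0] ![0, 1, 0, 0]) (x : Fin 4) : R2 M (e2 x) (e2 (nxt x)) := by
  have r0 : R2 M ![0, 0, 0, 1] ![0, 1, 0, 0] :=
    R2.al c ra (by decide +kernel)
  have r1 : R2 M ![1, 0, 0, 0] ![0, 1, 1, 0] :=
    R2.be c r0 (by decide +kernel)
  have r2 : R2 M ![1, 0, 0, 0] ![0, 1, 0, 0] :=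
    R2.comm r1 rb (by decide +kernel)
  have d3 : D2 l M ![1, 0, 0, 0] ![0, 1, 0, 0] ![1, 0, 0, 0] ![0, 1, 0, 0] :=
    D2.init c (by decide) (by decide +kernel)
  have r4 : R2 M ![1, 0, 0, 0] ![0, 0, 1, 0] :=
    R2.addr r2 r1 (by decide +kernel)
  have r5 : R2 M ![0, 1, 0, 0] ![0, 0, 1, 0] :=
    (WL2 c d3 r4 (by decide +kernel)).2
  have r6 : R2 M ![0, 1, 0, 0] ![0, 0, 0, 1] :=
    R2.al c r4 (by decide +kernel)
  have r7 : R2 M ![0, 0, 1, 0] ![0, 0, 0, 1] :=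
    R2.comm rb r6 (by decide +kernel)
  have r8 : R2 M ![0, 0, 0, 1] ![1, 0, 0, 0] :=
    R2.al c rb (by decide +kernel)
  fin_cases x
  · exact r2.cast (by decide +kernel)
  · exact r5.cast (by decide +kernel)
  · exact r7.cast (by decide +kernel)
  · exact r8.cast (by decide +kernel)

theorem key4 [Fintype F] {l : F} {M : Submonoid (Matrix (Fin 4) (Fin 4) F)}
    (c : Ctx l al4 pi4 1 0 1 M) (hl1 : l ≠ 1) : Full M Set.univ := by
  obtain ⟨a, ha, hz⟩ := wtr_mem c hl1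
  have d0 : D2 l M ![1, 0, 0, 0] ![0, 1, 0, 0] ![1, 0, 0, 0] ![0, 1, 0, 0] :=
    D2.init c (by decide) (by decide +kernel)
  have d0' := d0.symm c
  obtain ⟨hd, a00, a01, a10, a11⟩ := d0
  have hab : (lv F ![0, 1, 0, 1] ⬝ᵥ lv F ![1, 0, 0, 0] = 1 ∧
      lv F ![0, 1, 0, 1] ⬝ᵥ lv F ![0, 1, 0, 0] = 1) ∨
      (lv F ![0, 1, 0, 1] ⬝ᵥ lv F ![1, 0, 0, 0] = 0 ∧
      lv F ![0, 1, 0, 1] ⬝ᵥ lv F ![0, 1, 0, 0] = 1) ∨
      (lv F ![0, 1, 0, 1] ⬝ᵥ lv F ![1, 0, 0, 0] = 1 ∧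
      lv F ![0, 1, 0, 1] ⬝ᵥ lv F ![0, 1, 0, 0] = 0) :=
    Or.inr (Or.inl ⟨lv_dot0 F (by decide), lv_dot1 F (by decide)⟩)
  obtain ⟨r1, r2⟩ := DW_right c.gen c.l0 hd d0'.1 (lv_dot1 F a00) (lv_dot0 F a01)
    (lv_dot0 F a10) (lv_dot1 F a11) (z := lv F ![0, 0, 1, 0]) (lv_dot0 F (by decide))
    (lv_dot0 F (by decide)) (lv_dot0 F (by decide)) hab ha hz
  apply full_of_cycle
  intro x
  have := (key4_steps c ⟨r1, by decide⟩ ⟨r2, by decide⟩ x).1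
  rwa [lv_e2, lv_e2] at this

end key4

end H47Inv
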