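import Mathlib
import Pool.Agent.H.MP_0335f8_al.Key4
import Pool.Agent.H.MP_0335f8_al.Main

set_option linter.unusedSectionVars false
set_option linter.unusedSimpArgs false

namespace H47Inv

open Matrix

section gen

variable {F : Type*} [Field F] {ι : Type*} [Fintype ι] [DecidableEq ι]
variable {κ : Type*} [Fintype κ] [DecidableEq κ]

theorem colG [CharP F 2] {M : Submonoid (Matrix (ι ⊕ κ) (ι ⊕ κ) F)} {i j : ι}
    (hF : Full M (Set.range Sum.inl)) (hij : i ≠ j) {w : ι → F} (hw : w ≠ 0) {k : κ}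
    (h : R M (Sum.elim w 0) (e F (Sum.inr k))) (x : ι) :
    R M (e F (Sum.inl x)) (e F (Sum.inr k)) := by
  obtain ⟨x0, hx0⟩ := Function.ne_iff.mp hw
  obtain ⟨x1, hx1⟩ : ∃ x1 : ι, x1 ≠ x0 := by
    rcases eq_or_ne i x0 with rfl | h
    · exact ⟨j, hij.symm⟩
    · exact ⟨i, h⟩
  refine hF.col (y := Sum.inr k) (by simp) (v := Sum.elim w 0) ?_ (x0 := Sum.inl x0)
    (by simpa using hx0) (x1 := Sum.inl x1) ⟨x1, rfl⟩ (by simpa using hx1) h _ ⟨x, rfl⟩
  rintro (a | a) ha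
  · exact absurd ⟨a, rfl⟩ ha
  · simp

theorem rowG [CharP F 2] {M : Submonoid (Matrix (ι ⊕ κ) (ι ⊕ κ) F)} {i j : ι}
    (hF : Full M (Set.range Sum.inl)) (hij : i ≠ j) {w : ι → F} (hw : w ≠ 0) {k : κ}
    (h : R M (e F (Sum.inr k)) (Sum.elim w 0)) (x : ι) :
    R M (e F (Sum.inr k)) (e F (Sum.inl x)) := by
  obtain ⟨x0, hx0⟩ := Function.ne_iff.mp hw
  obtain ⟨x1, hx1⟩ : ∃ x1 : ι, x1 ≠ x0 := by
    rcases eq_or_ne i x0 with rfl | h
    · exact ⟨j, hij.symm⟩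
    · exact ⟨i, h⟩
  refine hF.row (y := Sum.inr k) (by simp) (v := Sum.elim w 0) ?_ (x0 := Sum.inl x0)
    (by simpa using hx0) (x1 := Sum.inl x1) ⟨x1, rfl⟩ (by simpa using hx1) h _ ⟨x, rfl⟩
  rintro (a | a) ha
  · exact absurd ⟨a, rfl⟩ ha
  · simp

theorem blocks_mulG (a b : Matrix ι ι F) (c d : Matrix κ κ F) :
    fromBlocks a 0 0 c * fromBlocks b 0 0 d = fromBlocks (a * b) 0 0 (c * d) := by
  simp [fromBlocks_multiply]

theorem SConj_blocksG {a b : Matrix ι ι F} {c d p : Matrix κ κ F}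
    (h : SConj a b) (hp : p.det = 1) (hc : p * c = d * p) :
    SConj (fromBlocks a 0 0 c) (fromBlocks b 0 0 d) := by
  obtain ⟨g, hg, h⟩ := h
  refine ⟨fromBlocks g 0 0 p, ?_, ?_⟩
  · rw [det_fromBlocks_zero₂₁, hg, hp, one_mul]
  · rw [blocks_mulG, blocks_mulG, h, hc]

theorem De_inrG (l : F) (x y : κ) :
    (De l (Sum.inr x) (Sum.inr y) : Matrix (ι ⊕ κ) (ι ⊕ κ) F) =
      fromBlocks 1 0 0 (De l x y) := by
  ext a b
  rcases a with a | a <;> rcases b with b | b <;>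
    simp [De, Dm, vecMulVec_apply, one_apply, e, Pi.single_apply]

theorem mat_ext_e {A B : Matrix ι ι F} (h : ∀ z, A *ᵥ e F z = B *ᵥ e F z) : A = B := by
  ext a z
  have := congrFun (h z) a
  simpa [e] using this

end gen

section base6

variable {F : Type*} [Field F] [CharP F 2]

/-- the index type -/
abbrev I6 := Fin 4 ⊕ Fin 2

/-- first involution -/
def al6 (F : Type*) [Field F] [CharP F 2] : Matrix I6 I6 F :=
  fromBlocks (lf F al4) 0 0 (De 0 0 1)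

/-- third involution -/
def pi6 (F : Type*) [Field F] [CharP F 2] : Matrix I6 I6 F := hat (Fin 2) (lf F pi4)

/-- the vector -/
def u6 (F : Type*) [Field F] : I6 → F := e F (Sum.inl 2) + e F (Sum.inl 3)

/-- `1 + b u ⊗ u` -/
def T6 (b : F) : Matrix I6 I6 F := Tm (b • u6 F) (u6 F)

/-- second involution -/
def be6 (b : F) : Matrix I6 I6 F :=
  De 0 (Sum.inr 0) (Sum.inl 0) * De 0 (Sum.inr 1) (Sum.inl 1) * T6 b

theorem u6_dot : u6 F ⬝ᵥ u6 F = 0 := by
  simp [u6, e_dot_e, CharTwo.add_self_eq_zero]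

theorem T6_mul (a b : F) : T6 a * T6 b = T6 (a + b) := by
  rw [T6, T6, Tm_mul_left (by rw [dotProduct_smul, u6_dot, smul_zero]), T6, add_smul]

theorem T6_zero : T6 (0 : F) = 1 := by simp [T6, Tm]

theorem T6_sq (b : F) : T6 b * T6 b = 1 := by
  rw [T6_mul, CharTwo.add_self_eq_zero, T6_zero]

theorem T6_one : T6 (1 : F) = De 0 (Sum.inl 2) (Sum.inl 3) := by
  have h2 : (2 : F) = 0 := CharTwo.two_eq_zero
  simp only [T6, De, Dm, Tm, u6]
  ext a b
  simp only [Matrix.add_apply, Matrix.smul_apply, vecMulVec_apply, Pi.add_apply, Pi.smul_apply,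
    Pi.sub_apply, smul_eq_mul]
  linear_combination (e F (Sum.inl 2 : I6) a * e F (Sum.inl 2 : I6) b +
    e F (Sum.inl 3 : I6) a * e F (Sum.inl 3 : I6) b) * h2

theorem off_T6 (b : F) {x y : I6} (hx : x ≠ Sum.inl 2) (hx' : x ≠ Sum.inl 3)
    (hy : y ≠ Sum.inl 2) (hy' : y ≠ Sum.inl 3) : Off (T6 b) x y := by
  apply Off_Tm <;> simp [u6, e_apply, hx, hx', hy, hy']

theorem al6_eq : al6 F = De 0 (Sum.inr 0) (Sum.inr 1) *
    (De 0 (Sum.inl 0) (Sum.inl 1) * De 0 (Sum.inl 2) (Sum.inl 3)) := by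
  have h : lf F al4 = De 0 0 1 * De 0 2 3 := by
    rw [← lf_sw (by decide), ← lf_sw (by decide), ← lf_mul]
    congr 1
    decide +kernel
  rw [De_inrG, ← hat_De, ← hat_De, ← map_mul, ← h, hat_apply, blocks_mulG, one_mul, mul_one]
  rfl

/-- the permutation of `al6` -/
def s6 (z : I6) : I6 := Equiv.swap (Sum.inr 0) (Sum.inr 1)
  (Equiv.swap (Sum.inl 0) (Sum.inl 1) (Equiv.swap (Sum.inl 2) (Sum.inl 3) z))

theorem al6_e (z : I6) : al6 F *ᵥ e F z = e F (s6 z) := by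
  rw [al6_eq, ← mulVec_mulVec, ← mulVec_mulVec, De0_e (by simp), De0_e (by simp),
    De0_e (by simp)]
  rfl

theorem e_al6 (z : I6) : e F z ᵥ* al6 F = e F (s6 z) := by
  rw [al6_eq, ← vecMul_vecMul, ← vecMul_vecMul, e_De0 (by simp), e_De0 (by simp),
    e_De0 (by simp)]
  congr 1
  revert z
  decide

theorem al6_sq : al6 F * al6 F = 1 := by
  apply mat_ext_e
  intro z
  rw [← mulVec_mulVec, al6_e, al6_e, one_mulVec]
  congr 1
  revert z
  decide

theorem al6_De (x y : I6) : al6 F * De 0 x y = De 0 (s6 x) (s6 y) * al6 F := by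
  have h : al6 F * De 0 x y * al6 F = De 0 (s6 x) (s6 y) := by
    rw [De, conj_Dm al6_sq, al6_e, al6_e, e_al6, e_al6]; rfl
  rw [← h, mul_assoc _ (al6 F) (al6 F), al6_sq, mul_one]

theorem al6_T (b : F) : al6 F * T6 b = T6 b * al6 F := by
  have h : al6 F * T6 b * al6 F = T6 b := by
    rw [T6, conj_Tm al6_sq, mulVec_smul]
    have h1 : al6 F *ᵥ u6 F = u6 F := by
      rw [u6, mulVec_add, al6_e, al6_e]
      rw [show s6 (Sum.inl 2) = Sum.inl 3 by decide, show s6 (Sum.inl 3) = Sum.inl 2 by decide,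
        add_comm]
    have h2 : u6 F ᵥ* al6 F = u6 F := by
      rw [u6, add_vecMul, e_al6, e_al6]
      rw [show s6 (Sum.inl 2) = Sum.inl 3 by decide, show s6 (Sum.inl 3) = Sum.inl 2 by decide,
        add_comm]
    rw [h1, h2]
  calc al6 F * T6 b = al6 F * T6 b * (al6 F * al6 F) := by rw [al6_sq, mul_one]
    _ = _ := by rw [← mul_assoc, h]

theorem De0_symm {ι : Type*} [Fintype ι] [DecidableEq ι] (x y : ι) :
    (De 0 x y : Matrix ι ι F) = De 0 y x := by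
  simp only [De, Dm]
  ext a b
  simp only [Matrix.add_apply, vecMulVec_apply, Pi.add_apply, Pi.smul_apply,
    Pi.sub_apply, smul_eq_mul]
  ring

theorem be6_sq (b : F) : be6 b * be6 b = 1 := by
  have c1 : T6 b * De 0 (Sum.inr 0) (Sum.inl 0) = De 0 (Sum.inr 0) (Sum.inl 0) * T6 b :=
    De_comm' 0 (off_T6 b (by simp) (by simp) (by simp) (by simp))
  have c2 : T6 b * De 0 (Sum.inr 1) (Sum.inl 1) = De 0 (Sum.inr 1) (Sum.inl 1) * T6 b :=
    De_comm' 0 (off_T6 b (by simp) (by simp) (by simp) (by simp))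
  have c3 : (De 0 (Sum.inr 0) (Sum.inl 0) : Matrix I6 I6 F) * De 0 (Sum.inr 1) (Sum.inl 1) =
      De 0 (Sum.inr 1) (Sum.inl 1) * De 0 (Sum.inr 0) (Sum.inl 0) :=
    De_comm' 0 (Off_De (by simp) (by simp) (by simp) (by simp))
  have s1 : (De 0 (Sum.inr 0) (Sum.inl 0) : Matrix I6 I6 F) * De 0 (Sum.inr 0) (Sum.inl 0) = 1 :=
    De_sq (by simp)
  have s2 : (De 0 (Sum.inr 1) (Sum.inl 1) : Matrix I6 I6 F) * De 0 (Sum.inr 1) (Sum.inl 1) = 1 :=
    De_sq (by simp)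
  unfold be6
  set S1 : Matrix I6 I6 F := De 0 (Sum.inr 0) (Sum.inl 0)
  set S2 : Matrix I6 I6 F := De 0 (Sum.inr 1) (Sum.inl 1)
  calc S1 * S2 * T6 b * (S1 * S2 * T6 b) = S1 * S2 * (T6 b * S1) * S2 * T6 b := by
        simp only [mul_assoc]
    _ = S1 * S2 * S1 * (T6 b * S2) * T6 b := by rw [c1]; simp only [mul_assoc]
    _ = S1 * (S2 * S1) * S2 * (T6 b * T6 b) := by rw [c2]; simp only [mul_assoc]
    _ = S1 * (S1 * S2) * S2 := by rw [T6_sq, mul_one, c3]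
    _ = (S1 * S1) * (S2 * S2) := by simp only [mul_assoc]
    _ = 1 := by rw [s1, s2, mul_one]

theorem al6_be6 (b : F) : al6 F * be6 b = be6 b * al6 F := by
  have c3 : (De 0 (Sum.inr 0) (Sum.inl 0) : Matrix I6 I6 F) * De 0 (Sum.inr 1) (Sum.inl 1) =
      De 0 (Sum.inr 1) (Sum.inl 1) * De 0 (Sum.inr 0) (Sum.inl 0) :=
    De_comm' 0 (Off_De (by simp) (by simp) (by simp) (by simp))
  have a1 := al6_De (F := F) (Sum.inr 0) (Sum.inl 0)
  have a2 := al6_De (F := F) (Sum.inr 1) (Sum.inl 1)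
  rw [show s6 (Sum.inr 0) = Sum.inr 1 by decide, show s6 (Sum.inl 0) = Sum.inl 1 by decide] at a1
  rw [show s6 (Sum.inr 1) = Sum.inr 0 by decide, show s6 (Sum.inl 1) = Sum.inl 0 by decide] at a2
  unfold be6
  rw [← mul_assoc, ← mul_assoc, a1, mul_assoc _ (al6 F), a2, ← mul_assoc, mul_assoc _ (al6 F),
    al6_T, ← mul_assoc, c3]

/-- conjugator in the plane -/
def g6 (μ : F) : Matrix I6 I6 F :=
  Dg (Sum.inl 2) (Sum.inl 3) μ⁻¹ * Tm ((μ * μ + 1) • e F (Sum.inl 2)) (e F (Sum.inl 3))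

theorem det_g6 {μ : F} (hμ : μ ≠ 0) : (g6 μ).det = 1 := by
  rw [g6, det_mul, det_Dg (by simp) (inv_ne_zero hμ), one_mul,
    show Tm ((μ * μ + 1) • e F (Sum.inl 2 : I6)) (e F (Sum.inl 3)) =
      transvection (Sum.inl 2) (Sum.inl 3) (μ * μ + 1) from Tm_single _ _ _,
    det_transvection_of_ne _ _ (by simp)]

theorem g6_T {μ : F} (hμ : μ ≠ 0) : g6 μ * T6 1 = T6 (μ * μ) * g6 μ := by
  have h2 : (2 : F) = 0 := CharTwo.two_eq_zero
  have e1 : g6 μ *ᵥ u6 F = μ • u6 F := by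
    rw [g6, ← mulVec_mulVec, u6]
    simp only [Tm, Dg, add_mulVec, one_mulVec, vecMulVec_mulVec, mulVec_add, mulVec_smul, e_dot_e,
      dotProduct_add]
    ext a
    simp [e_dot_e]
    field_simp
    linear_combination (e F (Sum.inl 2 : I6) a) * h2
  have e2' : u6 F ᵥ* g6 μ = μ⁻¹ • u6 F := by
    rw [g6, ← vecMul_vecMul, u6]
    simp only [Tm, Dg, vecMul_add, add_vecMul, vecMul_one, vecMul_vecMulVec, dotProduct_smul,
      e_dot_e, smul_dotProduct]
    ext a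
    simp [e_dot_e]
    field_simp
    linear_combination (μ ^ 2 * e F (Sum.inl 3 : I6) a) * h2
  simp only [T6, Tm, mul_add, add_mul, mul_one, one_mul, mul_vecMulVec, vecMulVec_mul,
    mulVec_smul, e1, e2', one_smul, smul_vecMulVec, vecMulVec_smul, smul_smul, smul_mul_assoc]
  congr 2
  field_simp

theorem cT (b : F) {x y : I6} (hx : x ≠ Sum.inl 2) (hx' : x ≠ Sum.inl 3)
    (hy : y ≠ Sum.inl 2) (hy' : y ≠ Sum.inl 3) : T6 b * De 0 x y = De 0 x y * T6 b :=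
  De_comm' 0 (off_T6 b hx hx' hy hy')

theorem Off_two {ι : Type*} [Fintype ι] [DecidableEq ι] {v φ v' φ' : ι → F} {i j : ι}
    (h1 : v i = 0) (h2 : v j = 0) (h3 : φ i = 0) (h4 : φ j = 0) (h5 : v' i = 0) (h6 : v' j = 0)
    (h7 : φ' i = 0) (h8 : φ' j = 0) : Off (1 + vecMulVec v φ + vecMulVec v' φ') i j := by
  constructor <;> simp [add_mulVec, vecMul_add, vecMulVec_mulVec, vecMul_vecMulVec, e_dot,
    dot_e, h1, h2, h3, h4, h5, h6, h7, h8]

theorem off_g6 (μ : F) {x y : I6} (hx : x ≠ Sum.inl 2) (hx' : x ≠ Sum.inl 3)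
    (hy : y ≠ Sum.inl 2) (hy' : y ≠ Sum.inl 3) : Off (g6 μ) x y := by
  unfold g6
  refine Off.mul ?_ (Off_Tm ?_ ?_ ?_ ?_)
  · apply Off_two <;> simp [e_apply, hx, hx', hy, hy']
  all_goals simp [e_apply, hx, hx', hy, hy']

/-- conjugacy of products of two disjoint transpositions and `T6` -/
theorem conjT {x y z w : I6} {b : F} (hb : b ≠ 0) (hx : x ≠ Sum.inl 2) (hx' : x ≠ Sum.inl 3)
    (hy : y ≠ Sum.inl 2) (hy' : y ≠ Sum.inl 3) (hz : z ≠ Sum.inl 2) (hz' : z ≠ Sum.inl 3)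
    (hw : w ≠ Sum.inl 2) (hw' : w ≠ Sum.inl 3) [Finite F] :
    SConj (De 0 x y * De 0 z w * T6 (1 : F)) (De 0 x y * De 0 z w * T6 b) := by
  obtain ⟨μ, hμ⟩ := square_root b
  have hμ0 : μ ≠ 0 := by rintro rfl; simp at hμ; exact hb hμ.symm
  refine ⟨g6 μ, det_g6 hμ0, ?_⟩
  have c1 : g6 μ * De 0 x y = De 0 x y * g6 μ := De_comm' 0 (off_g6 μ hx hx' hy hy')
  have c2 : g6 μ * De 0 z w = De 0 z w * g6 μ := De_comm' 0 (off_g6 μ hz hz' hw hw')
  rw [← hμ]
  calc g6 μ * (De 0 x y * De 0 z w * T6 1) = (g6 μ * De 0 x y) * De 0 z w * T6 1 := by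
        simp only [mul_assoc]
    _ = De 0 x y * (g6 μ * De 0 z w) * T6 1 := by rw [c1]; simp only [mul_assoc]
    _ = De 0 x y * De 0 z w * (g6 μ * T6 1) := by rw [c2]; simp only [mul_assoc]
    _ = _ := by rw [g6_T hμ0]; simp only [mul_assoc]

theorem al6_eq' : al6 F = De 0 (Sum.inr 0) (Sum.inr 1) * De 0 (Sum.inl 0) (Sum.inl 1) *
    T6 (1 : F) := by
  rw [al6_eq, T6_one, mul_assoc]

theorem conj_perm6 {x y z w : I6} {ρ1 ρ2 : I6} (hρ : ρ1 ≠ ρ2)
    (h1 : ρ1 ≠ Sum.inl 2) (h2 : ρ1 ≠ Sum.inl 3) (h3 : ρ2 ≠ Sum.inl 2) (h4 : ρ2 ≠ Sum.inl 3)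
    (b : F) :
    SConj (De 0 x y * De 0 z w * T6 b) (De 0 (Equiv.swap ρ1 ρ2 x) (Equiv.swap ρ1 ρ2 y) *
      De 0 (Equiv.swap ρ1 ρ2 z) (Equiv.swap ρ1 ρ2 w) * T6 b) := by
  refine ⟨De 0 ρ1 ρ2, det_De hρ, ?_⟩
  have a1 := swap_De (F := F) (l := 0) hρ x y
  have a2 := swap_De (F := F) (l := 0) hρ z w
  have a3 := (cT b h1 h2 h3 h4).symm
  calc De 0 ρ1 ρ2 * (De 0 x y * De 0 z w * T6 b)
      = (De 0 ρ1 ρ2 * De 0 x y) * De 0 z w * T6 b := by simp only [mul_assoc]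
    _ = De 0 (Equiv.swap ρ1 ρ2 x) (Equiv.swap ρ1 ρ2 y) * (De 0 ρ1 ρ2 * De 0 z w) * T6 b := by
        rw [a1]; simp only [mul_assoc]
    _ = De 0 (Equiv.swap ρ1 ρ2 x) (Equiv.swap ρ1 ρ2 y) *
        De 0 (Equiv.swap ρ1 ρ2 z) (Equiv.swap ρ1 ρ2 w) * (De 0 ρ1 ρ2 * T6 b) := by
        rw [a2]; simp only [mul_assoc]
    _ = _ := by rw [a3]; simp only [mul_assoc]

theorem c1_6 [Finite F] {b : F} (hb : b ≠ 0) : SConj (al6 F) (be6 b) := by
  have h1 := conj_perm6 (F := F) (x := Sum.inr 0) (y := Sum.inr 1) (z := Sum.inl 0)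
    (w := Sum.inl 1) (ρ1 := Sum.inr 1) (ρ2 := Sum.inl 0) (by decide) (by decide) (by decide)
    (by decide) (by decide) 1
  rw [show Equiv.swap (Sum.inr 1 : I6) (Sum.inl 0) (Sum.inr 0) = Sum.inr 0 by decide,
    show Equiv.swap (Sum.inr 1 : I6) (Sum.inl 0) (Sum.inr 1) = Sum.inl 0 by decide,
    show Equiv.swap (Sum.inr 1 : I6) (Sum.inl 0) (Sum.inl 0) = Sum.inr 1 by decide,
    show Equiv.swap (Sum.inr 1 : I6) (Sum.inl 0) (Sum.inl 1) = Sum.inl 1 by decide] at h1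
  rw [al6_eq']
  exact h1.trans (conjT hb (by decide) (by decide) (by decide) (by decide) (by decide)
    (by decide) (by decide) (by decide))

theorem c2_6 [Finite F] {b : F} (hb : 1 + b ≠ 0) : SConj (al6 F) (al6 F * be6 b) := by
  have h1 := conj_perm6 (F := F) (x := Sum.inr 0) (y := Sum.inr 1) (z := Sum.inl 0)
    (w := Sum.inl 1) (ρ1 := Sum.inr 1) (ρ2 := Sum.inl 1) (by decide) (by decide) (by decide)
    (by decide) (by decide) 1
  rw [show Equiv.swap (Sum.inr 1 : I6) (Sum.inl 1) (Sum.inr 0) = Sum.inr 0 by decide,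
    show Equiv.swap (Sum.inr 1 : I6) (Sum.inl 1) (Sum.inr 1) = Sum.inl 1 by decide,
    show Equiv.swap (Sum.inr 1 : I6) (Sum.inl 1) (Sum.inl 0) = Sum.inl 0 by decide,
    show Equiv.swap (Sum.inr 1 : I6) (Sum.inl 1) (Sum.inl 1) = Sum.inr 1 by decide] at h1
  have h2 : al6 F * be6 b = De 0 (Sum.inr 0) (Sum.inl 1) * De 0 (Sum.inl 0) (Sum.inr 1) *
      T6 (1 + b) := by
    have k1 := cT (F := F) 1 (x := Sum.inr 0) (y := Sum.inl 0) (by decide) (by decide) (by decide)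
      (by decide)
    have k2 := cT (F := F) 1 (x := Sum.inr 1) (y := Sum.inl 1) (by decide) (by decide) (by decide)
      (by decide)
    have k3 : (De 0 (Sum.inr 0) (Sum.inr 1) * De 0 (Sum.inl 0) (Sum.inl 1) *
        (De 0 (Sum.inr 0) (Sum.inl 0) * De 0 (Sum.inr 1) (Sum.inl 1)) : Matrix I6 I6 F) =
        De 0 (Sum.inr 0) (Sum.inl 1) * De 0 (Sum.inl 0) (Sum.inr 1) := by
      apply mat_ext_e
      intro z
      simp only [← mulVec_mulVec]
      rw [De0_e (by decide), De0_e (by decide), De0_e (by decide), De0_e (by decide),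
        De0_e (by decide), De0_e (by decide)]
      congr 1
      revert z
      decide
    rw [al6_eq', be6, ← T6_mul]
    calc De 0 (Sum.inr 0) (Sum.inr 1) * De 0 (Sum.inl 0) (Sum.inl 1) * T6 1 *
        (De 0 (Sum.inr 0) (Sum.inl 0) * De 0 (Sum.inr 1) (Sum.inl 1) * T6 b)
        = De 0 (Sum.inr 0) (Sum.inr 1) * De 0 (Sum.inl 0) (Sum.inl 1) *
          ((T6 1 * De 0 (Sum.inr 0) (Sum.inl 0)) * De 0 (Sum.inr 1) (Sum.inl 1)) * T6 b := by
          simp only [mul_assoc]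
      _ = De 0 (Sum.inr 0) (Sum.inr 1) * De 0 (Sum.inl 0) (Sum.inl 1) *
          (De 0 (Sum.inr 0) (Sum.inl 0) * (T6 1 * De 0 (Sum.inr 1) (Sum.inl 1))) * T6 b := by
          rw [k1]; simp only [mul_assoc]
      _ = De 0 (Sum.inr 0) (Sum.inr 1) * De 0 (Sum.inl 0) (Sum.inl 1) *
          (De 0 (Sum.inr 0) (Sum.inl 0) * De 0 (Sum.inr 1) (Sum.inl 1)) * (T6 1 * T6 b) := by
          rw [k2]; simp only [mul_assoc]
      _ = _ := by rw [k3]
  rw [h2, al6_eq']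
  exact h1.trans (conjT hb (by decide) (by decide) (by decide) (by decide) (by decide)
    (by decide) (by decide) (by decide))

theorem conj4 : SConj (lf F al4) (lf F pi4) :=
  SConj_lf (g := !![1, 0, 0, 0; 0, 0, 1, 0; 0, 0, 1, 1; 0, 1, 1, 0])
    (g' := !![1, 0, 0, 0; 0, 1, 0, 1; 0, 1, 0, 0; 0, 1, 1, 0])
    ⟨by decide +kernel, by decide +kernel⟩

theorem c3_6 : SConj (al6 F) (pi6 F * De 0 (Sum.inr 0) (Sum.inr 1)) := by
  rw [pi6, De_inrG, hat_apply, blocks_mulG, mul_one, one_mul]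
  exact SConj_blocksG conj4 (by simp : (1 : Matrix (Fin 2) (Fin 2) F).det = 1) (by simp)

theorem nil_6 : ∃ N : ℕ, (pi6 F * (De 0 (Sum.inr 0) (Sum.inr 1) * al6 F)) ^ (2 ^ N) = 1 := by
  refine ⟨2, ?_⟩
  have h1 : pi6 F * (De 0 (Sum.inr 0) (Sum.inr 1) * al6 F) =
      hat (Fin 2) (lf F (pi4 * al4)) := by
    have s : (De 0 0 1 : Matrix (Fin 2) (Fin 2) F) * De 0 0 1 = 1 := De_sq (by decide)
    rw [pi6, al6, De_inrG, blocks_mulG, one_mul, s, ← hat_apply, ← map_mul, lf_mul]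
  have h2 : (pi4 * al4) ^ (2 ^ 2) = 1 := by
    have e1 : (pi4 * al4) ^ (2 ^ 2) = ((pi4 * al4) ^ 2) ^ 2 := by rw [← pow_mul]; norm_num
    have e2 : (pi4 * al4) ^ 2 = !![1, 0, 1, 1; 0, 1, 1, 1; 1, 1, 0, 1; 1, 1, 1, 0] := by
      rw [pow_two]
      decide +kernel
    rw [e1, e2, pow_two]
    decide +kernel
  rw [h1, ← map_pow, ← lf_pow, h2, lf_one, map_one]

theorem be6_e {b : F} {z : I6} (hz : z ≠ Sum.inl 2) (hz' : z ≠ Sum.inl 3) :
    be6 b *ᵥ e F z = e F (Equiv.swap (Sum.inr 0) (Sum.inl 0)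
      (Equiv.swap (Sum.inr 1) (Sum.inl 1) z)) := by
  rw [be6, ← mulVec_mulVec, ← mulVec_mulVec, (off_T6 b hz hz' hz hz').h1, De0_e (by decide),
    De0_e (by decide)]

theorem e_be6 {b : F} {z : I6} (hz : z ≠ Sum.inl 2) (hz' : z ≠ Sum.inl 3) :
    e F z ᵥ* be6 b = e F (Equiv.swap (Sum.inr 1) (Sum.inl 1)
      (Equiv.swap (Sum.inr 0) (Sum.inl 0) z)) := by
  rw [be6, ← vecMul_vecMul, ← vecMul_vecMul, e_De0 (by decide), e_De0 (by decide)]
  have h1 : Equiv.swap (Sum.inr 1 : I6) (Sum.inl 1) (Equiv.swap (Sum.inr 0) (Sum.inl 0) z) ≠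
      Sum.inl 2 := by revert z; decide
  have h2 : Equiv.swap (Sum.inr 1 : I6) (Sum.inl 1) (Equiv.swap (Sum.inr 0) (Sum.inl 0) z) ≠
      Sum.inl 3 := by revert z; decide
  exact (off_T6 b h1 h2 h1 h2).h3

/-- the image of `e 2` -/
def w2 (b : F) : Fin 4 → F := e F 2 + b • (e F 2 + e F 3)

theorem w2_ne (b : F) : w2 b ≠ 0 := by
  intro h
  have h1 := congrFun h 2
  have h2 := congrFun h 3
  simp [w2, e_apply] at h1 h2
  rw [h2] at h1
  simp at h1

theorem u6_elim : u6 F = Sum.elim (e F 2 + e F 3) (0 : Fin 2 → F) := by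
  rw [u6, e_inl, e_inl]
  ext a
  rcases a with a | a <;> simp

theorem be6_e2 (b : F) : be6 b *ᵥ e F (Sum.inl 2) = Sum.elim (w2 b) 0 := by
  have h0 : T6 b *ᵥ e F (Sum.inl 2) = Sum.elim (w2 b) 0 := by
    rw [T6, Tm, add_mulVec, one_mulVec, vecMulVec_mulVec, dot_e, u6_elim, e_inl]
    ext a
    rcases a with a | a
    · fin_cases a <;> simp [w2, e_apply]
    · simp
  have h1 : ∀ (x y : I6) (hx : x = Sum.inr 0 ∨ x = Sum.inr 1)
      (hy : y = Sum.inl 0 ∨ y = Sum.inl 1), De 0 x y *ᵥ (Sum.elim (w2 b) 0) =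
      (Sum.elim (w2 b) 0 : I6 → F) := by
    intro x y hx hy
    rw [De_mulVec]
    rcases hx with rfl | rfl <;> rcases hy with rfl | rfl <;> simp [w2, e_apply]
  rw [be6, ← mulVec_mulVec, ← mulVec_mulVec, h0, h1 _ _ (by simp) (by simp),
    h1 _ _ (by simp) (by simp)]

theorem e2_be6 (b : F) : e F (Sum.inl 2) ᵥ* be6 b = Sum.elim (w2 b) 0 := by
  rw [be6, ← vecMul_vecMul, ← vecMul_vecMul, e_De0 (by decide), e_De0 (by decide)]
  have : Equiv.swap (Sum.inr 1 : I6) (Sum.inl 1) (Equiv.swap (Sum.inr 0) (Sum.inl 0)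
      (Sum.inl 2)) = Sum.inl 2 := by decide
  rw [this, T6, Tm, vecMul_add, vecMul_one, vecMul_vecMulVec, dotProduct_smul, e_dot, u6_elim,
    e_inl]
  ext a
  rcases a with a | a
  · fin_cases a <;> simp [w2, e_apply]
  · simp

theorem LC6 [Finite F] {l b : F} (hl : ∀ a : F, a ≠ 0 → ∃ k : ℕ, a = l ^ k) (hl0 : l ≠ 0)
    (hl1 : l ≠ 1) :
    LocalClosure l (al6 F) (be6 b) (pi6 F) (Sum.inr 0) (Sum.inr 1) := by
  have : Fintype F := Fintype.ofFinite F
  intro M hinv hD hα hβ hπ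
  have hbb := be6_sq (F := F) b
  have st1 : De l (Sum.inl 0) (Sum.inl 1) ∈ M := by
    have := hβ _ hD
    rw [De, conj_Dm hbb, be6_e (by decide) (by decide), be6_e (by decide) (by decide),
      e_be6 (by decide) (by decide), e_be6 (by decide) (by decide)] at this
    rw [show Equiv.swap (Sum.inr 0 : I6) (Sum.inl 0) (Equiv.swap (Sum.inr 1) (Sum.inl 1)
        (Sum.inr 0)) = Sum.inl 0 by decide,
      show Equiv.swap (Sum.inr 0 : I6) (Sum.inl 0) (Equiv.swap (Sum.inr 1) (Sum.inl 1)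
        (Sum.inr 1)) = Sum.inl 1 by decide,
      show Equiv.swap (Sum.inr 1 : I6) (Sum.inl 1) (Equiv.swap (Sum.inr 0) (Sum.inl 0)
        (Sum.inr 0)) = Sum.inl 0 by decide,
      show Equiv.swap (Sum.inr 1 : I6) (Sum.inl 1) (Equiv.swap (Sum.inr 0) (Sum.inl 0)
        (Sum.inr 1)) = Sum.inl 1 by decide] at this
    exact this
  have s2 : (De 0 0 1 : Matrix (Fin 2) (Fin 2) F) * De 0 0 1 = 1 := De_sq (by decide)
  have hF0 : Full (M.comap (hat (Fin 2))) (Set.univ : Set (Fin 4)) := by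
    refine key4 (l := l) ⟨?_, hl, hl0, ?_, by decide +kernel, by decide +kernel,
      by decide +kernel, ?_, ?_, ?_⟩ hl1
    · intro x y hx hxy
      have : hat (Fin 2) x * hat (Fin 2) y = 1 := by rw [← map_mul, hxy, map_one]
      exact hinv _ _ hx this
    · change hat (Fin 2) (De l 0 1) ∈ M
      rw [hat_De]; exact st1
    · intro x hx
      have := hα _ hx
      change hat (Fin 2) (lf F al4 * x * lf F al4) ∈ M
      rw [hat_apply, al6, blocks_mulG, blocks_mulG, mul_one, s2] at this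
      exact this
    · intro x hx
      have := hπ _ hx (Off_hat_inr _ 0 1)
      change hat (Fin 2) (lf F pi4 * x * lf F pi4) ∈ M
      rw [map_mul, map_mul]
      exact this
    · intro x hx _
      rw [lf_one, one_mul, mul_one]
      exact hx
  have hF1 : Full M (Set.range Sum.inl) := by
    rintro _ ⟨x, rfl⟩ _ ⟨y, rfl⟩ hxy
    intro a
    have h1 := hF0 x (Set.mem_univ _) y (Set.mem_univ _) (fun h => hxy (by rw [h])) a
    change hat (Fin 2) (Tm (a • e F x) (e F y)) ∈ M at h1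
    rw [hat_Tm] at h1
    have e1 : a • e F (Sum.inl x : I6) = Sum.elim (a • e F x) 0 := by
      rw [e_inl]
      ext b
      rcases b with b | b <;> simp
    rw [e1, e_inl]
    exact h1
  have hr : ∀ x y : Fin 4, x ≠ y → R M (e F (Sum.inl x)) (e F (Sum.inl y)) := by
    intro x y hxy
    exact hF1 _ ⟨x, rfl⟩ _ ⟨y, rfl⟩ (by simpa using hxy)
  have h01 : (0 : Fin 4) ≠ 1 := by decide
  have sw1 : Equiv.swap (Sum.inr 0 : I6) (Sum.inl 0) (Equiv.swap (Sum.inr 1) (Sum.inl 1)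
        (Sum.inl 0)) = Sum.inr 0 := by decide
  have sw2 : Equiv.swap (Sum.inr 0 : I6) (Sum.inl 0) (Equiv.swap (Sum.inr 1) (Sum.inl 1)
        (Sum.inl 1)) = Sum.inr 1 := by decide
  have sw3 : Equiv.swap (Sum.inr 1 : I6) (Sum.inl 1) (Equiv.swap (Sum.inr 0) (Sum.inl 0)
        (Sum.inl 0)) = Sum.inr 0 := by decide
  have sw4 : Equiv.swap (Sum.inr 1 : I6) (Sum.inl 1) (Equiv.swap (Sum.inr 0) (Sum.inl 0)
        (Sum.inl 1)) = Sum.inr 1 := by decide
  have r0 : ∀ x, R M (e F (Sum.inr 0)) (e F (Sum.inl x)) := by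
    have := (hr 0 2 (by decide)).conj hbb hβ
    rw [be6_e (by decide) (by decide), e2_be6, sw1] at this
    exact rowG hF1 h01 (w2_ne b) this
  have r1 : ∀ x, R M (e F (Sum.inr 1)) (e F (Sum.inl x)) := by
    have := (hr 1 2 (by decide)).conj hbb hβ
    rw [be6_e (by decide) (by decide), e2_be6, sw2] at this
    exact rowG hF1 h01 (w2_ne b) this
  have c0 : ∀ x, R M (e F (Sum.inl x)) (e F (Sum.inr 0)) := by
    have := (hr 2 0 (by decide)).conj hbb hβ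
    rw [be6_e2, e_be6 (by decide) (by decide), sw3] at this
    exact colG hF1 h01 (w2_ne b) this
  have c1 : ∀ x, R M (e F (Sum.inl x)) (e F (Sum.inr 1)) := by
    have := (hr 2 1 (by decide)).conj hbb hβ
    rw [be6_e2, e_be6 (by decide) (by decide), sw4] at this
    exact colG hF1 h01 (w2_ne b) this
  have cc : ∀ (m : Fin 2) (x : Fin 4), R M (e F (Sum.inl x)) (e F (Sum.inr m)) := by
    intro m x
    fin_cases m
    · exact c0 x
    · exact c1 x
  have rr : ∀ (m : Fin 2) (x : Fin 4), R M (e F (Sum.inr m)) (e F (Sum.inl x)) := by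
    intro m x
    fin_cases m
    · exact r0 x
    · exact r1 x
  rintro (a | a) - (b' | b') - hab
  · exact hr a b' (by simpa using hab)
  · exact cc b' a
  · exact rr a b'
  · exact R.comm_e (by simp) (by simp) hab (rr a 0) (cc b' 0)

/-- the gadget of size six, over fields with at least four elements -/
theorem gadget6 [Finite F] {l : F} (hl : ∀ a : F, a ≠ 0 → ∃ k : ℕ, a = l ^ k) (hl0 : l ≠ 0)
    (hl1 : l ≠ 1) : IsGadget l (al6 F) (be6 l) (pi6 F) (Sum.inr 0) (Sum.inr 1) where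
  hij := by decide
  hk := ⟨Sum.inl 0, by decide, by decide⟩
  hα := al6_sq
  hβ := be6_sq l
  hπ := by
    rw [pi6, ← map_mul, ← lf_mul, show pi4 * pi4 = 1 by decide +kernel, lf_one, map_one]
  hαβ := al6_be6 l
  αi := by rw [al6_e]; rfl
  αj := by rw [al6_e]; rfl
  iα := by rw [e_al6]; rfl
  jα := by rw [e_al6]; rfl
  off := Off_hat_inr _ 0 1
  nil := nil_6
  c1 := c1_6 hl0
  c2 := c2_6 (by
    intro h
    apply hl1
    linear_combination h - (CharTwo.two_eq_zero : (2 : F) = 0))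
  c3 := c3_6
  LC := LC6 hl hl0 hl1

end base6

end H47Inv
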