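import Mathlib
import Pool.Agent.H.MP_0335f8_al.Base6

set_option linter.unusedSectionVars false
set_option linter.unusedSimpArgs false

namespace H47Inv

open Matrix

section fourth

variable {F : Type*} [Field F] [CharP F 2]

theorem exists_tuple4 [Finite F] {l : F} (hl : ∀ a : F, a ≠ 0 → ∃ k : ℕ, a = l ^ k)
    (hl0 : l ≠ 0) (hl1 : l ≠ 1) :
    ∃ t : Fin 6 → SpecialLinearGroup (Fin 4) F, (∀ k, t k * t k = 1) ∧
      (∀ k m, IsConj (t k) (t m)) ∧
      Subgroup.closure (Set.range t) = ⊤ ∧ (List.ofFn t).prod = 1 := by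
  have : Fintype F := Fintype.ofFinite F
  have hij : (0 : Fin 4) ≠ 1 := by decide
  have hαα : lf F al4 * lf F al4 = 1 := lf_sq (by decide +kernel)
  have hββ : lf F pi4 * lf F pi4 = 1 := lf_sq (by decide +kernel)
  obtain ⟨S, hS⟩ : ∃ S : Matrix (Fin 4) (Fin 4) F, S = De 0 2 3 := ⟨_, rfl⟩
  have hSS : S * S = 1 := by rw [hS]; exact De_sq (by decide)
  have hSo : Off S 0 1 := by
    rw [hS]; exact Off_De (by decide) (by decide) (by decide) (by decide)
  have hαS : lf F al4 = S * De 0 0 1 := by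
    rw [hS, ← lf_sw (by decide), ← lf_sw (by decide), ← lf_mul]
    congr 1
    decide +kernel
  obtain ⟨E, hE⟩ : ∃ E : Matrix (Fin 4) (Fin 4) F, E = Tm (l • e F 0) (e F 1) := ⟨_, rfl⟩
  have hEE : E * E = 1 := by rw [hE]; exact Tm_sq hij
  have hSE : S * E = E * S := by rw [hE]; exact Off_comm_Tm hSo l
  obtain ⟨γ, hγ⟩ : ∃ γ : Matrix (Fin 4) (Fin 4) F, γ = S * E := ⟨_, rfl⟩
  have hγγ : γ * γ = 1 := by
    rw [hγ]
    calc S * E * (S * E) = S * (E * S) * E := by simp only [mul_assoc]
      _ = (S * S) * (E * E) := by rw [← hSE]; simp only [mul_assoc]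
      _ = 1 := by rw [hSS, hEE, mul_one]
  set a := toSL (lf F al4) hαα with ha
  set b := toSL (lf F pi4) hββ with hb
  set c := toSL γ hγγ with hc
  have raa : a * a = 1 := Subtype.ext hαα
  have rbb : b * b = 1 := Subtype.ext hββ
  have rcc : c * c = 1 := Subtype.ext hγγ
  obtain ⟨μ, hμ⟩ := square_root l
  have hμ0 : μ ≠ 0 := by rintro rfl; simp at hμ; exact hl0 hμ.symm
  have k1 : SConj (lf F al4) γ := by
    have h1 := conj_swap hij hSo
    have h2 := conj_diag hij hSo hμ0
    rw [hμ] at h2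
    rw [hγ, hαS, hE]
    exact h1.trans h2
  have j1 : IsConj a b := isConj_of_SConj conj4
  have j3 : IsConj a c := isConj_of_SConj k1
  refine ⟨![a, b, c, c, b, a], ?_, ?_, ?_, ?_⟩
  · intro k
    fin_cases k
    · exact raa
    · exact rbb
    · exact rcc
    · exact rcc
    · exact rbb
    · exact raa
  · have hall : ∀ k, IsConj a ((![a, b, c, c, b, a] : Fin 6 → SpecialLinearGroup (Fin 4) F) k) := by
      intro k
      fin_cases k
      · exact IsConj.refl a
      · exact j1
      · exact j3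
      · exact j3
      · exact j1
      · exact IsConj.refl a
    intro k m
    exact (hall k).symm.trans (hall m)
  · set H := Subgroup.closure
      (Set.range (![a, b, c, c, b, a] : Fin 6 → SpecialLinearGroup (Fin 4) F)) with hH
    have ma : a ∈ H := Subgroup.subset_closure ⟨0, rfl⟩
    have mb : b ∈ H := Subgroup.subset_closure ⟨1, rfl⟩
    have mc : c ∈ H := Subgroup.subset_closure ⟨2, rfl⟩
    have Mα : lf F al4 ∈ matOf H := mem_matOf.2 ⟨a, ma, rfl⟩
    have Mβ : lf F pi4 ∈ matOf H := mem_matOf.2 ⟨b, mb, rfl⟩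
    have Mγ : γ ∈ matOf H := mem_matOf.2 ⟨c, mc, rfl⟩
    have hD : De l 0 1 ∈ matOf H := by
      have e1 : γ * lf F al4 = De l 0 1 := by
        rw [De_split (l := l) hij, ← hE, hγ, hαS]
        calc S * E * (S * De 0 0 1) = S * (E * S) * De 0 0 1 := by simp only [mul_assoc]
          _ = (S * S) * E * De 0 0 1 := by rw [← hSE]; simp only [mul_assoc]
          _ = _ := by rw [hSS, one_mul]
      rw [← e1]
      exact (matOf H).mul_mem Mγ Mα
    apply top_of_full
    refine key4 (l := l) ⟨matOf_inv H, hl, hl0, hD, by decide +kernel, by decide +kernel,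
      by decide +kernel, ?_, ?_, ?_⟩ hl1
    · intro x hx
      exact (matOf H).mul_mem ((matOf H).mul_mem Mα hx) Mα
    · intro x hx
      exact (matOf H).mul_mem ((matOf H).mul_mem Mβ hx) Mβ
    · intro x hx _
      rw [lf_one, one_mul, mul_one]
      exact hx
  · have : (List.ofFn (![a, b, c, c, b, a] : Fin 6 → SpecialLinearGroup (Fin 4) F)).prod =
        a * (b * (c * (c * (b * a)))) := by
      simp [List.ofFn_succ]
    rw [this, ← mul_assoc c c, rcc, one_mul, ← mul_assoc b b, rbb, one_mul, raa]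

/-- `PSL_4` over a field with at least four elements has an admissible sextuple. -/
theorem admissible_six [Finite F] {l : F} (hl : ∀ a : F, a ≠ 0 → ∃ k : ℕ, a = l ^ k)
    (hl0 : l ≠ 0) (hl1 : l ≠ 1) :
    Admissible (ProjectiveSpecialLinearGroup (Fin 4) F) 6 := by
  obtain ⟨t, h1, h2, h3, h4⟩ := exists_tuple4 hl hl0 hl1
  exact admissible_PSL t h1 h2 h3 h4

end fourth

end H47Inv
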