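import Mathlib
import Pool.Agent.H.MP_0335f8_al.Defs

set_option linter.unusedSectionVars false

namespace H47Inv

open Matrix

/-- The centre of `SL_4` over a field of characteristic two is trivial. -/
theorem center_four (F : Type*) [Field F] [CharP F 2] (z : SpecialLinearGroup (Fin 4) F)
    (hz : z ∈ Subgroup.center (SpecialLinearGroup (Fin 4) F)) : z = 1 := by
  obtain ⟨r, hr, h⟩ := Matrix.SpecialLinearGroup.mem_center_iff.1 hz
  rw [Fintype.card_fin] at hr
  have h1 : (r + 1) ^ 4 = 0 := by
    have e1 : (r + 1) ^ 2 = r ^ 2 + 1 := by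
      rw [CharTwo.add_sq, one_pow]
    have e2 : (r ^ 2 + 1) ^ 2 = r ^ 4 + 1 := by
      rw [CharTwo.add_sq, one_pow, ← pow_mul]
    calc (r + 1) ^ 4 = ((r + 1) ^ 2) ^ 2 := by rw [← pow_mul]
      _ = r ^ 4 + 1 := by rw [e1, e2]
      _ = 1 + 1 := by rw [hr]
      _ = 0 := CharTwo.add_self_eq_zero 1
  have h2 : r + 1 = 0 := pow_eq_zero_iff (by norm_num) |>.1 h1
  have h3 : r = 1 := by
    have : r = -1 := eq_neg_of_add_eq_zero_left h2
    rw [this, CharTwo.neg_eq]
  subst h3
  apply Subtype.ext
  rw [← h]
  simp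

/-- Scott's lemma for five linear maps. -/
theorem scott5 {F V : Type*} [Field F] [AddCommGroup V] [Module F V] [FiniteDimensional F V]
    (g : Fin 5 → (V →ₗ[F] V)) (hprod : (List.ofFn g).prod = 1)
    (hinv : ∀ v, (∀ i, g i v = v) → v = 0)
    (hco : ∀ f : V →ₗ[F] F, (∀ i, f ∘ₗ g i = f) → f = 0) :
    2 * Module.finrank F V ≤ ∑ i, Module.finrank F (LinearMap.range (g i - 1)) := by
  classical
  have hprod' : ∀ v, g 0 (g 1 (g 2 (g 3 (g 4 v)))) = v := by
    intro v
    have h := congrArg (fun (φ : V →ₗ[F] V) => φ v) hprod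
    simpa [List.ofFn_succ, Module.End.mul_apply] using h
  let β : V →ₗ[F] (∀ i : Fin 5, LinearMap.range (g i - 1)) :=
    LinearMap.pi (fun i => (g i - 1).rangeRestrict)
  have hβ : ∀ v i, ((β v i : LinearMap.range (g i - 1)) : V) = g i v - v := by
    intro v i
    rfl
  let pr : ∀ i : Fin 5, (∀ i : Fin 5, LinearMap.range (g i - 1)) →ₗ[F] V :=
    fun i => (LinearMap.range (g i - 1)).subtype ∘ₗ LinearMap.proj i
  have hpr : ∀ i u, pr i u = (u i : V) := fun i u => rfl
  let δ : (∀ i : Fin 5, LinearMap.range (g i - 1)) →ₗ[F] V :=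
    pr 0 + (g 0) ∘ₗ pr 1 + (g 0) ∘ₗ (g 1) ∘ₗ pr 2 + (g 0) ∘ₗ (g 1) ∘ₗ (g 2) ∘ₗ pr 3 +
      (g 0) ∘ₗ (g 1) ∘ₗ (g 2) ∘ₗ (g 3) ∘ₗ pr 4
  have hδ : ∀ u, δ u = (u 0 : V) + g 0 (u 1) + g 0 (g 1 (u 2)) + g 0 (g 1 (g 2 (u 3))) +
      g 0 (g 1 (g 2 (g 3 (u 4)))) := fun u => rfl
  have hβinj : Function.Injective β := by
    rw [← LinearMap.ker_eq_bot, LinearMap.ker_eq_bot']
    intro v hv
    apply hinv
    intro i
    have := hβ v i
    rw [hv] at this
    have h0 : g i v - v = 0 := this.symm
    exact sub_eq_zero.1 h0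
  have hδβ : ∀ v, δ (β v) = 0 := by
    intro v
    rw [hδ]
    simp only [hβ, map_sub]
    rw [hprod']
    abel
  -- surjectivity
  have hδsur : LinearMap.range δ = ⊤ := by
    by_contra hne
    obtain ⟨f, hf0, hf⟩ := Submodule.exists_le_ker_of_lt_top (LinearMap.range δ)
      (lt_top_iff_ne_top.2 hne)
    apply hf0
    have key : ∀ u, f (δ u) = 0 := fun u => hf ⟨u, rfl⟩
    have hs : ∀ (i : Fin 5) (v : V), ∃ u : (∀ i : Fin 5, LinearMap.range (g i - 1)),
        (u i : V) = g i v - v ∧ ∀ j, j ≠ i → (u j : V) = 0 := by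
      intro i v
      refine ⟨Pi.single i ((g i - 1).rangeRestrict v), ?_, ?_⟩
      · rw [Pi.single_eq_same]
        rfl
      · intro j hj
        rw [Pi.single_eq_of_ne hj]
        rfl
    have f0 : ∀ v, f (g 0 v) = f v := by
      intro v
      obtain ⟨u, hu, hu'⟩ := hs 0 v
      have h := key u
      rw [hδ, hu, hu' 1 (by decide), hu' 2 (by decide), hu' 3 (by decide),
        hu' 4 (by decide)] at h
      simp only [map_zero, add_zero, map_sub] at h
      exact sub_eq_zero.1 h
    have f1 : ∀ v, f (g 1 v) = f v := by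
      intro v
      obtain ⟨u, hu, hu'⟩ := hs 1 v
      have h := key u
      rw [hδ, hu, hu' 0 (by decide), hu' 2 (by decide), hu' 3 (by decide),
        hu' 4 (by decide)] at h
      simp only [map_zero, add_zero, zero_add, f0] at h
      rw [map_sub] at h
      exact sub_eq_zero.1 h
    have f2 : ∀ v, f (g 2 v) = f v := by
      intro v
      obtain ⟨u, hu, hu'⟩ := hs 2 v
      have h := key u
      rw [hδ, hu, hu' 0 (by decide), hu' 1 (by decide), hu' 3 (by decide),
        hu' 4 (by decide)] at h
      simp only [map_zero, add_zero, zero_add, f0, f1] at h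
      rw [map_sub] at h
      exact sub_eq_zero.1 h
    have f3 : ∀ v, f (g 3 v) = f v := by
      intro v
      obtain ⟨u, hu, hu'⟩ := hs 3 v
      have h := key u
      rw [hδ, hu, hu' 0 (by decide), hu' 1 (by decide), hu' 2 (by decide),
        hu' 4 (by decide)] at h
      simp only [map_zero, add_zero, zero_add, f0, f1, f2] at h
      rw [map_sub] at h
      exact sub_eq_zero.1 h
    have f4 : ∀ v, f (g 4 v) = f v := by
      intro v
      obtain ⟨u, hu, hu'⟩ := hs 4 v
      have h := key u
      rw [hδ, hu, hu' 0 (by decide), hu' 1 (by decide), hu' 2 (by decide),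
        hu' 3 (by decide)] at h
      simp only [map_zero, zero_add, f0, f1, f2, f3] at h
      rw [map_sub] at h
      exact sub_eq_zero.1 h
    apply hco
    intro i
    ext v
    fin_cases i
    · exact f0 v
    · exact f1 v
    · exact f2 v
    · exact f3 v
    · exact f4 v
  have e1 : Module.finrank F (LinearMap.range δ) + Module.finrank F (LinearMap.ker δ) =
      ∑ i, Module.finrank F (LinearMap.range (g i - 1)) := by
    rw [LinearMap.finrank_range_add_finrank_ker, Module.finrank_pi_fintype]
  have e2 : Module.finrank F (LinearMap.range δ) = Module.finrank F V := by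
    rw [hδsur, finrank_top]
  have e3 : Module.finrank F V ≤ Module.finrank F (LinearMap.ker δ) := by
    have h1 : Module.finrank F (LinearMap.range β) = Module.finrank F V :=
      LinearMap.finrank_range_of_inj hβinj
    rw [← h1]
    apply Submodule.finrank_mono
    rintro _ ⟨v, rfl⟩
    exact hδβ v
  omega

/-- Scott's lemma for a representation. -/
private theorem lower4_scott {F V G : Type*} [Field F] [AddCommGroup V] [Module F V]
    [FiniteDimensional F V] [Group G] (ρ : G →* Module.End F V) (s : Fin 5 → G)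
    (hgen : Subgroup.closure (Set.range s) = ⊤) (hprod : (List.ofFn s).prod = 1)
    (hconj : ∀ i, IsConj (s 0) (s i))
    (hinv : ∀ v, (∀ g, ρ g v = v) → v = 0)
    (hco : ∀ f : V →ₗ[F] F, (∀ g, f ∘ₗ (ρ g : V →ₗ[F] V) = f) → f = 0) :
    2 * Module.finrank F V ≤ 5 * Module.finrank F (LinearMap.range (ρ (s 0) - 1)) := by
  have key := scott5 (F := F) (V := V) (fun i => ρ (s i))
    (by
      have : (List.ofFn fun i => ρ (s i)) = (List.ofFn s).map ρ := by
        rw [List.map_ofFn]
        rfl
      rw [this, ← map_list_prod, hprod, map_one])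
    (by
      intro v hv
      apply hinv
      intro g
      have hg : g ∈ Subgroup.closure (Set.range s) := by
        rw [hgen]
        trivial
      induction hg using Subgroup.closure_induction with
      | mem x hx =>
        obtain ⟨i, rfl⟩ := hx
        exact hv i
      | one => simp
      | mul x y _ _ hx hy => rw [map_mul, Module.End.mul_apply, hy, hx]
      | inv x _ hx =>
        have h1 : ρ x⁻¹ (ρ x v) = v := by
          rw [← Module.End.mul_apply, ← map_mul, inv_mul_cancel, map_one, Module.End.one_apply]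
        rwa [hx] at h1)
    (by
      intro f hf
      apply hco
      intro g
      have hg : g ∈ Subgroup.closure (Set.range s) := by
        rw [hgen]
        trivial
      induction hg using Subgroup.closure_induction with
      | mem x hx =>
        obtain ⟨i, rfl⟩ := hx
        exact hf i
      | one =>
        ext v
        simp
      | mul x y _ _ hx hy =>
        ext v
        have h1 := LinearMap.congr_fun hx (ρ y v)
        have h2 := LinearMap.congr_fun hy v
        simp only [LinearMap.comp_apply] at h1 h2 ⊢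
        rw [map_mul, Module.End.mul_apply, h1, h2]
      | inv x _ hx =>
        ext v
        have h1 := LinearMap.congr_fun hx (ρ x⁻¹ v)
        simp only [LinearMap.comp_apply] at h1 ⊢
        rw [← h1, ← Module.End.mul_apply, ← map_mul, mul_inv_cancel, map_one,
          Module.End.one_apply])
  have hrk : ∀ i, Module.finrank F (LinearMap.range (ρ (s i) - 1)) ≤
      Module.finrank F (LinearMap.range (ρ (s 0) - 1)) := by
    intro i
    obtain ⟨c, hc⟩ := isConj_iff.1 (hconj i)
    have e : ρ (s i) - 1 = ρ c * (ρ (s 0) - 1) * ρ c⁻¹ := by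
      rw [← hc, map_mul, map_mul, mul_sub, sub_mul, mul_one, ← map_mul ρ c c⁻¹, mul_inv_cancel,
        map_one]
    rw [e, mul_assoc, Module.End.mul_eq_comp, Module.End.mul_eq_comp]
    calc Module.finrank F (LinearMap.range (ρ c ∘ₗ (ρ (s 0) - 1) ∘ₗ ρ c⁻¹))
        = Module.finrank F (Submodule.map (ρ c)
            (LinearMap.range ((ρ (s 0) - 1) ∘ₗ ρ c⁻¹))) := by rw [LinearMap.range_comp]
      _ ≤ Module.finrank F (LinearMap.range ((ρ (s 0) - 1) ∘ₗ ρ c⁻¹)) :=
          Submodule.finrank_map_le _ _
      _ ≤ Module.finrank F (LinearMap.range (ρ (s 0) - 1)) :=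
          Submodule.finrank_mono (LinearMap.range_comp_le_range _ _)
  calc 2 * Module.finrank F V ≤ ∑ i, Module.finrank F (LinearMap.range (ρ (s i) - 1)) := key
    _ ≤ ∑ _i : Fin 5, Module.finrank F (LinearMap.range (ρ (s 0) - 1)) :=
        Finset.sum_le_sum (fun i _ => hrk i)
    _ = 5 * Module.finrank F (LinearMap.range (ρ (s 0) - 1)) := by simp

section reps

variable {F : Type*} [Field F]

/-- the natural representation -/
private def lower4_std (F : Type*) [Field F] :
    Matrix (Fin 4) (Fin 4) F →* Module.End F (Fin 4 → F) where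
  toFun A := A.mulVecLin
  map_one' := Matrix.mulVecLin_one
  map_mul' A B := Matrix.mulVecLin_mul A B

/-- the alternating matrix with given upper triangle -/
private def lower4_alt (x : Fin 6 → F) : Matrix (Fin 4) (Fin 4) F :=
  !![0, x 0, x 1, x 2; -x 0, 0, x 3, x 4; -x 1, -x 3, 0, x 5; -x 2, -x 4, -x 5, 0]

private def lower4_un (A : Matrix (Fin 4) (Fin 4) F) : Fin 6 → F :=
  ![A 0 1, A 0 2, A 0 3, A 1 2, A 1 3, A 2 3]

private theorem lower4_un_alt (x : Fin 6 → F) : lower4_un (lower4_alt x) = x := by
  ext i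
  fin_cases i <;> simp [lower4_un, lower4_alt]

private theorem lower4_alt_un (A B : Matrix (Fin 4) (Fin 4) F) (x : Fin 6 → F)
    (hB : B = A * lower4_alt x * A.transpose) : lower4_alt (lower4_un B) = B := by
  have hd : ∀ i, B i i = 0 := by
    intro i
    rw [hB]
    simp only [Matrix.mul_apply, Fin.sum_univ_four, Matrix.transpose_apply]
    simp [lower4_alt]
    ring
  have ht : ∀ i j, B i j = - B j i := by
    intro i j
    rw [hB]
    simp only [Matrix.mul_apply, Fin.sum_univ_four, Matrix.transpose_apply]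
    simp [lower4_alt]
    ring
  ext i j
  fin_cases i <;> fin_cases j <;> simp [lower4_un, lower4_alt]
  all_goals first
    | exact (hd _).symm
    | exact (ht _ _).symm

private def lower4_altLin (F : Type*) [Field F] :
    (Fin 6 → F) →ₗ[F] Matrix (Fin 4) (Fin 4) F where
  toFun := lower4_alt
  map_add' x y := by
    ext i j
    fin_cases i <;> fin_cases j <;> simp [lower4_alt] <;> ring
  map_smul' c x := by
    ext i j
    fin_cases i <;> fin_cases j <;> simp [lower4_alt]

private def lower4_unLin (F : Type*) [Field F] :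
    Matrix (Fin 4) (Fin 4) F →ₗ[F] (Fin 6 → F) where
  toFun := lower4_un
  map_add' x y := by
    ext i
    fin_cases i <;> simp [lower4_un]
  map_smul' c x := by
    ext i
    fin_cases i <;> simp [lower4_un]

private def lower4_conjLin (A : Matrix (Fin 4) (Fin 4) F) :
    Matrix (Fin 4) (Fin 4) F →ₗ[F] Matrix (Fin 4) (Fin 4) F where
  toFun X := A * X * A.transpose
  map_add' X Y := by rw [mul_add, add_mul]
  map_smul' c X := by simp

/-- the second exterior power of the natural representation -/
private def lower4_ext (F : Type*) [Field F] :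
    Matrix (Fin 4) (Fin 4) F →* Module.End F (Fin 6 → F) where
  toFun A := lower4_unLin F ∘ₗ lower4_conjLin A ∘ₗ lower4_altLin F
  map_one' := by
    ext x i
    change lower4_un (1 * lower4_alt _ * (1 : Matrix (Fin 4) (Fin 4) F).transpose) i = _
    rw [Matrix.transpose_one, one_mul, mul_one, lower4_un_alt]
    rfl
  map_mul' A B := by
    apply LinearMap.ext
    intro x
    change lower4_un (A * B * lower4_alt x * (A * B).transpose) =
      lower4_un (A * lower4_alt (lower4_un (B * lower4_alt x * B.transpose)) * A.transpose)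
    rw [lower4_alt_un B _ x rfl, Matrix.transpose_mul]
    simp only [mul_assoc]

private theorem lower4_ext_apply (A : Matrix (Fin 4) (Fin 4) F) (x : Fin 6 → F) :
    lower4_ext F A x = lower4_un (A * lower4_alt x * A.transpose) := rfl

private theorem lower4_alt_ext (A : Matrix (Fin 4) (Fin 4) F) (x : Fin 6 → F) :
    lower4_alt (lower4_ext F A x) = A * lower4_alt x * A.transpose := by
  rw [lower4_ext_apply, lower4_alt_un A _ x rfl]

/-! ### invariants and coinvariants -/

private abbrev LSL (F : Type*) [Field F] := Matrix.SpecialLinearGroup (Fin 4) F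

private def lower4_coe (F : Type*) [Field F] : LSL F →* Matrix (Fin 4) (Fin 4) F where
  toFun g := g.1
  map_one' := rfl
  map_mul' _ _ := rfl

private theorem lower4_std_inv (v : Fin 4 → F)
    (hv : ∀ g : LSL F, (lower4_std F).comp (lower4_coe F) g v = v) : v = 0 := by
  ext j
  have hne : j + 1 ≠ j := by
    revert j
    decide
  have h := congrFun (hv (Matrix.SpecialLinearGroup.transvection hne (1 : F))) (j + 1)
  change ((1 + Matrix.single (j + 1) j (1 : F)) *ᵥ v) (j + 1) = v (j + 1) at h
  rw [Matrix.add_mulVec, Matrix.one_mulVec, Matrix.single_mulVec_eq] at h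
  simpa using h

private theorem lower4_std_co (f : (Fin 4 → F) →ₗ[F] F)
    (hf : ∀ g : LSL F, f ∘ₗ ((lower4_std F).comp (lower4_coe F) g) = f) : f = 0 := by
  apply (Pi.basisFun F (Fin 4)).ext
  intro j
  have hne : j ≠ j + 1 := by
    revert j
    decide
  have h := LinearMap.congr_fun (hf (Matrix.SpecialLinearGroup.transvection hne (1 : F)))
    (Pi.single (j + 1) 1)
  change f ((1 + Matrix.single j (j + 1) (1 : F)) *ᵥ (Pi.single (j + 1) 1)) = _ at h
  rw [Matrix.add_mulVec, Matrix.one_mulVec, Matrix.single_mulVec_eq, map_add] at h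
  simpa using h

private theorem lower4_entry {i j k : Fin 4} (hki : k ≠ i)
    (X : Matrix (Fin 4) (Fin 4) F) :
    ((1 + Matrix.single i j (1 : F)) * X * (1 + Matrix.single i j (1 : F)).transpose) i k =
      X i k + X j k := by
  have e1 : (1 + Matrix.single i j (1 : F)) * X * (1 + Matrix.single i j (1 : F)).transpose =
      (X + Matrix.single i j (1 : F) * X) +
        (X + Matrix.single i j (1 : F) * X) * Matrix.single j i (1 : F) := by
    rw [Matrix.transpose_add, Matrix.transpose_one, Matrix.transpose_single, mul_add, mul_one,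
      add_mul, one_mul]
  have e2 : ((X + Matrix.single i j (1 : F) * X) * Matrix.single j i (1 : F)) i k = 0 :=
    Matrix.mul_single_apply_of_ne _ _ _ _ _ hki _
  have e3 : (Matrix.single i j (1 : F) * X) i k = X j k := by
    rw [Matrix.single_mul_apply_same, one_mul]
  calc _ = ((X + Matrix.single i j (1 : F) * X) +
        (X + Matrix.single i j (1 : F) * X) * Matrix.single j i (1 : F)) i k := by rw [e1]
    _ = (X i k + (Matrix.single i j (1 : F) * X) i k) +
        ((X + Matrix.single i j (1 : F) * X) * Matrix.single j i (1 : F)) i k := rfl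
    _ = X i k + X j k := by rw [e2, e3, add_zero]

private theorem lower4_ext_inv (x : Fin 6 → F)
    (hx : ∀ g : LSL F, (lower4_ext F).comp (lower4_coe F) g x = x) : x = 0 := by
  have key : ∀ i j k : Fin 4, i ≠ j → k ≠ i → lower4_alt x j k = 0 := by
    intro i j k hij hki
    have h := hx (Matrix.SpecialLinearGroup.transvection hij (1 : F))
    change lower4_ext F (1 + Matrix.single i j (1 : F)) x = x at h
    have h2 := congrArg lower4_alt h
    rw [lower4_alt_ext] at h2
    have h3 := congrFun (congrFun h2 i) k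
    rw [lower4_entry hki] at h3
    simpa using h3
  ext m
  fin_cases m
  · exact key 2 0 1 (by decide) (by decide)
  · exact key 1 0 2 (by decide) (by decide)
  · exact key 1 0 3 (by decide) (by decide)
  · exact key 0 1 2 (by decide) (by decide)
  · exact key 0 1 3 (by decide) (by decide)
  · exact key 0 2 3 (by decide) (by decide)

private theorem lower4_alt_wedge (j k : Fin 4) (hjk : j ≠ k) :
    lower4_alt (lower4_un (Matrix.single j k (1 : F) - Matrix.single k j (1 : F))) =
      Matrix.single j k (1 : F) - Matrix.single k j (1 : F) := by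
  ext a b
  fin_cases j <;> fin_cases k <;> first
    | exact absurd rfl hjk
    | (fin_cases a <;> fin_cases b <;> simp [lower4_alt, lower4_un, Matrix.single_apply])

private theorem lower4_conj_wedge {i j k : Fin 4} (hij : i ≠ j) (hki : k ≠ i) (hjk : j ≠ k) :
    (1 + Matrix.single i j (1 : F)) * (Matrix.single j k (1 : F) - Matrix.single k j (1 : F)) *
      (1 + Matrix.single i j (1 : F)).transpose =
      (Matrix.single j k (1 : F) - Matrix.single k j (1 : F)) +
        (Matrix.single i k (1 : F) - Matrix.single k i (1 : F)) := by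
  rw [Matrix.transpose_add, Matrix.transpose_one, Matrix.transpose_single]
  simp only [add_mul, mul_add, sub_mul, mul_sub, one_mul, mul_one,
    Matrix.single_mul_single_same, Matrix.single_mul_single_of_ne _ _ _ _ hjk,
    Matrix.single_mul_single_of_ne _ _ _ _ hjk.symm,
    Matrix.single_mul_single_of_ne _ _ _ _ hij, Matrix.single_mul_single_of_ne _ _ _ _ hij.symm]
  simp
  abel

private theorem lower4_ext_co (f : (Fin 6 → F) →ₗ[F] F)
    (hf : ∀ g : LSL F, f ∘ₗ ((lower4_ext F).comp (lower4_coe F) g) = f) : f = 0 := by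
  have key : ∀ i j k : Fin 4, i ≠ j → k ≠ i → j ≠ k →
      f (lower4_un (Matrix.single i k (1 : F) - Matrix.single k i (1 : F))) = 0 := by
    intro i j k hij hki hjk
    have h := LinearMap.congr_fun (hf (Matrix.SpecialLinearGroup.transvection hij (1 : F)))
      (lower4_un (Matrix.single j k (1 : F) - Matrix.single k j (1 : F)))
    change f (lower4_ext F (1 + Matrix.single i j (1 : F)) _) = _ at h
    rw [lower4_ext_apply, lower4_alt_wedge j k hjk, lower4_conj_wedge hij hki hjk] at h
    have h4 := (lower4_unLin F).map_add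
      (Matrix.single j k (1 : F) - Matrix.single k j (1 : F))
      (Matrix.single i k (1 : F) - Matrix.single k i (1 : F))
    change lower4_un _ = lower4_un _ + lower4_un _ at h4
    rw [h4, map_add] at h
    simpa using h
  apply (Pi.basisFun F (Fin 6)).ext
  intro m
  rw [Pi.basisFun_apply, LinearMap.zero_apply]
  have hm : ∃ i j k : Fin 4, i ≠ j ∧ k ≠ i ∧ j ≠ k ∧
      (Pi.single m 1 : Fin 6 → F) =
        lower4_un (Matrix.single i k (1 : F) - Matrix.single k i (1 : F)) := by
    fin_cases m
    · refine ⟨0, 2, 1, by decide, by decide, by decide, ?_⟩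
      ext a
      fin_cases a <;> simp [lower4_un, Matrix.single_apply]
    · refine ⟨0, 1, 2, by decide, by decide, by decide, ?_⟩
      ext a
      fin_cases a <;> simp [lower4_un, Matrix.single_apply]
    · refine ⟨0, 1, 3, by decide, by decide, by decide, ?_⟩
      ext a
      fin_cases a <;> simp [lower4_un, Matrix.single_apply]
    · refine ⟨1, 0, 2, by decide, by decide, by decide, ?_⟩
      ext a
      fin_cases a <;> simp [lower4_un, Matrix.single_apply]
    · refine ⟨1, 0, 3, by decide, by decide, by decide, ?_⟩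
      ext a
      fin_cases a <;> simp [lower4_un, Matrix.single_apply]
    · refine ⟨2, 0, 3, by decide, by decide, by decide, ?_⟩
      ext a
      fin_cases a <;> simp [lower4_un, Matrix.single_apply]
  obtain ⟨i, j, k, hij, hki, hjk, e⟩ := hm
  rw [e]
  exact key i j k hij hki hjk

/-- the standard involution -/
private def lower4_J (F : Type*) [Field F] : Matrix (Fin 4) (Fin 4) F :=
  !![1, 0, 1, 0; 0, 1, 0, 1; 0, 0, 1, 0; 0, 0, 0, 1]

private theorem lower4_rankJ :
    Module.finrank F (LinearMap.range (lower4_ext F (lower4_J F) - 1)) ≤ 2 := by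
  let C : (Fin 6 → F) →ₗ[F] (Fin 2 → F) :=
    Matrix.mulVecLin !![0, 0, 1, -1, 0, 1; 0, 0, 0, 0, 0, 1]
  let B : (Fin 2 → F) →ₗ[F] (Fin 6 → F) :=
    Matrix.mulVecLin !![1, 0; 0, 0; 0, 1; 0, -1; 0, 0; 0, 0]
  have e : lower4_ext F (lower4_J F) - 1 = B ∘ₗ C := by
    apply LinearMap.ext
    intro x
    ext m
    rw [LinearMap.sub_apply, lower4_ext_apply]
    fin_cases m <;>
    simp [lower4_un, lower4_alt, lower4_J, Matrix.mul_apply, Fin.sum_univ_four, B, C,
      Matrix.mulVec, dotProduct, Fin.sum_univ_succ] <;> ring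
  rw [e]
  calc Module.finrank F (LinearMap.range (B ∘ₗ C)) ≤ Module.finrank F (LinearMap.range B) :=
        Submodule.finrank_mono (LinearMap.range_comp_le_range _ _)
    _ ≤ Module.finrank F (Fin 2 → F) := LinearMap.finrank_range_le B
    _ = 2 := by simp

end reps

/-- the rank of `Λ²(s) - 1` for an involution `s` with `rank (s - 1) = 2` -/
private theorem lower4_rank_ext {F : Type*} [Field F] (A : Matrix (Fin 4) (Fin 4) F)
    (hN : (A - 1) * (A - 1) = 0)
    (hr : 2 ≤ Module.finrank F (LinearMap.range (lower4_std F A - 1))) :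
    Module.finrank F (LinearMap.range (lower4_ext F A - 1)) ≤ 2 := by
  set N : Module.End F (Fin 4 → F) := lower4_std F A - 1 with hNdef
  have hNN : ∀ v, N (N v) = 0 := by
    intro v
    have h1 : ∀ w, N w = (A - 1) *ᵥ w := by
      intro w
      rw [Matrix.sub_mulVec, Matrix.one_mulVec]
      rfl
    rw [h1, h1, Matrix.mulVec_mulVec, hN, Matrix.zero_mulVec]
  obtain ⟨b, hb⟩ := exists_linearIndependent_of_le_finrank hr
  have hb' : ∃ u : Fin 2 → (Fin 4 → F), ∀ i, N (u i) = (b i : Fin 4 → F) := by
    choose u hu using fun i => (b i).2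
    exact ⟨u, hu⟩
  obtain ⟨u, hu⟩ := hb'
  have hlin : LinearIndependent F (fun i => N (u i)) := by
    have := hb.map' (LinearMap.range N).subtype (Submodule.ker_subtype _)
    have e : (fun i => N (u i)) = (LinearMap.range N).subtype ∘ b := by
      funext i
      exact hu i
    rw [e]
    exact this
  let P : Matrix (Fin 4) (Fin 4) F :=
    Matrix.of (fun r c => (![N (u 0), N (u 1), u 0, u 1] c : Fin 4 → F) r)
  have hP : ∀ x : Fin 4 → F, P *ᵥ x = x 0 • N (u 0) + x 1 • N (u 1) + x 2 • u 0 + x 3 • u 1 := by
    intro x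
    ext r
    simp [P, Matrix.mulVec, dotProduct, Fin.sum_univ_four, mul_comm]
  have hlin' : ∀ a c : F, a • N (u 0) + c • N (u 1) = 0 → a = 0 ∧ c = 0 := by
    intro a c h
    have h1 := (Fintype.linearIndependent_iff.1 hlin) ![a, c] (by
      simpa [Fin.sum_univ_two] using h)
    exact ⟨h1 0, h1 1⟩
  have hNP : ∀ x : Fin 4 → F, N (P *ᵥ x) = x 2 • N (u 0) + x 3 • N (u 1) := by
    intro x
    rw [hP]
    simp only [map_add, map_smul, hNN, smul_zero, zero_add]
  have hPinj : Function.Injective P.mulVec := by
    intro x y hxy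
    have h0 : P *ᵥ (x - y) = 0 := by
      rw [Matrix.mulVec_sub, sub_eq_zero]
      exact hxy
    have h1 := hNP (x - y)
    rw [h0, map_zero] at h1
    obtain ⟨h2, h3⟩ := hlin' _ _ h1.symm
    rw [hP, h2, h3, zero_smul, zero_smul, add_zero, add_zero] at h0
    obtain ⟨h4, h5⟩ := hlin' _ _ h0
    have h6 : x - y = 0 := by
      ext r
      fin_cases r
      · exact h4
      · exact h5
      · exact h2
      · exact h3
    exact sub_eq_zero.1 h6
  have hPunit : IsUnit P := Matrix.mulVec_injective_iff_isUnit.1 hPinj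
  have hAP : A * P = P * lower4_J F := by
    apply Matrix.ext_of_mulVec_single
    intro c
    have hA : ∀ w, A *ᵥ w = w + N w := by
      intro w
      have h1 : N w = A *ᵥ w - w := rfl
      rw [h1]
      abel
    have hgen : ∀ x : Fin 4 → F, (A * P) *ᵥ x = (P * lower4_J F) *ᵥ x := by
      intro x
      rw [← Matrix.mulVec_mulVec, ← Matrix.mulVec_mulVec, hA, hNP, hP, hP]
      have j0 : (lower4_J F *ᵥ x) 0 = x 0 + x 2 := by
        simp [lower4_J, Matrix.mulVec, dotProduct, Fin.sum_univ_four]
      have j1 : (lower4_J F *ᵥ x) 1 = x 1 + x 3 := by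
        simp [lower4_J, Matrix.mulVec, dotProduct, Fin.sum_univ_four]
      have j2 : (lower4_J F *ᵥ x) 2 = x 2 := by
        simp [lower4_J, Matrix.mulVec, dotProduct, Fin.sum_univ_four]
      have j3 : (lower4_J F *ᵥ x) 3 = x 3 := by
        simp [lower4_J, Matrix.mulVec, dotProduct, Fin.sum_univ_four]
      rw [j0, j1, j2, j3, add_smul, add_smul]
      abel
    exact hgen _
  obtain ⟨P', hP'⟩ := hPunit
  have hAe : A = P * lower4_J F * ((P'⁻¹ : (Matrix (Fin 4) (Fin 4) F)ˣ) :
      Matrix (Fin 4) (Fin 4) F) := by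
    rw [← hAP, ← hP', mul_assoc, Units.mul_inv, mul_one]
  have hPP : P * ((P'⁻¹ : (Matrix (Fin 4) (Fin 4) F)ˣ) : Matrix (Fin 4) (Fin 4) F) = 1 := by
    rw [← hP', Units.mul_inv]
  have e : lower4_ext F A - 1 = lower4_ext F P * (lower4_ext F (lower4_J F) - 1) *
      lower4_ext F ((P'⁻¹ : (Matrix (Fin 4) (Fin 4) F)ˣ) : Matrix (Fin 4) (Fin 4) F) := by
    rw [mul_sub, sub_mul, mul_one, ← map_mul, ← map_mul, ← map_mul, ← hAe, hPP, map_one]
  rw [e, mul_assoc, Module.End.mul_eq_comp, Module.End.mul_eq_comp]
  calc _ = Module.finrank F (Submodule.map (lower4_ext F P)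
            (LinearMap.range ((lower4_ext F (lower4_J F) - 1) ∘ₗ
              lower4_ext F ((P'⁻¹ : (Matrix (Fin 4) (Fin 4) F)ˣ) :
                Matrix (Fin 4) (Fin 4) F)))) := by rw [LinearMap.range_comp]
    _ ≤ Module.finrank F (LinearMap.range ((lower4_ext F (lower4_J F) - 1) ∘ₗ
              lower4_ext F ((P'⁻¹ : (Matrix (Fin 4) (Fin 4) F)ˣ) :
                Matrix (Fin 4) (Fin 4) F))) :=
        Submodule.finrank_map_le _ _
    _ ≤ Module.finrank F (LinearMap.range (lower4_ext F (lower4_J F) - 1)) :=
        Submodule.finrank_mono (LinearMap.range_comp_le_range _ _)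
    _ ≤ 2 := lower4_rankJ

/-- `PSL_4` over a finite field of characteristic two is not generated by five conjugate
involutions with product one. -/
theorem not_five (F : Type*) [Field F] [Finite F] [CharP F 2] :
    ¬ Admissible (ProjectiveSpecialLinearGroup (Fin 4) F) 5 := by
  classical
  rintro ⟨t, hord, hconj, hgen, hprod⟩
  let π : Matrix.SpecialLinearGroup (Fin 4) F →* ProjectiveSpecialLinearGroup (Fin 4) F :=
    QuotientGroup.mk' _
  have hker : ∀ z, π z = 1 → z = 1 := by
    intro z hz
    apply center_four F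
    exact (QuotientGroup.eq_one_iff z).1 hz
  have hinj : Function.Injective π := by
    rw [injective_iff_map_eq_one]
    exact hker
  have hsur : Function.Surjective π := QuotientGroup.mk'_surjective _
  choose s hs using fun i => hsur (t i)
  have hsq : ∀ i, s i * s i = 1 := by
    intro i
    apply hker
    rw [map_mul, hs, ← pow_two, ← hord i, pow_orderOf_eq_one]
  have hsne : ∀ i, s i ≠ 1 := by
    intro i h
    have h1 : t i = 1 := by rw [← hs i, h, map_one]
    have h2 := hord i
    rw [h1, orderOf_one] at h2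
    omega
  have hsconj : ∀ i j, IsConj (s i) (s j) := by
    intro i j
    obtain ⟨c, hc⟩ := isConj_iff.1 (hconj i j)
    obtain ⟨c', rfl⟩ := hsur c
    rw [isConj_iff]
    refine ⟨c', hinj ?_⟩
    rw [map_mul, map_mul, map_inv, hs, hs, hc]
  have hsprod : (List.ofFn s).prod = 1 := by
    apply hker
    rw [map_list_prod, List.map_ofFn]
    have : (π ∘ s) = t := funext hs
    rw [this, hprod]
  have hsgen : Subgroup.closure (Set.range s) = ⊤ := by
    apply Subgroup.map_injective hinj
    rw [MonoidHom.map_closure, ← Set.range_comp]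
    have : (π ∘ s) = t := funext hs
    rw [this, hgen, Subgroup.map_top_of_surjective _ hsur]
  -- Scott's lemma on the natural module
  have h8 := lower4_scott ((lower4_std F).comp (lower4_coe F)) s hsgen hsprod
    (fun i => hsconj 0 i) lower4_std_inv lower4_std_co
  have h12 := lower4_scott ((lower4_ext F).comp (lower4_coe F)) s hsgen hsprod
    (fun i => hsconj 0 i) lower4_ext_inv lower4_ext_co
  rw [Module.finrank_fin_fun] at h8 h12
  have hN : (((s 0 : Matrix.SpecialLinearGroup (Fin 4) F) : Matrix (Fin 4) (Fin 4) F) - 1) *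
      ((s 0 : Matrix (Fin 4) (Fin 4) F) - 1) = 0 := by
    have h1 : (s 0 : Matrix (Fin 4) (Fin 4) F) * (s 0 : Matrix (Fin 4) (Fin 4) F) = 1 := by
      have := congrArg (fun g : Matrix.SpecialLinearGroup (Fin 4) F =>
        (g : Matrix (Fin 4) (Fin 4) F)) (hsq 0)
      simpa using this
    rw [sub_mul, mul_sub, h1, mul_one, one_mul]
    have h2 : (1 : Matrix (Fin 4) (Fin 4) F) - (s 0 : Matrix (Fin 4) (Fin 4) F) -
        ((s 0 : Matrix (Fin 4) (Fin 4) F) - 1) =
        (1 - (s 0 : Matrix (Fin 4) (Fin 4) F)) + (1 - (s 0 : Matrix (Fin 4) (Fin 4) F)) := by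
      abel
    rw [h2]
    ext i j
    exact CharTwo.add_self_eq_zero _
  have hfin := lower4_rank_ext (s 0 : Matrix (Fin 4) (Fin 4) F) hN (by
    have : Module.finrank F (LinearMap.range ((lower4_std F).comp (lower4_coe F) (s 0) - 1)) =
      Module.finrank F (LinearMap.range (lower4_std F (s 0 : Matrix (Fin 4) (Fin 4) F) - 1)) :=
      rfl
    omega)
  have : Module.finrank F (LinearMap.range ((lower4_ext F).comp (lower4_coe F) (s 0) - 1)) =
      Module.finrank F (LinearMap.range (lower4_ext F (s 0 : Matrix (Fin 4) (Fin 4) F) - 1)) :=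
      rfl
  omega

end H47Inv
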