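import Mathlib
import Pool.Agent.H.MP_0335f8_al.Rules

set_option linter.unusedSectionVars false
set_option linter.unusedSimpArgs false

namespace H47Sp

open Matrix H47Inv

section form

variable {F : Type*} [Field F] {X : Type*} [Fintype X] [DecidableEq X]

/-- `σ` is an involution without fixed points -/
structure Sig (σ : X → X) : Prop where
  inv : ∀ x, σ (σ x) = x
  ne : ∀ x, σ x ≠ x

/-- the functional of a vector for the alternating form given by `σ` -/
def Jv (σ : X → X) (v : X → F) : X → F := fun x => v (σ x)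

/-- the alternating form given by `σ` -/
def Bf (σ : X → X) (u v : X → F) : F := Jv σ u ⬝ᵥ v

/-- the adjoint matrix -/
def ad (σ : X → X) (g : Matrix X X F) : Matrix X X F := of fun x y => g (σ y) (σ x)

variable {σ : X → X}

theorem Jv_add (u v : X → F) : Jv σ (u + v) = Jv σ u + Jv σ v := rfl

theorem Jv_sub (u v : X → F) : Jv σ (u - v) = Jv σ u - Jv σ v := rfl

theorem Jv_smul (c : F) (v : X → F) : Jv σ (c • v) = c • Jv σ v := rfl

theorem Jv_zero : Jv σ (0 : X → F) = 0 := rfl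

theorem Bf_add_left (u v w : X → F) : Bf σ (u + v) w = Bf σ u w + Bf σ v w := by
  simp [Bf, Jv_add]

theorem Bf_add_right (u v w : X → F) : Bf σ w (u + v) = Bf σ w u + Bf σ w v := by
  simp [Bf]

theorem Bf_sub_right (u v w : X → F) : Bf σ w (u - v) = Bf σ w u - Bf σ w v := by
  simp [Bf]

theorem Bf_smul_left (c : F) (v w : X → F) : Bf σ (c • v) w = c * Bf σ v w := by
  simp [Bf, Jv_smul]

theorem Bf_smul_right (c : F) (v w : X → F) : Bf σ w (c • v) = c * Bf σ w v := by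
  simp [Bf]

theorem Bf_zero_right (w : X → F) : Bf σ w 0 = 0 := by simp [Bf]

/-- `σ` as an equivalence -/
def Sig.eqv (h : Sig σ) : X ≃ X := ⟨σ, σ, h.inv, h.inv⟩

theorem Bf_comm (h : Sig σ) (u v : X → F) : Bf σ u v = Bf σ v u := by
  unfold Bf dotProduct Jv
  rw [← Equiv.sum_comp h.eqv]
  apply Finset.sum_congr rfl
  intro x _
  change u (σ (σ x)) * v (σ x) = v (σ x) * u x
  rw [h.inv]; ring

theorem Bf_self [CharP F 2] (h : Sig σ) (u : X → F) : Bf σ u u = 0 := by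
  unfold Bf dotProduct Jv
  refine Finset.sum_involution (fun x _ => σ x) ?_ ?_ ?_ ?_
  · intro x _
    rw [h.inv, mul_comm (u x)]
    exact CharTwo.add_self_eq_zero _
  · intro x _ _
    exact h.ne x
  · intro x _
    exact Finset.mem_univ _
  · intro x _
    exact h.inv x

theorem Jv_vecMul_ad (h : Sig σ) (g : Matrix X X F) (v : X → F) :
    Jv σ v ᵥ* ad σ g = Jv σ (g *ᵥ v) := by
  ext y
  simp only [vecMul, dotProduct, Jv, ad, of_apply, mulVec]
  rw [← Equiv.sum_comp h.eqv]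
  apply Finset.sum_congr rfl
  intro x _
  change v (σ (σ x)) * g (σ y) (σ (σ x)) = _
  rw [h.inv, mul_comm]

theorem ad_mul (h : Sig σ) (g k : Matrix X X F) : ad σ (g * k) = ad σ k * ad σ g := by
  ext x y
  simp only [ad, of_apply, mul_apply]
  rw [← Equiv.sum_comp h.eqv]
  apply Finset.sum_congr rfl
  intro z _
  change g (σ y) (σ z) * k (σ z) (σ x) = _
  rw [mul_comm]

theorem ad_one (h : Sig σ) : ad σ (1 : Matrix X X F) = 1 := by
  ext x y
  simp only [ad, of_apply, one_apply]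
  by_cases hxy : x = y
  · simp [hxy]
  · have : ¬ σ y = σ x := by
      intro hc
      apply hxy
      have := congrArg σ hc
      rw [h.inv, h.inv] at this
      exact this.symm
    simp [hxy, this]

theorem ad_ad (h : Sig σ) (g : Matrix X X F) : ad σ (ad σ g) = g := by
  ext x y
  simp [ad, h.inv]

theorem ad_add (g k : Matrix X X F) : ad σ (g + k) = ad σ g + ad σ k := rfl

theorem ad_vmv (h : Sig σ) (u v : X → F) :
    ad σ (vecMulVec u (Jv σ v)) = vecMulVec v (Jv σ u) := by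
  ext x y
  simp only [ad, of_apply, vecMulVec_apply, Jv, h.inv]
  ring

/-- the form is preserved by symplectic matrices -/
theorem Bf_mulVec (h : Sig σ) {g : Matrix X X F} (hg : ad σ g * g = 1) (u v : X → F) :
    Bf σ (g *ᵥ u) (g *ᵥ v) = Bf σ u v := by
  unfold Bf
  rw [← Jv_vecMul_ad h, dotProduct_mulVec, vecMul_vecMul, hg, vecMul_one]

theorem ad_Tm (h : Sig σ) (c : F) (v : X → F) : ad σ (Tm (c • v) (Jv σ v)) = Tm (c • v) (Jv σ v) := by
  unfold Tm
  rw [ad_add, ad_one h, ad_vmv h, Jv_smul, vecMulVec_smul, smul_vecMulVec]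

theorem ad_Dm (h : Sig σ) (l : F) (v0 v1 : X → F) :
    ad σ (Dm l v0 v1 (Jv σ v1) (Jv σ v0)) =
      1 + vecMulVec v1 ((l - 1) • Jv σ v0 + Jv σ v1) + vecMulVec v0 (Jv σ v0 - Jv σ v1) := by
  unfold Dm
  rw [ad_add, ad_add, ad_one h, ad_vmv h, ad_vmv h]
  rfl

theorem ad_Dm_eq [CharP F 2] (h : Sig σ) (l : F) (v0 v1 : X → F) :
    ad σ (Dm l v0 v1 (Jv σ v1) (Jv σ v0)) = Dm l v1 v0 (Jv σ v0) (Jv σ v1) := by
  rw [ad_Dm h]
  ext i j
  simp only [Dm, Matrix.add_apply, vecMulVec_apply, Pi.add_apply, Pi.smul_apply, Pi.sub_apply,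
    smul_eq_mul]
  ring

end form

section em

variable {F : Type*} [Field F] {X : Type*} [Fintype X] [DecidableEq X] {σ : X → X}

/-- the element `1 + r ⊗ p + p ⊗ r + c r ⊗ r` -/
def Em (σ : X → X) (p r : X → F) (c : F) : Matrix X X F :=
  1 + vecMulVec r (Jv σ p) + vecMulVec p (Jv σ r) + vecMulVec (c • r) (Jv σ r)

theorem Em_mul [CharP F 2] (h : Sig σ) {p p' r : X → F} (c c' : F) (h1 : Bf σ p r = 0)
    (h2 : Bf σ p' r = 0) :
    Em σ p r c * Em σ p' r c' = Em σ (p + p') r (c + c' + Bf σ p p') := by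
  have h1' : Jv σ r ⬝ᵥ p = 0 := (Bf_comm h r p).trans h1
  have h2' : Jv σ r ⬝ᵥ p' = 0 := (Bf_comm h r p').trans h2
  have h3 : Jv σ r ⬝ᵥ r = 0 := Bf_self h r
  have h1'' : Jv σ p ⬝ᵥ r = 0 := h1
  have h4 : Jv σ p ⬝ᵥ p' = Bf σ p p' := rfl
  simp only [Em, mul_add, add_mul, mul_one, one_mul, vmv_mul, smul_vecMulVec, smul_mul_assoc,
    mul_smul_comm, h1'', h2', h3, h4, zero_smul, smul_zero, add_zero, zero_add, Jv_add,
    vecMulVec_add, add_vecMulVec, add_smul]
  abel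

theorem Em_zero (r : X → F) : Em σ 0 r 0 = 1 := by
  simp [Em, Jv_zero]

theorem Em_zero' (r : X → F) (c : F) : Em σ 0 r c = Tm (c • r) (Jv σ r) := by
  simp [Em, Jv_zero, Tm]

theorem Em_swap (p r : X → F) : Em σ p r 0 = Em σ r p 0 := by
  simp only [Em, zero_smul, zero_vecMulVec, add_zero]
  abel

theorem Em_add_self [CharP F 2] (p r : X → F) (s c : F) : Em σ (p + s • r) r c = Em σ p r c := by
  have h2 : (2 : F) = 0 := CharTwo.two_eq_zero
  ext i j
  simp only [Em, Jv_add, Jv_smul, Matrix.add_apply, vecMulVec_apply, Pi.add_apply, Pi.smul_apply,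
    smul_eq_mul]
  linear_combination (s * r i * Jv σ r j) * h2

theorem Em_smul (s : F) (p r : X → F) : Em σ (s • p) r 0 = Em σ (s • r) p 0 := by
  simp only [Em, Jv_smul, zero_smul, zero_vecMulVec, add_zero, vecMulVec_smul, smul_vecMulVec]
  abel

theorem Em_sq [CharP F 2] (h : Sig σ) {p r : X → F} (c : F) (h1 : Bf σ p r = 0) :
    Em σ p r c * Em σ p r c = 1 := by
  have : p + p = 0 := by ext i; simp [CharTwo.add_self_eq_zero]
  rw [Em_mul h c c h1 h1, Bf_self h, CharTwo.add_self_eq_zero c, add_zero, this, Em_zero]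

theorem conj_Em (h : Sig σ) {g : Matrix X X F} (hg : g * ad σ g = 1) (p r : X → F) (c : F) :
    g * Em σ p r c * ad σ g = Em σ (g *ᵥ p) (g *ᵥ r) c := by
  simp only [Em, mul_add, add_mul, mul_one, hg, mul_vecMulVec, vecMulVec_mul, Jv_vecMul_ad h,
    mulVec_smul]

theorem Em_mulVec (p r v : X → F) (c : F) :
    Em σ p r c *ᵥ v = v + (Bf σ p v) • r + (Bf σ r v) • p + (c * Bf σ r v) • r := by
  simp only [Em, add_mulVec, vecMulVec_mulVec, one_mulVec]
  ext i
  simp [Bf]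
  ring

theorem ad_Em (h : Sig σ) (p r : X → F) (c : F) : ad σ (Em σ p r c) = Em σ p r c := by
  unfold Em
  rw [ad_add, ad_add, ad_add, ad_one h, ad_vmv h, ad_vmv h, ad_vmv h, Jv_smul, vecMulVec_smul,
    smul_vecMulVec]
  abel

theorem Tm_mulVec (v w : X → F) (c : F) :
    Tm (c • v) (Jv σ v) *ᵥ w = w + (c * Bf σ v w) • v := by
  simp only [Tm, add_mulVec, vecMulVec_mulVec, one_mulVec]
  ext i
  simp [Bf]
  ring

theorem Tm_sq' [CharP F 2] (h : Sig σ) (v : X → F) (c : F) :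
    Tm (c • v) (Jv σ v) * Tm (c • v) (Jv σ v) = 1 := by
  have := Em_sq h (p := 0) (r := v) c (by simp [Bf, Jv_zero])
  rwa [Em_zero'] at this

end em

section facts

variable {F : Type*} [Field F] {X : Type*} [Fintype X] [DecidableEq X]

/-- `M` contains all transvections with centre `v` -/
def XX (M : Submonoid (Matrix X X F)) (σ : X → X) (v : X → F) : Prop :=
  ∀ c : F, Tm (c • v) (Jv σ v) ∈ M

/-- `M` contains the family `Em (s w) r (c s^2)` -/
def EE (M : Submonoid (Matrix X X F)) (σ : X → X) (w r : X → F) (c : F) : Prop :=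
  ∀ s : F, Em σ (s • w) r (c * s ^ 2) ∈ M

/-- `M` contains the plane element -/
def DD (M : Submonoid (Matrix X X F)) (σ : X → X) (l : F) (v0 v1 : X → F) : Prop :=
  Dm l v0 v1 (Jv σ v1) (Jv σ v0) ∈ M

variable {M : Submonoid (Matrix X X F)} {σ : X → X} {l : F} {v w r u v0 v1 : X → F} {c c' : F}

theorem XX.smul (a : F) (h : XX M σ v) : XX M σ (a • v) := by
  intro c
  have e : Tm (c • a • v) (Jv σ (a • v)) = Tm ((a * (c * a)) • v) (Jv σ v) := by
    rw [Jv_smul, Tm_smul, smul_smul, smul_smul, mul_assoc]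
  rw [e]; exact h _

theorem XX.zero : XX M σ 0 := by
  intro c
  simp [Tm, M.one_mem]

theorem XX.conj (h : Sig σ) {g : Matrix X X F} (hg : g * ad σ g = 1)
    (hM : ∀ c : F, Tm (c • v) (Jv σ v) ∈ M → g * Tm (c • v) (Jv σ v) * ad σ g ∈ M)
    (hv : XX M σ v) : XX M σ (g *ᵥ v) := by
  intro c
  have := hM _ (hv c)
  rwa [conj_Tm hg, mulVec_smul, Jv_vecMul_ad h] at this

theorem EE.conj (h : Sig σ) {g : Matrix X X F} (hg : g * ad σ g = 1)
    (hM : ∀ s : F, Em σ (s • w) r (c * s ^ 2) ∈ M → g * Em σ (s • w) r (c * s ^ 2) * ad σ g ∈ M)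
    (hv : EE M σ w r c) : EE M σ (g *ᵥ w) (g *ᵥ r) c := by
  intro s
  have := hM _ (hv s)
  rwa [conj_Em h hg, mulVec_smul] at this

variable [CharP F 2]

theorem XX.add (h : Sig σ) (hv : XX M σ v) (hw : XX M σ w) (hB : Bf σ v w ≠ 0) (t : F) :
    XX M σ (v + t • w) := by
  have hB' : Bf σ w v ≠ 0 := by rwa [Bf_comm h]
  have e : v + t • w = Tm ((t / Bf σ w v) • w) (Jv σ w) *ᵥ v := by
    rw [Tm_mulVec, div_mul_cancel₀ _ hB']
  rw [e]
  refine XX.conj h ?_ ?_ hv
  · rw [ad_Tm h, Tm_sq' h]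
  · intro c hc
    rw [ad_Tm h]
    exact M.mul_mem (M.mul_mem (hw _) hc) (hw _)

theorem XX.span (h : Sig σ) (hv : XX M σ v) (hw : XX M σ w) (hB : Bf σ v w ≠ 0) (a b : F) :
    XX M σ (a • v + b • w) := by
  by_cases ha : a = 0
  · rw [ha, zero_smul, zero_add]; exact hw.smul b
  · have := (hv.add h hw hB (b / a)).smul a
    rwa [smul_add, smul_smul, mul_div_cancel₀ _ ha] at this

theorem EE.mod (hE : EE M σ w r c) : EE M σ (w + r) r c := by
  intro s
  rw [smul_add, Em_add_self]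
  exact hE s

theorem EE.add (h : Sig σ) (h1 : Bf σ w r = 0) (h2 : Bf σ v r = 0) (hE : EE M σ w r c)
    (hE' : EE M σ v r c') : EE M σ (w + v) r (c + c' + Bf σ w v) := by
  intro s
  have h3 := M.mul_mem (hE s) (hE' s)
  rw [Em_mul h _ _ (by rw [Bf_smul_left, h1, mul_zero]) (by rw [Bf_smul_left, h2, mul_zero]),
    ← smul_add, Bf_smul_left, Bf_smul_right] at h3
  convert h3 using 2
  ring

theorem EE.flip (hE : EE M σ w r 0) : EE M σ r w 0 := by
  intro s
  have := hE s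
  rw [zero_mul] at this ⊢
  rwa [Em_smul] at this

theorem EE.conf (h : Sig σ) (hsq : ∀ a : F, ∃ b, b * b = a) (h1 : Bf σ w r = 0)
    (hE : EE M σ w r c) (hE' : EE M σ w r c') (hc : c + c' ≠ 0) : XX M σ r := by
  intro a
  obtain ⟨b, hb⟩ := hsq (a / (c + c'))
  have h3 := M.mul_mem (hE b) (hE' b)
  have h4 : Bf σ (b • w) r = 0 := by rw [Bf_smul_left, h1, mul_zero]
  rw [Em_mul h _ _ h4 h4, Bf_self h, add_zero] at h3
  have e1 : b • w + b • w = 0 := by ext i; simp [CharTwo.add_self_eq_zero]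
  rw [e1, Em_zero', ← add_mul, pow_two, hb, mul_div_cancel₀ _ hc] at h3
  exact h3

theorem EE.of_XX (h : Sig σ) (h1 : Bf σ w r = 0) (hE : EE M σ w r c) (hX : XX M σ r) (c' : F) :
    EE M σ w r c' := by
  intro s
  have h3 := M.mul_mem (hE s) (hX ((c' - c) * s ^ 2))
  rw [← Em_zero', Em_mul h _ _ (by rw [Bf_smul_left, h1, mul_zero])
    (by simp [Bf, Jv_zero]), add_zero, Bf_zero_right] at h3
  convert h3 using 2
  ring

theorem XX.of_EE (h : Sig σ) (hv : XX M σ v) (hE : EE M σ w r c) (h0 : Bf σ w r = 0)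
    (h1 : Bf σ v r = 0) (h2 : Bf σ v w = 1) : XX M σ (v + r) := by
  have hE1 := hE 1
  rw [one_smul, one_pow, mul_one] at hE1
  have e : v + r = Em σ w r c *ᵥ v := by
    rw [Em_mulVec, Bf_comm h w v, h2, Bf_comm h r v, h1]
    simp
  rw [e]
  refine XX.conj h ?_ ?_ hv
  · rw [ad_Em h, Em_sq h _ h0]
  · intro c hc
    rw [ad_Em h]
    exact M.mul_mem (M.mul_mem hE1 hc) hE1

end facts

section plane

variable {F : Type*} [Field F] [CharP F 2] {X : Type*} [Fintype X] [DecidableEq X]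
variable {M : Submonoid (Matrix X X F)} {σ : X → X} {l : F} {v w r u v0 v1 : X → F} {c c' : F}

theorem D_mulVec (v : X → F) : Dm l v0 v1 (Jv σ v1) (Jv σ v0) *ᵥ v =
    v + (Bf σ v1 v) • ((l - 1) • v0 + v1) + (Bf σ v0 v) • (v0 - v1) := Dm_mulVec v

theorem D_ad (h : Sig σ) (hB : Bf σ v0 v1 = 1) :
    Dm l v0 v1 (Jv σ v1) (Jv σ v0) * ad σ (Dm l v0 v1 (Jv σ v1) (Jv σ v0)) = 1 := by
  rw [ad_Dm_eq h]
  exact Dm_inv ((Bf_comm h v1 v0).trans hB) (Bf_self h v1) (Bf_self h v0) hB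

theorem DD.symm (h : Sig σ) (hinv : InvClosed M) (hB : Bf σ v0 v1 = 1) (hD : DD M σ l v0 v1) :
    DD M σ l v1 v0 :=
  hinv _ _ hD (Dm_inv ((Bf_comm h v1 v0).trans hB) (Bf_self h v1) (Bf_self h v0) hB)

theorem DD.conj (h : Sig σ) {g : Matrix X X F} (hg : g * ad σ g = 1)
    (hM : g * Dm l v0 v1 (Jv σ v1) (Jv σ v0) * ad σ g ∈ M) :
    DD M σ l (g *ᵥ v0) (g *ᵥ v1) := by
  rwa [conj_Dm hg, Jv_vecMul_ad h, Jv_vecMul_ad h] at hM

/-- the vectors of the plane for which the root element is present -/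
def Sp (M : Submonoid (Matrix X X F)) (σ : X → X) (l : F) (v0 v1 r : X → F) (x y : F) : Prop :=
  Em σ (x • v0 + y • v1) r ((x ^ 2 + l * x * y + y ^ 2) / l) ∈ M

theorem Bf_plane (h : Sig σ) (hB : Bf σ v0 v1 = 1) (x y x' y' : F) :
    Bf σ (x • v0 + y • v1) (x' • v0 + y' • v1) = x * y' + y * x' := by
  rw [Bf_add_left, Bf_add_right, Bf_add_right, Bf_smul_left, Bf_smul_left, Bf_smul_left,
    Bf_smul_left, Bf_smul_right, Bf_smul_right, Bf_smul_right, Bf_smul_right, Bf_self h,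
    Bf_self h, Bf_comm h v1 v0, hB]
  ring

theorem D_plane (h : Sig σ) (hB : Bf σ v0 v1 = 1) (x y : F) :
    Dm l v0 v1 (Jv σ v1) (Jv σ v0) *ᵥ (x • v0 + y • v1) = (l * x + y) • v0 + x • v1 := by
  have hB' : Bf σ v1 v0 = 1 := by rw [Bf_comm h, hB]
  rw [D_mulVec, Bf_add_right, Bf_add_right, Bf_smul_right, Bf_smul_right, Bf_smul_right,
    Bf_smul_right, Bf_self h, Bf_self h, hB, hB']
  ext i
  simp only [Pi.add_apply, Pi.smul_apply, Pi.sub_apply, smul_eq_mul]
  ring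

theorem D_perp {r : X → F} (h0 : Bf σ v0 r = 0) (h1 : Bf σ v1 r = 0) :
    Dm l v0 v1 (Jv σ v1) (Jv σ v0) *ᵥ r = r := by
  rw [D_mulVec, h0, h1]; simp

theorem Sp_lemma (h : Sig σ) (hinv : InvClosed M) (hl : ∀ a : F, a ≠ 0 → ∃ k : ℕ, a = l ^ k)
    (hl0 : l ≠ 0) (hD : DD M σ l v0 v1) (hB : Bf σ v0 v1 = 1) (h0 : Bf σ v0 r = 0)
    (h1 : Bf σ v1 r = 0) {x y : F} (hN : x ^ 2 + l * x * y + y ^ 2 ≠ 0)
    (hS : Sp M σ l v0 v1 r x y) : ∀ x' y' : F, Sp M σ l v0 v1 r x' y' := by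
  have hp : ∀ x y : F, Bf σ (x • v0 + y • v1) r = 0 := by
    intro x y
    rw [Bf_add_left, Bf_smul_left, Bf_smul_left, h0, h1]; ring
  have add : ∀ x y x' y' : F, Sp M σ l v0 v1 r x y → Sp M σ l v0 v1 r x' y' →
      Sp M σ l v0 v1 r (x + x') (y + y') := by
    intro x y x' y' k k'
    have := M.mul_mem k k'
    rw [Em_mul h _ _ (hp _ _) (hp _ _), Bf_plane h hB] at this
    unfold Sp
    convert this using 2
    · ext i
      simp only [Pi.add_apply, Pi.smul_apply, smul_eq_mul]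
      ring
    · field_simp
      have h2 : (2 : F) = 0 := CharTwo.two_eq_zero
      linear_combination (x * x' + y * y') * h2
  have d1 : ∀ x y : F, Sp M σ l v0 v1 r x y → Sp M σ l v0 v1 r (l * x + y) x := by
    intro x y k
    have := M.mul_mem (M.mul_mem hD k) (hinv _ _ hD (D_ad h hB))
    rw [conj_Em h (D_ad h hB), D_plane h hB, D_perp h0 h1] at this
    unfold Sp
    convert this using 2
    have h2 : (2 : F) = 0 := CharTwo.two_eq_zero
    field_simp
    linear_combination (l ^ 2 * x ^ 2 + l * x * y) * h2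
  have d2 : ∀ x y : F, Sp M σ l v0 v1 r x y → Sp M σ l v0 v1 r y (x + l * y) := by
    intro x y k
    have hD' := hD.symm h hinv hB
    have hB' : Bf σ v1 v0 = 1 := by rw [Bf_comm h, hB]
    have := M.mul_mem (M.mul_mem hD' k) (hinv _ _ hD' (D_ad h hB'))
    rw [conj_Em h (D_ad h hB'), add_comm (x • v0), D_plane h hB', D_perp h1 h0] at this
    unfold Sp
    rw [add_comm (y • v0)]
    convert this using 2
    · congr 2
      ring
    · have h2 : (2 : F) = 0 := CharTwo.two_eq_zero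
      field_simp
      linear_combination (l ^ 2 * y ^ 2 + l * x * y) * h2
  have m1 : ∀ x y : F, Sp M σ l v0 v1 r x y → Sp M σ l v0 v1 r (l * x) (l * y) := by
    intro x y k
    have := add _ _ _ _ (d1 x y k) (d2 x y k)
    convert this using 1
    · have h2 : (2 : F) = 0 := CharTwo.two_eq_zero
      linear_combination (- y) * h2
    · have h2 : (2 : F) = 0 := CharTwo.two_eq_zero
      linear_combination (- x) * h2
  have m2 : ∀ (k : ℕ) (x y : F), Sp M σ l v0 v1 r x y →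
      Sp M σ l v0 v1 r (l ^ k * x) (l ^ k * y) := by
    intro k
    induction k with
    | zero => intro x y hk; simpa using hk
    | succ k ih =>
      intro x y hk
      have := m1 _ _ (ih x y hk)
      rwa [← mul_assoc, ← mul_assoc, ← pow_succ'] at this
  have m3 : ∀ (a x y : F), Sp M σ l v0 v1 r x y → Sp M σ l v0 v1 r (a * x) (a * y) := by
    intro a x y hk
    by_cases ha : a = 0
    · subst ha
      unfold Sp
      have : Em σ ((0 * x : F) • v0 + (0 * y : F) • v1) r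
          (((0 * x) ^ 2 + l * (0 * x) * (0 * y) + (0 * y) ^ 2) / l) = 1 := by
        have e1 : (0 * x : F) • v0 + (0 * y : F) • v1 = 0 := by simp
        have e2 : ((0 * x) ^ 2 + l * (0 * x) * (0 * y) + (0 * y) ^ 2) / l = 0 := by simp
        rw [e1, e2, Em_zero]
      rw [this]; exact M.one_mem
    · obtain ⟨k, rfl⟩ := hl a ha
      exact m2 k x y hk
  intro x' y'
  have k1 := m3 ((x * x' + (l * x + y) * y') / (x ^ 2 + l * x * y + y ^ 2)) _ _ hS
  have k2 := m3 ((y * x' + x * y') / (x ^ 2 + l * x * y + y ^ 2)) _ _ (d1 _ _ hS)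
  have k3 := add _ _ _ _ k1 k2
  have h2 : (2 : F) = 0 := CharTwo.two_eq_zero
  have e1 : (x * x' + (l * x + y) * y') * x + (y * x' + x * y') * (l * x + y) =
      (x ^ 2 + l * x * y + y ^ 2) * x' := by
    linear_combination (x * (l * x + y) * y') * h2
  have e2 : (x * x' + (l * x + y) * y') * y + (y * x' + x * y') * x =
      (x ^ 2 + l * x * y + y ^ 2) * y' := by
    linear_combination (x * y * x') * h2
  rw [div_mul_eq_mul_div, div_mul_eq_mul_div, div_mul_eq_mul_div, div_mul_eq_mul_div, ← add_div,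
    ← add_div, e1, e2, mul_div_cancel_left₀ _ hN, mul_div_cancel_left₀ _ hN] at k3
  exact k3

/-- the basic consequence of `Sp_lemma` -/
theorem EE_of_Sp (hS : ∀ x' y' : F, Sp M σ l v0 v1 r x' y') :
    EE M σ v0 r (1 / l) ∧ EE M σ v1 r (1 / l) := by
  constructor
  · intro s
    have := hS s 0
    unfold Sp at this
    convert this using 2
    · ext i; simp
    · ring
  · intro s
    have := hS 0 s
    unfold Sp at this
    convert this using 2
    · ext i; simp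
    · ring

theorem NN (l x y : F) : (x * (l + 1) + y) ^ 2 + l * (x * (l + 1) + y) * (x + y) + (x + y) ^ 2 =
    l * (x ^ 2 + l * x * y + y ^ 2) := by
  have h2 : (2 : F) = 0 := CharTwo.two_eq_zero
  linear_combination (l ^ 2 * x ^ 2 + l * x ^ 2 + x ^ 2 + 2 * x * y * l + 2 * x * y + y ^ 2 +
    x * y * l * 0) * h2

/-- the commutator of a plane element with a root element -/
theorem W_rule (h : Sig σ) (hinv : InvClosed M) (hl : ∀ a : F, a ≠ 0 → ∃ k : ℕ, a = l ^ k)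
    (hl0 : l ≠ 0) (hD : DD M σ l v0 v1) (hB : Bf σ v0 v1 = 1) (h0 : Bf σ v0 r = 0)
    (h1 : Bf σ v1 r = 0) (hw : Bf σ w r = 0) {x y : F} (hx : Bf σ v1 w = x) (hy : Bf σ v0 w = y)
    (hN : x ^ 2 + l * x * y + y ^ 2 ≠ 0) (hE : EE M σ w r c) :
    EE M σ v0 r (1 / l) ∧ EE M σ v1 r (1 / l) := by
  have h2 : (2 : F) = 0 := CharTwo.two_eq_zero
  have hE1 := hE 1
  rw [one_smul, one_pow, mul_one] at hE1
  have k1 := M.mul_mem (M.mul_mem hD hE1) (hinv _ _ hD (D_ad h hB))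
  have hr : Dm l v0 v1 (Jv σ v1) (Jv σ v0) *ᵥ r = r := D_perp h0 h1
  have hDw : Bf σ (Dm l v0 v1 (Jv σ v1) (Jv σ v0) *ᵥ w) r = 0 := by
    have := Bf_mulVec h (mul_eq_one_comm.1 (D_ad (l := l) h hB)) w r
    rwa [hr, hw] at this
  rw [conj_Em h (D_ad h hB), hr] at k1
  have k2 := M.mul_mem k1 hE1
  rw [Em_mul h _ _ hDw hw, CharTwo.add_self_eq_zero c, zero_add] at k2
  have e1 : Dm l v0 v1 (Jv σ v1) (Jv σ v0) *ᵥ w + w =
      (x * (l + 1) + y) • v0 + (x + y) • v1 := by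
    rw [D_mulVec, hx, hy]
    ext i
    simp only [Pi.add_apply, Pi.smul_apply, Pi.sub_apply, smul_eq_mul]
    linear_combination (w i - x * v0 i - y * v1 i) * h2
  have e2 : Bf σ (Dm l v0 v1 (Jv σ v1) (Jv σ v0) *ᵥ w) w = x ^ 2 + l * x * y + y ^ 2 := by
    have : Bf σ (Dm l v0 v1 (Jv σ v1) (Jv σ v0) *ᵥ w) w =
        Bf σ (Dm l v0 v1 (Jv σ v1) (Jv σ v0) *ᵥ w + w) w := by
      rw [Bf_add_left _ w w, Bf_self h w, add_zero]
    rw [this, e1, Bf_add_left, Bf_smul_left, Bf_smul_left, hx, hy]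
    linear_combination (x * y) * h2
  rw [e1, e2] at k2
  have k3 : Sp M σ l v0 v1 r (x * (l + 1) + y) (x + y) := by
    unfold Sp
    rw [NN, mul_div_cancel_left₀ _ hl0]
    exact k2
  refine EE_of_Sp (Sp_lemma h hinv hl hl0 hD hB h0 h1 ?_ k3)
  rw [NN]
  exact mul_ne_zero hl0 hN

/-- two plane elements differing by multiples of a vector -/
theorem DD_rule (h : Sig σ) (hinv : InvClosed M) (hl : ∀ a : F, a ≠ 0 → ∃ k : ℕ, a = l ^ k)
    (hl0 : l ≠ 0) (hD : DD M σ l v0 v1) (hB : Bf σ v0 v1 = 1) (h0 : Bf σ v0 r = 0)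
    (h1 : Bf σ v1 r = 0) {x y : F} (hD' : DD M σ l (v0 + y • r) (v1 + x • r))
    (hN : x ^ 2 + l * x * y + y ^ 2 ≠ 0) :
    EE M σ v0 r (1 / l) ∧ EE M σ v1 r (1 / l) := by
  have h2 : (2 : F) = 0 := CharTwo.two_eq_zero
  have hDs := hD.symm h hinv hB
  have k1 := M.mul_mem hD' hDs
  have e0 : Jv σ v1 ⬝ᵥ v0 = 1 := (Bf_comm h v1 v0).trans hB
  have e1 : Jv σ v1 ⬝ᵥ v1 = 0 := Bf_self h v1
  have e2 : Jv σ v0 ⬝ᵥ v0 = 0 := Bf_self h v0
  have e3 : Jv σ v0 ⬝ᵥ v1 = 1 := hB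
  have e4 : Jv σ r ⬝ᵥ v0 = 0 := (Bf_comm h r v0).trans h0
  have e5 : Jv σ r ⬝ᵥ v1 = 0 := (Bf_comm h r v1).trans h1
  have key : Dm l (v0 + y • r) (v1 + x • r) (Jv σ (v1 + x • r)) (Jv σ (v0 + y • r)) *
      Dm l v1 v0 (Jv σ v0) (Jv σ v1) =
      Em σ ((x * (l + 1) + y) • v0 + (x + y) • v1) r (x ^ 2 + l * x * y + y ^ 2) := by
    simp only [Dm, Em, Jv_add, Jv_smul, mul_add, add_mul, mul_one, one_mul, vmv_mul,
      dotProduct_add, dotProduct_sub, dotProduct_smul, add_dotProduct, smul_dotProduct,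
      e0, e1, e2, e3, e4, e5, smul_eq_mul]
    ext i j
    simp only [Matrix.add_apply, Matrix.smul_apply, vecMulVec_apply, Pi.add_apply, Pi.smul_apply,
      Pi.sub_apply, smul_eq_mul]
    linear_combination (l * v0 i * Jv σ v0 j + l * y * r i * Jv σ v0 j - l * r i * x * Jv σ v0 j -
      v0 i * x * Jv σ r j - y * r i * x * Jv σ r j - y * r i * Jv σ v0 j - y * v1 i * Jv σ r j -
      r i * x * Jv σ v1 j) * h2
  rw [key] at k1
  have k3 : Sp M σ l v0 v1 r (x * (l + 1) + y) (x + y) := by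
    unfold Sp
    rw [NN, mul_div_cancel_left₀ _ hl0]
    exact k1
  refine EE_of_Sp (Sp_lemma h hinv hl hl0 hD hB h0 h1 ?_ k3)
  rw [NN]
  exact mul_ne_zero hl0 hN

/-- a transvection not orthogonal to the plane -/
theorem XD_rule (h : Sig σ) (hinv : InvClosed M)
    (hl0 : l ≠ 0) (hD : DD M σ l v0 v1) (hB : Bf σ v0 v1 = 1) {x y : F} (hx : Bf σ v1 r = x)
    (hy : Bf σ v0 r = y) (hN : x ^ 2 + l * x * y + y ^ 2 ≠ 0) (hr : XX M σ r) :
    ∀ a b : F, XX M σ (a • v0 + b • v1) := by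
  have h2 : (2 : F) = 0 := CharTwo.two_eq_zero
  have conjD : ∀ u : X → F, XX M σ u → XX M σ (Dm l v0 v1 (Jv σ v1) (Jv σ v0) *ᵥ u) := by
    intro u hu
    refine hu.conj h (D_ad h hB) ?_
    intro c hc
    exact M.mul_mem (M.mul_mem hD hc) (hinv _ _ hD (D_ad h hB))
  have e1 : Dm l v0 v1 (Jv σ v1) (Jv σ v0) *ᵥ r + r =
      (x * (l + 1) + y) • v0 + (x + y) • v1 := by
    rw [D_mulVec, hx, hy]
    ext i
    simp only [Pi.add_apply, Pi.smul_apply, Pi.sub_apply, smul_eq_mul]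
    linear_combination (r i - x * v0 i - y * v1 i) * h2
  have e2 : Bf σ (Dm l v0 v1 (Jv σ v1) (Jv σ v0) *ᵥ r) r = x ^ 2 + l * x * y + y ^ 2 := by
    have : Bf σ (Dm l v0 v1 (Jv σ v1) (Jv σ v0) *ᵥ r) r =
        Bf σ (Dm l v0 v1 (Jv σ v1) (Jv σ v0) *ᵥ r + r) r := by
      rw [Bf_add_left _ r r, Bf_self h r, add_zero]
    rw [this, e1, Bf_add_left, Bf_smul_left, Bf_smul_left, hx, hy]
    linear_combination (x * y) * h2
  have k1 := (conjD r hr).add h hr (by rw [e2]; exact hN) 1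
  rw [one_smul, e1] at k1
  have k2 := conjD _ k1
  rw [D_plane h hB] at k2
  set p := x * (l + 1) + y with hp
  set q := x + y with hq
  have hNp : p ^ 2 + l * p * q + q ^ 2 ≠ 0 := by
    rw [hp, hq, NN]; exact mul_ne_zero hl0 hN
  intro a b
  have hB2 : Bf σ (p • v0 + q • v1) ((l * p + q) • v0 + p • v1) ≠ 0 := by
    rw [Bf_plane h hB]
    intro hc
    apply hNp
    linear_combination hc
  have k3 := k1.span h k2 hB2 ((p * a + (l * p + q) * b) / (p ^ 2 + l * p * q + q ^ 2))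
    ((q * a + p * b) / (p ^ 2 + l * p * q + q ^ 2))
  have f1 : (p * a + (l * p + q) * b) * p + (q * a + p * b) * (l * p + q) =
      (p ^ 2 + l * p * q + q ^ 2) * a := by
    linear_combination (p * (l * p + q) * b) * h2
  have f2 : (p * a + (l * p + q) * b) * q + (q * a + p * b) * p =
      (p ^ 2 + l * p * q + q ^ 2) * b := by
    linear_combination (p * q * a) * h2
  have e3 : ((p * a + (l * p + q) * b) / (p ^ 2 + l * p * q + q ^ 2)) • (p • v0 + q • v1) +
      ((q * a + p * b) / (p ^ 2 + l * p * q + q ^ 2)) • ((l * p + q) • v0 + p • v1) =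
      a • v0 + b • v1 := by
    rw [smul_add, smul_add, smul_smul, smul_smul, smul_smul, smul_smul, add_add_add_comm,
      ← add_smul, ← add_smul, div_mul_eq_mul_div, div_mul_eq_mul_div, div_mul_eq_mul_div,
      div_mul_eq_mul_div, ← add_div, ← add_div, f1, f2, mul_div_cancel_left₀ _ hNp,
      mul_div_cancel_left₀ _ hNp]
  rwa [e3] at k3

end plane

end H47Sp
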