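import Mathlib
import Pool.Agent.H.MP_0335f8_al.SBasic
import Pool.Agent.H.MP_0335f8_al.Z2Gad

set_option linter.unusedSectionVars false
set_option linter.unusedSimpArgs false

namespace H47Sp

open Matrix H47Inv

section off

variable {F : Type*} [Field F] [CharP F 2] {X : Type*} [Fintype X] [DecidableEq X] {σ : X → X}

theorem Jv_e (h : Sig σ) (i : X) : Jv σ (e F i) = e F (σ i) := by
  ext x
  simp only [Jv, e_apply]
  by_cases hx : σ x = i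
  · subst hx; simp [h.inv]
  · have : ¬ x = σ i := by
      intro hc; apply hx; rw [hc, h.inv]
    simp [hx, this]

theorem Jv_e' (h : Sig σ) (i : X) : Jv σ (e F (σ i)) = e F i := by
  rw [Jv_e h, h.inv]

theorem Off_Em (h : Sig σ) {p r : X → F} {c : F} {i : X} (h1 : p i = 0) (h2 : p (σ i) = 0)
    (h3 : r i = 0) (h4 : r (σ i) = 0) : Off (Em σ p r c) i (σ i) := by
  constructor <;> simp [Em, add_mulVec, vecMul_add, vecMulVec_mulVec, vecMul_vecMulVec, e_dot,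
    dot_e, h1, h2, h3, h4, Jv, h.inv, smul_mulVec, vecMul_smul]

end off

section z2

variable {F : Type*} [Field F] [CharP F 2] {n : ℕ} {σ : Fin n → Fin n}

theorem Jv_lv (u : Fin n → ZMod 2) : Jv σ (lv F u) = lv F (Jv σ u) := rfl

theorem Bf_lv (u v : Fin n → ZMod 2) : Bf σ (lv F u) (lv F v) = c2 F (Bf σ u v) := lv_dot F _ _

theorem Bf_lv0 {u v : Fin n → ZMod 2} (h : Bf σ u v = 0) : Bf σ (lv F u) (lv F v) = 0 := by
  rw [Bf_lv, h, map_zero]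

theorem Bf_lv1 {u v : Fin n → ZMod 2} (h : Bf σ u v = 1) : Bf σ (lv F u) (lv F v) = 1 := by
  rw [Bf_lv, h, map_one]

theorem ad_lf (A : Matrix (Fin n) (Fin n) (ZMod 2)) : ad σ (lf F A) = lf F (ad σ A) := rfl

/-- the context: a closed submonoid -/
structure Ctx (l : F) (σ : Fin n → Fin n) (α β π : Matrix (Fin n) (Fin n) (ZMod 2)) (i : Fin n)
    (M : Submonoid (Matrix (Fin n) (Fin n) F)) : Prop where
  sig : Sig σ
  inv : InvClosed M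
  gen : ∀ a : F, a ≠ 0 → ∃ k : ℕ, a = l ^ k
  l0 : l ≠ 0
  sqr : ∀ a : F, ∃ b, b * b = a
  D0 : De l i (σ i) ∈ M
  hα : α * α = 1
  hβ : β * β = 1
  hπ : π * π = 1
  aα : ad σ α = α
  aβ : ad σ β = β
  aπ : ad σ π = π
  al : ∀ x ∈ M, lf F α * x * lf F α ∈ M
  be : ∀ x ∈ M, lf F β * x * lf F β ∈ M
  pi : ∀ x ∈ M, Off x i (σ i) → lf F π * x * lf F π ∈ M

/-- transvections with centre over the prime field -/
def XZ (M : Submonoid (Matrix (Fin n) (Fin n) F)) (σ : Fin n → Fin n) (v : Fin n → ZMod 2) :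
    Prop := XX M σ (lv F v)

/-- root elements over the prime field -/
def EZ (l : F) (M : Submonoid (Matrix (Fin n) (Fin n) F)) (σ : Fin n → Fin n)
    (w r : Fin n → ZMod 2) (a b : ZMod 2) : Prop :=
  EE M σ (lv F w) (lv F r) (c2 F a * (1 / l) + c2 F b) ∧ Bf σ w r = 0

/-- plane elements over the prime field -/
def DZ (l : F) (M : Submonoid (Matrix (Fin n) (Fin n) F)) (σ : Fin n → Fin n)
    (v0 v1 : Fin n → ZMod 2) : Prop :=
  DD M σ l (lv F v0) (lv F v1) ∧ Bf σ v0 v1 = 1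

variable {l : F} {α β π : Matrix (Fin n) (Fin n) (ZMod 2)} {i : Fin n}
  {M : Submonoid (Matrix (Fin n) (Fin n) F)}
  {v v' w w' r r' u v0 v1 w0 w1 : Fin n → ZMod 2} {a b a' b' a'' b'' : ZMod 2}

theorem lf_ad {A : Matrix (Fin n) (Fin n) (ZMod 2)} (h : A * A = 1) (h' : ad σ A = A) :
    lf F A * ad σ (lf F A) = 1 := by
  rw [ad_lf, h', ← lf_mul, h, lf_one]

theorem Bf_conj {A : Matrix (Fin n) (Fin n) (ZMod 2)} (hs : Sig σ) (h : A * A = 1)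
    (h' : ad σ A = A) (u v : Fin n → ZMod 2) : Bf σ (A *ᵥ u) (A *ᵥ v) = Bf σ u v :=
  Bf_mulVec hs (by rw [h', h]) u v

theorem lv_zero' {v : Fin n → ZMod 2} {i : Fin n} (h : v i = 0) : lv F v i = 0 := by
  simp [lv, h]

theorem XZ.conj' {A : Matrix (Fin n) (Fin n) (ZMod 2)} (hs : Sig σ) (h : A * A = 1)
    (h' : ad σ A = A) (hM : ∀ c : F, Tm (c • lv F v) (Jv σ (lv F v)) ∈ M →
      lf F A * Tm (c • lv F v) (Jv σ (lv F v)) * lf F A ∈ M) (hv : XZ M σ v) :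
    XZ M σ (A *ᵥ v) := by
  have := XX.conj hs (lf_ad h h') (v := lv F v) (M := M) (by rw [ad_lf, h']; exact hM) hv
  rwa [lf_mulVec] at this

theorem EZ.conj' {A : Matrix (Fin n) (Fin n) (ZMod 2)} (hs : Sig σ) (h : A * A = 1)
    (h' : ad σ A = A) (hM : ∀ (p : F) (c : F), Em σ (p • lv F w) (lv F r) c ∈ M →
      lf F A * Em σ (p • lv F w) (lv F r) c * lf F A ∈ M) (hv : EZ l M σ w r a b) :
    EZ l M σ (A *ᵥ w) (A *ᵥ r) a b := by
  refine ⟨?_, by rw [Bf_conj hs h h']; exact hv.2⟩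
  have := EE.conj hs (lf_ad h h') (w := lv F w) (r := lv F r) (M := M)
    (c := c2 F a * (1 / l) + c2 F b) (by rw [ad_lf, h']; exact fun s => hM _ _) hv.1
  rwa [lf_mulVec, lf_mulVec] at this

theorem DZ.conj' {A : Matrix (Fin n) (Fin n) (ZMod 2)} (hs : Sig σ) (h : A * A = 1)
    (h' : ad σ A = A) (hM : Dm l (lv F v0) (lv F v1) (Jv σ (lv F v1)) (Jv σ (lv F v0)) ∈ M →
      lf F A * Dm l (lv F v0) (lv F v1) (Jv σ (lv F v1)) (Jv σ (lv F v0)) * lf F A ∈ M)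
    (hv : DZ l M σ v0 v1) : DZ l M σ (A *ᵥ v0) (A *ᵥ v1) := by
  refine ⟨?_, by rw [Bf_conj hs h h']; exact hv.2⟩
  have := DD.conj hs (lf_ad h h') (v0 := lv F v0) (v1 := lv F v1) (M := M) (l := l)
    (by rw [ad_lf, h']; exact hM hv.1)
  rwa [lf_mulVec, lf_mulVec] at this

theorem XZ.al (c : Ctx l σ α β π i M) (h : XZ M σ v) (hv : α *ᵥ v = v') : XZ M σ v' := by
  subst hv
  exact XZ.conj' c.sig c.hα c.aα (fun _ hc => c.al _ hc) h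

theorem XZ.be (c : Ctx l σ α β π i M) (h : XZ M σ v) (hv : β *ᵥ v = v') : XZ M σ v' := by
  subst hv
  exact XZ.conj' c.sig c.hβ c.aβ (fun _ hc => c.be _ hc) h

theorem XZ.pi (c : Ctx l σ α β π i M) (h : XZ M σ v)
    (hv : π *ᵥ v = v' ∧ v i = 0 ∧ v (σ i) = 0) : XZ M σ v' := by
  obtain ⟨rfl, h1, h2⟩ := hv
  refine XZ.conj' c.sig c.hπ c.aπ (fun _ hc => c.pi _ hc ?_) h
  refine Off_Tm ?_ ?_ ?_ ?_
  · simp [lv_zero' h1]
  · simp [lv_zero' h2]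
  · simp [Jv, lv_zero' h2]
  · simp [Jv, c.sig.inv, lv_zero' h1]

theorem EZ.al (c : Ctx l σ α β π i M) (h : EZ l M σ w r a b) (hv : α *ᵥ w = w' ∧ α *ᵥ r = r') :
    EZ l M σ w' r' a b := by
  obtain ⟨rfl, rfl⟩ := hv
  exact EZ.conj' c.sig c.hα c.aα (fun _ _ hc => c.al _ hc) h

theorem EZ.be (c : Ctx l σ α β π i M) (h : EZ l M σ w r a b) (hv : β *ᵥ w = w' ∧ β *ᵥ r = r') :
    EZ l M σ w' r' a b := by
  obtain ⟨rfl, rfl⟩ := hv
  exact EZ.conj' c.sig c.hβ c.aβ (fun _ _ hc => c.be _ hc) h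

theorem EZ.pi (c : Ctx l σ α β π i M) (h : EZ l M σ w r a b)
    (hv : π *ᵥ w = w' ∧ π *ᵥ r = r' ∧ w i = 0 ∧ w (σ i) = 0 ∧ r i = 0 ∧ r (σ i) = 0) :
    EZ l M σ w' r' a b := by
  obtain ⟨rfl, rfl, h1, h2, h3, h4⟩ := hv
  refine EZ.conj' c.sig c.hπ c.aπ (fun _ _ hc => c.pi _ hc ?_) h
  refine Off_Em c.sig ?_ ?_ (lv_zero' h3) (lv_zero' h4)
  · simp [lv_zero' h1]
  · simp [lv_zero' h2]

theorem DZ.init (c : Ctx l σ α β π i M) (h : e2 i = v0 ∧ e2 (σ i) = v1) : DZ l M σ v0 v1 := by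
  obtain ⟨rfl, rfl⟩ := h
  have hb : Bf σ (e2 i) (e2 (σ i)) = 1 := by
    simp [Bf, Jv, e2, dotProduct, c.sig.inv]
  refine ⟨?_, hb⟩
  unfold DD
  rw [lv_e2, lv_e2, Jv_e' c.sig, Jv_e c.sig]
  exact c.D0

theorem DZ.al (c : Ctx l σ α β π i M) (h : DZ l M σ v0 v1) (hv : α *ᵥ v0 = w0 ∧ α *ᵥ v1 = w1) :
    DZ l M σ w0 w1 := by
  obtain ⟨rfl, rfl⟩ := hv
  exact DZ.conj' c.sig c.hα c.aα (fun hc => c.al _ hc) h

theorem DZ.be (c : Ctx l σ α β π i M) (h : DZ l M σ v0 v1) (hv : β *ᵥ v0 = w0 ∧ β *ᵥ v1 = w1) :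
    DZ l M σ w0 w1 := by
  obtain ⟨rfl, rfl⟩ := hv
  exact DZ.conj' c.sig c.hβ c.aβ (fun hc => c.be _ hc) h

theorem DZ.pi (c : Ctx l σ α β π i M) (h : DZ l M σ v0 v1)
    (hv : π *ᵥ v0 = w0 ∧ π *ᵥ v1 = w1 ∧ v0 i = 0 ∧ v0 (σ i) = 0 ∧ v1 i = 0 ∧ v1 (σ i) = 0) :
    DZ l M σ w0 w1 := by
  obtain ⟨rfl, rfl, h1, h2, h3, h4⟩ := hv
  refine DZ.conj' c.sig c.hπ c.aπ (fun hc => c.pi _ hc ?_) h
  refine Off_Dm (lv_zero' h1) (lv_zero' h2) (lv_zero' h3) (lv_zero' h4) ?_ ?_ ?_ ?_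
  · simp [Jv, lv_zero' h4]
  · simp [Jv, c.sig.inv, lv_zero' h3]
  · simp [Jv, lv_zero' h2]
  · simp [Jv, c.sig.inv, lv_zero' h1]

theorem DZ.symm (c : Ctx l σ α β π i M) (h : DZ l M σ v0 v1) : DZ l M σ v1 v0 :=
  ⟨DD.symm c.sig c.inv (Bf_lv1 h.2) h.1, (Bf_comm c.sig v1 v0).trans h.2⟩

theorem EZ.mod (h : EZ l M σ w r a b) (hs : Sig σ) (hv : w + r = w') : EZ l M σ w' r a b := by
  subst hv
  refine ⟨?_, by rw [Bf_add_left, h.2, Bf_self hs, add_zero]⟩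
  rw [lv_add]
  exact h.1.mod

theorem EZ.add (c : Ctx l σ α β π i M) (h : EZ l M σ w r a b) (h' : EZ l M σ w' r a' b')
    (hv : w + w' = v ∧ a + a' = a'' ∧ b + b' + Bf σ w w' = b'') : EZ l M σ v r a'' b'' := by
  obtain ⟨rfl, rfl, rfl⟩ := hv
  refine ⟨?_, by rw [Bf_add_left, h.2, h'.2, add_zero]⟩
  have := EE.add c.sig (Bf_lv0 h.2) (Bf_lv0 h'.2) h.1 h'.1
  rw [lv_add]
  convert this using 1
  rw [Bf_lv, map_add, map_add, map_add]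
  ring

theorem EZ.flip (c : Ctx l σ α β π i M) (h : EZ l M σ w r 0 0) : EZ l M σ r w 0 0 := by
  refine ⟨?_, (Bf_comm c.sig r w).trans h.2⟩
  have := h.1
  simp only [map_zero, zero_mul, add_zero] at this ⊢
  exact this.flip

theorem EZ.flipX (c : Ctx l σ α β π i M) (h : EZ l M σ w r a b) (hX : XZ M σ r) :
    EZ l M σ r w 0 0 := by
  have h0 : EZ l M σ w r 0 0 := ⟨EE.of_XX c.sig (Bf_lv0 h.2) h.1 hX _, h.2⟩
  exact h0.flip c

theorem one_div_ne (c : Ctx l σ α β π i M) : (1 / l : F) ≠ 0 := one_div_ne_zero c.l0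

/-- two different constants, differing by `1 / l` or `1` -/
theorem EZ.conf (c : Ctx l σ α β π i M) (h : EZ l M σ w r a b) (h' : EZ l M σ w r a' b')
    (hv : (a + a' = 1 ∧ b + b' = 0) ∨ (a + a' = 0 ∧ b + b' = 1)) : XZ M σ r := by
  refine EE.conf c.sig c.sqr (Bf_lv0 h.2) h.1 h'.1 ?_
  have e1 : c2 F a * (1 / l) + c2 F b + (c2 F a' * (1 / l) + c2 F b') =
      c2 F (a + a') * (1 / l) + c2 F (b + b') := by
    rw [map_add, map_add]; ring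
  rw [e1]
  rcases hv with ⟨h1, h2⟩ | ⟨h1, h2⟩
  · rw [h1, h2, map_one, map_zero, one_mul, add_zero]; exact one_div_ne c
  · rw [h1, h2, map_one, map_zero, zero_mul, zero_add]; exact one_ne_zero

theorem XZ.XE (c : Ctx l σ α β π i M) (h : XZ M σ v) (h' : EZ l M σ w r a b)
    (hv : Bf σ v r = 0 ∧ Bf σ v w = 1 ∧ v + r = v') : XZ M σ v' := by
  obtain ⟨h1, h2, rfl⟩ := hv
  unfold XZ
  rw [lv_add]
  exact XX.of_EE c.sig h h'.1 (Bf_lv0 h'.2) (Bf_lv0 h1) (Bf_lv1 h2)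

theorem XZ.XX (c : Ctx l σ α β π i M) (h : XZ M σ v) (h' : XZ M σ w)
    (hv : Bf σ v w = 1 ∧ v + w = v') : XZ M σ v' := by
  obtain ⟨h1, rfl⟩ := hv
  unfold XZ
  have := XX.add c.sig h h' (by rw [Bf_lv1 h1]; exact one_ne_zero) 1
  rwa [one_smul, ← lv_add] at this

theorem z2_one {x : ZMod 2} (h : x ≠ 0) : x = 1 := by revert x; decide

/-- the norm form does not vanish -/
theorem norm_ne (c : Ctx l σ α β π i M) {x y : ZMod 2} (h : ¬ (x = 0 ∧ y = 0)) :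
    (c2 F x) ^ 2 + l * c2 F x * c2 F y + (c2 F y) ^ 2 ≠ 0 := by
  by_cases hx : x = 0
  · have hy : y = 1 := z2_one (fun hc => h ⟨hx, hc⟩)
    rw [hx, hy, map_zero, map_one]; simp
  · have hx1 : x = 1 := z2_one hx
    by_cases hy : y = 0
    · rw [hx1, hy, map_zero, map_one]; simp
    · have hy1 : y = 1 := z2_one hy
      rw [hx1, hy1, map_one]
      have h2 : (2 : F) = 0 := CharTwo.two_eq_zero
      have : (1 : F) ^ 2 + l * 1 * 1 + 1 ^ 2 = l := by linear_combination h2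
      rw [this]; exact c.l0

theorem DZ.W (c : Ctx l σ α β π i M) (hD : DZ l M σ v0 v1) (h : EZ l M σ w r a b)
    (hv : Bf σ v0 r = 0 ∧ Bf σ v1 r = 0 ∧ ¬ (Bf σ v1 w = 0 ∧ Bf σ v0 w = 0)) :
    EZ l M σ v0 r 1 0 ∧ EZ l M σ v1 r 1 0 := by
  obtain ⟨h0, h1, h2⟩ := hv
  have := W_rule c.sig c.inv c.gen c.l0 hD.1 (Bf_lv1 hD.2) (Bf_lv0 h0) (Bf_lv0 h1) (Bf_lv0 h.2)
    (Bf_lv v1 w) (Bf_lv v0 w) (norm_ne c h2) h.1
  refine ⟨⟨?_, h0⟩, ⟨?_, h1⟩⟩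
  · rw [map_one, map_zero, one_mul, add_zero]; exact this.1
  · rw [map_one, map_zero, one_mul, add_zero]; exact this.2

theorem DZ.DD (c : Ctx l σ α β π i M) (hD : DZ l M σ v0 v1) (h : DZ l M σ w0 w1)
    (x y : ZMod 2) (hv : v0 + y • r = w0 ∧ v1 + x • r = w1 ∧ Bf σ v0 r = 0 ∧ Bf σ v1 r = 0 ∧
      ¬ (x = 0 ∧ y = 0)) :
    EZ l M σ v0 r 1 0 ∧ EZ l M σ v1 r 1 0 := by
  obtain ⟨rfl, rfl, h0, h1, h2⟩ := hv
  have hs : ∀ (t : ZMod 2) (u : Fin n → ZMod 2), lv F (t • u) = c2 F t • lv F u := by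
    intro t u; ext k; simp [lv]
  have h' := h.1
  rw [lv_add, lv_add, hs, hs] at h'
  have := DD_rule c.sig c.inv c.gen c.l0 hD.1 (Bf_lv1 hD.2) (Bf_lv0 h0) (Bf_lv0 h1) h'
    (norm_ne c h2)
  refine ⟨⟨?_, h0⟩, ⟨?_, h1⟩⟩
  · rw [map_one, map_zero, one_mul, add_zero]; exact this.1
  · rw [map_one, map_zero, one_mul, add_zero]; exact this.2

theorem DZ.XD (c : Ctx l σ α β π i M) (hD : DZ l M σ v0 v1) (h : XZ M σ r)
    (hv : ¬ (Bf σ v1 r = 0 ∧ Bf σ v0 r = 0)) :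
    XZ M σ v0 ∧ XZ M σ v1 ∧ XZ M σ (v0 + v1) := by
  have := XD_rule c.sig c.inv c.l0 hD.1 (Bf_lv1 hD.2) (Bf_lv v1 r) (Bf_lv v0 r) (norm_ne c hv) h
  refine ⟨?_, ?_, ?_⟩
  · have := this 1 0
    rwa [one_smul, zero_smul, add_zero] at this
  · have := this 0 1
    rwa [one_smul, zero_smul, zero_add] at this
  · have := this 1 1
    rw [one_smul, one_smul, ← lv_add] at this
    exact this

theorem XZ.cast (h : XZ M σ v) (hv : v = v') : XZ M σ v' := by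
  subst hv; exact h

theorem EZ.cast (h : EZ l M σ w r a b) (hv : w = w' ∧ r = r' ∧ a = a' ∧ b = b') :
    EZ l M σ w' r' a' b' := by
  obtain ⟨rfl, rfl, rfl, rfl⟩ := hv; exact h

end z2

end H47Sp
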