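import Mathlib
import Pool.Agent.H.MP_0335f8_al.SRules

set_option linter.unusedSectionVars false
set_option linter.unusedSimpArgs false

namespace H47Sp

open Matrix H47Inv

section gen

variable {F : Type*} [Field F] [CharP F 2] {X : Type*} [Fintype X] [DecidableEq X] {σ : X → X}
variable {M : Submonoid (Matrix X X F)}

/-- `M` contains all symplectic transvections -/
def FullX (M : Submonoid (Matrix X X F)) (σ : X → X) : Prop := ∀ v : X → F, XX M σ v

theorem Bf_e (h : Sig σ) (i : X) (v : X → F) : Bf σ (e F i) v = v (σ i) := by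
  unfold Bf
  rw [Jv_e h, e_dot]

theorem Bf_e' (h : Sig σ) (i : X) (v : X → F) : Bf σ v (e F i) = v (σ i) := by
  rw [Bf_comm h, Bf_e h]

/-- the span of a hub plane and one further coordinate -/
theorem hub_one (h : Sig σ) {i : X} (hb : ∀ x, XX M σ (e F x))
    (hl : ∀ x, x ≠ i → x ≠ σ i → XX M σ (e F i + e F x)) {x : X} (hx : x ≠ i)
    (hx' : x ≠ σ i) (a b c : F) (hab : ¬ (a = 0 ∧ b = 0)) :
    XX M σ (a • e F i + b • e F (σ i) + c • e F x) := by
  have hne : σ i ≠ i := h.ne i
  have hsx : σ x ≠ i := fun hc => hx' (by rw [← hc, h.inv])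
  have hsx' : σ x ≠ σ i := fun hc => hx (by rw [← h.inv x, hc, h.inv])
  have hplane : ∀ a b : F, XX M σ (a • e F i + b • e F (σ i)) := by
    intro a b
    refine (hb i).span h (hb (σ i)) ?_ a b
    rw [Bf_e h, e_apply]; simp
  -- first with nonzero second coordinate
  have k1 : ∀ a b : F, b ≠ 0 → XX M σ (a • e F i + b • e F (σ i) + e F x) := by
    intro a b hb0
    have := (hl x hx hx').add h (hplane (a - 1) b) ?_ 1
    · convert this using 1
      ext y
      simp only [Pi.add_apply, Pi.smul_apply, smul_eq_mul]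
      ring
    · rw [Bf_add_left, Bf_e h, Bf_e h]
      simp [e_apply, hne, hne.symm, hsx, hsx', hb0, Ne.symm hsx, Ne.symm hsx']
  have k2 : ∀ a b : F, ¬ (a = 0 ∧ b = 0) → XX M σ (a • e F i + b • e F (σ i) + e F x) := by
    intro a b hab
    by_cases hb0 : b = 0
    · have ha : a ≠ 0 := fun hc => hab ⟨hc, hb0⟩
      have := (k1 0 1 one_ne_zero).add h (hplane a (-1)) ?_ 1
      · convert this using 1
        ext y
        simp only [Pi.add_apply, Pi.smul_apply, smul_eq_mul, hb0]
        ring
      · rw [Bf_add_left, Bf_add_left, Bf_smul_left, Bf_smul_left, Bf_e h, Bf_e h, Bf_e h, h.inv]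
        simp [e_apply, hne, hne.symm, hsx, hsx', ha, Ne.symm hsx, Ne.symm hsx']
    · exact k1 a b hb0
  by_cases hc : c = 0
  · rw [hc, zero_smul, add_zero]; exact hplane a b
  · have := (k2 (a / c) (b / c) ?_).smul c
    · convert this using 1
      ext y
      simp only [Pi.add_apply, Pi.smul_apply, smul_eq_mul]
      field_simp
    · rintro ⟨h1, h2⟩
      exact hab ⟨by simpa [hc] using h1, by simpa [hc] using h2⟩

/-- the span of a hub plane and one further plane -/
theorem hub_plane (h : Sig σ) {i : X} (hb : ∀ x, XX M σ (e F x))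
    (hl : ∀ x, x ≠ i → x ≠ σ i → XX M σ (e F i + e F x)) {x : X} (hx : x ≠ i)
    (hx' : x ≠ σ i) (a b c d : F) (hab : ¬ (a = 0 ∧ b = 0)) :
    XX M σ (a • e F i + b • e F (σ i) + c • e F x + d • e F (σ x)) := by
  have hne : σ i ≠ i := h.ne i
  have hsx : σ x ≠ i := fun hc => hx' (by rw [← hc, h.inv])
  have hsx' : σ x ≠ σ i := fun hc => hx (by rw [← h.inv x, hc, h.inv])
  by_cases hc : c = 0
  · rw [hc, zero_smul, add_zero]
    exact hub_one h hb hl hsx hsx' a b d hab
  · refine (hub_one h hb hl hx hx' a b c hab).add h (hb (σ x)) ?_ d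
    rw [Bf_e' h, h.inv]
    simp [e_apply, hx, hx', hc]

/-- all transvections from a hub plane -/
theorem full_of_hub (h : Sig σ) {i : X} (hb : ∀ x, XX M σ (e F x))
    (hl : ∀ x, x ≠ i → x ≠ σ i → XX M σ (e F i + e F x)) : FullX M σ := by
  classical
  have hne : σ i ≠ i := h.ne i
  have key : ∀ (N : ℕ) (v : X → F), ¬ (v i = 0 ∧ v (σ i) = 0) →
      (Finset.univ.filter fun x => x ≠ i ∧ x ≠ σ i ∧ v x ≠ 0).card ≤ N → XX M σ v := by
    intro N
    induction N with
    | zero =>
      intro v hv hN
      have hz : ∀ x, x ≠ i → x ≠ σ i → v x = 0 := by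
        intro x h1 h2
        by_contra h3
        have : x ∈ (Finset.univ.filter fun x => x ≠ i ∧ x ≠ σ i ∧ v x ≠ 0) := by
          simp [h1, h2, h3]
        have := Finset.card_pos.2 ⟨x, this⟩
        omega
      have e1 : v = v i • e F i + v (σ i) • e F (σ i) := by
        ext x
        simp only [Pi.add_apply, Pi.smul_apply, e_apply, smul_eq_mul]
        by_cases h1 : x = i
        · subst h1; simp [hne.symm]
        · by_cases h2 : x = σ i
          · subst h2; simp [hne]
          · simp [h1, h2, hz x h1 h2]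
      rw [e1]
      refine (hb i).span h (hb (σ i)) ?_ _ _
      rw [Bf_e h, e_apply]; simp
    | succ N ih =>
      intro v hv hN
      by_cases hex : ∃ x, x ≠ i ∧ x ≠ σ i ∧ v x ≠ 0
      · obtain ⟨x, h1, h2, h3⟩ := hex
        have hsx : σ x ≠ i := fun hc => h2 (by rw [← hc, h.inv])
        have hsx' : σ x ≠ σ i := fun hc => h1 (by rw [← h.inv x, hc, h.inv])
        have hxx : σ x ≠ x := h.ne x
        -- splitting of the hub part
        obtain ⟨a, b, hab, hab', hdet⟩ : ∃ a b : F, ¬ (a = 0 ∧ b = 0) ∧
            ¬ (v i - a = 0 ∧ v (σ i) - b = 0) ∧ a * (v (σ i) - b) + b * (v i - a) ≠ 0 := by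
          by_cases hb0 : v (σ i) = 0
          · have hi0 : v i ≠ 0 := fun hc => hv ⟨hc, hb0⟩
            refine ⟨0, 1, by simp, ?_, ?_⟩
            · rw [hb0]; simp
            · rw [hb0]; simpa using hi0
          · refine ⟨1, 0, by simp, ?_, ?_⟩
            · simp [hb0]
            · simpa using hb0
        set u2 : X → F := a • e F i + b • e F (σ i) + v x • e F x + v (σ x) • e F (σ x) with hu2
        have k2 : XX M σ u2 := hub_plane h hb hl h1 h2 a b _ _ hab
        have v1i : (v - u2) i = v i - a := by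
          simp [hu2, e_apply, hne.symm, Ne.symm h1, Ne.symm hsx]
        have v1s : (v - u2) (σ i) = v (σ i) - b := by
          simp [hu2, e_apply, hne, Ne.symm h2, Ne.symm hsx']
        have v1x : (v - u2) x = 0 := by
          simp [hu2, e_apply, h1, h2, Ne.symm hxx]
        have v1sx : (v - u2) (σ x) = 0 := by
          simp [hu2, e_apply, hsx, hsx', hxx]
        have k1 : XX M σ (v - u2) := by
          apply ih
          · rw [v1i, v1s]; exact hab'
          · have hsub : (Finset.univ.filter fun y => y ≠ i ∧ y ≠ σ i ∧ (v - u2) y ≠ 0) ⊆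
                (Finset.univ.filter fun y => y ≠ i ∧ y ≠ σ i ∧ v y ≠ 0).erase x := by
              intro y hy
              simp only [Finset.mem_filter, Finset.mem_univ, true_and] at hy
              obtain ⟨y1, y2, y3⟩ := hy
              have yx : y ≠ x := fun hc => y3 (by rw [hc, v1x])
              have ysx : y ≠ σ x := fun hc => y3 (by rw [hc, v1sx])
              simp only [Finset.mem_erase, Finset.mem_filter, Finset.mem_univ, true_and]
              refine ⟨yx, y1, y2, ?_⟩
              intro hc
              apply y3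
              simp [hu2, e_apply, y1, y2, yx, ysx, hc]
            have hmem : x ∈ (Finset.univ.filter fun y => y ≠ i ∧ y ≠ σ i ∧ v y ≠ 0) := by
              simp [h1, h2, h3]
            have := Finset.card_le_card hsub
            rw [Finset.card_erase_of_mem hmem] at this
            omega
        have k3 := k1.add h k2 ?_ 1
        · convert k3 using 1
          ext y; simp
        · have : Bf σ (v - u2) u2 = a * (v (σ i) - b) + b * (v i - a) := by
            nth_rewrite 2 [hu2]
            rw [Bf_add_right, Bf_add_right, Bf_add_right, Bf_smul_right, Bf_smul_right,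
              Bf_smul_right, Bf_smul_right, Bf_e' h, Bf_e' h, Bf_e' h, Bf_e' h, h.inv, h.inv,
              v1i, v1s, v1x, v1sx]
            ring
          rw [this]; exact hdet
      · apply ih v hv
        have : (Finset.univ.filter fun y => y ≠ i ∧ y ≠ σ i ∧ v y ≠ 0) = ∅ := by
          ext y
          simp only [Finset.mem_filter, Finset.mem_univ, true_and, Finset.notMem_empty, iff_false]
          intro hy
          exact hex ⟨y, hy⟩
        rw [this]; simp
  have key' : ∀ v : X → F, ¬ (v i = 0 ∧ v (σ i) = 0) → XX M σ v :=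
    fun v hv => key _ v hv le_rfl
  intro v
  by_cases hv : v i = 0 ∧ v (σ i) = 0
  · by_cases hv0 : v = 0
    · rw [hv0]; exact XX.zero
    · obtain ⟨x, hx⟩ : ∃ x, v x ≠ 0 := by
        by_contra hc
        apply hv0
        ext x
        by_contra h2
        exact hc ⟨x, h2⟩
      have h1 : x ≠ i := fun hc => hx (by rw [hc, hv.1])
      have h2 : x ≠ σ i := fun hc => hx (by rw [hc, hv.2])
      have hsx : σ x ≠ i := fun hc => h2 (by rw [← hc, h.inv])
      have hsx' : σ x ≠ σ i := fun hc => h1 (by rw [← h.inv x, hc, h.inv])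
      set u2 : X → F := e F i + e F (σ x) with hu2
      have k2 : XX M σ u2 := by
        apply key'
        simp [hu2, e_apply, hsx, hne.symm, Ne.symm hsx]
      have k1 : XX M σ (v - u2) := by
        apply key'
        simp [hu2, e_apply, hsx, hne.symm, Ne.symm hsx, hv.1]
      have k3 := k1.add h k2 ?_ 1
      · convert k3 using 1
        ext y; simp
      · have : Bf σ (v - u2) u2 = v x := by
          nth_rewrite 2 [hu2]
          rw [Bf_add_right, Bf_e' h, Bf_e' h, h.inv]
          simp [hu2, e_apply, hv.2, hne, Ne.symm hsx', h1, Ne.symm (h.ne x)]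
        rw [this]; exact hx
  · exact key' v hv

/-- the link with the second vector of a plane -/
theorem link_other (h : Sig σ) {i x : X} (hb : ∀ x, XX M σ (e F x)) (hx : x ≠ i) (hx' : x ≠ σ i)
    (hl : XX M σ (e F i + e F x)) : XX M σ (e F i + e F (σ x)) := by
  have hsx : σ x ≠ i := fun hc => hx' (by rw [← hc, h.inv])
  have hsx' : σ x ≠ σ i := fun hc => hx (by rw [← h.inv x, hc, h.inv])
  have k1 : XX M σ ((1 : F) • e F x + (1 : F) • e F (σ x)) := by
    refine (hb x).span h (hb (σ x)) ?_ _ _
    rw [Bf_e h, e_apply]; simp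
  have k2 := hl.add h k1 ?_ 1
  · convert k2 using 1
    ext y
    simp only [Pi.add_apply, Pi.smul_apply, smul_eq_mul]
    have h2 : (2 : F) = 0 := CharTwo.two_eq_zero
    linear_combination (- e F x y) * h2
  · rw [Bf_add_right, Bf_smul_right, Bf_smul_right, Bf_e' h, Bf_e' h, h.inv]
    simp [e_apply, hx, hsx, h.ne x, Ne.symm (h.ne x)]

theorem full_of_half (h : Sig σ) {i : X} (hb : ∀ x, XX M σ (e F x))
    (hl : ∀ x, x ≠ i → x ≠ σ i → XX M σ (e F i + e F x) ∨ XX M σ (e F i + e F (σ x))) :
    FullX M σ := by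
  refine full_of_hub h (i := i) hb ?_
  intro x hx hx'
  rcases hl x hx hx' with h1 | h1
  · exact h1
  · have hsx : σ x ≠ i := fun hc => hx' (by rw [← hc, h.inv])
    have hsx' : σ x ≠ σ i := fun hc => hx (by rw [← h.inv x, hc, h.inv])
    have := link_other h hb hsx hsx' h1
    rwa [h.inv] at this

end gen

section generation

variable {F : Type*} [Field F] [CharP F 2] {X : Type*} [Fintype X] [DecidableEq X] {σ : X → X}
variable {M : Submonoid (Matrix X X F)}

/-- elements of `M` with inverse in `M`, symplectic, fixing the coordinates in `A` -/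
structure Good (M : Submonoid (Matrix X X F)) (σ : X → X) (A : X → Prop) (g g' : Matrix X X F) :
    Prop where
  mem : g ∈ M
  mem' : g' ∈ M
  inv : g' * g = 1
  sp : g * ad σ g = 1
  fix : ∀ x, A x → g *ᵥ e F x = e F x

theorem Good.mul (h : Sig σ) {A : X → Prop} {g g' k k' : Matrix X X F} (hg : Good M σ A g g')
    (hk : Good M σ A k k') : Good M σ A (g * k) (k' * g') := by
  refine ⟨M.mul_mem hg.mem hk.mem, M.mul_mem hk.mem' hg.mem', ?_, ?_, ?_⟩
  · calc k' * g' * (g * k) = k' * (g' * g) * k := by simp only [mul_assoc]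
      _ = 1 := by rw [hg.inv, mul_one, hk.inv]
  · rw [ad_mul h]
    calc g * k * (ad σ k * ad σ g) = g * (k * ad σ k) * ad σ g := by simp only [mul_assoc]
      _ = 1 := by rw [hk.sp, mul_one, hg.sp]
  · intro x hx
    rw [← mulVec_mulVec, hk.fix x hx, hg.fix x hx]

theorem Good.tv (h : Sig σ) (hM : FullX M σ) {A : X → Prop} (u : X → F) (c : F)
    (hu : ∀ x, A x → u (σ x) = 0) :
    Good M σ A (Tm (c • u) (Jv σ u)) (Tm (c • u) (Jv σ u)) := by
  refine ⟨hM u c, hM u c, Tm_sq' h u c, ?_, ?_⟩
  · rw [ad_Tm h, Tm_sq' h]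
  · intro x hx
    rw [Tm_mulVec, Bf_e' h, hu x hx]; simp

theorem move (h : Sig σ) (hM : FullX M σ) {A : X → Prop} {v w : X → F}
    (hv : ∀ x, A x → v (σ x) = 0) (hw : ∀ x, A x → w (σ x) = 0) (hB : Bf σ v w ≠ 0) :
    ∃ g g', Good M σ A g g' ∧ g *ᵥ v = w := by
  refine ⟨_, _, Good.tv h hM (A := A) (v + w) (1 / Bf σ v w) ?_, ?_⟩
  · intro x hx
    rw [Pi.add_apply, hv x hx, hw x hx, add_zero]
  · rw [Tm_mulVec, Bf_add_left, Bf_self h, zero_add, Bf_comm h w v, one_div,
      inv_mul_cancel₀ hB, one_smul]
    ext y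
    have h2 : (2 : F) = 0 := CharTwo.two_eq_zero
    simp only [Pi.add_apply]
    linear_combination (v y) * h2

open Classical in
/-- The symplectic group is generated by transvections. -/
theorem sp_gen (h : Sig σ) (hM : FullX M σ) :
    ∀ (N : ℕ) (g : Matrix X X F), g * ad σ g = 1 →
      (Finset.univ.filter fun x => ¬ (g *ᵥ e F x = e F x ∧ g *ᵥ e F (σ x) = e F (σ x))).card ≤ N →
      g ∈ M := by
  intro N
  induction N with
  | zero =>
    intro g _ hN
    have : g = 1 := by
      ext a b
      have hb : g *ᵥ e F b = e F b := by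
        by_contra hc
        have : b ∈ (Finset.univ.filter fun x =>
            ¬ (g *ᵥ e F x = e F x ∧ g *ᵥ e F (σ x) = e F (σ x))) := by
          simp only [Finset.mem_filter, Finset.mem_univ, true_and]
          exact fun h => hc h.1
        have := Finset.card_pos.2 ⟨b, this⟩
        omega
      have h1 := congrFun hb a
      rw [e_apply] at h1
      simpa [e, one_apply] using h1
    rw [this]; exact M.one_mem
  | succ N ih =>
    intro g hg hN
    have hg' : ad σ g * g = 1 := mul_eq_one_comm.1 hg
    by_cases hex : ∃ i, ¬ (g *ᵥ e F i = e F i ∧ g *ᵥ e F (σ i) = e F (σ i))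
    swap
    · apply ih g hg
      have : (Finset.univ.filter fun x =>
          ¬ (g *ᵥ e F x = e F x ∧ g *ᵥ e F (σ x) = e F (σ x))) = ∅ := by
        ext y
        simp only [Finset.mem_filter, Finset.mem_univ, true_and, Finset.notMem_empty, iff_false]
        intro hy
        exact hex ⟨y, hy⟩
      rw [this]; simp
    obtain ⟨i, hi⟩ := hex
    have hne : σ i ≠ i := h.ne i
    set A : X → Prop := fun x => g *ᵥ e F x = e F x ∧ g *ᵥ e F (σ x) = e F (σ x) with hA
    have hAi : ¬ A i := hi
    have hAs : ∀ x, A x → A (σ x) := by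
      intro x hx
      refine ⟨hx.2, ?_⟩
      rw [h.inv]; exact hx.1
    have hAsi : ¬ A (σ i) := fun hc => hAi (by have := hAs _ hc; rwa [h.inv] at this)
    have hx1 : ∀ x, A x → x ≠ i := fun x hx hc => hAi (hc ▸ hx)
    have hx2 : ∀ x, A x → x ≠ σ i := fun x hx hc => hAsi (hc ▸ hx)
    have hx3 : ∀ x, A x → σ x ≠ i := fun x hx hc => hx2 x hx (by rw [← hc, h.inv])
    have hx4 : ∀ x, A x → σ x ≠ σ i := fun x hx hc => hx1 x hx (by rw [← h.inv x, hc, h.inv])
    set v := g *ᵥ e F i with hv
    have hvA : ∀ x, A x → v (σ x) = 0 := by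
      intro x hx
      have h1 : Bf σ (g *ᵥ e F x) (g *ᵥ e F i) = Bf σ (e F x) (e F i) := Bf_mulVec h hg' _ _
      rw [hx.1, Bf_e h, Bf_e h, e_apply, if_neg (hx3 x hx)] at h1
      exact h1
    have hv0 : v ≠ 0 := by
      intro hc
      have h1 : Bf σ (g *ᵥ e F i) (g *ᵥ e F (σ i)) = Bf σ (e F i) (e F (σ i)) :=
        Bf_mulVec h hg' _ _
      rw [← hv, hc, Bf_e h, e_apply, if_pos rfl] at h1
      simp [Bf, Jv_zero] at h1
    have heA : ∀ x, A x → e F i (σ x) = 0 := fun x hx => by
      rw [e_apply, if_neg (hx3 x hx)]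
    have hesA : ∀ x, A x → e F (σ i) (σ x) = 0 := fun x hx => by
      rw [e_apply, if_neg (hx4 x hx)]
    -- first step
    obtain ⟨k, k', hk, hkv⟩ : ∃ k k', Good M σ A k k' ∧ k *ᵥ v = e F i := by
      have two : ∀ w : X → F, (∀ x, A x → w (σ x) = 0) → Bf σ v w ≠ 0 → w (σ i) ≠ 0 →
          ∃ k k', Good M σ A k k' ∧ k *ᵥ v = e F i := by
        intro w hw h1 h2
        obtain ⟨k, k', hk, hkv⟩ := move h hM hvA hw h1
        obtain ⟨m, m', hm, hmv⟩ := move h hM hw heA (by rw [Bf_e' h]; exact h2)
        exact ⟨_, _, hm.mul h hk, by rw [← mulVec_mulVec, hkv, hmv]⟩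
      by_cases c1 : v (σ i) = 0
      · by_cases c2 : v i = 0
        · obtain ⟨x, hx⟩ : ∃ x, v x ≠ 0 := by
            by_contra hc
            apply hv0
            ext x
            by_contra h2
            exact hc ⟨x, h2⟩
          have hxi : x ≠ i := fun hc => hx (by rw [hc, c2])
          have hxs : x ≠ σ i := fun hc => hx (by rw [hc, c1])
          have hsxi : σ x ≠ σ i := fun hc => hxi (by rw [← h.inv x, hc, h.inv])
          refine two (e F (σ x) + e F (σ i)) ?_ ?_ ?_
          · intro y hy
            rw [Pi.add_apply, hesA y hy, add_zero, e_apply, if_neg]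
            intro hc
            have : y = x := by rw [← h.inv y, hc, h.inv]
            rw [this] at hy
            apply hx
            have := hvA (σ x) (hAs x hy)
            rwa [h.inv] at this
          · rw [Bf_add_right, Bf_e' h, Bf_e' h, h.inv, h.inv, c2, add_zero]; exact hx
          · rw [Pi.add_apply, e_apply, e_apply, if_neg (Ne.symm hsxi)]; simp
        · refine two (e F (σ i)) hesA ?_ ?_
          · rw [Bf_e' h, h.inv]; exact c2
          · rw [e_apply]; simp
      · obtain ⟨k, k', hk, hkv⟩ := move h hM hvA heA (by rw [Bf_e' h]; exact c1)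
        exact ⟨k, k', hk, hkv⟩
    -- second step
    set w := k *ᵥ (g *ᵥ e F (σ i)) with hw
    have hk' : ad σ k * k = 1 := mul_eq_one_comm.1 hk.sp
    have hwi : w (σ i) = 1 := by
      have h1 : Bf σ (k *ᵥ v) (k *ᵥ (g *ᵥ e F (σ i))) = Bf σ v (g *ᵥ e F (σ i)) :=
        Bf_mulVec h hk' _ _
      have h2 : Bf σ (g *ᵥ e F i) (g *ᵥ e F (σ i)) = Bf σ (e F i) (e F (σ i)) :=
        Bf_mulVec h hg' _ _
      rw [hkv, ← hw, Bf_e h] at h1
      rw [h1, h2, Bf_e h, e_apply, if_pos rfl]
    have hwA : ∀ x, A x → w (σ x) = 0 := by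
      intro x hx
      have h1 : Bf σ (k *ᵥ (g *ᵥ e F x)) (k *ᵥ (g *ᵥ e F (σ i))) = Bf σ (e F x) (e F (σ i)) := by
        rw [Bf_mulVec h hk', Bf_mulVec h hg']
      rw [hx.1, hk.fix x hx, ← hw, Bf_e h, Bf_e h, e_apply, if_neg (hx4 x hx)] at h1
      exact h1
    obtain ⟨m, m', hm, hmi, hmw⟩ : ∃ m m', Good M σ A m m' ∧ m *ᵥ e F i = e F i ∧
        m *ᵥ w = e F (σ i) := by
      have one : ∀ w : X → F, (∀ x, A x → w (σ x) = 0) → w (σ i) = 1 → w i ≠ 0 →
          ∃ m m', Good M σ A m m' ∧ m *ᵥ e F i = e F i ∧ m *ᵥ w = e F (σ i) := by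
        intro w hwA hwi hw0
        refine ⟨_, _, Good.tv h hM (A := A) (w + e F (σ i)) (1 / w i) ?_, ?_, ?_⟩
        · intro x hx
          rw [Pi.add_apply, hwA x hx, hesA x hx, add_zero]
        · rw [Tm_mulVec, Bf_e' h, Pi.add_apply, hwi, e_apply, if_pos rfl,
            CharTwo.add_self_eq_zero, mul_zero, zero_smul, add_zero]
        · rw [Tm_mulVec, Bf_add_left, Bf_self h, zero_add, Bf_e h, h.inv, one_div,
            inv_mul_cancel₀ hw0, one_smul]
          ext y
          have h2 : (2 : F) = 0 := CharTwo.two_eq_zero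
          simp only [Pi.add_apply]
          linear_combination (w y) * h2
      by_cases hw0 : w i = 0
      · have g1 := Good.tv h hM (A := A) (e F i) (1 : F) heA
        have e1 : Tm ((1 : F) • e F i) (Jv σ (e F i)) *ᵥ w = w + e F i := by
          rw [Tm_mulVec, Bf_e h, hwi, one_mul, one_smul]
        have e2 : Tm ((1 : F) • e F i) (Jv σ (e F i)) *ᵥ e F i = e F i := by
          rw [Tm_mulVec, Bf_self h, mul_zero, zero_smul, add_zero]
        have o1 : ∀ x, A x → (w + e F i) (σ x) = 0 := by
          intro x hx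
          rw [Pi.add_apply, hwA x hx, heA x hx, add_zero]
        have o2 : (w + e F i) (σ i) = 1 := by
          rw [Pi.add_apply, hwi, e_apply, if_neg hne, add_zero]
        have o3 : (w + e F i) i ≠ 0 := by
          rw [Pi.add_apply, hw0, e_apply, if_pos rfl, zero_add]; exact one_ne_zero
        obtain ⟨m, m', hm, hmi, hmw⟩ := one (w + e F i) o1 o2 o3
        refine ⟨_, _, hm.mul h g1, ?_, ?_⟩
        · rw [← mulVec_mulVec, e2, hmi]
        · rw [← mulVec_mulVec, e1, hmw]
      · exact one w hwA hwi hw0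
    have hmk := hm.mul h hk
    have hfin : m * k * g ∈ M := by
      apply ih
      · rw [ad_mul h]
        calc m * k * g * (ad σ g * ad σ (m * k)) = m * k * (g * ad σ g) * ad σ (m * k) := by
              simp only [mul_assoc]
          _ = 1 := by rw [hg, mul_one, hmk.sp]
      · have hsub : (Finset.univ.filter fun x => ¬ ((m * k * g) *ᵥ e F x = e F x ∧
            (m * k * g) *ᵥ e F (σ x) = e F (σ x))) ⊆
            (Finset.univ.filter fun x => ¬ (g *ᵥ e F x = e F x ∧
              g *ᵥ e F (σ x) = e F (σ x))).erase i := by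
          intro y hy
          simp only [Finset.mem_filter, Finset.mem_univ, true_and] at hy
          have yi : y ≠ i := by
            rintro rfl
            apply hy
            constructor
            · rw [← mulVec_mulVec, ← mulVec_mulVec, ← hv, hkv, hmi]
            · rw [← mulVec_mulVec, ← mulVec_mulVec, ← hw, hmw]
          simp only [Finset.mem_erase, Finset.mem_filter, Finset.mem_univ, true_and]
          refine ⟨yi, ?_⟩
          intro hc
          apply hy
          constructor
          · rw [← mulVec_mulVec, hc.1, hmk.fix y hc]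
          · rw [← mulVec_mulVec, hc.2, hmk.fix (σ y) (hAs y hc)]
        have hmem : i ∈ (Finset.univ.filter fun x => ¬ (g *ᵥ e F x = e F x ∧
              g *ᵥ e F (σ x) = e F (σ x))) := by
          simp only [Finset.mem_filter, Finset.mem_univ, true_and]
          exact hi
        have := Finset.card_le_card hsub
        rw [Finset.card_erase_of_mem hmem] at this
        omega
    have := M.mul_mem hmk.mem' hfin
    rwa [← mul_assoc, hmk.inv, one_mul] at this

/-- all symplectic matrices -/
theorem sp_mem (h : Sig σ) (hM : FullX M σ) {g : Matrix X X F} (hg : g * ad σ g = 1) : g ∈ M := by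
  classical
  exact sp_gen h hM _ g hg le_rfl

end generation

end H47Sp
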