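import Mathlib
import Pool.Agent.H.MP_0335f8_al.SGen

set_option linter.unusedSectionVars false
set_option linter.unusedSimpArgs false

namespace H47Sp

open Matrix H47Inv

section gad

variable {F : Type*} [Field F] {X : Type*} [Fintype X] [DecidableEq X] {σ : X → X}

/-- conjugacy in the symplectic group -/
def SpConj (σ : X → X) (A B : Matrix X X F) : Prop :=
  ∃ g : Matrix X X F, g * ad σ g = 1 ∧ g * A = B * g

theorem SpConj.refl (h : Sig σ) (A : Matrix X X F) : SpConj σ A A :=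
  ⟨1, by rw [ad_one h, one_mul], by simp⟩

theorem SpConj.symm (h : Sig σ) {A B : Matrix X X F} (k : SpConj σ A B) : SpConj σ B A := by
  obtain ⟨g, hd, hg⟩ := k
  have h1 : ad σ g * g = 1 := mul_eq_one_comm.1 hd
  refine ⟨ad σ g, by rw [ad_ad h]; exact h1, ?_⟩
  calc ad σ g * B = ad σ g * (B * g) * ad σ g := by rw [mul_assoc, mul_assoc B, hd, mul_one]
    _ = ad σ g * (g * A) * ad σ g := by rw [hg]
    _ = A * ad σ g := by rw [← mul_assoc (ad σ g), h1, one_mul]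

theorem SpConj.trans (h : Sig σ) {A B C : Matrix X X F} (k : SpConj σ A B)
    (k' : SpConj σ B C) : SpConj σ A C := by
  obtain ⟨g, hd, hg⟩ := k
  obtain ⟨m, hm', hm⟩ := k'
  refine ⟨m * g, ?_, ?_⟩
  · rw [ad_mul h]
    calc m * g * (ad σ g * ad σ m) = m * (g * ad σ g) * ad σ m := by simp only [mul_assoc]
      _ = 1 := by rw [hd, mul_one, hm']
  · rw [mul_assoc, hg, ← mul_assoc, hm, mul_assoc]

/-- the local closure property, symplectic case -/
def LocalX (l : F) (σ : X → X) (α β π : Matrix X X F) (i : X) : Prop :=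
  ∀ M : Submonoid (Matrix X X F), InvClosed M → De l i (σ i) ∈ M →
    (∀ x ∈ M, α * x * α ∈ M) → (∀ x ∈ M, β * x * β ∈ M) →
    (∀ x ∈ M, Off x i (σ i) → π * x * π ∈ M) → FullX M σ

/-- a symplectic gadget -/
structure IsGad (l : F) (σ : X → X) (α β π : Matrix X X F) (i : X) : Prop where
  sig : Sig σ
  hk : ∃ k, k ≠ i ∧ k ≠ σ i
  hα : α * α = 1
  hβ : β * β = 1
  hπ : π * π = 1
  hαβ : α * β = β * α
  aα : ad σ α = α
  aβ : ad σ β = β
  aπ : ad σ π = π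
  αi : α *ᵥ e F i = e F (σ i)
  off : Off π i (σ i)
  nil : ∃ N : ℕ, (π * (De 0 i (σ i) * α)) ^ (2 ^ N) = 1
  c1 : SpConj σ α β
  c2 : SpConj σ α (α * β)
  c3 : SpConj σ α (π * De 0 i (σ i))
  LC : LocalX l σ α β π i

variable [CharP F 2] {l : F} {α β π : Matrix X X F} {i : X}

theorem IsGad.hij (h : IsGad l σ α β π i) : i ≠ σ i := (h.sig.ne i).symm

theorem IsGad.αj (h : IsGad l σ α β π i) : α *ᵥ e F (σ i) = e F i := by
  rw [← h.αi, mulVec_mulVec, h.hα, one_mulVec]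

theorem IsGad.iα (h : IsGad l σ α β π i) : e F i ᵥ* α = e F (σ i) := by
  have := Jv_vecMul_ad h.sig α (e F (σ i))
  rw [h.aα, h.αj, Jv_e' h.sig, Jv_e h.sig] at this
  exact this

theorem IsGad.jα (h : IsGad l σ α β π i) : e F (σ i) ᵥ* α = e F i := by
  rw [← h.iα, vecMul_vecMul, h.hα, vecMul_one]

theorem IsGad.offA (h : IsGad l σ α β π i) : Off (De 0 i (σ i) * α) i (σ i) := by
  have hij := h.hij
  constructor
  · rw [← mulVec_mulVec, h.αi, De0_e hij, Equiv.swap_apply_right]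
  · rw [← mulVec_mulVec, h.αj, De0_e hij, Equiv.swap_apply_left]
  · rw [← vecMul_vecMul, e_De0 hij, Equiv.swap_apply_left, h.jα]
  · rw [← vecMul_vecMul, e_De0 hij, Equiv.swap_apply_right, h.iα]

/-- the adjoint of a coordinate plane element -/
theorem ad_De (h : Sig σ) (l : F) (i : X) : ad σ (De l i (σ i)) = De l (σ i) i := by
  have := ad_Dm_eq h l (e F i) (e F (σ i))
  rw [Jv_e' h, Jv_e h] at this
  exact this

theorem De0_symm {x y : X} (hxy : x ≠ y) : De (0 : F) x y = De 0 y x := by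
  have h1 := De_sq (F := F) hxy
  have h2 : De (0 : F) x y * De 0 y x = 1 :=
    Dm_inv (by simp [e_dot_e]) (by simp [e_dot_e, hxy]) (by simp [e_dot_e, hxy.symm])
      (by simp [e_dot_e])
  calc De (0 : F) x y = De 0 x y * (De 0 x y * De 0 y x) := by rw [h2, mul_one]
    _ = De 0 y x := by rw [← mul_assoc, h1, one_mul]

/-- the product of the swaps of two pairs exchanged by the involution -/
theorem ad_swap (h : Sig σ) {x y : X} (hxy : x ≠ y) :
    ad σ (De (0 : F) x y) = De 0 (σ x) (σ y) := by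
  have hs : σ x ≠ σ y := fun hc => hxy (by rw [← h.inv x, hc, h.inv])
  ext a b
  have h1 : (ad σ (De (0 : F) x y)) a b = (De (0 : F) x y *ᵥ e F (σ a)) (σ b) := by
    simp [e, ad]
  have h2 : (De (0 : F) (σ x) (σ y)) a b = (De (0 : F) (σ x) (σ y) *ᵥ e F b) a := by simp [e]
  rw [h1, h2, De0_e hxy, De0_e hs, e_apply, e_apply]
  have key : (σ b = Equiv.swap x y (σ a)) ↔ (a = Equiv.swap (σ x) (σ y) b) := by
    have h3 : σ (Equiv.swap x y (σ a)) = Equiv.swap (σ x) (σ y) a := by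
      by_cases c1 : a = σ x
      · rw [c1, h.inv, Equiv.swap_apply_left, Equiv.swap_apply_left]
      · by_cases c2 : a = σ y
        · rw [c2, h.inv, Equiv.swap_apply_right, Equiv.swap_apply_right]
        · have d1 : σ a ≠ x := fun hc => c1 (by rw [← hc, h.inv])
          have d2 : σ a ≠ y := fun hc => c2 (by rw [← hc, h.inv])
          rw [Equiv.swap_apply_of_ne_of_ne d1 d2, Equiv.swap_apply_of_ne_of_ne c1 c2, h.inv]
    constructor
    · intro hc
      have : b = Equiv.swap (σ x) (σ y) a := by rw [← h3, ← hc, h.inv]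
      rw [this, Equiv.swap_apply_self]
    · intro hc
      have : b = Equiv.swap (σ x) (σ y) a := by
        conv_rhs => rw [hc]
        rw [Equiv.swap_apply_self]
      rw [this, ← h3, h.inv]
  simp only [key]

end gad

section z2gad

variable {F : Type*} [Field F] [CharP F 2] {n : ℕ} {σ : Fin n → Fin n}

theorem SpConj_lf {A B g : Matrix (Fin n) (Fin n) (ZMod 2)}
    (h : g * ad σ g = 1 ∧ g * A = B * g) : SpConj σ (lf F A) (lf F B) :=
  ⟨lf F g, by rw [ad_lf, ← lf_mul, h.1, lf_one], by rw [← lf_mul, ← lf_mul, h.2]⟩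

/-- the decidable part of a symplectic gadget over the prime field -/
structure Z2S (σ : Fin n → Fin n) (α β π g1 g2 g3 c1 c2 c4 : Matrix (Fin n) (Fin n) (ZMod 2))
    (i : Fin n) : Prop where
  sinv : ∀ x, σ (σ x) = x
  sne : ∀ x, σ x ≠ x
  hk : ∃ k, k ≠ i ∧ k ≠ σ i
  hα : α * α = 1
  hβ : β * β = 1
  hπ : π * π = 1
  hαβ : α * β = β * α
  aα : ad σ α = α
  aβ : ad σ β = β
  aπ : ad σ π = π
  αi : α *ᵥ e2 i = e2 (σ i)
  πi : π *ᵥ e2 i = e2 i
  πj : π *ᵥ e2 (σ i) = e2 (σ i)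
  iπ : e2 i ᵥ* π = e2 i
  jπ : e2 (σ i) ᵥ* π = e2 (σ i)
  n1 : π * (sw i (σ i) * α) = c1
  n2 : c1 * c1 = c2
  n3 : c2 * c2 = c4
  n4 : c4 * c4 = 1
  hg1 : g1 * ad σ g1 = 1 ∧ g1 * α = β * g1
  hg2 : g2 * ad σ g2 = 1 ∧ g2 * α = (α * β) * g2
  hg3 : g3 * ad σ g3 = 1 ∧ g3 * α = (π * sw i (σ i)) * g3

theorem gad_of_z2
    {α β π g1 g2 g3 c1 c2 c4 : Matrix (Fin n) (Fin n) (ZMod 2)} {i : Fin n}
    (hd : Z2S σ α β π g1 g2 g3 c1 c2 c4 i) {l : F}
    (hl : ∀ a : F, a ≠ 0 → ∃ k : ℕ, a = l ^ k) (hl0 : l ≠ 0) (hsq : ∀ a : F, ∃ b, b * b = a)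
    (hLC : ∀ M : Submonoid (Matrix (Fin n) (Fin n) F), Ctx l σ α β π i M →
      (∀ x, XZ M σ (e2 x)) ∧
        (∀ x, x ≠ i → x ≠ σ i → XZ M σ (e2 i + e2 x) ∨ XZ M σ (e2 i + e2 (σ x)))) :
    IsGad l σ (lf F α) (lf F β) (lf F π) i where
  sig := ⟨hd.sinv, hd.sne⟩
  hk := hd.hk
  hα := lf_sq hd.hα
  hβ := lf_sq hd.hβ
  hπ := lf_sq hd.hπ
  hαβ := by rw [← lf_mul, ← lf_mul, hd.hαβ]
  aα := by rw [ad_lf, hd.aα]
  aβ := by rw [ad_lf, hd.aβ]
  aπ := by rw [ad_lf, hd.aπ]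
  αi := by rw [← lv_e2, ← lv_e2, lf_mulVec, hd.αi]
  off := ⟨by rw [← lv_e2, lf_mulVec, hd.πi], by rw [← lv_e2, lf_mulVec, hd.πj],
    by rw [← lv_e2, lf_vecMul, hd.iπ], by rw [← lv_e2, lf_vecMul, hd.jπ]⟩
  nil := by
    refine ⟨3, ?_⟩
    rw [← lf_sw (Ne.symm (hd.sne i)), ← lf_mul, ← lf_mul, hd.n1, ← lf_pow]
    have : c1 ^ (2 ^ 3) = 1 := by
      have e1 : c1 ^ (2 ^ 3) = ((c1 ^ 2) ^ 2) ^ 2 := by rw [← pow_mul, ← pow_mul]; norm_num
      rw [e1, pow_two c1, hd.n2, pow_two c2, hd.n3, pow_two c4, hd.n4]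
    rw [this, lf_one]
  c1 := SpConj_lf hd.hg1
  c2 := by rw [← lf_mul]; exact SpConj_lf hd.hg2
  c3 := by rw [← lf_sw (Ne.symm (hd.sne i)), ← lf_mul]; exact SpConj_lf hd.hg3
  LC := by
    intro M hinv hD hα hβ hπ
    have sig : Sig σ := ⟨hd.sinv, hd.sne⟩
    have ctx : Ctx l σ α β π i M := ⟨sig, hinv, hl, hl0, hsq, hD, hd.hα, hd.hβ, hd.hπ,
      hd.aα, hd.aβ, hd.aπ, hα, hβ, hπ⟩
    obtain ⟨k1, k2⟩ := hLC M ctx
    refine full_of_half sig (i := i) ?_ ?_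
    · intro x
      have := k1 x
      unfold XZ at this
      rwa [lv_e2] at this
    · intro x hx hx'
      have := k2 x hx hx'
      unfold XZ at this
      rwa [lv_add, lv_add, lv_e2, lv_e2, lv_e2] at this

end z2gad

end H47Sp
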