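import Mathlib
import Pool.Agent.H.MP_0335f8_al.SGad

set_option linter.unusedSectionVars false
set_option maxRecDepth 20000

namespace H47Sp

open Matrix H47Inv

section base

/-- data -/
def sb4 : Fin 8 → Fin 8 := ![4, 5, 6, 7, 0, 1, 2, 3]

/-- data -/
def alb4 : Matrix (Fin 8) (Fin 8) (ZMod 2) :=
  !![0, 0, 0, 0, 1, 0, 0, 0; 0, 1, 0, 0, 0, 1, 0, 0; 0, 0, 1, 0, 0, 0, 1, 0; 0, 0, 0, 1, 0, 0, 0, 1; 1, 0, 0, 0, 0, 0, 0, 0; 0, 0, 0, 0, 0, 1, 0, 0; 0, 0, 0, 0, 0, 0, 1, 0; 0, 0, 0, 0, 0, 0, 0, 1]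

/-- data -/
def beb4 : Matrix (Fin 8) (Fin 8) (ZMod 2) :=
  !![0, 0, 0, 1, 0, 0, 0, 0; 0, 0, 1, 0, 0, 1, 0, 0; 0, 1, 0, 0, 0, 0, 1, 0; 1, 0, 0, 0, 0, 0, 0, 0; 0, 0, 0, 1, 0, 0, 0, 1; 0, 0, 0, 0, 0, 0, 1, 0; 0, 0, 0, 0, 0, 1, 0, 0; 1, 0, 0, 0, 1, 0, 0, 0]

/-- data -/
def pib4 : Matrix (Fin 8) (Fin 8) (ZMod 2) :=
  !![1, 0, 0, 0, 0, 0, 0, 0; 0, 0, 0, 1, 0, 1, 1, 1; 0, 1, 1, 1, 0, 1, 0, 1; 0, 1, 0, 0, 0, 1, 1, 1; 0, 0, 0, 0, 1, 0, 0, 0; 0, 0, 0, 0, 0, 0, 1, 1; 0, 0, 0, 0, 0, 0, 1, 0; 0, 0, 0, 0, 0, 1, 1, 0]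

/-- data -/
def gab4 : Matrix (Fin 8) (Fin 8) (ZMod 2) :=
  !![1, 0, 1, 0, 0, 0, 0, 0; 0, 0, 0, 1, 0, 0, 0, 0; 1, 1, 1, 0, 0, 0, 0, 0; 0, 0, 1, 0, 1, 0, 1, 0; 1, 1, 0, 0, 0, 1, 1, 0; 1, 1, 1, 1, 0, 0, 0, 1; 0, 1, 1, 1, 1, 1, 1, 0; 0, 1, 1, 0, 0, 0, 0, 0]

/-- data -/
def gbb4 : Matrix (Fin 8) (Fin 8) (ZMod 2) :=
  !![1, 1, 0, 0, 0, 1, 1, 0; 1, 0, 0, 1, 1, 1, 1, 0; 0, 0, 0, 1, 0, 0, 0, 0; 0, 0, 1, 0, 1, 0, 1, 0; 1, 0, 1, 0, 0, 0, 0, 0; 1, 1, 1, 1, 0, 0, 0, 0; 0, 1, 1, 1, 1, 1, 1, 1; 0, 1, 1, 0, 0, 0, 0, 0]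

/-- data -/
def gcb4 : Matrix (Fin 8) (Fin 8) (ZMod 2) :=
  !![0, 0, 1, 0, 0, 0, 1, 0; 0, 0, 0, 0, 1, 0, 0, 1; 0, 1, 0, 0, 1, 0, 0, 1; 0, 0, 0, 0, 1, 0, 0, 0; 0, 0, 1, 0, 0, 0, 0, 0; 0, 0, 0, 1, 1, 1, 0, 0; 0, 0, 0, 0, 0, 1, 0, 0; 1, 0, 0, 1, 0, 0, 0, 1]

/-- data -/
def cub4 : Matrix (Fin 8) (Fin 8) (ZMod 2) :=
  !![1, 0, 0, 0, 0, 0, 0, 0; 0, 0, 0, 1, 0, 1, 1, 0; 0, 1, 1, 1, 0, 0, 1, 0; 0, 1, 0, 0, 0, 0, 1, 1; 0, 0, 0, 0, 1, 0, 0, 0; 0, 0, 0, 0, 0, 0, 1, 1; 0, 0, 0, 0, 0, 0, 1, 0; 0, 0, 0, 0, 0, 1, 1, 0]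

/-- data -/
def cvb4 : Matrix (Fin 8) (Fin 8) (ZMod 2) :=
  !![1, 0, 0, 0, 0, 0, 0, 0; 0, 1, 0, 0, 0, 0, 1, 0; 0, 0, 1, 0, 0, 1, 0, 1; 0, 0, 0, 1, 0, 0, 1, 0; 0, 0, 0, 0, 1, 0, 0, 0; 0, 0, 0, 0, 0, 1, 0, 0; 0, 0, 0, 0, 0, 0, 1, 0; 0, 0, 0, 0, 0, 0, 0, 1]

/-- data -/
def cwb4 : Matrix (Fin 8) (Fin 8) (ZMod 2) :=
  !![1, 0, 0, 0, 0, 0, 0, 0; 0, 1, 0, 0, 0, 0, 0, 0; 0, 0, 1, 0, 0, 0, 0, 0; 0, 0, 0, 1, 0, 0, 0, 0; 0, 0, 0, 0, 1, 0, 0, 0; 0, 0, 0, 0, 0, 1, 0, 0; 0, 0, 0, 0, 0, 0, 1, 0; 0, 0, 0, 0, 0, 0, 0, 1]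

theorem datab4 : Z2S sb4 alb4 beb4 pib4 gab4 gbb4 gcb4 cub4 cvb4 cwb4 0 where
  sinv := by decide +kernel
  sne := by decide +kernel
  hk := by decide +kernel
  hα := by decide +kernel
  hβ := by decide +kernel
  hπ := by decide +kernel
  hαβ := by decide +kernel
  aα := by decide +kernel
  aβ := by decide +kernel
  aπ := by decide +kernel
  αi := by decide +kernel
  πi := by decide +kernel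
  πj := by decide +kernel
  iπ := by decide +kernel
  jπ := by decide +kernel
  n1 := by decide +kernel
  n2 := by decide +kernel
  n3 := by decide +kernel
  n4 := by decide +kernel
  hg1 := by decide +kernel
  hg2 := by decide +kernel
  hg3 := by decide +kernel

theorem lcb4 {F : Type*} [Field F] [CharP F 2] {l : F} (M : Submonoid (Matrix (Fin 8) (Fin 8) F))
    (c : Ctx l sb4 alb4 beb4 pib4 0 M) :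
    (∀ x, XZ M sb4 (e2 x)) ∧
      (∀ x, x ≠ 0 → x ≠ sb4 0 → XZ M sb4 (e2 0 + e2 x) ∨ XZ M sb4 (e2 0 + e2 (sb4 x))) := by
  have d0 : DZ l M sb4 ![1, 0, 0, 0, 0, 0, 0, 0] ![0, 0, 0, 0, 1, 0, 0, 0] :=
    DZ.init c (by decide +kernel)
  have d1 : DZ l M sb4 ![0, 0, 0, 1, 0, 0, 0, 1] ![0, 0, 0, 0, 0, 0, 0, 1] :=
    DZ.be c d0 (by decide +kernel)
  have d2 : DZ l M sb4 ![0, 0, 0, 1, 0, 1, 0, 0] ![0, 1, 1, 1, 0, 1, 0, 0] :=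
    DZ.pi c d1 (by decide +kernel)
  have d3 : DZ l M sb4 ![1, 1, 0, 0, 1, 0, 1, 0] ![1, 0, 1, 0, 1, 0, 1, 0] :=
    DZ.be c d2 (by decide +kernel)
  have d4 : DZ l M sb4 ![0, 1, 0, 1, 0, 1, 0, 0] ![0, 0, 1, 1, 0, 1, 0, 0] :=
    DZ.al c d2 (by decide +kernel)
  have d5 : DZ l M sb4 ![0, 0, 1, 0, 0, 0, 0, 1] ![0, 0, 1, 1, 0, 0, 0, 1] :=
    DZ.pi c d4 (by decide +kernel)
  have d6 : DZ l M sb4 ![0, 1, 0, 0, 1, 0, 0, 0] ![1, 1, 0, 0, 0, 0, 0, 0] :=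
    DZ.be c d5 (by decide +kernel)
  have d7 : DZ l M sb4 ![0, 0, 0, 0, 1, 0, 0, 0] ![1, 0, 0, 0, 0, 0, 0, 0] :=
    DZ.symm c d0
  have d8 : DZ l M sb4 ![0, 0, 0, 0, 0, 0, 0, 1] ![0, 0, 0, 1, 0, 0, 0, 1] :=
    DZ.be c d7 (by decide +kernel)
  have d9 : DZ l M sb4 ![0, 1, 1, 1, 0, 1, 0, 0] ![0, 0, 0, 1, 0, 1, 0, 0] :=
    DZ.pi c d8 (by decide +kernel)
  have r10 : EZ l M sb4 ![0, 1, 0, 1, 0, 1, 0, 0] ![0, 0, 1, 0, 0, 0, 0, 0] 1 0 :=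
    (DZ.DD c d4 d9 1 1 (by decide +kernel)).1
  have r11 : EZ l M sb4 ![0, 1, 0, 0, 1, 0, 0, 0] ![0, 0, 1, 0, 0, 0, 0, 0] 1 0 :=
    (DZ.W c d6 r10 (by decide +kernel)).1
  have r12 : EZ l M sb4 ![1, 0, 0, 0, 0, 0, 0, 0] ![0, 0, 1, 0, 0, 0, 0, 0] 1 0 :=
    (DZ.W c d0 r11 (by decide +kernel)).1
  have r13 : EZ l M sb4 ![1, 1, 0, 1, 0, 1, 0, 0] ![0, 0, 1, 0, 0, 0, 0, 0] 0 0 :=
    EZ.add c r12 r10 (by decide +kernel)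
  have r14 : EZ l M sb4 ![1, 1, 0, 0, 0, 0, 0, 0] ![0, 0, 1, 0, 0, 0, 0, 0] 1 0 :=
    (DZ.W c d6 r10 (by decide +kernel)).2
  have r15 : EZ l M sb4 ![0, 0, 0, 1, 0, 1, 0, 0] ![0, 0, 1, 0, 0, 0, 0, 0] 1 0 :=
    EZ.al c r10 (by decide +kernel)
  have r16 : EZ l M sb4 ![1, 1, 0, 1, 0, 1, 0, 0] ![0, 0, 1, 0, 0, 0, 0, 0] 0 1 :=
    EZ.add c r14 r15 (by decide +kernel)
  have x17 : XZ M sb4 ![0, 0, 1, 0, 0, 0, 0, 0] :=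
    EZ.conf c r13 r16 (by decide +kernel)
  have x18 : XZ M sb4 ![1, 1, 0, 0, 1, 0, 1, 0] :=
    (DZ.XD c d3 x17 (by decide +kernel)).1
  have x19 : XZ M sb4 ![1, 0, 0, 0, 0, 0, 0, 0] :=
    (DZ.XD c d0 x18 (by decide +kernel)).1
  have d20 : DZ l M sb4 ![1, 1, 1, 0, 1, 0, 1, 0] ![1, 0, 0, 0, 1, 0, 1, 0] :=
    DZ.be c d4 (by decide +kernel)
  have d21 : DZ l M sb4 ![1, 0, 1, 0, 1, 0, 1, 0] ![1, 1, 0, 0, 1, 0, 1, 0] :=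
    DZ.be c d9 (by decide +kernel)
  have r22 : EZ l M sb4 ![1, 1, 1, 0, 1, 0, 1, 0] ![0, 1, 0, 0, 0, 0, 0, 0] 1 0 :=
    (DZ.DD c d20 d21 1 1 (by decide +kernel)).1
  have r23 : EZ l M sb4 ![0, 0, 1, 0, 0, 0, 0, 1] ![0, 1, 0, 0, 0, 0, 0, 0] 1 0 :=
    (DZ.W c d5 r22 (by decide +kernel)).1
  have r24 : EZ l M sb4 ![0, 0, 0, 1, 0, 0, 0, 1] ![0, 1, 0, 0, 0, 0, 0, 0] 1 0 :=
    (DZ.W c d1 r23 (by decide +kernel)).1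
  have r25 : EZ l M sb4 ![1, 1, 1, 1, 1, 0, 1, 1] ![0, 1, 0, 0, 0, 0, 0, 0] 0 0 :=
    EZ.add c r24 r22 (by decide +kernel)
  have r26 : EZ l M sb4 ![0, 0, 1, 1, 0, 0, 0, 1] ![0, 1, 0, 0, 0, 0, 0, 0] 1 0 :=
    (DZ.W c d5 r22 (by decide +kernel)).2
  have r27 : EZ l M sb4 ![0, 1, 0, 0, 1, 0, 0, 0] ![0, 1, 0, 0, 0, 0, 0, 0] 1 0 :=
    (DZ.DD c d6 d7 1 1 (by decide +kernel)).1
  have r28 : EZ l M sb4 ![1, 1, 0, 0, 1, 0, 1, 0] ![0, 1, 0, 0, 0, 0, 0, 0] 1 0 :=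
    (DZ.W c d3 r27 (by decide +kernel)).1
  have r29 : EZ l M sb4 ![1, 1, 1, 1, 1, 0, 1, 1] ![0, 1, 0, 0, 0, 0, 0, 0] 0 1 :=
    EZ.add c r26 r28 (by decide +kernel)
  have x30 : XZ M sb4 ![0, 1, 0, 0, 0, 0, 0, 0] :=
    EZ.conf c r25 r29 (by decide +kernel)
  have r31 : EZ l M sb4 ![1, 1, 0, 0, 0, 0, 0, 0] ![0, 1, 0, 0, 0, 0, 0, 0] 1 0 :=
    (DZ.DD c d6 d7 1 1 (by decide +kernel)).2
  have r32 : EZ l M sb4 ![1, 0, 0, 0, 1, 0, 0, 0] ![0, 1, 0, 0, 0, 0, 0, 0] 0 1 :=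
    EZ.add c r31 r27 (by decide +kernel)
  have r33 : EZ l M sb4 ![0, 1, 1, 0, 0, 0, 1, 0] ![0, 1, 0, 0, 0, 0, 0, 0] 1 1 :=
    EZ.add c r32 r22 (by decide +kernel)
  have r34 : EZ l M sb4 ![0, 1, 0, 0, 0, 1, 1, 1] ![0, 0, 1, 1, 0, 0, 0, 0] 1 1 :=
    EZ.pi c r33 (by decide +kernel)
  have x35 : XZ M sb4 ![0, 0, 0, 1, 0, 0, 0, 0] :=
    XZ.XE c x17 r34 (by decide +kernel)
  have x36 : XZ M sb4 ![0, 0, 0, 0, 1, 0, 0, 0] :=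
    (DZ.XD c d0 x18 (by decide +kernel)).2.1
  have x37 : XZ M sb4 ![1, 0, 1, 0, 1, 0, 1, 0] :=
    (DZ.XD c d3 x17 (by decide +kernel)).2.1
  have r38 : EZ l M sb4 ![1, 1, 0, 0, 1, 0, 1, 0] ![1, 0, 1, 1, 1, 1, 1, 0] 1 0 :=
    (DZ.DD c d3 d9 1 1 (by decide +kernel)).1
  have r39 : EZ l M sb4 ![0, 0, 1, 0, 0, 0, 0, 1] ![1, 0, 1, 1, 1, 1, 1, 0] 1 0 :=
    (DZ.W c d5 r38 (by decide +kernel)).1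
  have r40 : EZ l M sb4 ![0, 0, 0, 1, 0, 1, 0, 0] ![1, 0, 1, 1, 1, 1, 1, 0] 1 0 :=
    EZ.be c r38 (by decide +kernel)
  have r41 : EZ l M sb4 ![0, 0, 1, 1, 0, 1, 0, 1] ![1, 0, 1, 1, 1, 1, 1, 0] 0 1 :=
    EZ.add c r39 r40 (by decide +kernel)
  have r42 : EZ l M sb4 ![0, 0, 1, 1, 0, 0, 0, 1] ![1, 0, 1, 1, 1, 1, 1, 0] 1 0 :=
    (DZ.W c d5 r38 (by decide +kernel)).2
  have r43 : EZ l M sb4 ![1, 1, 1, 1, 1, 0, 1, 1] ![1, 0, 1, 1, 1, 1, 1, 0] 0 1 :=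
    EZ.add c r42 r38 (by decide +kernel)
  have r44 : EZ l M sb4 ![1, 1, 0, 0, 1, 1, 1, 0] ![1, 0, 1, 1, 1, 1, 1, 0] 0 0 :=
    EZ.add c r41 r43 (by decide +kernel)
  have r45 : EZ l M sb4 ![1, 0, 1, 1, 1, 1, 1, 0] ![1, 1, 0, 0, 1, 1, 1, 0] 0 0 :=
    EZ.flip c r44
  have r46 : EZ l M sb4 ![1, 1, 0, 1, 1, 1, 1, 0] ![1, 0, 1, 0, 1, 1, 1, 0] 0 0 :=
    EZ.al c r45 (by decide +kernel)
  have x47 : XZ M sb4 ![0, 0, 0, 0, 0, 1, 0, 0] :=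
    XZ.XE c x37 r46 (by decide +kernel)
  have r48 : EZ l M sb4 ![0, 1, 0, 1, 0, 1, 0, 0] ![0, 0, 1, 1, 0, 0, 0, 0] 1 0 :=
    EZ.pi c r23 (by decide +kernel)
  have r49 : EZ l M sb4 ![1, 1, 1, 0, 1, 0, 1, 0] ![1, 1, 0, 0, 1, 0, 0, 0] 1 0 :=
    EZ.be c r48 (by decide +kernel)
  have x50 : XZ M sb4 ![0, 0, 0, 0, 0, 0, 1, 0] :=
    XZ.XE c x18 r49 (by decide +kernel)
  have x51 : XZ M sb4 ![0, 0, 0, 1, 0, 1, 0, 0] :=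
    XZ.be c x18 (by decide +kernel)
  have x52 : XZ M sb4 ![0, 0, 0, 0, 0, 0, 0, 1] :=
    (DZ.XD c d1 x51 (by decide +kernel)).2.1
  have x53 : XZ M sb4 ![1, 1, 0, 0, 0, 0, 0, 0] :=
    (DZ.XD c d6 x18 (by decide +kernel)).2.1
  have x54 : XZ M sb4 ![1, 0, 1, 0, 0, 0, 0, 0] :=
    XZ.XE c x19 r11 (by decide +kernel)
  have r55 : EZ l M sb4 ![0, 1, 0, 0, 1, 0, 0, 0] ![0, 0, 1, 1, 0, 0, 0, 0] 1 0 :=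
    (DZ.W c d6 r48 (by decide +kernel)).1
  have r56 : EZ l M sb4 ![1, 0, 0, 0, 0, 0, 0, 0] ![0, 0, 1, 1, 0, 0, 0, 0] 1 0 :=
    (DZ.W c d0 r55 (by decide +kernel)).1
  have r57 : EZ l M sb4 ![0, 0, 1, 1, 0, 1, 0, 0] ![0, 0, 1, 1, 0, 0, 0, 0] 1 0 :=
    EZ.pi c r26 (by decide +kernel)
  have r58 : EZ l M sb4 ![0, 0, 0, 0, 0, 1, 0, 0] ![0, 0, 1, 1, 0, 0, 0, 0] 1 0 :=
    EZ.mod r57 c.sig (by decide +kernel)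
  have r59 : EZ l M sb4 ![1, 0, 0, 0, 0, 1, 0, 0] ![0, 0, 1, 1, 0, 0, 0, 0] 0 0 :=
    EZ.add c r56 r58 (by decide +kernel)
  have r60 : EZ l M sb4 ![0, 0, 1, 1, 0, 0, 0, 0] ![1, 0, 0, 0, 0, 1, 0, 0] 0 0 :=
    EZ.flip c r59
  have r61 : EZ l M sb4 ![0, 0, 0, 1, 0, 0, 0, 1] ![1, 0, 0, 0, 0, 1, 0, 0] 1 0 :=
    (DZ.W c d1 r60 (by decide +kernel)).1
  have x62 : XZ M sb4 ![1, 0, 0, 1, 0, 0, 0, 0] :=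
    XZ.XE c x51 r61 (by decide +kernel)
  constructor
  · intro x
    fin_cases x
    · exact XZ.cast x19 (by decide +kernel)
    · exact XZ.cast x30 (by decide +kernel)
    · exact XZ.cast x17 (by decide +kernel)
    · exact XZ.cast x35 (by decide +kernel)
    · exact XZ.cast x36 (by decide +kernel)
    · exact XZ.cast x47 (by decide +kernel)
    · exact XZ.cast x50 (by decide +kernel)
    · exact XZ.cast x52 (by decide +kernel)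
  · intro x hx hx'
    fin_cases x
    · exact absurd rfl hx
    · exact Or.inl (XZ.cast x53 (by decide +kernel))
    · exact Or.inl (XZ.cast x54 (by decide +kernel))
    · exact Or.inl (XZ.cast x62 (by decide +kernel))
    · exact absurd rfl hx'
    · exact Or.inr (XZ.cast x53 (by decide +kernel))
    · exact Or.inr (XZ.cast x54 (by decide +kernel))
    · exact Or.inr (XZ.cast x62 (by decide +kernel))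

/-- the symplectic gadget with 4 planes -/
theorem gadb4 {F : Type*} [Field F] [CharP F 2] {l : F}
    (hl : ∀ a : F, a ≠ 0 → ∃ k : ℕ, a = l ^ k) (hl0 : l ≠ 0) (hsq : ∀ a : F, ∃ b, b * b = a) :
    IsGad l sb4 (lf F alb4) (lf F beb4) (lf F pib4) 0 :=
  gad_of_z2 datab4 hl hl0 hsq (fun M c => lcb4 M c)

end base

end H47Sp
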