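import Mathlib
import Pool.Agent.H.MP_0335f8_al.SGad

set_option linter.unusedSectionVars false
set_option maxRecDepth 20000

namespace H47Sp

open Matrix H47Inv

section base

/-- data -/
def sb5 : Fin 10 → Fin 10 := ![5, 6, 7, 8, 9, 0, 1, 2, 3, 4]

/-- data -/
def alb5 : Matrix (Fin 10) (Fin 10) (ZMod 2) :=
  !![0, 0, 0, 0, 0, 1, 0, 0, 0, 0; 0, 1, 0, 0, 0, 0, 1, 0, 0, 0; 0, 0, 1, 0, 0, 0, 0, 1, 0, 0; 0, 0, 0, 1, 0, 0, 0, 0, 1, 0; 0, 0, 0, 0, 1, 0, 0, 0, 0, 1; 1, 0, 0, 0, 0, 0, 0, 0, 0, 0; 0, 0, 0, 0, 0, 0, 1, 0, 0, 0; 0, 0, 0, 0, 0, 0, 0, 1, 0, 0; 0, 0, 0, 0, 0, 0, 0, 0, 1, 0; 0, 0, 0, 0, 0, 0, 0, 0, 0, 1]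

/-- data -/
def beb5 : Matrix (Fin 10) (Fin 10) (ZMod 2) :=
  !![0, 1, 0, 0, 0, 0, 1, 0, 1, 1; 0, 0, 0, 0, 0, 1, 0, 0, 1, 1; 0, 0, 1, 0, 0, 0, 0, 0, 1, 1; 1, 0, 0, 1, 0, 1, 1, 1, 0, 0; 1, 0, 0, 0, 1, 1, 1, 1, 0, 1; 0, 1, 0, 0, 0, 0, 0, 0, 1, 1; 1, 0, 0, 0, 0, 1, 0, 0, 0, 0; 0, 0, 0, 0, 0, 0, 0, 1, 0, 0; 0, 0, 0, 0, 0, 0, 0, 0, 1, 0; 0, 0, 0, 0, 0, 0, 0, 0, 0, 1]

/-- data -/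
def pib5 : Matrix (Fin 10) (Fin 10) (ZMod 2) :=
  !![1, 0, 0, 0, 0, 0, 0, 0, 0, 0; 0, 1, 0, 0, 1, 0, 0, 1, 1, 1; 0, 0, 1, 0, 0, 0, 1, 0, 1, 0; 0, 1, 1, 0, 0, 0, 1, 1, 0, 0; 0, 0, 1, 0, 0, 0, 1, 0, 0, 0; 0, 0, 0, 0, 0, 1, 0, 0, 0, 0; 0, 0, 1, 0, 1, 0, 1, 0, 1, 0; 0, 1, 0, 1, 0, 0, 0, 1, 1, 1; 0, 0, 1, 0, 1, 0, 0, 0, 0, 0; 0, 1, 0, 1, 0, 0, 1, 0, 0, 0]

/-- data -/
def gab5 : Matrix (Fin 10) (Fin 10) (ZMod 2) :=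
  !![1, 0, 0, 1, 1, 1, 0, 0, 1, 0; 1, 0, 0, 0, 1, 0, 0, 0, 1, 0; 0, 0, 1, 1, 1, 1, 0, 0, 0, 0; 1, 1, 1, 1, 0, 0, 1, 1, 1, 1; 0, 0, 0, 0, 1, 0, 1, 0, 0, 0; 1, 0, 0, 0, 1, 0, 0, 1, 0, 0; 1, 0, 0, 1, 0, 0, 0, 1, 0, 0; 0, 0, 0, 0, 0, 0, 1, 1, 0, 0; 0, 0, 0, 0, 0, 0, 1, 0, 0, 0; 1, 0, 0, 0, 0, 1, 1, 1, 1, 1]

/-- data -/
def gbb5 : Matrix (Fin 10) (Fin 10) (ZMod 2) :=
  !![0, 1, 0, 0, 1, 0, 0, 1, 1, 0; 0, 1, 0, 0, 1, 0, 0, 1, 0, 0; 1, 1, 0, 0, 1, 0, 0, 1, 0, 0; 0, 0, 0, 0, 1, 0, 0, 0, 0, 0; 0, 1, 1, 0, 0, 0, 1, 1, 0, 0; 1, 0, 1, 1, 1, 0, 1, 0, 1, 0; 0, 1, 1, 1, 0, 1, 0, 0, 1, 0; 1, 0, 0, 0, 0, 1, 0, 0, 1, 0; 0, 0, 0, 0, 0, 0, 1, 1, 0, 1; 0, 0, 0, 0, 0, 0, 0, 1, 1, 0]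

/-- data -/
def gcb5 : Matrix (Fin 10) (Fin 10) (ZMod 2) :=
  !![1, 1, 1, 1, 1, 0, 0, 1, 0, 0; 0, 0, 1, 0, 1, 0, 1, 0, 0, 0; 0, 1, 1, 1, 0, 1, 0, 0, 1, 1; 0, 0, 0, 1, 1, 0, 0, 0, 0, 0; 1, 1, 1, 0, 0, 1, 0, 0, 1, 1; 0, 1, 1, 1, 1, 1, 1, 0, 1, 1; 1, 0, 0, 1, 0, 0, 1, 1, 0, 0; 1, 1, 0, 1, 0, 1, 0, 1, 0, 0; 0, 0, 0, 1, 0, 1, 0, 0, 1, 0; 0, 0, 1, 0, 0, 1, 0, 0, 0, 0]

/-- data -/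
def cub5 : Matrix (Fin 10) (Fin 10) (ZMod 2) :=
  !![1, 0, 0, 0, 0, 0, 0, 0, 0, 0; 0, 1, 0, 0, 1, 0, 1, 1, 1, 0; 0, 0, 1, 0, 0, 0, 1, 1, 1, 0; 0, 1, 1, 0, 0, 0, 0, 0, 0, 0; 0, 0, 1, 0, 0, 0, 1, 1, 0, 0; 0, 0, 0, 0, 0, 1, 0, 0, 0, 0; 0, 0, 1, 0, 1, 0, 1, 1, 1, 1; 0, 1, 0, 1, 0, 0, 1, 1, 0, 1; 0, 0, 1, 0, 1, 0, 0, 1, 0, 1; 0, 1, 0, 1, 0, 0, 0, 0, 1, 0]

/-- data -/
def cvb5 : Matrix (Fin 10) (Fin 10) (ZMod 2) :=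
  !![1, 0, 0, 0, 0, 0, 0, 0, 0, 0; 0, 0, 1, 1, 1, 0, 0, 1, 0, 1; 0, 1, 1, 1, 0, 0, 1, 0, 0, 1; 0, 1, 1, 0, 1, 0, 0, 0, 0, 0; 0, 1, 0, 1, 1, 0, 1, 1, 0, 0; 0, 0, 0, 0, 0, 1, 0, 0, 0, 0; 0, 0, 0, 0, 0, 0, 0, 1, 1, 1; 0, 0, 0, 0, 0, 0, 1, 1, 1, 0; 0, 0, 0, 0, 0, 0, 1, 1, 0, 1; 0, 0, 0, 0, 0, 0, 1, 0, 1, 1]

/-- data -/
def cwb5 : Matrix (Fin 10) (Fin 10) (ZMod 2) :=
  !![1, 0, 0, 0, 0, 0, 0, 0, 0, 0; 0, 1, 0, 0, 0, 0, 0, 0, 0, 0; 0, 0, 1, 0, 0, 0, 0, 0, 0, 0; 0, 0, 0, 1, 0, 0, 0, 0, 0, 0; 0, 0, 0, 0, 1, 0, 0, 0, 0, 0; 0, 0, 0, 0, 0, 1, 0, 0, 0, 0; 0, 0, 0, 0, 0, 0, 1, 0, 0, 0; 0, 0, 0, 0, 0, 0, 0, 1, 0, 0; 0, 0, 0, 0, 0, 0, 0, 0, 1, 0; 0, 0, 0, 0, 0, 0, 0, 0, 0, 1]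

theorem datab5 : Z2S sb5 alb5 beb5 pib5 gab5 gbb5 gcb5 cub5 cvb5 cwb5 0 where
  sinv := by decide +kernel
  sne := by decide +kernel
  hk := by decide +kernel
  hα := by decide +kernel
  hβ := by decide +kernel
  hπ := by decide +kernel
  hαβ := by decide +kernel
  aα := by decide +kernel
  aβ := by decide +kernel
  aπ := by decide +kernel
  αi := by decide +kernel
  πi := by decide +kernel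
  πj := by decide +kernel
  iπ := by decide +kernel
  jπ := by decide +kernel
  n1 := by decide +kernel
  n2 := by decide +kernel
  n3 := by decide +kernel
  n4 := by decide +kernel
  hg1 := by decide +kernel
  hg2 := by decide +kernel
  hg3 := by decide +kernel

theorem lcb5 {F : Type*} [Field F] [CharP F 2] {l : F} (M : Submonoid (Matrix (Fin 10) (Fin 10) F))
    (c : Ctx l sb5 alb5 beb5 pib5 0 M) :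
    (∀ x, XZ M sb5 (e2 x)) ∧
      (∀ x, x ≠ 0 → x ≠ sb5 0 → XZ M sb5 (e2 0 + e2 x) ∨ XZ M sb5 (e2 0 + e2 (sb5 x))) := by
  have d0 : DZ l M sb5 ![1, 0, 0, 0, 0, 0, 0, 0, 0, 0] ![0, 0, 0, 0, 0, 1, 0, 0, 0, 0] :=
    DZ.init c (by decide +kernel)
  have d1 : DZ l M sb5 ![0, 0, 0, 1, 1, 0, 1, 0, 0, 0] ![0, 1, 0, 1, 1, 0, 1, 0, 0, 0] :=
    DZ.be c d0 (by decide +kernel)
  have d2 : DZ l M sb5 ![0, 1, 1, 1, 1, 0, 0, 1, 1, 0] ![0, 0, 1, 0, 1, 0, 0, 0, 1, 1] :=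
    DZ.pi c d1 (by decide +kernel)
  have d3 : DZ l M sb5 ![0, 1, 0, 0, 0, 0, 0, 1, 1, 0] ![0, 0, 1, 0, 0, 0, 0, 0, 1, 1] :=
    DZ.be c d2 (by decide +kernel)
  have d4 : DZ l M sb5 ![0, 1, 0, 0, 1, 0, 0, 1, 1, 0] ![0, 0, 1, 1, 0, 0, 0, 0, 1, 1] :=
    DZ.al c d2 (by decide +kernel)
  have d5 : DZ l M sb5 ![0, 0, 1, 0, 0, 0, 0, 1, 1, 1] ![0, 0, 0, 1, 1, 0, 0, 1, 1, 1] :=
    DZ.pi c d4 (by decide +kernel)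
  have d6 : DZ l M sb5 ![0, 0, 1, 1, 0, 0, 0, 1, 1, 1] ![0, 0, 0, 0, 1, 0, 0, 1, 1, 1] :=
    DZ.be c d5 (by decide +kernel)
  have d7 : DZ l M sb5 ![0, 1, 0, 0, 1, 0, 0, 0, 1, 1] ![0, 0, 1, 1, 0, 0, 0, 1, 1, 0] :=
    DZ.pi c d6 (by decide +kernel)
  have d8 : DZ l M sb5 ![0, 0, 0, 0, 0, 1, 0, 0, 0, 0] ![1, 0, 0, 0, 0, 0, 0, 0, 0, 0] :=
    DZ.symm c d0
  have d9 : DZ l M sb5 ![0, 1, 0, 1, 1, 0, 1, 0, 0, 0] ![0, 0, 0, 1, 1, 0, 1, 0, 0, 0] :=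
    DZ.be c d8 (by decide +kernel)
  have d10 : DZ l M sb5 ![0, 0, 1, 0, 1, 0, 0, 0, 1, 1] ![0, 1, 1, 1, 1, 0, 0, 1, 1, 0] :=
    DZ.pi c d9 (by decide +kernel)
  have d11 : DZ l M sb5 ![0, 0, 1, 1, 0, 0, 0, 0, 1, 1] ![0, 1, 0, 0, 1, 0, 0, 1, 1, 0] :=
    DZ.al c d10 (by decide +kernel)
  have r12 : EZ l M sb5 ![0, 1, 0, 0, 1, 0, 0, 0, 1, 1] ![0, 1, 1, 1, 1, 0, 0, 0, 0, 0] 1 0 :=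
    (DZ.DD c d7 d11 1 1 (by decide +kernel)).1
  have r13 : EZ l M sb5 ![0, 0, 1, 0, 0, 0, 0, 0, 1, 1] ![0, 1, 1, 1, 1, 0, 0, 0, 0, 0] 1 0 :=
    (DZ.W c d3 r12 (by decide +kernel)).2
  have r14 : EZ l M sb5 ![0, 0, 1, 1, 0, 0, 0, 1, 1, 0] ![0, 1, 1, 1, 1, 0, 0, 0, 0, 0] 1 0 :=
    (DZ.DD c d7 d11 1 1 (by decide +kernel)).2
  have r15 : EZ l M sb5 ![0, 0, 0, 1, 0, 0, 0, 1, 0, 1] ![0, 1, 1, 1, 1, 0, 0, 0, 0, 0] 0 0 :=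
    EZ.add c r13 r14 (by decide +kernel)
  have r16 : EZ l M sb5 ![0, 1, 0, 0, 0, 0, 0, 1, 1, 0] ![0, 1, 1, 1, 1, 0, 0, 0, 0, 0] 1 0 :=
    (DZ.W c d3 r12 (by decide +kernel)).1
  have d17 : DZ l M sb5 ![0, 1, 0, 1, 0, 0, 0, 0, 1, 1] ![0, 0, 0, 0, 0, 0, 0, 1, 1, 0] :=
    DZ.al c d7 (by decide +kernel)
  have r18 : EZ l M sb5 ![0, 1, 0, 1, 0, 0, 0, 0, 1, 1] ![0, 1, 1, 1, 1, 0, 0, 0, 0, 0] 1 0 :=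
    (DZ.DD c d17 d10 1 1 (by decide +kernel)).1
  have r19 : EZ l M sb5 ![0, 0, 0, 1, 0, 0, 0, 1, 0, 1] ![0, 1, 1, 1, 1, 0, 0, 0, 0, 0] 0 1 :=
    EZ.add c r16 r18 (by decide +kernel)
  have x20 : XZ M sb5 ![0, 1, 1, 1, 1, 0, 0, 0, 0, 0] :=
    EZ.conf c r15 r19 (by decide +kernel)
  have x21 : XZ M sb5 ![0, 0, 0, 1, 1, 0, 1, 0, 0, 0] :=
    (DZ.XD c d1 x20 (by decide +kernel)).1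
  have x22 : XZ M sb5 ![1, 0, 0, 0, 0, 0, 0, 0, 0, 0] :=
    XZ.be c x21 (by decide +kernel)
  have x23 : XZ M sb5 ![0, 1, 0, 0, 0, 0, 0, 0, 0, 0] :=
    XZ.cast (DZ.XD c d1 x20 (by decide +kernel)).2.2 (by decide +kernel)
  have d24 : DZ l M sb5 ![0, 1, 1, 0, 0, 0, 1, 1, 0, 1] ![0, 0, 0, 1, 1, 0, 0, 0, 1, 0] :=
    DZ.pi c d3 (by decide +kernel)
  have d25 : DZ l M sb5 ![0, 0, 0, 1, 1, 0, 0, 1, 1, 1] ![0, 0, 1, 0, 0, 0, 0, 1, 1, 1] :=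
    DZ.pi c d11 (by decide +kernel)
  have r26 : EZ l M sb5 ![0, 0, 1, 1, 0, 0, 0, 1, 1, 1] ![0, 0, 1, 0, 1, 0, 0, 0, 0, 0] 1 0 :=
    (DZ.DD c d6 d25 1 1 (by decide +kernel)).1
  have r27 : EZ l M sb5 ![0, 1, 1, 0, 0, 0, 1, 1, 0, 1] ![0, 0, 1, 0, 1, 0, 0, 0, 0, 0] 1 0 :=
    (DZ.W c d24 r26 (by decide +kernel)).1
  have r28 : EZ l M sb5 ![0, 0, 1, 0, 0, 0, 0, 1, 1, 1] ![0, 0, 1, 0, 1, 0, 0, 0, 0, 0] 1 0 :=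
    EZ.be c r26 (by decide +kernel)
  have r29 : EZ l M sb5 ![0, 1, 0, 0, 0, 0, 1, 0, 1, 0] ![0, 0, 1, 0, 1, 0, 0, 0, 0, 0] 0 0 :=
    EZ.add c r27 r28 (by decide +kernel)
  have r30 : EZ l M sb5 ![0, 0, 1, 0, 1, 0, 0, 0, 0, 0] ![0, 1, 0, 0, 0, 0, 1, 0, 1, 0] 0 0 :=
    EZ.flip c r29
  have r31 : EZ l M sb5 ![0, 1, 1, 1, 1, 0, 0, 1, 1, 0] ![0, 1, 0, 0, 0, 0, 1, 0, 1, 0] 1 0 :=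
    (DZ.W c d2 r30 (by decide +kernel)).1
  have r32 : EZ l M sb5 ![0, 0, 1, 1, 1, 0, 1, 1, 0, 0] ![0, 1, 0, 0, 0, 0, 1, 0, 1, 0] 1 0 :=
    EZ.mod r31 c.sig (by decide +kernel)
  have r33 : EZ l M sb5 ![0, 1, 0, 1, 1, 0, 1, 1, 0, 0] ![0, 0, 0, 1, 0, 0, 1, 0, 1, 0] 1 0 :=
    EZ.al c r32 (by decide +kernel)
  have r34 : EZ l M sb5 ![0, 1, 1, 1, 1, 0, 0, 1, 1, 1] ![0, 1, 0, 1, 1, 0, 0, 0, 0, 0] 1 0 :=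
    EZ.pi c r33 (by decide +kernel)
  have x35 : XZ M sb5 ![0, 0, 1, 0, 0, 0, 0, 0, 0, 0] :=
    XZ.XE c x20 r34 (by decide +kernel)
  have d36 : DZ l M sb5 ![0, 1, 1, 1, 0, 0, 1, 0, 0, 0] ![0, 0, 1, 1, 0, 0, 1, 0, 0, 0] :=
    DZ.pi c d17 (by decide +kernel)
  have d37 : DZ l M sb5 ![0, 0, 1, 0, 1, 1, 0, 0, 0, 0] ![1, 0, 1, 0, 1, 0, 0, 0, 0, 0] :=
    DZ.be c d36 (by decide +kernel)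
  have d38 : DZ l M sb5 ![0, 0, 0, 0, 1, 0, 1, 1, 0, 1] ![0, 0, 0, 0, 1, 0, 0, 0, 1, 0] :=
    DZ.al c d24 (by decide +kernel)
  have d39 : DZ l M sb5 ![0, 1, 1, 0, 1, 0, 0, 0, 1, 1] ![0, 0, 1, 0, 0, 0, 0, 1, 1, 0] :=
    DZ.pi c d38 (by decide +kernel)
  have r40 : EZ l M sb5 ![0, 1, 1, 0, 1, 0, 0, 0, 1, 1] ![0, 1, 1, 1, 1, 0, 0, 0, 0, 0] 1 0 :=
    (DZ.W c d39 r14 (by decide +kernel)).1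
  have r41 : EZ l M sb5 ![0, 0, 0, 1, 0, 0, 0, 0, 1, 1] ![0, 1, 1, 1, 1, 0, 0, 0, 0, 0] 1 0 :=
    EZ.mod r40 c.sig (by decide +kernel)
  have d42 : DZ l M sb5 ![1, 0, 0, 0, 0, 1, 0, 0, 1, 1] ![1, 1, 0, 0, 1, 1, 0, 1, 1, 0] :=
    DZ.be c d7 (by decide +kernel)
  have r43 : EZ l M sb5 ![1, 1, 0, 0, 1, 1, 0, 1, 1, 0] ![0, 1, 1, 1, 1, 0, 0, 0, 0, 0] 1 0 :=
    (DZ.W c d42 r12 (by decide +kernel)).2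
  have r44 : EZ l M sb5 ![1, 1, 0, 1, 1, 1, 0, 1, 0, 1] ![0, 1, 1, 1, 1, 0, 0, 0, 0, 0] 0 0 :=
    EZ.add c r41 r43 (by decide +kernel)
  have r45 : EZ l M sb5 ![0, 1, 1, 1, 1, 0, 0, 0, 0, 0] ![1, 1, 0, 1, 1, 1, 0, 1, 0, 1] 0 0 :=
    EZ.flip c r44
  have r46 : EZ l M sb5 ![1, 0, 1, 1, 1, 1, 0, 0, 0, 0] ![0, 0, 1, 0, 1, 0, 0, 1, 0, 1] 0 0 :=
    EZ.be c r45 (by decide +kernel)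
  have r47 : EZ l M sb5 ![0, 0, 1, 0, 1, 1, 0, 0, 0, 0] ![0, 0, 1, 0, 1, 0, 0, 1, 0, 1] 1 0 :=
    (DZ.W c d37 r46 (by decide +kernel)).1
  have r48 : EZ l M sb5 ![0, 1, 0, 0, 1, 0, 0, 1, 1, 0] ![0, 0, 1, 0, 1, 0, 0, 1, 0, 1] 1 0 :=
    (DZ.W c d4 r47 (by decide +kernel)).1
  have r49 : EZ l M sb5 ![0, 1, 1, 0, 0, 0, 0, 0, 1, 1] ![0, 0, 1, 0, 1, 0, 0, 1, 0, 1] 1 0 :=
    EZ.mod r48 c.sig (by decide +kernel)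
  have r50 : EZ l M sb5 ![0, 1, 0, 0, 1, 0, 0, 1, 1, 1] ![0, 1, 1, 0, 1, 0, 0, 0, 0, 0] 1 0 :=
    EZ.pi c r49 (by decide +kernel)
  have x51 : XZ M sb5 ![0, 0, 0, 1, 0, 0, 0, 0, 0, 0] :=
    XZ.XE c x20 r50 (by decide +kernel)
  have r52 : EZ l M sb5 ![0, 1, 1, 1, 0, 0, 0, 0, 0, 0] ![0, 1, 1, 1, 1, 0, 0, 0, 0, 0] 0 0 :=
    EZ.add c r16 r14 (by decide +kernel)
  have r53 : EZ l M sb5 ![0, 1, 1, 1, 1, 0, 0, 0, 0, 0] ![0, 1, 1, 1, 0, 0, 0, 0, 0, 0] 0 0 :=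
    EZ.flip c r52
  have r54 : EZ l M sb5 ![0, 0, 1, 0, 0, 0, 0, 1, 1, 1] ![0, 1, 1, 1, 0, 0, 0, 0, 0, 0] 1 0 :=
    (DZ.W c d5 r53 (by decide +kernel)).1
  have x55 : XZ M sb5 ![0, 0, 0, 0, 1, 0, 0, 0, 0, 0] :=
    XZ.XE c x20 r54 (by decide +kernel)
  have x56 : XZ M sb5 ![0, 1, 0, 1, 1, 0, 1, 0, 0, 0] :=
    (DZ.XD c d1 x20 (by decide +kernel)).2.1
  have x57 : XZ M sb5 ![0, 0, 0, 0, 0, 1, 0, 0, 0, 0] :=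
    XZ.be c x56 (by decide +kernel)
  have r58 : EZ l M sb5 ![0, 0, 0, 1, 1, 0, 0, 0, 0, 0] ![0, 1, 1, 1, 1, 0, 0, 0, 0, 0] 0 0 :=
    EZ.add c r18 r12 (by decide +kernel)
  have r59 : EZ l M sb5 ![0, 1, 1, 1, 1, 0, 0, 0, 0, 0] ![0, 0, 0, 1, 1, 0, 0, 0, 0, 0] 0 0 :=
    EZ.flip c r58
  have x60 : XZ M sb5 ![0, 0, 0, 0, 0, 0, 1, 0, 0, 0] :=
    XZ.XE c x21 r59 (by decide +kernel)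
  have d61 : DZ l M sb5 ![1, 1, 0, 0, 1, 0, 0, 1, 0, 1] ![1, 1, 1, 1, 1, 1, 0, 0, 1, 0] :=
    DZ.be c d24 (by decide +kernel)
  have d62 : DZ l M sb5 ![0, 1, 1, 1, 0, 0, 0, 1, 1, 0] ![0, 0, 1, 1, 1, 0, 0, 0, 1, 1] :=
    DZ.be c d4 (by decide +kernel)
  have d63 : DZ l M sb5 ![0, 1, 0, 1, 1, 0, 0, 0, 1, 0] ![0, 1, 0, 1, 1, 0, 1, 1, 0, 1] :=
    DZ.pi c d62 (by decide +kernel)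
  have d64 : DZ l M sb5 ![0, 1, 0, 0, 1, 0, 0, 0, 1, 0] ![0, 0, 1, 1, 0, 0, 1, 1, 0, 1] :=
    DZ.al c d63 (by decide +kernel)
  have r65 : EZ l M sb5 ![0, 1, 0, 0, 1, 0, 0, 0, 1, 0] ![0, 0, 1, 0, 1, 0, 1, 1, 1, 1] 1 0 :=
    (DZ.DD c d64 d24 1 1 (by decide +kernel)).1
  have r66 : EZ l M sb5 ![1, 1, 1, 1, 1, 1, 0, 0, 1, 0] ![0, 0, 1, 0, 1, 0, 1, 1, 1, 1] 1 0 :=
    (DZ.W c d61 r65 (by decide +kernel)).2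
  have r67 : EZ l M sb5 ![0, 1, 0, 0, 0, 0, 0, 1, 1, 0] ![0, 0, 1, 0, 1, 0, 1, 1, 1, 1] 1 0 :=
    (DZ.W c d3 r65 (by decide +kernel)).1
  have r68 : EZ l M sb5 ![1, 0, 1, 1, 1, 1, 0, 1, 0, 0] ![0, 0, 1, 0, 1, 0, 1, 1, 1, 1] 0 0 :=
    EZ.add c r66 r67 (by decide +kernel)
  have r69 : EZ l M sb5 ![0, 0, 1, 0, 1, 0, 1, 1, 1, 1] ![1, 0, 1, 1, 1, 1, 0, 1, 0, 0] 0 0 :=
    EZ.flip c r68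
  have r70 : EZ l M sb5 ![0, 1, 0, 1, 0, 0, 1, 1, 1, 1] ![1, 0, 0, 1, 1, 1, 0, 1, 0, 0] 0 0 :=
    EZ.al c r69 (by decide +kernel)
  have r71 : EZ l M sb5 ![0, 0, 0, 1, 1, 1, 0, 1, 1, 1] ![0, 1, 0, 0, 0, 0, 0, 1, 0, 0] 0 0 :=
    EZ.be c r70 (by decide +kernel)
  have r72 : EZ l M sb5 ![0, 1, 1, 0, 0, 0, 1, 1, 0, 1] ![0, 1, 0, 0, 0, 0, 0, 1, 0, 0] 1 0 :=
    (DZ.W c d24 r71 (by decide +kernel)).1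
  have x73 : XZ M sb5 ![0, 0, 0, 0, 0, 0, 0, 1, 0, 0] :=
    XZ.XE c x23 r72 (by decide +kernel)
  have d74 : DZ l M sb5 ![0, 1, 1, 1, 0, 0, 0, 0, 1, 1] ![0, 0, 0, 1, 0, 0, 0, 1, 1, 0] :=
    DZ.pi c d64 (by decide +kernel)
  have r75 : EZ l M sb5 ![0, 0, 0, 0, 1, 0, 1, 1, 0, 1] ![0, 1, 0, 1, 0, 0, 1, 1, 1, 1] 1 0 :=
    (DZ.DD c d38 d63 1 1 (by decide +kernel)).1
  have r76 : EZ l M sb5 ![0, 1, 1, 1, 0, 0, 0, 0, 1, 1] ![0, 1, 0, 1, 0, 0, 1, 1, 1, 1] 1 0 :=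
    (DZ.W c d74 r75 (by decide +kernel)).1
  have r77 : EZ l M sb5 ![0, 0, 1, 0, 0, 0, 1, 1, 0, 0] ![0, 1, 0, 1, 0, 0, 1, 1, 1, 1] 1 0 :=
    EZ.mod r76 c.sig (by decide +kernel)
  have d78 : DZ l M sb5 ![1, 0, 1, 0, 0, 1, 0, 0, 1, 1] ![1, 1, 0, 1, 1, 1, 0, 1, 1, 0] :=
    DZ.be c d39 (by decide +kernel)
  have r79 : EZ l M sb5 ![0, 0, 0, 0, 1, 0, 0, 0, 1, 0] ![0, 1, 0, 1, 0, 0, 1, 1, 1, 1] 1 0 :=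
    (DZ.DD c d38 d63 1 1 (by decide +kernel)).2
  have r80 : EZ l M sb5 ![1, 1, 0, 1, 1, 1, 0, 1, 1, 0] ![0, 1, 0, 1, 0, 0, 1, 1, 1, 1] 1 0 :=
    (DZ.W c d78 r79 (by decide +kernel)).2
  have r81 : EZ l M sb5 ![1, 1, 1, 1, 1, 1, 1, 0, 1, 0] ![0, 1, 0, 1, 0, 0, 1, 1, 1, 1] 0 0 :=
    EZ.add c r77 r80 (by decide +kernel)
  have r82 : EZ l M sb5 ![0, 1, 0, 1, 0, 0, 1, 1, 1, 1] ![1, 1, 1, 1, 1, 1, 1, 0, 1, 0] 0 0 :=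
    EZ.flip c r81
  have r83 : EZ l M sb5 ![0, 0, 0, 1, 1, 1, 0, 1, 1, 1] ![1, 0, 0, 0, 0, 0, 0, 0, 1, 0] 0 0 :=
    EZ.be c r82 (by decide +kernel)
  have x84 : XZ M sb5 ![0, 0, 0, 0, 0, 0, 0, 0, 1, 0] :=
    XZ.XE c x22 r83 (by decide +kernel)
  have d85 : DZ l M sb5 ![0, 1, 1, 1, 1, 0, 0, 0, 1, 0] ![1, 1, 1, 1, 0, 0, 0, 1, 0, 1] :=
    DZ.be c d63 (by decide +kernel)
  have r86 : EZ l M sb5 ![1, 0, 1, 0, 0, 1, 0, 0, 1, 1] ![0, 1, 0, 1, 0, 0, 1, 1, 1, 1] 1 0 :=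
    (DZ.W c d78 r79 (by decide +kernel)).1
  have r87 : EZ l M sb5 ![0, 1, 0, 1, 1, 0, 0, 0, 1, 0] ![0, 1, 0, 1, 0, 0, 1, 1, 1, 1] 1 0 :=
    EZ.mod r75 c.sig (by decide +kernel)
  have r88 : EZ l M sb5 ![1, 1, 1, 1, 1, 1, 0, 0, 0, 1] ![0, 1, 0, 1, 0, 0, 1, 1, 1, 1] 0 0 :=
    EZ.add c r86 r87 (by decide +kernel)
  have r89 : EZ l M sb5 ![0, 1, 0, 1, 0, 0, 1, 1, 1, 1] ![1, 1, 1, 1, 1, 1, 0, 0, 0, 1] 0 0 :=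
    EZ.flip c r88
  have r90 : EZ l M sb5 ![0, 0, 0, 1, 1, 1, 0, 1, 1, 1] ![0, 0, 0, 1, 0, 0, 0, 0, 0, 1] 0 0 :=
    EZ.be c r89 (by decide +kernel)
  have r91 : EZ l M sb5 ![0, 0, 0, 0, 0, 1, 0, 0, 0, 0] ![0, 0, 0, 1, 0, 0, 0, 0, 0, 1] 1 0 :=
    (DZ.W c d0 r90 (by decide +kernel)).2
  have r92 : EZ l M sb5 ![0, 1, 1, 1, 1, 0, 0, 0, 1, 0] ![0, 0, 0, 1, 0, 0, 0, 0, 0, 1] 1 0 :=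
    (DZ.W c d85 r91 (by decide +kernel)).1
  have r93 : EZ l M sb5 ![0, 1, 0, 0, 1, 0, 1, 1, 0, 0] ![0, 1, 0, 0, 0, 0, 0, 0, 0, 1] 1 0 :=
    EZ.pi c r92 (by decide +kernel)
  have x94 : XZ M sb5 ![0, 0, 0, 0, 0, 0, 0, 0, 0, 1] :=
    XZ.XE c x23 r93 (by decide +kernel)
  have r95 : EZ l M sb5 ![0, 0, 0, 0, 0, 0, 0, 1, 1, 0] ![0, 1, 1, 1, 1, 0, 0, 0, 0, 0] 1 0 :=
    (DZ.DD c d17 d10 1 1 (by decide +kernel)).2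
  have r96 : EZ l M sb5 ![0, 1, 0, 0, 0, 0, 0, 0, 0, 0] ![0, 1, 1, 1, 1, 0, 0, 0, 0, 0] 0 0 :=
    EZ.add c r16 r95 (by decide +kernel)
  have r97 : EZ l M sb5 ![0, 1, 1, 1, 1, 0, 0, 0, 0, 0] ![0, 1, 0, 0, 0, 0, 0, 0, 0, 0] 0 0 :=
    EZ.flip c r96
  have r98 : EZ l M sb5 ![1, 1, 1, 1, 1, 1, 0, 0, 1, 0] ![0, 1, 0, 0, 0, 0, 0, 0, 0, 0] 1 0 :=
    (DZ.W c d61 r97 (by decide +kernel)).2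
  have x99 : XZ M sb5 ![1, 1, 0, 0, 0, 0, 0, 0, 0, 0] :=
    XZ.XE c x22 r98 (by decide +kernel)
  have r100 : EZ l M sb5 ![0, 1, 1, 0, 1, 0, 0, 0, 1, 1] ![0, 0, 0, 1, 1, 0, 0, 1, 0, 1] 1 0 :=
    (DZ.DD c d39 d62 1 1 (by decide +kernel)).1
  have r101 : EZ l M sb5 ![1, 0, 1, 0, 1, 0, 0, 0, 0, 0] ![0, 0, 0, 1, 1, 0, 0, 1, 0, 1] 1 0 :=
    (DZ.W c d37 r100 (by decide +kernel)).2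
  have r102 : EZ l M sb5 ![0, 0, 0, 0, 1, 0, 1, 1, 0, 1] ![0, 0, 0, 1, 1, 0, 0, 1, 0, 1] 1 0 :=
    (DZ.W c d38 r100 (by decide +kernel)).1
  have r103 : EZ l M sb5 ![0, 0, 0, 1, 0, 0, 1, 0, 0, 0] ![0, 0, 0, 1, 1, 0, 0, 1, 0, 1] 1 0 :=
    EZ.mod r102 c.sig (by decide +kernel)
  have r104 : EZ l M sb5 ![1, 0, 1, 1, 1, 0, 1, 0, 0, 0] ![0, 0, 0, 1, 1, 0, 0, 1, 0, 1] 0 0 :=
    EZ.add c r101 r103 (by decide +kernel)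
  have r105 : EZ l M sb5 ![0, 0, 0, 1, 1, 0, 0, 1, 0, 1] ![1, 0, 1, 1, 1, 0, 1, 0, 0, 0] 0 0 :=
    EZ.flip c r104
  have x106 : XZ M sb5 ![1, 0, 1, 0, 0, 0, 0, 0, 0, 0] :=
    XZ.XE c x21 r105 (by decide +kernel)
  have d107 : DZ l M sb5 ![0, 1, 1, 0, 1, 0, 0, 0, 1, 0] ![0, 1, 0, 1, 1, 1, 0, 1, 0, 1] :=
    DZ.be c d64 (by decide +kernel)
  have r108 : EZ l M sb5 ![0, 1, 1, 0, 1, 0, 0, 0, 1, 0] ![0, 0, 1, 0, 1, 0, 0, 0, 0, 0] 1 0 :=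
    (DZ.W c d107 r26 (by decide +kernel)).1
  have r109 : EZ l M sb5 ![0, 1, 0, 0, 1, 0, 1, 0, 0, 1] ![0, 1, 1, 1, 1, 0, 0, 0, 0, 0] 1 0 :=
    EZ.pi c r108 (by decide +kernel)
  have r110 : EZ l M sb5 ![0, 0, 0, 0, 0, 0, 1, 0, 0, 1] ![0, 1, 1, 1, 1, 0, 0, 0, 0, 0] 1 0 :=
    EZ.al c r109 (by decide +kernel)
  have r111 : EZ l M sb5 ![0, 1, 1, 1, 1, 0, 1, 1, 0, 1] ![0, 0, 1, 0, 1, 0, 0, 0, 0, 0] 1 0 :=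
    EZ.pi c r110 (by decide +kernel)
  have r112 : EZ l M sb5 ![1, 1, 1, 1, 0, 0, 0, 1, 0, 1] ![0, 0, 1, 0, 1, 0, 0, 0, 0, 0] 1 0 :=
    (DZ.W c d85 r26 (by decide +kernel)).2
  have r113 : EZ l M sb5 ![1, 0, 0, 0, 1, 0, 1, 0, 0, 0] ![0, 0, 1, 0, 1, 0, 0, 0, 0, 0] 0 0 :=
    EZ.add c r111 r112 (by decide +kernel)
  have r114 : EZ l M sb5 ![0, 0, 1, 0, 1, 0, 0, 0, 0, 0] ![1, 0, 0, 0, 1, 0, 1, 0, 0, 0] 0 0 :=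
    EZ.flip c r113
  have r115 : EZ l M sb5 ![0, 1, 0, 0, 1, 0, 0, 0, 1, 1] ![1, 0, 0, 0, 1, 0, 1, 0, 0, 0] 1 0 :=
    (DZ.W c d7 r114 (by decide +kernel)).1
  have x116 : XZ M sb5 ![1, 0, 0, 1, 0, 0, 0, 0, 0, 0] :=
    XZ.XE c x21 r115 (by decide +kernel)
  have r117 : EZ l M sb5 ![0, 1, 1, 1, 0, 0, 0, 0, 1, 1] ![0, 0, 1, 1, 0, 0, 0, 1, 0, 1] 1 0 :=
    (DZ.DD c d74 d3 1 1 (by decide +kernel)).1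
  have r118 : EZ l M sb5 ![1, 0, 1, 0, 1, 0, 0, 0, 0, 0] ![0, 0, 1, 1, 0, 0, 0, 1, 0, 1] 1 0 :=
    (DZ.W c d37 r117 (by decide +kernel)).2
  have r119 : EZ l M sb5 ![0, 0, 0, 0, 1, 0, 1, 1, 0, 1] ![0, 0, 1, 1, 0, 0, 0, 1, 0, 1] 1 0 :=
    (DZ.W c d38 r117 (by decide +kernel)).1
  have r120 : EZ l M sb5 ![0, 0, 1, 1, 1, 0, 1, 0, 0, 0] ![0, 0, 1, 1, 0, 0, 0, 1, 0, 1] 1 0 :=
    EZ.mod r119 c.sig (by decide +kernel)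
  have r121 : EZ l M sb5 ![1, 0, 0, 1, 0, 0, 1, 0, 0, 0] ![0, 0, 1, 1, 0, 0, 0, 1, 0, 1] 0 0 :=
    EZ.add c r118 r120 (by decide +kernel)
  have r122 : EZ l M sb5 ![0, 0, 1, 1, 0, 0, 0, 1, 0, 1] ![1, 0, 0, 1, 0, 0, 1, 0, 0, 0] 0 0 :=
    EZ.flip c r121
  have x123 : XZ M sb5 ![1, 0, 0, 0, 1, 0, 0, 0, 0, 0] :=
    XZ.XE c x21 r122 (by decide +kernel)
  constructor
  · intro x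
    fin_cases x
    · exact XZ.cast x22 (by decide +kernel)
    · exact XZ.cast x23 (by decide +kernel)
    · exact XZ.cast x35 (by decide +kernel)
    · exact XZ.cast x51 (by decide +kernel)
    · exact XZ.cast x55 (by decide +kernel)
    · exact XZ.cast x57 (by decide +kernel)
    · exact XZ.cast x60 (by decide +kernel)
    · exact XZ.cast x73 (by decide +kernel)
    · exact XZ.cast x84 (by decide +kernel)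
    · exact XZ.cast x94 (by decide +kernel)
  · intro x hx hx'
    fin_cases x
    · exact absurd rfl hx
    · exact Or.inl (XZ.cast x99 (by decide +kernel))
    · exact Or.inl (XZ.cast x106 (by decide +kernel))
    · exact Or.inl (XZ.cast x116 (by decide +kernel))
    · exact Or.inl (XZ.cast x123 (by decide +kernel))
    · exact absurd rfl hx'
    · exact Or.inr (XZ.cast x99 (by decide +kernel))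
    · exact Or.inr (XZ.cast x106 (by decide +kernel))
    · exact Or.inr (XZ.cast x116 (by decide +kernel))
    · exact Or.inr (XZ.cast x123 (by decide +kernel))

/-- the symplectic gadget with 5 planes -/
theorem gadb5 {F : Type*} [Field F] [CharP F 2] {l : F}
    (hl : ∀ a : F, a ≠ 0 → ∃ k : ℕ, a = l ^ k) (hl0 : l ≠ 0) (hsq : ∀ a : F, ∃ b, b * b = a) :
    IsGad l sb5 (lf F alb5) (lf F beb5) (lf F pib5) 0 :=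
  gad_of_z2 datab5 hl hl0 hsq (fun M c => lcb5 M c)

end base

end H47Sp
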