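import Mathlib
import Pool.Agent.H.MP_0335f8_al.SGad

set_option linter.unusedSectionVars false
set_option linter.unusedSimpArgs false

namespace H47Sp

open Matrix H47Inv

section emc

variable {F : Type*} [Field F] {Y : Type*} [Fintype Y] [DecidableEq Y] {k : ℕ}

/-- columns of the chosen unit vectors -/
def Pc (F : Type*) [Field F] (c : Fin k → Y) : Matrix Y (Fin k) F := of fun y a => e F (c a) y

/-- rows of the chosen unit vectors -/
def Qc (F : Type*) [Field F] (c : Fin k → Y) : Matrix (Fin k) Y F := of fun a y => e F (c a) y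

theorem Qc_Pc {c : Fin k → Y} (hc : Function.Injective c) : Qc F c * Pc F c = 1 := by
  ext a b
  change e F (c a) ⬝ᵥ e F (c b) = _
  rw [e_dot_e, one_apply]
  simp [hc.eq_iff]

/-- embedding of `k x k` matrices on the coordinates `c` -/
def emc (c : Fin k → Y) (hc : Function.Injective c) : Matrix (Fin k) (Fin k) F →* Matrix Y Y F where
  toFun A := 1 + Pc F c * (A - 1) * Qc F c
  map_one' := by simp
  map_mul' A B := by
    have e1 : Pc F c * (A - 1) * Qc F c * (Pc F c * (B - 1) * Qc F c) =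
        Pc F c * ((A - 1) * (B - 1)) * Qc F c := by
      calc Pc F c * (A - 1) * Qc F c * (Pc F c * (B - 1) * Qc F c) =
          Pc F c * (A - 1) * (Qc F c * Pc F c) * (B - 1) * Qc F c := by
            simp only [Matrix.mul_assoc]
        _ = _ := by rw [Qc_Pc hc, Matrix.mul_one]; simp only [Matrix.mul_assoc]
    rw [add_mul, mul_add, mul_add, e1, one_mul, one_mul, mul_one]
    have e2 : A * B - 1 = (A - 1) + (B - 1) + (A - 1) * (B - 1) := by noncomm_ring
    rw [e2, Matrix.mul_add, Matrix.mul_add, Matrix.add_mul, Matrix.add_mul]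
    abel

theorem emc_apply (c : Fin k → Y) (hc : Function.Injective c) (A : Matrix (Fin k) (Fin k) F) :
    emc c hc A = 1 + Pc F c * (A - 1) * Qc F c := rfl

theorem Pc_e (c : Fin k → Y) (a : Fin k) : Pc F c *ᵥ e F a = e F (c a) := by
  ext y
  simp [Pc, e]

theorem e_Qc (c : Fin k → Y) (a : Fin k) : e F a ᵥ* Qc F c = e F (c a) := by
  ext y
  simp [Qc, e]

theorem emc_De (c : Fin k → Y) (hc : Function.Injective c) (l : F) (a b : Fin k) :
    emc c hc (De l a b) = De l (c a) (c b) := by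
  rw [emc_apply]
  have : (De l a b - 1 : Matrix (Fin k) (Fin k) F) =
      vecMulVec ((l - 1) • e F a + e F b) (e F a) + vecMulVec (e F a - e F b) (e F b) := by
    simp only [De, Dm]; abel
  rw [this, Matrix.mul_add, Matrix.add_mul, mul_vecMulVec, mul_vecMulVec, vecMulVec_mul,
    vecMulVec_mul, mulVec_add, mulVec_smul, mulVec_sub, Pc_e, Pc_e, e_Qc, e_Qc, ← add_assoc]
  rfl

theorem emc_comm (c : Fin k → Y) (hc : Function.Injective c) (A : Matrix (Fin k) (Fin k) F)
    {x : Matrix Y Y F} (h1 : ∀ a, x *ᵥ e F (c a) = e F (c a))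
    (h2 : ∀ a, e F (c a) ᵥ* x = e F (c a)) : emc c hc A * x = x * emc c hc A := by
  have p1 : x * Pc F c = Pc F c := by
    ext y a
    have := congrFun (h1 a) y
    simpa [mul_apply, Pc, mulVec, dotProduct] using this
  have p2 : Qc F c * x = Qc F c := by
    ext a y
    have := congrFun (h2 a) y
    simpa [mul_apply, Qc, vecMul, dotProduct] using this
  rw [emc_apply, add_mul, mul_add, Matrix.mul_assoc _ (Qc F c), p2, ← Matrix.mul_assoc x,
    ← Matrix.mul_assoc x, p1, one_mul, mul_one]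

theorem ad_emc {σ : Y → Y} {τ : Fin k → Fin k} (h : Sig σ) (c : Fin k → Y)
    (hc : Function.Injective c) (hστ : ∀ a, σ (c a) = c (τ a)) (ht : Sig τ)
    (A : Matrix (Fin k) (Fin k) F) : ad σ (emc c hc A) = emc c hc (ad τ A) := by
  have e1 : ∀ (y : Y) (a : Fin k), e F (c a) (σ y) = e F (c (τ a)) y := by
    intro y a
    have : (σ y = c a) ↔ (y = c (τ a)) := by
      rw [← hστ]
      constructor
      · intro hh; rw [← hh, h.inv]
      · intro hh; rw [hh, h.inv]
    simp [e, Pi.single_apply, this]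
  rw [emc_apply, emc_apply, ad_add, ad_one h]
  congr 1
  ext x y
  simp only [ad, of_apply, mul_apply, Pc, Qc, Finset.sum_mul, Matrix.sub_apply, e1]
  rw [Finset.sum_comm, ← Equiv.sum_comp ht.eqv]
  apply Finset.sum_congr rfl
  intro a _
  rw [← Equiv.sum_comp ht.eqv]
  apply Finset.sum_congr rfl
  intro b _
  change e F (c (τ (τ a))) y * (A (τ a) (τ b) - (1 : Matrix (Fin k) (Fin k) F) (τ a) (τ b)) *
    e F (c (τ (τ b))) x = e F (c b) x * (A (τ a) (τ b) - (1 : Matrix (Fin k) (Fin k) F) b a) *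
    e F (c a) y
  rw [ht.inv, ht.inv]
  have : (1 : Matrix (Fin k) (Fin k) F) (τ a) (τ b) = (1 : Matrix (Fin k) (Fin k) F) b a := by
    have hab : (τ a = τ b) ↔ (b = a) :=
      ⟨fun hh => by rw [← ht.inv a, hh, ht.inv], fun hh => by rw [hh]⟩
    simp only [one_apply, hab]
  rw [this]
  ring

end emc

section ext

variable {F : Type*} [Field F] [CharP F 2] {X : Type*} [Fintype X] [DecidableEq X] {σ : X → X}

/-- the involution on the four new coordinates -/
def s4 : Fin 4 → Fin 4 := ![1, 0, 3, 2]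

theorem sig4 : Sig s4 := ⟨by decide, by decide⟩

/-- the involution on the extended index set -/
def sE (σ : X → X) : X ⊕ Fin 4 → X ⊕ Fin 4 := Sum.map σ s4

theorem sigE (h : Sig σ) : Sig (sE σ) := by
  constructor
  · rintro (x | x)
    · simp [sE, h.inv]
    · simp [sE, sig4.inv]
  · rintro (x | x)
    · simp [sE, h.ne]
    · simp [sE, sig4.ne]

theorem ad_blocks (a : Matrix X X F) (d : Matrix (Fin 4) (Fin 4) F) :
    ad (sE σ) (fromBlocks a 0 0 d) = fromBlocks (ad σ a) 0 0 (ad s4 d) := by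
  ext x y
  rcases x with x | x <;> rcases y with y | y <;> simp [ad, sE]

theorem ad_hat (a : Matrix X X F) : ad (sE σ) (hat (Fin 4) a) = hat (Fin 4) (ad σ a) := by
  rw [hat_apply, ad_blocks, ad_one sig4]; rfl

theorem adA4 : ad s4 (A4 F) = A4 F := by
  unfold A4
  rw [ad_mul sig4, ad_swap sig4 (by decide), ad_swap sig4 (by decide)]
  change De (0 : F) 3 2 * De 0 1 0 = _
  rw [De0_symm (by decide), De0_symm (x := (1 : Fin 4)) (by decide)]
  exact De_comm' 0 (Off_De (by decide) (by decide) (by decide) (by decide))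

theorem adB4 : ad s4 (B4 F) = B4 F := by
  unfold B4
  rw [ad_mul sig4, ad_swap sig4 (by decide), ad_swap sig4 (by decide)]
  rfl

theorem SpConj_blocks {a b : Matrix X X F} {c d p : Matrix (Fin 4) (Fin 4) F}
    (h : SpConj σ a b) (hp : p * ad s4 p = 1) (hc : p * c = d * p) :
    SpConj (sE σ) (fromBlocks a 0 0 c) (fromBlocks b 0 0 d) := by
  obtain ⟨g, hg, h⟩ := h
  refine ⟨fromBlocks g 0 0 p, ?_, ?_⟩
  · rw [ad_blocks, blocks_mul, hg, hp, blocks_one]
  · rw [blocks_mul, blocks_mul, h, hc]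

/-- the involution on six coordinates -/
def s6 : Fin 6 → Fin 6 := ![1, 0, 3, 2, 5, 4]

theorem sig6 : Sig s6 := ⟨by decide, by decide⟩

/-- data -/
def g6 : Matrix (Fin 6) (Fin 6) (ZMod 2) :=
  !![0, 1, 1, 0, 1, 0; 1, 0, 0, 1, 0, 1; 0, 0, 1, 0, 1, 0; 1, 0, 0, 0, 0, 1; 0, 0, 0, 1, 0, 1;
    0, 1, 0, 0, 1, 0]

theorem g6_sp : g6 * ad s6 g6 = 1 := by decide +kernel

theorem g6_conj : g6 * (sw 0 1 * (sw 2 3 * sw 4 5)) = (sw 0 1 * (sw 2 4 * sw 3 5)) * g6 := by
  decide +kernel

theorem g6F_sp : lf F g6 * ad s6 (lf F g6) = 1 := by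
  rw [ad_lf, ← lf_mul, g6_sp, lf_one]

theorem g6F_conj : lf F g6 * (De 0 0 1 * (De 0 2 3 * De 0 4 5)) =
    (De 0 0 1 * (De 0 2 4 * De 0 3 5)) * lf F g6 := by
  rw [← lf_sw (by decide), ← lf_sw (by decide), ← lf_sw (by decide), ← lf_sw (by decide),
    ← lf_sw (by decide), ← lf_mul, ← lf_mul, ← lf_mul, ← lf_mul, ← lf_mul, ← lf_mul, g6_conj]

/-- the conjugation on three planes -/
theorem SpConj6 {Y : Type*} [Fintype Y] [DecidableEq Y] {τ : Y → Y} (h : Sig τ)
    (c : Fin 6 → Y) (hc : Function.Injective c) (hs : ∀ a, τ (c a) = c (s6 a))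
    {Q : Matrix Y Y F} (h1 : ∀ a, Q *ᵥ e F (c a) = e F (c a))
    (h2 : ∀ a, e F (c a) ᵥ* Q = e F (c a)) :
    SpConj τ (Q * (De 0 (c 0) (c 1) * (De 0 (c 2) (c 3) * De 0 (c 4) (c 5))))
      (Q * (De 0 (c 0) (c 1) * (De 0 (c 2) (c 4) * De 0 (c 3) (c 5)))) := by
  refine ⟨emc c hc (lf F g6), ?_, ?_⟩
  · rw [ad_emc h c hc hs sig6, ← map_mul, g6F_sp, map_one]
  · have hcm := emc_comm c hc (lf F g6) h1 h2
    rw [← mul_assoc, hcm, mul_assoc, mul_assoc Q]
    congr 1
    rw [← emc_De c hc, ← emc_De c hc, ← emc_De c hc, ← emc_De c hc, ← emc_De c hc, ← map_mul,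
      ← map_mul, ← map_mul, ← map_mul, ← map_mul, ← map_mul, g6F_conj]

end ext

end H47Sp
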