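import Mathlib
import Pool.Agent.H.MP_0335f8_al.SExt

set_option linter.unusedSectionVars false
set_option linter.unusedSimpArgs false

namespace H47Sp

open Matrix H47Inv

section ext2

variable {F : Type*} [Field F] [CharP F 2] {X : Type*} [Fintype X] [DecidableEq X] {σ : X → X}
variable {l : F} {α β π : Matrix X X F} {i : X}

theorem nilX {j : X} (hij : i ≠ j) (ho : Off π i j) (hoA : Off (De 0 i j * α) i j)
    (hnil : ∃ N : ℕ, (π * (De 0 i j * α)) ^ (2 ^ N) = 1) :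
    ∃ N : ℕ, (piE π i j * (De 0 (Sum.inr 2) (Sum.inr 3) * alE α)) ^ (2 ^ N) = 1 := by
  obtain ⟨N, hN⟩ := hnil
  have hn1 : (Sum.inl i : X ⊕ Fin 4) ≠ Sum.inr 0 := by simp
  have hn2 : (Sum.inl j : X ⊕ Fin 4) ≠ Sum.inr 1 := by simp
  have hn3 : (Sum.inl i : X ⊕ Fin 4) ≠ Sum.inl j := by simpa using hij
  have hn4 : (Sum.inr 0 : X ⊕ Fin 4) ≠ Sum.inr 1 := by simp
  set P := hat (Fin 4) π with hP
  set Q := hat (Fin 4) (De 0 i j * α) with hQ
  set S1 := De (0 : F) (Sum.inl i : X ⊕ Fin 4) (Sum.inr 0) with hS1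
  set S2 := De (0 : F) (Sum.inl j : X ⊕ Fin 4) (Sum.inr 1) with hS2
  set S3 := De (0 : F) (Sum.inl i : X ⊕ Fin 4) (Sum.inl j) with hS3
  set S4 := De (0 : F) (Sum.inr 0 : X ⊕ Fin 4) (Sum.inr 1) with hS4
  have s1 : S1 * S1 = 1 := De_sq hn1
  have s2 : S2 * S2 = 1 := De_sq hn2
  have s3 : S3 * S3 = 1 := De_sq hn3
  have s4 : S4 * S4 = 1 := De_sq hn4
  have o12 : Off S1 (Sum.inl j) (Sum.inr 1) :=
    Off_De (by simpa using hij) (by simp) (by simp) (by simp)
  have c12 : S1 * S2 = S2 * S1 := De_comm' 0 o12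
  have cQ1 : Q * S1 = S1 * Q := De_comm' 0 (Off_hat_mix (κ := Fin 4) hoA 0)
  have cQ2 : Q * S2 = S2 * Q := De_comm' 0 (Off_hat_mix' (κ := Fin 4) hoA 1)
  have cQ3 : Q * S3 = S3 * Q := De_comm' 0 (Off_hat (κ := Fin 4) hoA)
  have cQ4 : Q * S4 = S4 * Q := De_comm' 0 (Off_hat_inr _ 0 1)
  have cP1 : P * S1 = S1 * P := De_comm' 0 (Off_hat_mix (κ := Fin 4) ho 0)
  have cP2 : P * S2 = S2 * P := De_comm' 0 (Off_hat_mix' (κ := Fin 4) ho 1)
  have cP3 : P * S3 = S3 * P := De_comm' 0 (Off_hat (κ := Fin 4) ho)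
  have cP4 : P * S4 = S4 * P := De_comm' 0 (Off_hat_inr _ 0 1)
  have c34 : S3 * S4 = S4 * S3 := De_comm' 0 (Off_De (by simp) (by simp) (by simp) (by simp))
  -- rewriting
  have e1 : De (0 : F) (Sum.inr 2 : X ⊕ Fin 4) (Sum.inr 3) * alE α = Q * (S3 * S4) := by
    have h1 : alE α = hat (Fin 4) α * fromBlocks 1 0 0 (A4 F) := by
      rw [hat_apply, blocks_mul, mul_one, one_mul]; rfl
    have h2 : hat (Fin 4) α = S3 * Q := by
      rw [hQ, map_mul, hat_De, ← mul_assoc, s3, one_mul]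
    have h3 : (fromBlocks 1 0 0 (A4 F) : Matrix (X ⊕ Fin 4) (X ⊕ Fin 4) F) =
        S4 * De (0 : F) (Sum.inr 2 : X ⊕ Fin 4) (Sum.inr 3) := by
      rw [hS4, De_inr, De_inr, blocks_mul, one_mul]; rfl
    have h4 : De (0 : F) (Sum.inr 2 : X ⊕ Fin 4) (Sum.inr 3) * hat (Fin 4) α =
        hat (Fin 4) α * De (0 : F) (Sum.inr 2 : X ⊕ Fin 4) (Sum.inr 3) :=
      (De_comm' 0 (Off_hat_inr _ 2 3)).symm
    have h5 : De (0 : F) (Sum.inr 2 : X ⊕ Fin 4) (Sum.inr 3) * S4 =
        S4 * De (0 : F) (Sum.inr 2 : X ⊕ Fin 4) (Sum.inr 3) :=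
      De_comm' 0 (Off_De (by simp) (by simp) (by simp) (by simp))
    have h6 : De (0 : F) (Sum.inr 2 : X ⊕ Fin 4) (Sum.inr 3) *
        De (0 : F) (Sum.inr 2 : X ⊕ Fin 4) (Sum.inr 3) = 1 := De_sq (by simp)
    rw [h1, h3, ← mul_assoc, h4, mul_assoc, ← mul_assoc _ S4, h5, mul_assoc S4, h6, mul_one, h2,
      ← cQ3, mul_assoc]
  have e2 : piE π i j * (De 0 (Sum.inr 2) (Sum.inr 3) * alE α) =
      (P * Q) * (S1 * S2 * (S3 * S4)) := by
    rw [e1]
    change P * (S1 * S2) * (Q * (S3 * S4)) = _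
    calc P * (S1 * S2) * (Q * (S3 * S4)) = P * (S1 * (S2 * Q)) * (S3 * S4) := by
          simp only [mul_assoc]
      _ = P * (S1 * (Q * S2)) * (S3 * S4) := by rw [cQ2]
      _ = P * ((S1 * Q) * S2) * (S3 * S4) := by simp only [mul_assoc]
      _ = P * ((Q * S1) * S2) * (S3 * S4) := by rw [cQ1]
      _ = _ := by simp only [mul_assoc]
  -- the square of the second factor
  have w3 : S1 * S2 * S3 = S4 * (S1 * S2) := by
    have a1 : S2 * S3 = De 0 (Sum.inl i) (Sum.inr 1) * S2 := by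
      have := swap_De (l := (0 : F)) hn2 (Sum.inl i) (Sum.inl j)
      rwa [Equiv.swap_apply_left, Equiv.swap_apply_of_ne_of_ne hn3 (by simp)] at this
    have a2 : S1 * De 0 (Sum.inl i) (Sum.inr 1) = S4 * S1 := by
      have := swap_De (l := (0 : F)) hn1 (Sum.inl i) (Sum.inr 1)
      rwa [Equiv.swap_apply_left, Equiv.swap_apply_of_ne_of_ne (by simp) (by simp)] at this
    rw [mul_assoc, a1, ← mul_assoc, a2, mul_assoc]
  have s12 : S1 * S2 * (S1 * S2) = 1 := by
    rw [c12, mul_assoc, ← mul_assoc S1 S2, c12, mul_assoc S2, s1, mul_one, s2]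
  have w4 : S1 * S2 * S4 = S3 * (S1 * S2) := by
    calc S1 * S2 * S4 = S1 * S2 * (S4 * (S1 * S2)) * (S1 * S2) := by
          simp only [mul_assoc]
          simp only [mul_assoc] at s12
          rw [s12, mul_one]
      _ = S1 * S2 * (S1 * S2 * S3) * (S1 * S2) := by rw [w3]
      _ = (S1 * S2 * (S1 * S2)) * S3 * (S1 * S2) := by simp only [mul_assoc]
      _ = _ := by rw [s12, one_mul]
  have v2 : (S1 * S2 * (S3 * S4)) ^ 2 = 1 := by
    rw [pow_two]
    calc S1 * S2 * (S3 * S4) * (S1 * S2 * (S3 * S4))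
        = S1 * S2 * S3 * (S4 * (S1 * S2)) * (S3 * S4) := by simp only [mul_assoc]
      _ = S1 * S2 * S3 * (S1 * S2 * S3) * (S3 * S4) := by rw [w3]
      _ = S1 * S2 * S3 * (S1 * S2) * (S3 * S3) * S4 := by simp only [mul_assoc]
      _ = S1 * S2 * S3 * (S1 * S2) * S4 := by rw [s3, mul_one]
      _ = S1 * S2 * S3 * (S1 * S2 * S4) := by simp only [mul_assoc]
      _ = S1 * S2 * S3 * (S3 * (S1 * S2)) := by rw [w4]
      _ = S1 * S2 * (S3 * S3) * (S1 * S2) := by simp only [mul_assoc]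
      _ = 1 := by rw [s3, mul_one, s12]
  have hcomm : Commute (P * Q) (S1 * S2 * (S3 * S4)) := by
    have d1 : Commute (P * Q) S1 := (Commute.mul_left cP1 cQ1)
    have d2 : Commute (P * Q) S2 := (Commute.mul_left cP2 cQ2)
    have d3 : Commute (P * Q) S3 := (Commute.mul_left cP3 cQ3)
    have d4 : Commute (P * Q) S4 := (Commute.mul_left cP4 cQ4)
    exact (d1.mul_right d2).mul_right (d3.mul_right d4)
  refine ⟨N + 1, ?_⟩
  rw [e2, hcomm.mul_pow]
  have p1 : (P * Q) ^ (2 ^ (N + 1)) = 1 := by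
    rw [hP, hQ, ← map_mul, ← map_pow, pow_succ, pow_mul, hN, one_pow, map_one]
  have p2 : (S1 * S2 * (S3 * S4)) ^ (2 ^ (N + 1)) = 1 := by
    rw [pow_succ', pow_mul, v2, one_pow]
  rw [p1, p2, one_mul]

/-- the six coordinates of three planes -/
def cc (i j : X) : Fin 6 → X ⊕ Fin 4 :=
  ![Sum.inl i, Sum.inl j, Sum.inr 0, Sum.inr 1, Sum.inr 2, Sum.inr 3]

/-- the six coordinates of three planes, other order -/
def cd (i j : X) : Fin 6 → X ⊕ Fin 4 :=
  ![Sum.inr 2, Sum.inr 3, Sum.inl i, Sum.inl j, Sum.inr 0, Sum.inr 1]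

theorem cc_inj {i j : X} (hij : i ≠ j) : Function.Injective (cc i j) := by
  intro a b hab
  fin_cases a <;> fin_cases b <;> simp [cc, hij, hij.symm] at hab ⊢

theorem cd_inj {i j : X} (hij : i ≠ j) : Function.Injective (cd i j) := by
  intro a b hab
  fin_cases a <;> fin_cases b <;> simp [cd, hij, hij.symm] at hab ⊢

theorem cc_s (h : Sig σ) (i : X) (a : Fin 6) : sE σ (cc i (σ i) a) = cc i (σ i) (s6 a) := by
  fin_cases a <;> simp [cc, sE, s4, s6, h.inv]

theorem cd_s (h : Sig σ) (i : X) (a : Fin 6) : sE σ (cd i (σ i) a) = cd i (σ i) (s6 a) := by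
  fin_cases a <;> simp [cd, sE, s4, s6, h.inv]

theorem fix_cc {i j : X} {Q : Matrix X X F} (hQ : Off Q i j) (a : Fin 6) :
    hat (Fin 4) Q *ᵥ e F (cc i j a) = e F (cc i j a) ∧
      e F (cc i j a) ᵥ* hat (Fin 4) Q = e F (cc i j a) := by
  fin_cases a
  · exact ⟨(Off_hat hQ).h1, (Off_hat hQ).h3⟩
  · exact ⟨(Off_hat hQ).h2, (Off_hat hQ).h4⟩
  · exact ⟨hat_e_inr _ _, e_inr_hat _ _⟩
  · exact ⟨hat_e_inr _ _, e_inr_hat _ _⟩
  · exact ⟨hat_e_inr _ _, e_inr_hat _ _⟩
  · exact ⟨hat_e_inr _ _, e_inr_hat _ _⟩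

theorem fix_cd {i j : X} {Q : Matrix X X F} (hQ : Off Q i j) (a : Fin 6) :
    hat (Fin 4) Q *ᵥ e F (cd i j a) = e F (cd i j a) ∧
      e F (cd i j a) ᵥ* hat (Fin 4) Q = e F (cd i j a) := by
  fin_cases a
  · exact ⟨hat_e_inr _ _, e_inr_hat _ _⟩
  · exact ⟨hat_e_inr _ _, e_inr_hat _ _⟩
  · exact ⟨(Off_hat hQ).h1, (Off_hat hQ).h3⟩
  · exact ⟨(Off_hat hQ).h2, (Off_hat hQ).h4⟩
  · exact ⟨hat_e_inr _ _, e_inr_hat _ _⟩
  · exact ⟨hat_e_inr _ _, e_inr_hat _ _⟩

theorem hat_split (hij : i ≠ σ i) (hoA : Off (De 0 i (σ i) * α) i (σ i)) :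
    hat (Fin 4) α = hat (Fin 4) (De 0 i (σ i) * α) *
      De (0 : F) (Sum.inl i : X ⊕ Fin 4) (Sum.inl (σ i)) := by
  rw [De_comm' 0 (Off_hat (κ := Fin 4) hoA), map_mul, hat_De, ← mul_assoc, De_sq (by simpa using hij),
    one_mul]

/-- the first conjugation: the regular block replaced by the exchange of planes -/
theorem conj_first (h : IsGad l σ α β π i) :
    SpConj (sE σ) (alE α) (fromBlocks α 0 0 (B4 F)) := by
  have hij := h.hij
  have hoA := h.offA
  have key := SpConj6 (F := F) (sigE h.sig) (cc i (σ i)) (cc_inj hij) (cc_s h.sig i)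
    (Q := hat (Fin 4) (De 0 i (σ i) * α)) (fun a => (fix_cc hoA a).1) (fun a => (fix_cc hoA a).2)
  have e1 : hat (Fin 4) (De 0 i (σ i) * α) * (De (0 : F) (cc i (σ i) 0) (cc i (σ i) 1) *
      (De 0 (cc i (σ i) 2) (cc i (σ i) 3) * De 0 (cc i (σ i) 4) (cc i (σ i) 5))) = alE α := by
    change hat (Fin 4) (De 0 i (σ i) * α) * (De (0 : F) (Sum.inl i) (Sum.inl (σ i)) *
      (De 0 (Sum.inr 0) (Sum.inr 1) * De 0 (Sum.inr 2) (Sum.inr 3))) = alE α
    rw [← mul_assoc, ← hat_split hij hoA, De_inr, De_inr, blocks_mul, hat_apply, blocks_mul,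
      one_mul, mul_one, one_mul]
    rfl
  have e2 : hat (Fin 4) (De 0 i (σ i) * α) * (De (0 : F) (cc i (σ i) 0) (cc i (σ i) 1) *
      (De 0 (cc i (σ i) 2) (cc i (σ i) 4) * De 0 (cc i (σ i) 3) (cc i (σ i) 5))) =
      fromBlocks α 0 0 (B4 F) := by
    change hat (Fin 4) (De 0 i (σ i) * α) * (De (0 : F) (Sum.inl i) (Sum.inl (σ i)) *
      (De 0 (Sum.inr 0) (Sum.inr 2) * De 0 (Sum.inr 1) (Sum.inr 3))) = _
    rw [← mul_assoc, ← hat_split hij hoA, De_inr, De_inr, blocks_mul, hat_apply, blocks_mul,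
      one_mul, mul_one, one_mul]
    rfl
  rw [e1, e2] at key
  exact key

theorem c1X (h : IsGad l σ α β π i) : SpConj (sE σ) (alE α) (beE β) :=
  (conj_first h).trans (sigE h.sig)
    (SpConj_blocks h.c1 (by rw [ad_one sig4, one_mul]) (by simp))

theorem conjBC : De 0 2 3 * B4 F = A4 F * B4 F * De 0 2 3 := by
  apply fin4_ext
  intro z
  rw [← mulVec_mulVec, ← mulVec_mulVec, ← mulVec_mulVec, B4_e, De0_e (by decide),
    De0_e (by decide), B4_e, A4_e]
  congr 1
  revert z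
  decide

theorem c2X (h : IsGad l σ α β π i) : SpConj (sE σ) (alE α) (alE α * beE β) := by
  have e1 : alE α * beE β = fromBlocks (α * β) 0 0 (A4 F * B4 F) := by rw [alE, beE, blocks_mul]
  rw [e1]
  refine (conj_first h).trans (sigE h.sig)
    (SpConj_blocks (p := De 0 2 3) h.c2 ?_ conjBC)
  rw [ad_swap sig4 (by decide)]
  change De (0 : F) 2 3 * De 0 3 2 = 1
  rw [De0_symm (x := (3 : Fin 4)) (by decide), De_sq (by decide)]

theorem c3X (h : IsGad l σ α β π i) :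
    SpConj (sE σ) (alE α) (piE π i (σ i) * De 0 (Sum.inr 2) (Sum.inr 3)) := by
  have hij := h.hij
  have ho := h.off
  have st1 : SpConj (sE σ) (alE α) (fromBlocks (π * De 0 i (σ i)) 0 0 (A4 F)) :=
    SpConj_blocks h.c3 (by rw [ad_one sig4, one_mul]) (by simp)
  refine st1.trans (sigE h.sig) ?_
  have key := SpConj6 (F := F) (sigE h.sig) (cd i (σ i)) (cd_inj hij) (cd_s h.sig i)
    (Q := hat (Fin 4) π) (fun a => (fix_cd ho a).1) (fun a => (fix_cd ho a).2)
  have e1 : hat (Fin 4) π * (De (0 : F) (cd i (σ i) 0) (cd i (σ i) 1) *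
      (De 0 (cd i (σ i) 2) (cd i (σ i) 3) * De 0 (cd i (σ i) 4) (cd i (σ i) 5))) =
      fromBlocks (π * De 0 i (σ i)) 0 0 (A4 F) := by
    change hat (Fin 4) π * (De (0 : F) (Sum.inr 2) (Sum.inr 3) *
      (De 0 (Sum.inl i) (Sum.inl (σ i)) * De 0 (Sum.inr 0) (Sum.inr 1))) = _
    have w : De (0 : F) (Sum.inr 2 : X ⊕ Fin 4) (Sum.inr 3) *
        (De 0 (Sum.inl i) (Sum.inl (σ i)) * De 0 (Sum.inr 0) (Sum.inr 1)) =
        De 0 (Sum.inl i) (Sum.inl (σ i)) * (De 0 (Sum.inr 0) (Sum.inr 1) *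
          De (0 : F) (Sum.inr 2 : X ⊕ Fin 4) (Sum.inr 3)) := by
      rw [← mul_assoc, De_comm' 0 (Off_De (by simp) (by simp) (by simp) (by simp)), mul_assoc,
        De_comm' 0 (Off_De (a := Sum.inr 2) (b := Sum.inr 3) (x := (Sum.inr 0 : X ⊕ Fin 4))
          (y := Sum.inr 1) (by simp) (by simp) (by simp) (by simp))]
    rw [w, ← hat_De, ← mul_assoc, ← map_mul, De_inr, De_inr, blocks_mul, hat_apply, blocks_mul,
      one_mul, mul_one, one_mul]
    rfl
  have e2 : hat (Fin 4) π * (De (0 : F) (cd i (σ i) 0) (cd i (σ i) 1) *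
      (De 0 (cd i (σ i) 2) (cd i (σ i) 4) * De 0 (cd i (σ i) 3) (cd i (σ i) 5))) =
      piE π i (σ i) * De 0 (Sum.inr 2) (Sum.inr 3) := by
    change hat (Fin 4) π * (De (0 : F) (Sum.inr 2) (Sum.inr 3) *
      (De 0 (Sum.inl i) (Sum.inr 0) * De 0 (Sum.inl (σ i)) (Sum.inr 1))) = _
    have w : De (0 : F) (Sum.inr 2 : X ⊕ Fin 4) (Sum.inr 3) *
        (De 0 (Sum.inl i) (Sum.inr 0) * De 0 (Sum.inl (σ i)) (Sum.inr 1)) =
        (De 0 (Sum.inl i) (Sum.inr 0) * De 0 (Sum.inl (σ i)) (Sum.inr 1)) *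
          De (0 : F) (Sum.inr 2 : X ⊕ Fin 4) (Sum.inr 3) := by
      have o2 : Off (De (0 : F) (Sum.inl i : X ⊕ Fin 4) (Sum.inr 0)) (Sum.inr 2) (Sum.inr 3) :=
        Off_De (by simp) (by simp) (by simp) (by simp)
      have o3 : Off (De (0 : F) (Sum.inl (σ i) : X ⊕ Fin 4) (Sum.inr 1)) (Sum.inr 2)
          (Sum.inr 3) := Off_De (by simp) (by simp) (by simp) (by simp)
      exact (De_comm' 0 (o2.mul o3)).symm
    rw [w, piE, ← mul_assoc]
  rw [e1, e2] at key
  exact key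

theorem adPiE (h : IsGad l σ α β π i) : ad (sE σ) (piE π i (σ i)) = piE π i (σ i) := by
  have hij := h.hij
  have ho := h.off
  have hs := sigE h.sig
  unfold piE
  rw [ad_mul hs, ad_mul hs, ad_hat, h.aπ, ad_swap hs (by simp), ad_swap hs (by simp)]
  have e1 : sE σ (Sum.inl i) = Sum.inl (σ i) := rfl
  have e2 : sE σ (Sum.inl (σ i)) = Sum.inl i := by simp [sE, h.sig.inv]
  have e3 : sE σ (Sum.inr 0) = Sum.inr 1 := rfl
  have e4 : sE σ (Sum.inr 1) = Sum.inr 0 := rfl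
  rw [e1, e2, e3, e4]
  have c1 := De_comm' 0 (Off_hat_mix (κ := Fin 4) ho 0)
  have c2 := De_comm' 0 (Off_hat_mix' (κ := Fin 4) ho 1)
  rw [mul_assoc, ← c2, ← mul_assoc, ← c1, mul_assoc]

section LC

variable {M : Submonoid (Matrix (X ⊕ Fin 4) (X ⊕ Fin 4) F)}

theorem Bf_elim (v w : X → F) (z u : Fin 4 → F) :
    Bf (sE σ) (Sum.elim v z) (Sum.elim w u) = Bf σ v w + Bf s4 z u := by
  unfold Bf
  have : Jv (sE σ) (Sum.elim v z) = Sum.elim (Jv σ v) (Jv s4 z) := by
    ext x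
    rcases x with x | x <;> simp [Jv, sE]
  rw [this, sumElim_dotProduct_sumElim]

theorem moveE (h : Sig σ) (hold : ∀ v : X → F, XX M (sE σ) (Sum.elim v 0)) {z : Fin 4 → F}
    {v v' : X → F} (hv : v ≠ 0) (hv' : v' ≠ 0) (hx : XX M (sE σ) (Sum.elim v z)) :
    XX M (sE σ) (Sum.elim v' z) := by
  have step : ∀ v v' : X → F, Bf σ v v' ≠ 0 → XX M (sE σ) (Sum.elim v z) →
      XX M (sE σ) (Sum.elim v' z) := by
    intro v v' hB hx
    have := hx.add (sigE h) (hold (v' - v)) ?_ 1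
    · convert this using 1
      ext a
      rcases a with a | a <;> simp
    · rw [Bf_elim, Bf_sub_right, Bf_self h, Bf_zero_right]
      simpa using hB
  obtain ⟨x, hx0⟩ := elim_ne hv
  obtain ⟨y, hy0⟩ := elim_ne hv'
  have two : ∀ w : X → F, Bf σ v w ≠ 0 → Bf σ v' w ≠ 0 → XX M (sE σ) (Sum.elim v' z) := by
    intro w h1 h2
    exact step w v' (by rw [Bf_comm h]; exact h2) (step v w h1 hx)
  by_cases c1 : v' x = 0
  · by_cases c2 : v y = 0
    · refine two (e F (σ x) + e F (σ y)) ?_ ?_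
      · rw [Bf_add_right, Bf_e' h, Bf_e' h, h.inv, h.inv, c2, add_zero]; exact hx0
      · rw [Bf_add_right, Bf_e' h, Bf_e' h, h.inv, h.inv, c1, zero_add]; exact hy0
    · refine two (e F (σ y)) ?_ ?_
      · rw [Bf_e' h, h.inv]; exact c2
      · rw [Bf_e' h, h.inv]; exact hy0
  · refine two (e F (σ x)) ?_ ?_
    · rw [Bf_e' h, h.inv]; exact hx0
    · rw [Bf_e' h, h.inv]; exact c1

theorem LCX (h : IsGad l σ α β π i) :
    LocalX l (sE σ) (alE α) (beE β) (piE π i (σ i)) (Sum.inr 2) := by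
  intro M' hinv hD hα hβ hπ
  have hij := h.hij
  have ho := h.off
  have hs := sigE h.sig
  have hbb : beE β * beE β = 1 := beE_sq h.hβ
  have hpp : piE π i (σ i) * piE π i (σ i) = 1 := piE_sq hij h.hπ ho
  have s23 : sE σ (Sum.inr 2) = Sum.inr 3 := rfl
  rw [s23] at hD hπ
  have st1 : De l (Sum.inr 0) (Sum.inr 1) ∈ M' := by
    have := hβ _ hD
    rw [De, conj_Dm hbb, beE_inr, beE_inr, inr_beE, inr_beE] at this
    exact this
  have st2 : De l (Sum.inl i) (Sum.inl (σ i)) ∈ M' := by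
    have := hπ _ st1 (Off_De (by simp) (by simp) (by simp) (by simp))
    rw [De, conj_Dm hpp, piE_inr0 ho, piE_inr1 hij ho, inr0_piE hij,
      inr1_piE i (σ i)] at this
    exact this
  have hF0 : FullX (M'.comap (hat (Fin 4))) σ := by
    refine h.LC _ ?_ ?_ ?_ ?_ ?_
    · intro x y hx hxy
      have : hat (Fin 4) x * hat (Fin 4) y = 1 := by rw [← map_mul, hxy, map_one]
      exact hinv _ _ hx this
    · change hat (Fin 4) (De l i (σ i)) ∈ M'
      rw [hat_De]; exact st2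
    · intro x hx
      have := hα _ hx
      change hat (Fin 4) (α * x * α) ∈ M'
      rw [hat_apply, alE, blocks_mul, blocks_mul, mul_one, A4_sq] at this
      exact this
    · intro x hx
      have := hβ _ hx
      change hat (Fin 4) (β * x * β) ∈ M'
      rw [hat_apply, beE, blocks_mul, blocks_mul, mul_one, B4_sq] at this
      exact this
    · intro x hx hox
      have := hπ _ hx (Off_hat_inr _ 2 3)
      change hat (Fin 4) (π * x * π) ∈ M'
      have e1 : piE π i (σ i) * hat (Fin 4) x * piE π i (σ i) = hat (Fin 4) (π * x * π) := by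
        have c1 := De_comm' 0 (Off_hat_mix (κ := Fin 4) hox 0)
        have c2 := De_comm' 0 (Off_hat_mix' (κ := Fin 4) hox 1)
        rw [map_mul, map_mul]
        set P := hat (Fin 4) π with hP
        set X' := hat (Fin 4) x with hX
        have s0 : piE π i (σ i) = P * (De (0 : F) (Sum.inl i : X ⊕ Fin 4) (Sum.inr 0) *
          De (0 : F) (Sum.inl (σ i) : X ⊕ Fin 4) (Sum.inr 1)) := rfl
        rw [s0] at hpp ⊢
        set S1 := De (0 : F) (Sum.inl i : X ⊕ Fin 4) (Sum.inr 0)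
        set S2 := De (0 : F) (Sum.inl (σ i) : X ⊕ Fin 4) (Sum.inr 1)
        have hPP : P * P = 1 := by rw [hP, ← map_mul, h.hπ, map_one]
        have t1 : (S1 * S2) * X' = X' * (S1 * S2) := by
          rw [mul_assoc, ← c2, ← mul_assoc, ← c1, mul_assoc]
        have t2 : (S1 * S2) * (P * (S1 * S2)) = P := by
          calc (S1 * S2) * (P * (S1 * S2)) = (P * P) * ((S1 * S2) * (P * (S1 * S2))) := by
                rw [hPP, one_mul]
            _ = P * (P * (S1 * S2) * (P * (S1 * S2))) := by simp only [mul_assoc]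
            _ = P := by rw [hpp, mul_one]
        calc P * (S1 * S2) * X' * (P * (S1 * S2)) = P * ((S1 * S2) * X') * (P * (S1 * S2)) := by
              simp only [mul_assoc]
          _ = P * X' * ((S1 * S2) * (P * (S1 * S2))) := by rw [t1]; simp only [mul_assoc]
          _ = P * X' * P := by rw [t2]
      rw [e1] at this
      exact this
  have hold : ∀ v : X → F, XX M' (sE σ) (Sum.elim v 0) := by
    intro v c
    have h1 := hF0 v c
    change hat (Fin 4) (Tm (c • v) (Jv σ v)) ∈ M' at h1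
    rw [hat_Tm] at h1
    have e1 : c • (Sum.elim v 0 : X ⊕ Fin 4 → F) = Sum.elim (c • v) 0 := by
      ext b
      rcases b with b | b <;> simp
    have e2 : Jv (sE σ) (Sum.elim v 0 : X ⊕ Fin 4 → F) = Sum.elim (Jv σ v) 0 := by
      ext b
      rcases b with b | b <;> simp [Jv, sE]
    rw [e1, e2]
    exact h1
  obtain ⟨k, hki, hkj⟩ := h.hk
  have aB : ad (sE σ) (beE β) = beE β := by rw [beE, ad_blocks, h.aβ, adB4]
  have aP := adPiE h
  have hbe : ∀ v : X ⊕ Fin 4 → F, XX M' (sE σ) v → XX M' (sE σ) (beE β *ᵥ v) := by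
    intro v hv
    refine hv.conj hs (by rw [aB, hbb]) ?_
    intro c hc
    rw [aB]
    exact hβ _ hc
  have hpe : ∀ v : X → F, XX M' (sE σ) (piE π i (σ i) *ᵥ Sum.elim v 0) := by
    intro v
    refine (hold v).conj hs (by rw [aP, hpp]) ?_
    intro c hc
    rw [aP]
    refine hπ _ hc ?_
    refine Off_Tm ?_ ?_ ?_ ?_ <;> simp [Jv, sE, s4]
  have b0 : XX M' (sE σ) (e F (Sum.inr 0)) := by
    have := hpe (e F i)
    rwa [← e_inl, piE_inli hij] at this
  have b1 : XX M' (sE σ) (e F (Sum.inr 1)) := by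
    have := hpe (e F (σ i))
    rwa [← e_inl, piE_inlj i (σ i)] at this
  have b2 : XX M' (sE σ) (e F (Sum.inr 2)) := by
    have := hbe _ b0
    rw [beE_inr] at this
    exact this
  have b3 : XX M' (sE σ) (e F (Sum.inr 3)) := by
    have := hbe _ b1
    rw [beE_inr] at this
    exact this
  have add_elim : ∀ (v w : X → F) (z u : Fin 4 → F),
      (Sum.elim v z + Sum.elim w u : X ⊕ Fin 4 → F) = Sum.elim (v + w) (z + u) := by
    intro v w z u
    ext b
    rcases b with b | b <;> simp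
  have l0 : ∀ v : X → F, v ≠ 0 → XX M' (sE σ) (Sum.elim v (e F 0)) := by
    intro v hv
    have h1 := hpe (e F i + e F k)
    have e1 : (Sum.elim (e F i + e F k) 0 : X ⊕ Fin 4 → F) = e F (Sum.inl i) + e F (Sum.inl k) := by
      rw [e_inl, e_inl, add_elim, add_zero]
    rw [e1, mulVec_add, piE_inli hij, piE_inlk hki hkj, e_inr, add_elim, zero_add,
      add_zero] at h1
    exact moveE h.sig hold (mulVec_ne h.hπ k) hv h1
  have l1 : ∀ v : X → F, v ≠ 0 → XX M' (sE σ) (Sum.elim v (e F 1)) := by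
    intro v hv
    have h1 := hpe (e F (σ i) + e F k)
    have e1 : (Sum.elim (e F (σ i) + e F k) 0 : X ⊕ Fin 4 → F) =
        e F (Sum.inl (σ i)) + e F (Sum.inl k) := by
      rw [e_inl, e_inl, add_elim, add_zero]
    rw [e1, mulVec_add, piE_inlj i (σ i), piE_inlk hki hkj, e_inr, add_elim, zero_add,
      add_zero] at h1
    exact moveE h.sig hold (mulVec_ne h.hπ k) hv h1
  have l2 : ∀ v : X → F, v ≠ 0 → XX M' (sE σ) (Sum.elim v (e F 2)) := by
    intro v hv
    have h1 := hbe _ (l0 (e F i) (by intro hc; simpa [e_apply] using congrFun hc i))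
    rw [beE, blocks_mulVec, B4_e] at h1
    exact moveE h.sig hold (mulVec_ne h.hβ i) hv h1
  have l3 : ∀ v : X → F, v ≠ 0 → XX M' (sE σ) (Sum.elim v (e F 3)) := by
    intro v hv
    have h1 := hbe _ (l1 (e F i) (by intro hc; simpa [e_apply] using congrFun hc i))
    rw [beE, blocks_mulVec, B4_e] at h1
    exact moveE h.sig hold (mulVec_ne h.hβ i) hv h1
  have lei : e F i ≠ 0 := by intro hc; simpa [e_apply] using congrFun hc i
  refine full_of_hub hs (i := Sum.inl i) ?_ ?_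
  · rintro (x | m)
    · rw [e_inl]; exact hold _
    · fin_cases m
      · exact b0
      · exact b1
      · exact b2
      · exact b3
  · rintro (x | m) - -
    · rw [e_inl, e_inl, add_elim, add_zero]; exact hold _
    · rw [e_inl, e_inr, add_elim, add_zero, zero_add]
      fin_cases m
      · exact l0 _ lei
      · exact l1 _ lei
      · exact l2 _ lei
      · exact l3 _ lei

end LC

/-- Extension of a symplectic gadget by two planes. -/
theorem IsGad.ext (h : IsGad l σ α β π i) :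
    IsGad l (sE σ) (alE α) (beE β) (piE π i (σ i)) (Sum.inr 2) where
  sig := sigE h.sig
  hk := ⟨Sum.inr 0, by simp, by simp [sE, s4]⟩
  hα := alE_sq h.hα
  hβ := beE_sq h.hβ
  hπ := piE_sq h.hij h.hπ h.off
  hαβ := by rw [alE, beE, blocks_mul, blocks_mul, h.hαβ, AB4]
  aα := by rw [alE, ad_blocks, h.aα, adA4]
  aβ := by rw [beE, ad_blocks, h.aβ, adB4]
  aπ := adPiE h
  αi := by rw [alE, e_inr, blocks_mulVec, mulVec_zero, A4_e]; exact (e_inr _).symm
  off := by
    have o1 : Off (hat (Fin 4) π) (Sum.inr 2) (Sum.inr 3) := Off_hat_inr _ 2 3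
    have o2 : Off (De (0 : F) (Sum.inl i : X ⊕ Fin 4) (Sum.inr 0)) (Sum.inr 2) (Sum.inr 3) :=
      Off_De (by simp) (by simp) (by simp) (by simp)
    have o3 : Off (De (0 : F) (Sum.inl (σ i) : X ⊕ Fin 4) (Sum.inr 1)) (Sum.inr 2) (Sum.inr 3) :=
      Off_De (by simp) (by simp) (by simp) (by simp)
    exact o1.mul (o2.mul o3)
  nil := nilX h.hij h.off h.offA h.nil
  c1 := c1X h
  c2 := c2X h
  c3 := c3X h
  LC := LCX h

end ext2

end H47Sp
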