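import Mathlib
import Pool.Agent.H.MP_0335f8_al.SExt2
import Pool.Agent.H.MP_0335f8_al.Main

set_option linter.unusedSectionVars false
set_option linter.unusedSimpArgs false

namespace H47Sp

open Matrix H47Inv

section grp

variable {F : Type*} [Field F] {X : Type*} [Fintype X] [DecidableEq X] {σ : X → X}

/-- the symplectic group as a group of invertible matrices -/
def SpG (F : Type*) [Field F] (h : Sig σ) : Subgroup (Matrix X X F)ˣ where
  carrier := {u | (u : Matrix X X F) * ad σ (u : Matrix X X F) = 1}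
  mul_mem' := by
    intro u v hu hv
    have hv' : (v : Matrix X X F) * ad σ (v : Matrix X X F) = 1 := hv
    have hu' : (u : Matrix X X F) * ad σ (u : Matrix X X F) = 1 := hu
    change (u : Matrix X X F) * (v : Matrix X X F) *
      ad σ ((u : Matrix X X F) * (v : Matrix X X F)) = 1
    rw [ad_mul h]
    calc (u : Matrix X X F) * (v : Matrix X X F) * (ad σ (v : Matrix X X F) *
          ad σ (u : Matrix X X F)) = (u : Matrix X X F) *
          ((v : Matrix X X F) * ad σ (v : Matrix X X F)) * ad σ (u : Matrix X X F) := by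
          simp only [mul_assoc]
      _ = 1 := by rw [hv', mul_one, hu']
  one_mem' := by
    change (1 : Matrix X X F) * ad σ (1 : Matrix X X F) = 1
    rw [ad_one h, one_mul]
  inv_mem' := by
    intro u hu
    have hu' : (u : Matrix X X F) * ad σ (u : Matrix X X F) = 1 := hu
    have h1 : ((u⁻¹ : (Matrix X X F)ˣ) : Matrix X X F) = ad σ (u : Matrix X X F) :=
      Units.inv_eq_of_mul_eq_one_right hu'
    change ((u⁻¹ : (Matrix X X F)ˣ) : Matrix X X F) *
      ad σ ((u⁻¹ : (Matrix X X F)ˣ) : Matrix X X F) = 1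
    rw [h1, ad_ad h]
    exact mul_eq_one_comm.1 hu'

/-- the matrix of an element -/
def mt {h : Sig σ} (u : SpG F h) : Matrix X X F := ((u : (Matrix X X F)ˣ) : Matrix X X F)

theorem mt_mul {h : Sig σ} (u v : SpG F h) : mt (u * v) = mt u * mt v := rfl

theorem mt_one {h : Sig σ} : mt (1 : SpG F h) = 1 := rfl

theorem mt_inj {h : Sig σ} {u v : SpG F h} (huv : mt u = mt v) : u = v :=
  Subtype.ext (Units.ext huv)

theorem mt_sp {h : Sig σ} (u : SpG F h) : mt u * ad σ (mt u) = 1 := u.2

/-- an element from a matrix -/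
def mk (h : Sig σ) (A : Matrix X X F) (hA : A * ad σ A = 1) : SpG F h :=
  ⟨⟨A, ad σ A, hA, mul_eq_one_comm.1 hA⟩, hA⟩

theorem mt_mk (h : Sig σ) (A : Matrix X X F) (hA : A * ad σ A = 1) : mt (mk h A hA) = A := rfl

theorem isConj_of_SpConj {h : Sig σ} {A B : SpG F h} (k : SpConj σ (mt A) (mt B)) :
    IsConj A B := by
  obtain ⟨g, hd, hg⟩ := k
  rw [isConj_iff]
  refine ⟨mk h g hd, mul_inv_eq_iff_eq_mul.2 (mt_inj ?_)⟩
  rw [mt_mul, mt_mul, mt_mk]
  exact hg

/-- the submonoid of matrices of a subgroup -/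
def matOf {h : Sig σ} (H : Subgroup (SpG F h)) : Submonoid (Matrix X X F) where
  carrier := {x | ∃ u ∈ H, mt u = x}
  mul_mem' := by
    rintro _ _ ⟨u, hu, rfl⟩ ⟨v, hv, rfl⟩
    exact ⟨u * v, H.mul_mem hu hv, rfl⟩
  one_mem' := ⟨1, H.one_mem, rfl⟩

theorem mem_matOf {h : Sig σ} {H : Subgroup (SpG F h)} {x : Matrix X X F} :
    x ∈ matOf H ↔ ∃ u ∈ H, mt u = x := Iff.rfl

theorem matOf_inv {h : Sig σ} (H : Subgroup (SpG F h)) : InvClosed (matOf H) := by
  rintro x y ⟨u, hu, rfl⟩ hxy
  refine ⟨u⁻¹, H.inv_mem hu, ?_⟩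
  have h1 : mt u⁻¹ * mt u = 1 := by rw [← mt_mul, inv_mul_cancel]; rfl
  calc mt u⁻¹ = mt u⁻¹ * (mt u * y) := by rw [hxy, mul_one]
    _ = y := by rw [← mul_assoc, h1, one_mul]

variable [CharP F 2]

theorem top_of_full {h : Sig σ} {H : Subgroup (SpG F h)} (hF : FullX (matOf H) σ) : H = ⊤ := by
  rw [eq_top_iff]
  intro g _
  obtain ⟨u, hu, hug⟩ := sp_mem h hF (mt_sp g)
  rw [← mt_inj hug]
  exact hu

variable {i : X}

theorem ad_Tme (h : Sig σ) (c : F) (i : X) :
    ad σ (Tm (c • e F i) (e F (σ i))) = Tm (c • e F i) (e F (σ i)) := by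
  have := ad_Tm h c (e F i)
  rwa [Jv_e h] at this

theorem ad_Tme' (h : Sig σ) (c : F) (i : X) :
    ad σ (Tm (c • e F (σ i)) (e F i)) = Tm (c • e F (σ i)) (e F i) := by
  have := ad_Tm h c (e F (σ i))
  rwa [Jv_e' h] at this

theorem conj_swapX {π : Matrix X X F} (h : Sig σ) (ho : Off π i (σ i)) :
    SpConj σ (π * De 0 i (σ i)) (π * Tm ((1 : F) • e F i) (e F (σ i))) := by
  have hij : i ≠ σ i := (h.ne i).symm
  obtain ⟨j, hj⟩ : ∃ j, j = σ i := ⟨_, rfl⟩
  refine ⟨Tm ((1 : F) • e F (σ i)) (e F i), ?_, ?_⟩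
  · rw [ad_Tme' h, Tm_sq hij.symm]
  · rw [← hj] at hij ho ⊢
    rw [← mul_assoc, ← Off_comm_Tm' ho, mul_assoc, mul_assoc]
    congr 1
    have h2 : (2 : F) = 0 := CharTwo.two_eq_zero
    simp only [De, Dm, Tm, mul_add, add_mul, mul_one, one_mul, vmv_mul, e_dot_e, hij, hij.symm,
      dotProduct_add, dotProduct_sub, dotProduct_smul, smul_dotProduct, smul_eq_mul]
    ext a b
    simp only [Matrix.add_apply, Matrix.smul_apply, vecMulVec_apply, Pi.add_apply, Pi.smul_apply,
      Pi.sub_apply, smul_eq_mul, if_true, if_false]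
    linear_combination (- e F i a * e F i b) * h2

theorem Dg_sp (h : Sig σ) {a : F} (ha : a ≠ 0) :
    Dg i (σ i) a * ad σ (Dg i (σ i) a) = 1 := by
  have hij : i ≠ σ i := (h.ne i).symm
  have e1 : ad σ (Dg i (σ i) a) = Dg i (σ i) a⁻¹ := by
    have f1 : (e F i) = Jv σ (e F (σ i)) := (Jv_e' h i).symm
    have f2 : (e F (σ i)) = Jv σ (e F i) := (Jv_e h i).symm
    unfold Dg
    rw [ad_add, ad_add, ad_one h]
    have g1 : ad σ (vecMulVec ((a - 1) • e F i) (e F i)) =
        vecMulVec ((a⁻¹⁻¹ - 1) • e F (σ i)) (e F (σ i)) := by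
      conv_lhs => rw [show vecMulVec ((a - 1) • e F i) (e F i) =
        vecMulVec ((a - 1) • e F i) (Jv σ (e F (σ i))) by rw [← f1]]
      rw [ad_vmv h, Jv_smul, Jv_e h, inv_inv, vecMulVec_smul, smul_vecMulVec]
    have g2 : ad σ (vecMulVec ((a⁻¹ - 1) • e F (σ i)) (e F (σ i))) =
        vecMulVec ((a⁻¹ - 1) • e F i) (e F i) := by
      conv_lhs => rw [show vecMulVec ((a⁻¹ - 1) • e F (σ i)) (e F (σ i)) =
        vecMulVec ((a⁻¹ - 1) • e F (σ i)) (Jv σ (e F i)) by rw [← f2]]
      rw [ad_vmv h, Jv_smul, Jv_e' h, vecMulVec_smul, smul_vecMulVec]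
    rw [g1, g2]
    abel
  rw [e1, Dg_eq hij, Dg_eq hij, diagonal_mul_diagonal]
  have : (fun k ↦ (if k = i then a else if k = σ i then a⁻¹ else 1) *
      (if k = i then a⁻¹ else if k = σ i then a⁻¹⁻¹ else 1)) = fun _ : X => (1 : F) := by
    ext k
    by_cases h1 : k = i
    · simp [h1, ha]
    · by_cases h2 : k = σ i
      · simp [h1, h2, h.ne i, ha]
      · simp [h1, h2]
  rw [this, diagonal_one]

theorem conj_diagX {π : Matrix X X F} (h : Sig σ) (ho : Off π i (σ i)) {a : F} (ha : a ≠ 0) :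
    SpConj σ (π * Tm ((1 : F) • e F i) (e F (σ i))) (π * Tm ((a * a) • e F i) (e F (σ i))) := by
  have hij : i ≠ σ i := (h.ne i).symm
  refine ⟨Dg i (σ i) a, Dg_sp h ha, ?_⟩
  obtain ⟨j, hj⟩ : ∃ j, j = σ i := ⟨_, rfl⟩
  rw [← hj] at hij ho ⊢
  rw [← mul_assoc, ← Off_comm_Dg ho, mul_assoc, mul_assoc]
  congr 1
  simp only [Dg, Tm, mul_add, add_mul, mul_one, one_mul, vmv_mul, e_dot_e, hij, hij.symm,
    dotProduct_add, dotProduct_sub, dotProduct_smul, smul_dotProduct, smul_eq_mul]
  ext x y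
  simp only [Matrix.add_apply, Matrix.smul_apply, vecMulVec_apply, Pi.add_apply, Pi.smul_apply,
    Pi.sub_apply, smul_eq_mul, if_true, if_false]
  field_simp
  ring

/-- The quintuple of a symplectic gadget. -/
theorem exists_tupleX [Finite F] {l : F} (hl0 : l ≠ 0) {α β π : Matrix X X F} {i : X}
    (h : IsGad l σ α β π i) :
    ∃ t : Fin 5 → SpG F h.sig, (∀ k, orderOf (t k) = 2) ∧ (∀ k m, IsConj (t k) (t m)) ∧
      Subgroup.closure (Set.range t) = ⊤ ∧ (List.ofFn t).prod = 1 := by
  have : Fintype F := Fintype.ofFinite F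
  have hij := h.hij
  have hs := h.sig
  set E : Matrix X X F := Tm (l • e F i) (e F (σ i)) with hE
  have hEE : E * E = 1 := Tm_sq hij
  have hπE : π * E = E * π := Off_comm_Tm h.off l
  have adE : ad σ E = E := ad_Tme hs l i
  obtain ⟨γ, hγ⟩ : ∃ γ : Matrix X X F, γ = π * E := ⟨_, rfl⟩
  have adγ : ad σ γ = γ := by rw [hγ, ad_mul hs, adE, h.aπ, hπE]
  have hγγ : γ * γ = 1 := by
    rw [hγ]
    calc π * E * (π * E) = π * (E * π) * E := by simp only [mul_assoc]
      _ = (π * π) * (E * E) := by rw [← hπE]; simp only [mul_assoc]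
      _ = 1 := by rw [h.hπ, hEE, mul_one]
  have hab : (α * β) * (α * β) = 1 := by
    calc α * β * (α * β) = α * (β * α) * β := by simp only [mul_assoc]
      _ = α * α * (β * β) := by rw [← h.hαβ]; simp only [mul_assoc]
      _ = 1 := by rw [h.hα, h.hβ, mul_one]
  have adab : ad σ (α * β) = α * β := by rw [ad_mul hs, h.aα, h.aβ, h.hαβ]
  have hgbg : (γ * β * γ) * (γ * β * γ) = 1 := by
    calc γ * β * γ * (γ * β * γ) = γ * β * (γ * γ) * β * γ := by simp only [mul_assoc]
      _ = γ * (β * β) * γ := by rw [hγγ, mul_one]; simp only [mul_assoc]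
      _ = 1 := by rw [h.hβ, mul_one, hγγ]
  have adgbg : ad σ (γ * β * γ) = γ * β * γ := by
    rw [ad_mul hs, ad_mul hs, adγ, h.aβ, mul_assoc]
  set a := mk hs α (by rw [h.aα, h.hα]) with ha
  set b := mk hs β (by rw [h.aβ, h.hβ]) with hb
  set ab := mk hs (α * β) (by rw [adab, hab]) with hab'
  set c := mk hs γ (by rw [adγ, hγγ]) with hc
  set cbc := mk hs (γ * β * γ) (by rw [adgbg, hgbg]) with hcbc
  -- relations
  have raa : a * a = 1 := mt_inj h.hα
  have rbb : b * b = 1 := mt_inj h.hβ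
  have rcc : c * c = 1 := mt_inj hγγ
  have rab : ab = a * b := mt_inj rfl
  have rcbc : cbc = c * b * c := mt_inj rfl
  have rabab : ab * ab = 1 := mt_inj hab
  have rcbcs : cbc * cbc = 1 := mt_inj hgbg
  -- nontriviality
  have ha1 : a ≠ 1 := by
    intro hc
    have h1 : α = 1 := congrArg mt hc
    have h2 := h.αi
    rw [h1, one_mulVec] at h2
    have := congrFun h2 i
    rw [e_apply, e_apply, if_pos rfl, if_neg hij] at this
    exact one_ne_zero this
  -- conjugacy
  obtain ⟨μ, hμ⟩ := square_root l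
  have hμ0 : μ ≠ 0 := by rintro rfl; simp at hμ; exact hl0 hμ.symm
  have k1 : SpConj σ α γ := by
    have h1 := conj_swapX hs h.off
    have h2 := conj_diagX hs h.off hμ0
    rw [hμ] at h2
    rw [hγ]
    exact (h.c3.trans hs h1).trans hs h2
  have j1 : IsConj a b := isConj_of_SpConj h.c1
  have j2 : IsConj a ab := isConj_of_SpConj h.c2
  have j3 : IsConj a c := isConj_of_SpConj k1
  have j4 : IsConj a cbc := by
    refine j1.trans ?_
    rw [isConj_iff]
    refine ⟨c, ?_⟩
    have : c⁻¹ = c := inv_eq_of_mul_eq_one_left rcc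
    rw [this, rcbc]
  have hall : ∀ k, IsConj a ((![c, cbc, c, a, ab] : Fin 5 → SpG F hs) k) := by
    intro k
    fin_cases k
    · exact j3
    · exact j4
    · exact j3
    · exact IsConj.refl a
    · exact j2
  refine ⟨![c, cbc, c, a, ab], ?_, ?_, ?_, ?_⟩
  · intro k
    apply orderOf_eq_prime
    · rw [pow_two]
      fin_cases k
      · exact rcc
      · exact rcbcs
      · exact rcc
      · exact raa
      · exact rabab
    · intro hk
      have := hall k
      rw [hk, isConj_iff] at this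
      obtain ⟨g, hg⟩ := this
      apply ha1
      have h2 : g * a = g := by rw [mul_inv_eq_one] at hg; exact hg
      exact mul_eq_left.1 h2
  · intro k m
    exact (hall k).symm.trans (hall m)
  · set H := Subgroup.closure (Set.range (![c, cbc, c, a, ab] : Fin 5 → SpG F hs)) with hH
    have mc : c ∈ H := Subgroup.subset_closure ⟨0, rfl⟩
    have ma : a ∈ H := Subgroup.subset_closure ⟨3, rfl⟩
    have mab : ab ∈ H := Subgroup.subset_closure ⟨4, rfl⟩
    have mb : b ∈ H := by
      have : b = a * ab := by rw [rab, ← mul_assoc, raa, one_mul]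
      rw [this]; exact H.mul_mem ma mab
    have Mα : α ∈ matOf H := mem_matOf.2 ⟨a, ma, rfl⟩
    have Mβ : β ∈ matOf H := mem_matOf.2 ⟨b, mb, rfl⟩
    have Mγ : γ ∈ matOf H := mem_matOf.2 ⟨c, mc, rfl⟩
    obtain ⟨N, hN⟩ := h.nil
    have hoA := h.offA
    have hoff : Off (π * (De 0 i (σ i) * α)) i (σ i) := h.off.mul hoA
    have s2 : De (0 : F) i (σ i) * De 0 i (σ i) = 1 := De_sq hij
    have hD : De l i (σ i) ∈ matOf H := by
      refine power_trick hl0 hij hoff hN ?_
      have e1 : De l i (σ i) * (π * (De 0 i (σ i) * α)) = γ * α := by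
        calc De l i (σ i) * (π * (De 0 i (σ i) * α)) =
            (De l i (σ i) * π) * (De 0 i (σ i) * α) := by simp only [mul_assoc]
          _ = π * De l i (σ i) * (De 0 i (σ i) * α) := by rw [De_comm' l h.off]
          _ = π * E * (De 0 i (σ i) * De 0 i (σ i)) * α := by
            rw [De_split hij, ← hE]; simp only [mul_assoc]
          _ = γ * α := by rw [s2, mul_one, hγ]
      rw [e1]
      exact (matOf H).mul_mem Mγ Mα
    -- the matrix `s * π`
    have hsπ : π * De 0 i (σ i) ∈ matOf H := by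
      have hinv := matOf_inv H
      have e2 : De l i (σ i) * (De 0 i (σ i) * E) = 1 := by
        calc De l i (σ i) * (De 0 i (σ i) * E) = E * (De 0 i (σ i) * De 0 i (σ i)) * E := by
              rw [De_split hij, ← hE]; simp only [mul_assoc]
          _ = 1 := by rw [s2, mul_one, hEE]
      have m1 : De 0 i (σ i) * E ∈ matOf H := hinv _ _ hD e2
      have m2 : De 0 i (σ i) * E * γ ∈ matOf H := (matOf H).mul_mem m1 Mγ
      have e4 : De 0 i (σ i) * E * γ = π * De 0 i (σ i) := by
        rw [hγ]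
        calc De 0 i (σ i) * E * (π * E) = De 0 i (σ i) * (E * π) * E := by simp only [mul_assoc]
          _ = De 0 i (σ i) * π * (E * E) := by rw [← hπE]; simp only [mul_assoc]
          _ = π * De 0 i (σ i) := by rw [hEE, mul_one, De_comm' 0 h.off]
      rwa [e4] at m2
    apply top_of_full
    refine h.LC (matOf H) (matOf_inv H) hD ?_ ?_ ?_
    · intro x hx
      exact (matOf H).mul_mem ((matOf H).mul_mem Mα hx) Mα
    · intro x hx
      exact (matOf H).mul_mem ((matOf H).mul_mem Mβ hx) Mβ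
    · intro x hx hox
      have m3 := (matOf H).mul_mem ((matOf H).mul_mem hsπ hx) hsπ
      have e5 : π * De 0 i (σ i) * x * (π * De 0 i (σ i)) = π * x * π := by
        have c1 := De_comm' 0 hox
        have c2 := De_comm' 0 h.off
        calc π * De 0 i (σ i) * x * (π * De 0 i (σ i)) =
            π * (De 0 i (σ i) * x) * (π * De 0 i (σ i)) := by simp only [mul_assoc]
          _ = π * x * (De 0 i (σ i) * π) * De 0 i (σ i) := by rw [← c1]; simp only [mul_assoc]
          _ = π * x * π * (De 0 i (σ i) * De 0 i (σ i)) := by rw [← c2]; simp only [mul_assoc]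
          _ = _ := by rw [s2, mul_one]
      rwa [e5] at m3
  · have : (List.ofFn (![c, cbc, c, a, ab] : Fin 5 → SpG F hs)).prod =
        c * (cbc * (c * (a * ab))) := by
      simp [List.ofFn_succ]
    rw [this, rcbc, rab]
    have e1 : c * (c * b * c * (c * (a * (a * b)))) = (c * c) * b * (c * c) * (a * a) * b := by
      simp only [mul_assoc]
    rw [e1, rcc, raa, one_mul, mul_one, mul_one, rbb]

end grp

section transfer

variable {F : Type*} [Field F] [CharP F 2]

theorem admissible_mulEquiv {G H : Type*} [Group G] [Group H] (e : G ≃* H) {k : ℕ}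
    (h : Admissible G k) : Admissible H k := by
  obtain ⟨t, h1, h2, h3, h4⟩ := h
  refine ⟨fun i => e (t i), ?_, ?_, ?_, ?_⟩
  · intro i
    rw [e.orderOf_eq, h1]
  · intro i j
    exact e.toMonoidHom.map_isConj (h2 i j)
  · have hr : Set.range (fun i => e (t i)) = e.toMonoidHom '' Set.range t := by
      rw [← Set.range_comp]; rfl
    rw [hr, ← MonoidHom.map_closure, h3]
    exact Subgroup.map_top_of_surjective _ e.surjective
  · have hl : List.ofFn (fun i => e (t i)) = (List.ofFn t).map e := by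
      rw [List.map_ofFn]; rfl
    rw [hl, ← map_list_prod, h4, map_one]

theorem sigSwap (ι : Type*) : Sig (Sum.swap : ι ⊕ ι → ι ⊕ ι) :=
  ⟨fun x => Sum.swap_swap x, fun x => by rcases x with x | x <;> simp⟩

theorem J_apply {ι : Type*} [Fintype ι] [DecidableEq ι] (x y : ι ⊕ ι) :
    (Matrix.J ι F) x y = if x = Sum.swap y then 1 else 0 := by
  rcases x with x | x <;> rcases y with y | y <;>
    simp [Matrix.J, Matrix.one_apply, CharTwo.neg_eq]

theorem J_ad {ι : Type*} [Fintype ι] [DecidableEq ι] (A : Matrix (ι ⊕ ι) (ι ⊕ ι) F) :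
    (Matrix.J ι F) * Aᵀ = ad Sum.swap A * Matrix.J ι F := by
  ext x y
  simp only [mul_apply, J_apply, transpose_apply, ad, of_apply]
  rw [Finset.sum_eq_single (Sum.swap x), Finset.sum_eq_single (Sum.swap y)]
  · simp
  · intro b _ hb
    rw [if_neg hb]; simp
  · intro hb; exact absurd (Finset.mem_univ _) hb
  · intro b _ hb
    have : ¬ x = Sum.swap b := fun hc => hb (by rw [hc, Sum.swap_swap])
    rw [if_neg this]; simp
  · intro hb; exact absurd (Finset.mem_univ _) hb

theorem J_sq {ι : Type*} [Fintype ι] [DecidableEq ι] :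
    (Matrix.J ι F) * (Matrix.J ι F) = 1 := by
  have := Matrix.J_squared ι F
  rw [this]
  ext x y
  simp [CharTwo.neg_eq]

theorem mem_sp_iff {ι : Type*} [Fintype ι] [DecidableEq ι] (A : Matrix (ι ⊕ ι) (ι ⊕ ι) F) :
    A ∈ Matrix.symplecticGroup ι F ↔ A * ad Sum.swap A = 1 := by
  rw [SymplecticGroup.mem_iff, mul_assoc, J_ad, ← mul_assoc]
  constructor
  · intro h
    calc A * ad Sum.swap A = A * ad Sum.swap A * (Matrix.J ι F * Matrix.J ι F) := by
          rw [J_sq, mul_one]
      _ = (A * ad Sum.swap A * Matrix.J ι F) * Matrix.J ι F := by simp only [mul_assoc]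
      _ = 1 := by rw [h, J_sq]
  · intro h
    rw [h, one_mul]

variable {X : Type*} [Fintype X] [DecidableEq X] {σ : X → X}

theorem ad_reindex {Y : Type*} [Fintype Y] [DecidableEq Y] {τ : Y → Y} (e : X ≃ Y)
    (he : ∀ x, e (σ x) = τ (e x)) (A : Matrix X X F) :
    ad τ (Matrix.reindex e e A) = Matrix.reindex e e (ad σ A) := by
  ext x y
  have h1 : ∀ y, e.symm (τ y) = σ (e.symm y) := by
    intro y
    rw [Equiv.symm_apply_eq, he, Equiv.apply_symm_apply]
  simp [ad, h1]

/-- identification with the symplectic group of Mathlib -/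
theorem sp_equiv (h : Sig σ) {n : ℕ} (e : X ≃ Fin n ⊕ Fin n)
    (he : ∀ x, e (σ x) = Sum.swap (e x)) :
    Nonempty (SpG F h ≃* Matrix.symplecticGroup (Fin n) F) := by
  let f : SpG F h →* Matrix.symplecticGroup (Fin n) F :=
    { toFun := fun u => ⟨Matrix.reindexAlgEquiv F F e (mt u), by
        rw [mem_sp_iff]
        change Matrix.reindexAlgEquiv F F e (mt u) *
          ad Sum.swap (Matrix.reindex e e (mt u)) = 1
        rw [ad_reindex e he]
        change Matrix.reindexAlgEquiv F F e (mt u) * Matrix.reindexAlgEquiv F F e (ad σ (mt u)) = 1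
        rw [← map_mul, mt_sp, map_one]⟩
      map_one' := by
        apply Subtype.ext
        change Matrix.reindexAlgEquiv F F e (mt 1) = 1
        rw [mt_one, map_one]
      map_mul' := by
        intro u v
        apply Subtype.ext
        change Matrix.reindexAlgEquiv F F e (mt (u * v)) =
          Matrix.reindexAlgEquiv F F e (mt u) * Matrix.reindexAlgEquiv F F e (mt v)
        rw [mt_mul, map_mul] }
  have hinj : Function.Injective f := by
    intro u v huv
    apply mt_inj
    have : Matrix.reindexAlgEquiv F F e (mt u) = Matrix.reindexAlgEquiv F F e (mt v) :=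
      congrArg Subtype.val huv
    exact (Matrix.reindexAlgEquiv F F e).injective this
  have hsurj : Function.Surjective f := by
    rintro ⟨A, hA⟩
    rw [mem_sp_iff] at hA
    have hB : Matrix.reindex e.symm e.symm A * ad σ (Matrix.reindex e.symm e.symm A) = 1 := by
      have he' : ∀ y, e.symm (Sum.swap y) = σ (e.symm y) := by
        intro y
        rw [Equiv.symm_apply_eq, he, Equiv.apply_symm_apply]
      rw [ad_reindex e.symm he']
      change Matrix.reindexAlgEquiv F F e.symm A *
        Matrix.reindexAlgEquiv F F e.symm (ad Sum.swap A) = 1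
      rw [← map_mul, hA, map_one]
    refine ⟨mk h _ hB, ?_⟩
    apply Subtype.ext
    change Matrix.reindex e e (Matrix.reindex e.symm e.symm A) = A
    ext x y
    simp
  exact ⟨MulEquiv.ofBijective f ⟨hinj, hsurj⟩⟩

/-- transfer to the symplectic group of Mathlib -/
theorem admissible_sp (h : Sig σ) {n : ℕ} (e : X ≃ Fin n ⊕ Fin n)
    (he : ∀ x, e (σ x) = Sum.swap (e x)) {k : ℕ} (hk : Admissible (SpG F h) k) :
    Admissible (Matrix.symplecticGroup (Fin n) F) k := by
  obtain ⟨f⟩ := sp_equiv (F := F) h e he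
  exact admissible_mulEquiv f hk

end transfer

end H47Sp
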