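import Mathlib
import Pool.Agent.H.MP_0335f8_al.SMain
import Pool.Agent.H.MP_0335f8_al.SBase4
import Pool.Agent.H.MP_0335f8_al.SBase5
import Pool.Agent.H.MP_0335f8_al.Assemble

set_option linter.unusedSectionVars false

namespace H47Sp

open Matrix H47Inv

/-- there is a symplectic gadget with `n` planes -/
def HasGad {F : Type*} [Field F] (l : F) (n : ℕ) : Prop :=
  ∃ (X : Type) (_ : Fintype X) (_ : DecidableEq X) (σ : X → X) (e : X ≃ Fin n ⊕ Fin n),
    (∀ x, e (σ x) = Sum.swap (e x)) ∧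
    ∃ (α β π : Matrix X X F) (i : X), IsGad l σ α β π i

/-- the four new coordinates -/
def e4 : Fin 4 ≃ Fin 2 ⊕ Fin 2 where
  toFun := ![Sum.inl 0, Sum.inr 0, Sum.inl 1, Sum.inr 1]
  invFun := Sum.elim ![0, 2] ![1, 3]
  left_inv := by decide
  right_inv := by decide

/-- the new coordinate equivalence -/
def eE {X : Type*} {n : ℕ} (e : X ≃ Fin n ⊕ Fin n) : X ⊕ Fin 4 ≃ Fin (n + 2) ⊕ Fin (n + 2) :=
  (Equiv.sumCongr e e4).trans
    ((Equiv.sumSumSumComm _ _ _ _).trans (Equiv.sumCongr finSumFinEquiv finSumFinEquiv))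

theorem eE_swap {X : Type*} {n : ℕ} (e : X ≃ Fin n ⊕ Fin n) (σ : X → X)
    (he : ∀ x, e (σ x) = Sum.swap (e x)) (x : X ⊕ Fin 4) :
    eE e (sE σ x) = Sum.swap (eE e x) := by
  rcases x with x | x
  · change eE e (Sum.inl (σ x)) = Sum.swap (eE e (Sum.inl x))
    simp only [eE, Equiv.trans_apply, Equiv.sumCongr_apply, Sum.map_inl, he]
    rcases e x with y | y <;> simp
  · fin_cases x <;> rfl

theorem HasGad.add2 {F : Type*} [Field F] [CharP F 2] {l : F} {n : ℕ} (h : HasGad l n) :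
    HasGad l (n + 2) := by
  obtain ⟨X, hX, hd, σ, e, he, α, β, π, i, hg⟩ := h
  exact ⟨X ⊕ Fin 4, inferInstance, inferInstance, sE σ, eE e, eE_swap e σ he, _, _, _, _, hg.ext⟩

theorem HasGad.add2k {F : Type*} [Field F] [CharP F 2] {l : F} {n : ℕ} (h : HasGad l n)
    (k : ℕ) : HasGad l (n + 2 * k) := by
  induction k with
  | zero => exact h
  | succ k ih => exact ih.add2

theorem hasGad {F : Type*} [Field F] [CharP F 2] {l : F}
    (hl : ∀ a : F, a ≠ 0 → ∃ k : ℕ, a = l ^ k) (hl0 : l ≠ 0) (hsq : ∀ a : F, ∃ b, b * b = a)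
    (n : ℕ) (hn : 4 ≤ n) : HasGad l n := by
  have g4 : HasGad l 4 := ⟨Fin 8, inferInstance, inferInstance, sb4,
    (finSumFinEquiv (m := 4) (n := 4)).symm, by decide, _, _, _, _, gadb4 hl hl0 hsq⟩
  have g5 : HasGad l 5 := ⟨Fin 10, inferInstance, inferInstance, sb5,
    (finSumFinEquiv (m := 5) (n := 5)).symm, by decide, _, _, _, _, gadb5 hl hl0 hsq⟩
  rcases Nat.even_or_odd n with h | h
  · obtain ⟨k, hk⟩ := h
    have : n = 4 + 2 * (k - 2) := by omega
    rw [this]; exact g4.add2k _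
  · obtain ⟨k, hk⟩ := h
    have : n = 5 + 2 * (k - 2) := by omega
    rw [this]; exact g5.add2k _

theorem admissible_sp_five (F : Type*) [Field F] [Finite F] [CharP F 2] (n : ℕ) (hn : 4 ≤ n) :
    Admissible (Matrix.symplecticGroup (Fin n) F) 5 := by
  obtain ⟨l, hl0, hl⟩ := exists_gen F
  obtain ⟨X, hX, hd, σ, e, he, α, β, π, i, hg⟩ := hasGad hl hl0 square_root n hn
  obtain ⟨t, h1, h2, h3, h4⟩ := exists_tupleX hl0 hg
  exact admissible_sp hg.sig e he ⟨t, h1, h2, h3, h4⟩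

end H47Sp
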