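import Mathlib
import Pool.Agent.H.MP_0335f8_al.SMain
import Pool.Agent.H.MP_0335f8_al.Lower5

set_option linter.unusedSectionVars false
set_option linter.unusedSimpArgs false

namespace H47Sp

open Matrix H47Inv
open scoped commutatorElement

private theorem contra_gen {G : Type*} [Group G]
    (hG : ∃ x ∈ commutator G, ∃ y ∈ commutator G, x * y ≠ y * x)
    (a b c : G) (ha : a * a = 1) (hb : b * b = 1)
    (hc : c * c = 1) (habc : (a * b * c) * (a * b * c) = 1)
    (hgen : Subgroup.closure ({a, b, c} : Set G) = ⊤) : False := by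
  obtain ⟨x, hx, y, hy, hxy⟩ := hG
  exact hxy (comm_of_three a b c ha hb hc habc hgen x hx y hy)

/-- the lower bound five for a group with noncommutative commutator subgroup -/
theorem lower5_gen {G : Type*} [Group G]
    (hG : ∃ x ∈ commutator G, ∃ y ∈ commutator G, x * y ≠ y * x) {k : ℕ}
    (h : Admissible G k) : 5 ≤ k := by
  obtain ⟨t, hord, -, hgen, hprod⟩ := h
  by_contra hk
  push Not at hk
  have hsq : ∀ i, t i * t i = 1 := by
    intro i
    have := pow_orderOf_eq_one (t i)
    rwa [hord, pow_two] at this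
  have hsub : ∀ a b c : G, (∀ i, t i ∈ Subgroup.closure ({a, b, c} : Set G)) →
      Subgroup.closure ({a, b, c} : Set G) = ⊤ := by
    intro a b c hi
    rw [eq_top_iff, ← hgen, Subgroup.closure_le]
    rintro _ ⟨i, rfl⟩
    exact hi i
  interval_cases k
  · refine contra_gen hG 1 1 1 ?_ ?_ ?_ ?_ (hsub _ _ _ ?_)
    · simp
    · simp
    · simp
    · simp
    · intro i; exact i.elim0
  · refine contra_gen hG (t 0) 1 1 (hsq 0) ?_ ?_ ?_ (hsub _ _ _ ?_)
    · simp
    · simp
    · simpa using hsq 0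
    · intro i
      rw [Subsingleton.elim i 0]
      exact Subgroup.subset_closure (by simp)
  · have hp : t 0 * t 1 = 1 := by simpa [List.ofFn_succ] using hprod
    refine contra_gen hG (t 0) (t 1) 1 (hsq 0) (hsq 1) ?_ ?_ (hsub _ _ _ ?_)
    · simp
    · rw [hp]; simp
    · intro i
      fin_cases i
      · exact Subgroup.subset_closure (by simp)
      · exact Subgroup.subset_closure (by simp)
  · have hp : t 0 * t 1 * t 2 = 1 := by
      simpa [List.ofFn_succ, mul_assoc] using hprod
    refine contra_gen hG (t 0) (t 1) (t 2) (hsq 0) (hsq 1) (hsq 2) ?_ (hsub _ _ _ ?_)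
    · rw [hp]; simp
    · intro i
      fin_cases i
      · exact Subgroup.subset_closure (by simp)
      · exact Subgroup.subset_closure (by simp)
      · exact Subgroup.subset_closure (by simp)
  · have hp : t 0 * t 1 * t 2 * t 3 = 1 := by
      simpa [List.ofFn_succ, mul_assoc] using hprod
    have hp' : t 0 * t 1 * t 2 = t 3 := by
      rw [eq_inv_of_mul_eq_one_left hp]
      exact inv_eq_of_mul_eq_one_left (hsq 3)
    refine contra_gen hG (t 0) (t 1) (t 2) (hsq 0) (hsq 1) (hsq 2) ?_ (hsub _ _ _ ?_)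
    · rw [hp']; exact hsq 3
    · intro i
      fin_cases i
      · exact Subgroup.subset_closure (by simp)
      · exact Subgroup.subset_closure (by simp)
      · exact Subgroup.subset_closure (by simp)
      · show t 3 ∈ _
        rw [← hp']
        exact Subgroup.mul_mem _ (Subgroup.mul_mem _ (Subgroup.subset_closure (by simp))
          (Subgroup.subset_closure (by simp))) (Subgroup.subset_closure (by simp))

section sp

variable {F : Type*} [Field F] [CharP F 2] {X : Type*} [Fintype X] [DecidableEq X] {σ : X → X}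

/-- a symplectic transvection as a group element -/
def tv (h : Sig σ) (v : X → F) : SpG F h :=
  mk h (Tm ((1 : F) • v) (Jv σ v)) (by rw [ad_Tm h, Tm_sq' h])

theorem tv_sq (h : Sig σ) (v : X → F) : tv h v * tv h v = 1 := mt_inj (Tm_sq' h v 1)

theorem tv_apply (h : Sig σ) (v w : X → F) : mt (tv h v) *ᵥ w = w + (Bf σ v w) • v := by
  change Tm ((1 : F) • v) (Jv σ v) *ᵥ w = _
  rw [Tm_mulVec, one_mul]

theorem noncomm (h : Sig σ) {i k : X} (hk : k ≠ i) (hk' : k ≠ σ i) :
    ∃ x ∈ commutator (SpG F h), ∃ y ∈ commutator (SpG F h), x * y ≠ y * x := by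
  have hne : σ i ≠ i := h.ne i
  have hsk : σ k ≠ i := fun hc => hk' (by rw [← hc, h.inv])
  have hsk' : σ k ≠ σ i := fun hc => hk (by rw [← h.inv k, hc, h.inv])
  set v : X → F := e F i with hv
  set w : X → F := e F (σ i) with hw
  set u : X → F := e F i + e F k with hu
  set z : X → F := e F (σ k) with hz
  have bvz : Bf σ v z = 0 := by rw [Bf_e h, hz, e_apply, if_neg (Ne.symm hsk')]
  have bwz : Bf σ w z = 0 := by rw [Bf_e h, h.inv, hz, e_apply, if_neg (Ne.symm hsk)]
  have buz : Bf σ u z = 1 := by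
    rw [hu, Bf_add_left, ← hv, bvz, zero_add, Bf_e h, hz, e_apply, if_pos rfl]
  have bvw : Bf σ v w = 1 := by rw [Bf_e h, hw, e_apply, if_pos rfl]
  have bwv : Bf σ w v = 1 := by rw [Bf_comm h, bvw]
  have bvv : Bf σ v v = 0 := Bf_self h v
  have bww : Bf σ w w = 0 := Bf_self h w
  have buu : Bf σ u u = 0 := Bf_self h u
  have bvu : Bf σ v u = 0 := by
    rw [hu, Bf_add_right, ← hv, bvv, zero_add, Bf_e h, e_apply, if_neg (Ne.symm hk')]
  have bwu : Bf σ w u = 1 := by
    rw [hu, Bf_add_right, ← hv, bwv, Bf_e h, h.inv, e_apply, if_neg (Ne.symm hk), add_zero]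
  have buw : Bf σ u w = 1 := by rw [Bf_comm h, bwu]
  have h2 : (1 : F) + 1 = 0 := CharTwo.add_self_eq_zero 1
  have inv : ∀ a : X → F, (tv h a)⁻¹ = tv h a := fun a => inv_eq_of_mul_eq_one_left (tv_sq h a)
  have x1 : ⁅tv h v, tv h w⁆ = tv h v * (tv h w * (tv h v * tv h w)) := by
    rw [commutatorElement_def, inv, inv]; simp only [mul_assoc]
  have y1 : ⁅tv h w, tv h u⁆ = tv h w * (tv h u * (tv h w * tv h u)) := by
    rw [commutatorElement_def, inv, inv]; simp only [mul_assoc]
  have ww : w + w = 0 := by ext a; simp [CharTwo.add_self_eq_zero]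
  have vv : v + v = 0 := by ext a; simp [CharTwo.add_self_eq_zero]
  have yz : mt ⁅tv h w, tv h u⁆ *ᵥ z = z + u := by
    rw [y1]
    simp only [mt_mul, ← mulVec_mulVec, tv_apply, Bf_add_right, Bf_smul_right, bwz, buz, bwu, buw,
      buu, bww, mul_one, mul_zero, zero_add, add_zero, one_smul, zero_smul, h2]
    rw [add_assoc, ww, add_zero]
  have xz : mt ⁅tv h v, tv h w⁆ *ᵥ z = z := by
    rw [x1]
    simp only [mt_mul, ← mulVec_mulVec, tv_apply, Bf_add_right, Bf_smul_right, bwz, bvz,
      zero_smul, add_zero]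
  have xu : mt ⁅tv h v, tv h w⁆ *ᵥ u = u + w := by
    rw [x1]
    simp only [mt_mul, ← mulVec_mulVec, tv_apply, Bf_add_right, Bf_smul_right, bwu, bvu, bvw, bwv,
      bvv, bww, mul_one, mul_zero, zero_add, add_zero, one_smul, zero_smul, h2]
    rw [add_assoc, vv, add_zero]
  refine ⟨⁅tv h v, tv h w⁆, ?_, ⁅tv h w, tv h u⁆, ?_, ?_⟩
  · rw [commutator_def]
    exact Subgroup.commutator_mem_commutator (Subgroup.mem_top _) (Subgroup.mem_top _)
  · rw [commutator_def]
    exact Subgroup.commutator_mem_commutator (Subgroup.mem_top _) (Subgroup.mem_top _)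
  · intro hc
    have h3 := congrArg (fun g => mt g *ᵥ z) hc
    simp only [mt_mul, ← mulVec_mulVec, yz, xz, mulVec_add, xu] at h3
    have h4 : w = 0 := by
      have : z + (u + w) = z + u := h3
      rw [← add_assoc] at this
      exact left_eq_add.1 this.symm
    have h5 := congrFun h4 (σ i)
    rw [hw, e_apply, if_pos rfl] at h5
    exact one_ne_zero h5

theorem lower_sp (F : Type*) [Field F] [CharP F 2] (n : ℕ) (hn : 2 ≤ n) {k : ℕ}
    (h : Admissible (Matrix.symplecticGroup (Fin n) F) k) : 5 ≤ k := by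
  obtain ⟨f⟩ := sp_equiv (F := F) (sigSwap (Fin n)) (Equiv.refl _) (fun _ => rfl)
  refine lower5_gen ?_ (admissible_mulEquiv f.symm h)
  refine noncomm (sigSwap (Fin n)) (i := Sum.inl ⟨0, by omega⟩) (k := Sum.inl ⟨1, by omega⟩) ?_ ?_
  · simp
  · simp

end sp

end H47Sp
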