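import Mathlib
import Pool.Agent.H.MP_0335f8_al.Z2Gad
import Pool.Agent.H.MP_0335f8_al.Main

set_option linter.unusedSectionVars false
set_option maxRecDepth 20000

namespace H47Inv

open Matrix

section q2

variable {F : Type*} [Field F] [CharP F 2] {n : ℕ}

/-- closure under conjugation by three involutions -/
structure Ctx3 (α β γ : Matrix (Fin n) (Fin n) (ZMod 2))
    (M : Submonoid (Matrix (Fin n) (Fin n) F)) : Prop where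
  hα : α * α = 1
  hβ : β * β = 1
  hγ : γ * γ = 1
  al : ∀ x ∈ M, lf F α * x * lf F α ∈ M
  be : ∀ x ∈ M, lf F β * x * lf F β ∈ M
  ga : ∀ x ∈ M, lf F γ * x * lf F γ ∈ M

section rules

variable {α β γ : Matrix (Fin n) (Fin n) (ZMod 2)} {M : Submonoid (Matrix (Fin n) (Fin n) F)}
  {v v' φ φ' : Fin n → ZMod 2}

theorem R2.al3 (c : Ctx3 α β γ M) (h : R2 M v φ) (hv : α *ᵥ v = v' ∧ φ ᵥ* α = φ') :
    R2 M v' φ' := by
  obtain ⟨rfl, rfl⟩ := hv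
  refine ⟨?_, by rw [dot_conj c.hα, h.2]⟩
  have := h.1.conj (lf_sq c.hα) c.al
  rwa [lf_mulVec, lf_vecMul] at this

theorem R2.be3 (c : Ctx3 α β γ M) (h : R2 M v φ) (hv : β *ᵥ v = v' ∧ φ ᵥ* β = φ') :
    R2 M v' φ' := by
  obtain ⟨rfl, rfl⟩ := hv
  refine ⟨?_, by rw [dot_conj c.hβ, h.2]⟩
  have := h.1.conj (lf_sq c.hβ) c.be
  rwa [lf_mulVec, lf_vecMul] at this

theorem R2.ga3 (c : Ctx3 α β γ M) (h : R2 M v φ) (hv : γ *ᵥ v = v' ∧ φ ᵥ* γ = φ') :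
    R2 M v' φ' := by
  obtain ⟨rfl, rfl⟩ := hv
  refine ⟨?_, by rw [dot_conj c.hγ, h.2]⟩
  have := h.1.conj (lf_sq c.hγ) c.ga
  rwa [lf_mulVec, lf_vecMul] at this

end rules

/-- data -/
def qa : Matrix (Fin 6) (Fin 6) (ZMod 2) :=
  !![0, 1, 0, 0, 0, 0; 1, 0, 0, 0, 0, 0; 0, 0, 0, 1, 0, 0; 0, 0, 1, 0, 0, 0; 0, 0, 0, 0, 0, 1; 0, 0, 0, 0, 1, 0]

/-- data -/
def qb : Matrix (Fin 6) (Fin 6) (ZMod 2) :=
  !![1, 0, 0, 0, 1, 1; 0, 1, 0, 0, 1, 1; 1, 1, 1, 0, 1, 1; 1, 1, 0, 1, 1, 1; 0, 0, 1, 1, 1, 0; 0, 0, 1, 1, 0, 1]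

/-- data -/
def qc : Matrix (Fin 6) (Fin 6) (ZMod 2) :=
  !![0, 0, 1, 1, 0, 1; 0, 0, 0, 1, 0, 0; 1, 0, 0, 0, 1, 0; 0, 1, 0, 0, 0, 0; 0, 0, 0, 1, 0, 1; 0, 1, 0, 0, 1, 0]

/-- data -/
def ga1 : Matrix (Fin 6) (Fin 6) (ZMod 2) :=
  !![1, 1, 0, 0, 1, 0; 0, 0, 0, 0, 0, 1; 0, 1, 0, 0, 0, 0; 0, 1, 1, 1, 0, 0; 0, 0, 0, 1, 0, 0; 0, 0, 0, 1, 1, 1]

/-- data -/
def ha1 : Matrix (Fin 6) (Fin 6) (ZMod 2) :=
  !![1, 1, 1, 0, 1, 1; 0, 0, 1, 0, 0, 0; 0, 0, 1, 1, 1, 0; 0, 0, 0, 0, 1, 0; 0, 1, 0, 0, 1, 1; 0, 1, 0, 0, 0, 0]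

/-- data -/
def ga2 : Matrix (Fin 6) (Fin 6) (ZMod 2) :=
  !![1, 0, 0, 0, 0, 0; 0, 1, 0, 0, 1, 1; 1, 0, 0, 1, 0, 0; 1, 0, 1, 0, 0, 0; 0, 0, 0, 1, 0, 1; 0, 0, 0, 1, 1, 0]

/-- data -/
def ha2 : Matrix (Fin 6) (Fin 6) (ZMod 2) :=
  !![1, 0, 0, 0, 0, 0; 0, 1, 0, 0, 1, 1; 1, 0, 0, 1, 0, 0; 1, 0, 1, 0, 0, 0; 1, 0, 1, 0, 0, 1; 1, 0, 1, 0, 1, 0]

/-- data -/
def ga3 : Matrix (Fin 6) (Fin 6) (ZMod 2) :=
  !![0, 1, 1, 0, 0, 0; 0, 0, 0, 0, 0, 1; 0, 0, 0, 1, 0, 0; 0, 0, 0, 0, 1, 0; 0, 1, 0, 0, 0, 0; 1, 0, 0, 0, 1, 0]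

/-- data -/
def ha3 : Matrix (Fin 6) (Fin 6) (ZMod 2) :=
  !![0, 0, 0, 1, 0, 1; 0, 0, 0, 0, 1, 0; 1, 0, 0, 0, 1, 0; 0, 0, 1, 0, 0, 0; 0, 0, 0, 1, 0, 0; 0, 1, 0, 0, 0, 0]

/-- data -/
def qag : Matrix (Fin 6) (Fin 6) (ZMod 2) :=
  !![0, 0, 0, 1, 0, 0; 0, 0, 1, 1, 0, 1; 0, 1, 0, 0, 0, 0; 1, 0, 0, 0, 1, 0; 0, 1, 0, 0, 1, 0; 0, 0, 0, 1, 0, 1]

/-- data -/
def qag2 : Matrix (Fin 6) (Fin 6) (ZMod 2) :=
  !![1, 0, 0, 0, 1, 0; 1, 1, 0, 1, 1, 1; 0, 0, 1, 1, 0, 1; 0, 1, 0, 1, 1, 0; 0, 1, 1, 1, 1, 1; 1, 0, 0, 1, 1, 1]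

/-- data -/
def qag4 : Matrix (Fin 6) (Fin 6) (ZMod 2) :=
  !![1, 1, 1, 1, 0, 1; 1, 1, 1, 0, 1, 1; 1, 1, 1, 1, 0, 0; 1, 1, 1, 1, 1, 0; 0, 1, 0, 1, 0, 0; 0, 0, 1, 1, 0, 0]

/-- data -/
def qbg : Matrix (Fin 6) (Fin 6) (ZMod 2) :=
  !![0, 1, 1, 0, 1, 0; 0, 1, 0, 0, 1, 1; 1, 1, 1, 1, 0, 0; 0, 0, 1, 1, 1, 0; 1, 1, 0, 1, 1, 1; 1, 0, 0, 0, 0, 0]

/-- data -/
def qabg : Matrix (Fin 6) (Fin 6) (ZMod 2) :=
  !![0, 1, 0, 0, 1, 1; 0, 1, 1, 0, 1, 0; 0, 0, 1, 1, 1, 0; 1, 1, 1, 1, 0, 0; 1, 0, 0, 0, 0, 0; 1, 1, 0, 1, 1, 1]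

/-- data -/
def qw : Matrix (Fin 6) (Fin 6) (ZMod 2) :=
  !![0, 0, 1, 1, 0, 0; 0, 1, 0, 0, 0, 0; 1, 1, 1, 0, 1, 1; 0, 1, 1, 0, 1, 1; 1, 0, 0, 1, 1, 0; 1, 1, 0, 0, 1, 0]

/-- data -/
def qw2 : Matrix (Fin 6) (Fin 6) (ZMod 2) :=
  !![1, 0, 0, 0, 0, 0; 0, 1, 0, 0, 0, 0; 1, 1, 0, 0, 1, 1; 1, 1, 1, 1, 1, 1; 1, 1, 0, 0, 0, 1; 1, 1, 1, 0, 1, 0]

/-- data -/
def qw3 : Matrix (Fin 6) (Fin 6) (ZMod 2) :=
  !![0, 0, 1, 1, 0, 0; 0, 1, 0, 0, 0, 0; 0, 0, 1, 0, 0, 0; 1, 0, 1, 0, 0, 0; 1, 0, 1, 1, 1, 0; 0, 0, 0, 0, 0, 1]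

theorem steps6 {M : Submonoid (Matrix (Fin 6) (Fin 6) F)} (c : Ctx3 qa qb qc M)
    (rz : R2 M ![1, 0, 0, 1, 1, 0] ![1, 0, 1, 1, 0, 0]) (x : Fin 6) : R2 M (e2 x) (e2 (nxt x)) := by
  have r0 : R2 M ![0, 1, 1, 0, 0, 1] ![0, 1, 1, 1, 0, 0] :=
    R2.al3 c rz (by decide +kernel)
  have r1 : R2 M ![0, 0, 0, 1, 1, 1] ![1, 1, 0, 1, 1, 0] :=
    R2.ga3 c r0 (by decide +kernel)
  have r2 : R2 M ![0, 0, 0, 1, 0, 0] ![0, 0, 1, 0, 0, 1] :=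
    R2.be3 c r1 (by decide +kernel)
  have r3 : R2 M ![0, 0, 1, 0, 0, 0] ![0, 0, 0, 1, 1, 0] :=
    R2.al3 c r2 (by decide +kernel)
  have r4 : R2 M ![1, 0, 0, 0, 0, 0] ![0, 1, 0, 1, 0, 1] :=
    R2.ga3 c r3 (by decide +kernel)
  have r5 : R2 M ![1, 0, 0, 0, 0, 0] ![0, 0, 1, 0, 0, 1] :=
    R2.comm r4 r2 (by decide +kernel)
  have r6 : R2 M ![1, 0, 0, 0, 0, 0] ![0, 0, 0, 1, 1, 0] :=
    R2.comm r5 r3 (by decide +kernel)
  have r7 : R2 M ![1, 0, 0, 0, 0, 0] ![0, 1, 0, 0, 1, 1] :=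
    R2.addr r6 r4 (by decide +kernel)
  have r8 : R2 M ![1, 0, 1, 1, 0, 0] ![0, 1, 0, 0, 0, 0] :=
    R2.be3 c r7 (by decide +kernel)
  have r9 : R2 M ![1, 0, 0, 0, 0, 0] ![0, 1, 0, 0, 0, 0] :=
    R2.comm r4 r8 (by decide +kernel)
  have r10 : R2 M ![0, 0, 1, 0, 0, 0] ![0, 1, 0, 0, 0, 0] :=
    R2.comm r3 r8 (by decide +kernel)
  have r11 : R2 M ![1, 0, 0, 0, 0, 0] ![0, 0, 0, 1, 0, 0] :=
    R2.ga3 c r10 (by decide +kernel)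
  have r12 : R2 M ![0, 1, 0, 0, 0, 0] ![0, 0, 1, 0, 0, 0] :=
    R2.al3 c r11 (by decide +kernel)
  have r13 : R2 M ![0, 0, 1, 0, 0, 0] ![0, 0, 0, 1, 0, 0] :=
    R2.ga3 c r9 (by decide +kernel)
  have r14 : R2 M ![0, 0, 1, 0, 0, 0] ![1, 1, 0, 0, 0, 0] :=
    R2.ga3 c r5 (by decide +kernel)
  have r15 : R2 M ![0, 0, 0, 1, 0, 0] ![1, 1, 0, 0, 0, 0] :=
    R2.al3 c r14 (by decide +kernel)
  have r16 : R2 M ![1, 0, 0, 0, 0, 0] ![0, 0, 0, 0, 1, 0] :=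
    R2.addr r11 r6 (by decide +kernel)
  have r17 : R2 M ![0, 0, 0, 1, 0, 0] ![0, 0, 0, 0, 1, 0] :=
    R2.comm r15 r16 (by decide +kernel)
  have r18 : R2 M ![0, 1, 0, 0, 0, 0] ![0, 0, 0, 1, 1, 0] :=
    R2.al3 c r5 (by decide +kernel)
  have r19 : R2 M ![0, 1, 0, 0, 0, 0] ![0, 0, 1, 0, 0, 1] :=
    R2.comm r18 r2 (by decide +kernel)
  have r20 : R2 M ![0, 0, 0, 1, 0, 1] ![1, 1, 0, 0, 0, 0] :=
    R2.ga3 c r19 (by decide +kernel)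
  have r21 : R2 M ![0, 0, 0, 0, 0, 1] ![1, 1, 0, 0, 0, 0] :=
    R2.addl r20 r15 (by decide +kernel)
  have r22 : R2 M ![0, 0, 0, 0, 1, 0] ![1, 1, 0, 0, 0, 0] :=
    R2.al3 c r21 (by decide +kernel)
  have r23 : R2 M ![0, 1, 0, 0, 0, 0] ![0, 0, 0, 0, 0, 1] :=
    R2.addr r12 r19 (by decide +kernel)
  have r24 : R2 M ![0, 0, 0, 0, 1, 0] ![0, 0, 0, 0, 0, 1] :=
    R2.comm r22 r23 (by decide +kernel)
  have r25 : R2 M ![0, 0, 0, 0, 0, 1] ![0, 1, 0, 0, 0, 0] :=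
    R2.comm r21 r8 (by decide +kernel)
  have r26 : R2 M ![0, 0, 0, 0, 0, 1] ![1, 0, 0, 0, 0, 0] :=
    R2.addr r25 r21 (by decide +kernel)
  fin_cases x
  · exact r9.cast (by decide +kernel)
  · exact r12.cast (by decide +kernel)
  · exact r13.cast (by decide +kernel)
  · exact r17.cast (by decide +kernel)
  · exact r24.cast (by decide +kernel)
  · exact r26.cast (by decide +kernel)

/-- The transvection `w ^ 3`. -/
theorem lf_w3 : lf F qw3 = Tm (lv F ![1, 0, 0, 1, 1, 0]) (lv F ![1, 0, 1, 1, 0, 0]) := by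
  ext i j
  fin_cases i <;> fin_cases j <;>
    simp [lf, qw3, Tm, lv, vecMulVec_apply, CharTwo.add_self_eq_zero]

theorem full6 (hF : ∀ a : F, a = 0 ∨ a = 1) {M : Submonoid (Matrix (Fin 6) (Fin 6) F)}
    (ha : lf F qa ∈ M) (hb : lf F qb ∈ M) (hc : lf F qc ∈ M) : Full M Set.univ := by
  have c : Ctx3 qa qb qc M := by
    refine ⟨by decide +kernel, by decide +kernel, by decide +kernel, ?_, ?_, ?_⟩
    · intro x hx; exact M.mul_mem (M.mul_mem ha hx) ha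
    · intro x hx; exact M.mul_mem (M.mul_mem hb hx) hb
    · intro x hx; exact M.mul_mem (M.mul_mem hc hx) hc
  have m1 : lf F qag ∈ M := by
    rw [show qag = qa * qc by decide +kernel, lf_mul]; exact M.mul_mem ha hc
  have m2 : lf F qag2 ∈ M := by
    rw [show qag2 = qag * qag by decide +kernel, lf_mul]; exact M.mul_mem m1 m1
  have m4 : lf F qag4 ∈ M := by
    rw [show qag4 = qag2 * qag2 by decide +kernel, lf_mul]; exact M.mul_mem m2 m2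
  have m5 : lf F qbg ∈ M := by
    rw [show qbg = qb * qc by decide +kernel, lf_mul]; exact M.mul_mem hb hc
  have m6 : lf F qabg ∈ M := by
    rw [show qabg = qa * qbg by decide +kernel, lf_mul]; exact M.mul_mem ha m5
  have m7 : lf F qw ∈ M := by
    rw [show qw = qag4 * qabg by decide +kernel, lf_mul]; exact M.mul_mem m4 m6
  have m8 : lf F qw2 ∈ M := by
    rw [show qw2 = qw * qw by decide +kernel, lf_mul]; exact M.mul_mem m7 m7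
  have m9 : lf F qw3 ∈ M := by
    rw [show qw3 = qw2 * qw by decide +kernel, lf_mul]; exact M.mul_mem m8 m7
  have rz : R2 M ![1, 0, 0, 1, 1, 0] ![1, 0, 1, 1, 0, 0] := by
    refine ⟨?_, by decide⟩
    intro a
    rcases hF a with rfl | rfl
    · simp [Tm, M.one_mem]
    · rw [one_smul, ← lf_w3]; exact m9
  apply full_of_cycle
  intro x
  have := (steps6 c rz x).1
  rwa [lv_e2, lv_e2] at this

theorem exists_tuple6 (hF : ∀ a : F, a = 0 ∨ a = 1) :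
    ∃ t : Fin 5 → SpecialLinearGroup (Fin 6) F, (∀ k, t k * t k = 1) ∧
      (∀ k m, IsConj (t k) (t m)) ∧
      Subgroup.closure (Set.range t) = ⊤ ∧ (List.ofFn t).prod = 1 := by
  have haa : lf F qa * lf F qa = 1 := lf_sq (by decide +kernel)
  have hbb : lf F qb * lf F qb = 1 := lf_sq (by decide +kernel)
  have hcc : lf F qc * lf F qc = 1 := lf_sq (by decide +kernel)
  have hcomm : qa * qb = qb * qa := by decide +kernel
  have hab : lf F (qa * qb) * lf F (qa * qb) = 1 := by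
    refine lf_sq ?_
    have h1 : qa * qa = 1 := by decide +kernel
    have h2 : qb * qb = 1 := by decide +kernel
    calc qa * qb * (qa * qb) = qa * (qb * qa) * qb := by simp only [mul_assoc]
      _ = qa * qa * (qb * qb) := by rw [← hcomm]; simp only [mul_assoc]
      _ = 1 := by rw [h1, h2, mul_one]
  have hcbc : (lf F qc * lf F qb * lf F qc) * (lf F qc * lf F qb * lf F qc) = 1 := by
    calc lf F qc * lf F qb * lf F qc * (lf F qc * lf F qb * lf F qc)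
        = lf F qc * lf F qb * (lf F qc * lf F qc) * lf F qb * lf F qc := by
          simp only [mul_assoc]
      _ = lf F qc * (lf F qb * lf F qb) * lf F qc := by rw [hcc, mul_one]; simp only [mul_assoc]
      _ = 1 := by rw [hbb, mul_one, hcc]
  set a := toSL (lf F qa) haa
  set b := toSL (lf F qb) hbb
  set ab := toSL (lf F (qa * qb)) hab
  set c := toSL (lf F qc) hcc
  set cbc := toSL (lf F qc * lf F qb * lf F qc) hcbc
  have raa : a * a = 1 := Subtype.ext haa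
  have rbb : b * b = 1 := Subtype.ext hbb
  have rcc : c * c = 1 := Subtype.ext hcc
  have rab : ab = a * b := Subtype.ext (lf_mul F qa qb)
  have rcbc : cbc = c * b * c := rfl
  have rabab : ab * ab = 1 := Subtype.ext hab
  have rcbcs : cbc * cbc = 1 := Subtype.ext hcbc
  have j1 : IsConj a b := isConj_of_SConj (SConj_lf (g := ga1) (g' := ha1)
    ⟨by decide +kernel, by decide +kernel⟩)
  have j2 : IsConj a ab := isConj_of_SConj (SConj_lf (g := ga2) (g' := ha2)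
    ⟨by decide +kernel, by decide +kernel⟩)
  have j3 : IsConj a c := isConj_of_SConj (SConj_lf (g := ga3) (g' := ha3)
    ⟨by decide +kernel, by decide +kernel⟩)
  have j4 : IsConj a cbc := by
    refine j1.trans ?_
    rw [isConj_iff]
    refine ⟨c, ?_⟩
    have : c⁻¹ = c := inv_eq_of_mul_eq_one_left rcc
    rw [this, rcbc]
  refine ⟨![c, cbc, c, a, ab], ?_, ?_, ?_, ?_⟩
  · intro k
    fin_cases k
    · exact rcc
    · exact rcbcs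
    · exact rcc
    · exact raa
    · exact rabab
  · have hall : ∀ k, IsConj a ((![c, cbc, c, a, ab] : Fin 5 → SpecialLinearGroup (Fin 6) F) k) := by
      intro k
      fin_cases k
      · exact j3
      · exact j4
      · exact j3
      · exact IsConj.refl a
      · exact j2
    intro k m
    exact (hall k).symm.trans (hall m)
  · set H := Subgroup.closure
      (Set.range (![c, cbc, c, a, ab] : Fin 5 → SpecialLinearGroup (Fin 6) F))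
    have mc : c ∈ H := Subgroup.subset_closure ⟨0, rfl⟩
    have ma : a ∈ H := Subgroup.subset_closure ⟨3, rfl⟩
    have mab : ab ∈ H := Subgroup.subset_closure ⟨4, rfl⟩
    have mb : b ∈ H := by
      have : b = a * ab := by rw [rab, ← mul_assoc, raa, one_mul]
      rw [this]; exact H.mul_mem ma mab
    exact top_of_full (full6 hF (mem_matOf.2 ⟨a, ma, rfl⟩) (mem_matOf.2 ⟨b, mb, rfl⟩)
      (mem_matOf.2 ⟨c, mc, rfl⟩))
  · have : (List.ofFn (![c, cbc, c, a, ab] : Fin 5 → SpecialLinearGroup (Fin 6) F)).prod =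
        c * (cbc * (c * (a * ab))) := by
      simp [List.ofFn_succ]
    rw [this, rcbc, rab]
    have e1 : c * (c * b * c * (c * (a * (a * b)))) = (c * c) * b * (c * c) * (a * a) * b := by
      simp only [mul_assoc]
    rw [e1, rcc, raa, one_mul, mul_one, mul_one, rbb]

theorem admissible_six_two (hF : ∀ a : F, a = 0 ∨ a = 1) :
    Admissible (ProjectiveSpecialLinearGroup (Fin 6) F) 5 := by
  obtain ⟨t, h1, h2, h3, h4⟩ := exists_tuple6 hF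
  exact admissible_PSL t h1 h2 h3 h4

end q2

end H47Inv
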